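import Pool.Agent.Lib.S3.PL.Defs
import Pool.Agent.Lib.S3.Elim

/-!
# Law: the law of rows and coins on `Om m n`

`law Abar bbar σ cc vv`: independent Gaussians, the rows with the centres of the frozen problem,
the coins with arbitrary centres `cc` and variances `vv`. `toMea`: the measure preserving bijection
to the coordinates of `Pay.mea`. `Am`, `bm`: the system `A x ≤ b`; `rho ω = -Gr (Am ω) (bm ω)`.
`elim_law`, `assemble_law`: elimination of the coins, the frozen statement from a bad set.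
-/

set_option autoImplicit false

open MeasureTheory ProbabilityTheory Set
open scoped ENNReal NNReal

namespace Pool.Agent.Lib.S3.PL

open Pool.Agent.Lib.SHirsch (noise Gr dm GPc)
open Pool.Agent.Lib.SHirsch.Pay

/-- Marginals of a product measure, coordinate by coordinate. -/
theorem pi_map_coord {ι κ : Type*} [Fintype ι] [Fintype κ] (μ : ι → Measure ℝ)
    [∀ i, IsProbabilityMeasure (μ i)] (ν : κ → Measure ℝ) [∀ k, SigmaFinite (ν k)]
    (f : κ → ι) (hf : Function.Injective f) (g : κ → ℝ → ℝ) (hg : ∀ k, Measurable (g k))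
    (h : ∀ k, (μ (f k)).map (g k) = ν k) :
    MeasurePreserving (fun (ω : ι → ℝ) (k : κ) => g k (ω (f k))) (Measure.pi μ)
      (Measure.pi ν) := by
  classical
  have hm : Measurable (fun (ω : ι → ℝ) (k : κ) => g k (ω (f k))) :=
    measurable_pi_lambda _ fun k => (hg k).comp (measurable_pi_apply _)
  refine ⟨hm, ?_⟩
  symm
  refine Measure.pi_eq fun s hs => ?_
  rw [Measure.map_apply hm (MeasurableSet.univ_pi hs)]
  have h1 : (fun (ω : ι → ℝ) (k : κ) => g k (ω (f k))) ⁻¹' (Set.univ.pi s) =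
      Set.univ.pi fun i => ⋂ (k : κ) (_ : f k = i), g k ⁻¹' s k := by
    ext ω
    simp only [Set.mem_preimage, Set.mem_univ_pi, Set.mem_iInter]
    constructor
    · rintro h i k rfl
      exact h k
    · intro h k
      exact h (f k) k rfl
  rw [h1, Measure.pi_pi]
  have h2 : ∀ i : ι, μ i (⋂ (k : κ) (_ : f k = i), g k ⁻¹' s k) =
      ∏ k ∈ Finset.univ.filter (fun k => f k = i), ν k (s k) := by
    intro i
    by_cases hi : ∃ k, f k = i
    · obtain ⟨k, rfl⟩ := hi
      have e1 : (⋂ (k' : κ) (_ : f k' = f k), g k' ⁻¹' s k') = g k ⁻¹' s k := by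
        ext x
        simp only [Set.mem_iInter]
        constructor
        · intro h
          exact h k rfl
        · intro h k' hk'
          have := hf hk'
          subst this
          exact h
      have e2 : Finset.univ.filter (fun k' => f k' = f k) = {k} := by
        ext k'
        simp only [Finset.mem_filter, Finset.mem_univ, true_and, Finset.mem_singleton]
        exact ⟨fun h => hf h, fun h => by rw [h]⟩
      rw [e1, e2, Finset.prod_singleton, ← h k, Measure.map_apply (hg k) (hs k)]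
    · have e1 : (⋂ (k' : κ) (_ : f k' = i), g k' ⁻¹' s k') = Set.univ := by
        ext x
        simp only [Set.mem_iInter, Set.mem_univ, iff_true]
        intro k' hk'
        exact absurd ⟨k', hk'⟩ hi
      have e2 : Finset.univ.filter (fun k' => f k' = i) = (∅ : Finset κ) := by
        ext k'
        simp only [Finset.mem_filter, Finset.mem_univ, true_and, Finset.notMem_empty, iff_false]
        exact fun h => hi ⟨k', h⟩
      rw [e1, e2, Finset.prod_empty, measure_univ]
  simp only [h2]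
  exact Finset.prod_fiberwise Finset.univ f (fun k => ν k (s k))

variable {m n : ℕ}

/-- The centres of the coordinates; `cc` on the coins. -/
noncomputable def ctr (Abar : Fin m → Fin n → ℝ) (bbar : Fin m → ℝ) (cc : Co m n → ℝ) :
    Co m n → ℝ
  | .row r j => (Fin.cons (bbar r) (fun j => -Abar r j) : Fin (n + 1) → ℝ) j
  | .eta r => cc (.eta r)
  | .nu s j => cc (.nu s j)
  | .om s r l => cc (.om s r l)
  | .gi i r => cc (.gi i r)
  | .hub r => cc (.hub r)

/-- The variances of the coordinates; `vv` on the coins. -/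
noncomputable def vr (σ : ℝ) (vv : Co m n → ℝ≥0) : Co m n → ℝ≥0
  | .row _ _ => (σ ^ 2).toNNReal
  | .eta r => vv (.eta r)
  | .nu s j => vv (.nu s j)
  | .om s r l => vv (.om s r l)
  | .gi i r => vv (.gi i r)
  | .hub r => vv (.hub r)

/-- The law of rows and coins. -/
noncomputable def law (Abar : Fin m → Fin n → ℝ) (bbar : Fin m → ℝ) (σ : ℝ)
    (cc : Co m n → ℝ) (vv : Co m n → ℝ≥0) : Measure (Om m n) :=
  Measure.pi fun c => gaussianReal (ctr Abar bbar cc c) (vr σ vv c)

instance (Abar : Fin m → Fin n → ℝ) (bbar : Fin m → ℝ) (σ : ℝ)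
    (cc : Co m n → ℝ) (vv : Co m n → ℝ≥0) :
    IsProbabilityMeasure (law Abar bbar σ cc vv) := by
  unfold law; infer_instance

/-- The coins. -/
abbrev Kc (m n : ℕ) := {c : Co m n // ∀ r j, c ≠ .row r j}

/-- The coordinates of `Pay.mea`. -/
def toMea (ω : Om m n) : (Fin m × Fin (n + 1)) ⊕ Kc m n → ℝ
  | .inl p => -ω (.row p.1 p.2)
  | .inr k => ω k.1

open Classical in
/-- The inverse of `toMea`. -/
noncomputable def ofMea (w : (Fin m × Fin (n + 1)) ⊕ Kc m n → ℝ) : Om m n := fun c =>
  if h : ∀ r j, c ≠ .row r j then w (.inr ⟨c, h⟩) else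
    match c with
    | .row r j => -w (.inl (r, j))
    | _ => 0

theorem ofMea_row (w : (Fin m × Fin (n + 1)) ⊕ Kc m n → ℝ) (r : Fin m) (j : Fin (n + 1)) :
    ofMea w (.row r j) = -w (.inl (r, j)) := by
  unfold ofMea
  rw [dif_neg]
  intro h
  exact h r j rfl

theorem ofMea_coin (w : (Fin m × Fin (n + 1)) ⊕ Kc m n → ℝ) (k : Kc m n) :
    ofMea w k.1 = w (.inr k) := by
  unfold ofMea
  rw [dif_pos k.2]

theorem ofMea_toMea (ω : Om m n) : ofMea (toMea ω) = ω := by
  funext c
  by_cases h : ∀ r j, c ≠ .row r j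
  · exact ofMea_coin (toMea ω) ⟨c, h⟩
  · push Not at h
    obtain ⟨r, j, rfl⟩ := h
    rw [ofMea_row]
    exact neg_neg _

theorem toMea_ofMea (w : (Fin m × Fin (n + 1)) ⊕ Kc m n → ℝ) : toMea (ofMea w) = w := by
  funext i
  cases i with
  | inl p =>
    change -ofMea w (.row p.1 p.2) = _
    rw [ofMea_row, neg_neg]
  | inr k => exact ofMea_coin w k

theorem measurable_toMea : Measurable (toMea : Om m n → _) := by
  refine measurable_pi_lambda _ fun i => ?_
  cases i with
  | inl p => exact (measurable_pi_apply _).neg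
  | inr k => exact measurable_pi_apply _

theorem measurable_ofMea : Measurable (ofMea : ((Fin m × Fin (n + 1)) ⊕ Kc m n → ℝ) → _) := by
  refine measurable_pi_lambda _ fun c => ?_
  by_cases h : ∀ r j, c ≠ .row r j
  · have : (fun w : (Fin m × Fin (n + 1)) ⊕ Kc m n → ℝ => ofMea w c) =
        fun w => w (.inr ⟨c, h⟩) := by
      funext w
      exact ofMea_coin w ⟨c, h⟩
    rw [this]
    exact measurable_pi_apply _
  · push Not at h
    obtain ⟨r, j, rfl⟩ := h
    have : (fun w : (Fin m × Fin (n + 1)) ⊕ Kc m n → ℝ => ofMea w (.row r j)) =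
        fun w => -w (.inl (r, j)) := by
      funext w
      exact ofMea_row w r j
    rw [this]
    exact (measurable_pi_apply _).neg

/-- `toMea` preserves the laws. -/
theorem toMea_law (Abar : Fin m → Fin n → ℝ) (bbar : Fin m → ℝ) (σ : ℝ)
    (cc : Co m n → ℝ) (vv : Co m n → ℝ≥0) :
    MeasurePreserving toMea (law Abar bbar σ cc vv)
      (mea Abar bbar σ (fun k : Kc m n => cc k.1) (fun k : Kc m n => vv k.1)) := by
  have key := pi_map_coord (fun c => gaussianReal (ctr Abar bbar cc c) (vr σ vv c))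
    (fun i => gaussianReal (cen Abar bbar (fun k : Kc m n => cc k.1) i)
      (var (m := m) (n := n) σ (fun k : Kc m n => vv k.1) i))
    (Sum.elim (fun p : Fin m × Fin (n + 1) => (.row p.1 p.2 : Co m n)) (fun k => k.1)) (by
      intro a b hab
      cases a with
      | inl p =>
        cases b with
        | inl q =>
          obtain ⟨p1, p2⟩ := p
          obtain ⟨q1, q2⟩ := q
          simp only [Sum.elim_inl, Co.row.injEq] at hab
          rw [hab.1, hab.2]
        | inr k => exact absurd hab.symm (k.2 _ _)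
      | inr k =>
        cases b with
        | inl q => exact absurd hab (k.2 _ _)
        | inr l =>
          congr 1
          exact Subtype.ext hab)
    (Sum.elim (fun _ x => -x) (fun _ x => x)) (by
      intro i
      cases i with
      | inl p => exact measurable_neg
      | inr k => exact measurable_id) (by
      intro i
      cases i with
      | inl p =>
        obtain ⟨r, j⟩ := p
        change (gaussianReal ((Fin.cons (bbar r) (fun j => -Abar r j) : Fin (n + 1) → ℝ) j)
          (σ ^ 2).toNNReal).map (fun x => -x) =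
          gaussianReal ((Fin.cons (-(bbar r)) (Abar r) : Fin (n + 1) → ℝ) j) (σ ^ 2).toNNReal
        rw [gaussianReal_map_neg]
        congr 1
        refine Fin.cases ?_ (fun j => ?_) j
        · rfl
        · change -(-Abar r j) = Abar r j
          ring
      | inr k =>
        change (gaussianReal (ctr Abar bbar cc k.1) (vr σ vv k.1)).map (fun x => x) =
          gaussianReal (cc k.1) (vv k.1)
        have hid : (fun x : ℝ => x) = id := rfl
        rw [hid, Measure.map_id]
        obtain ⟨c, hc⟩ := k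
        cases c with
        | row r j => exact absurd rfl (hc r j)
        | eta r => rfl
        | nu s j => rfl
        | om s r l => rfl
        | gi i r => rfl
        | hub r => rfl)
  have h2 : (fun (ω : Om m n) (k : (Fin m × Fin (n + 1)) ⊕ Kc m n) =>
      (Sum.elim (fun _ x => -x) (fun _ x => x) : (Fin m × Fin (n + 1)) ⊕ Kc m n → ℝ → ℝ) k
        (ω ((Sum.elim (fun p : Fin m × Fin (n + 1) => (.row p.1 p.2 : Co m n))
          (fun k => k.1)) k))) = toMea := by
    funext ω i
    cases i <;> rfl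
  rw [h2] at key
  exact key

/-- The matrix of the system. -/
def Am (ω : Om m n) : Fin m → Fin n → ℝ := fun i j => -ω (.row i j.succ)

/-- The right hand side of the system. -/
def bm (ω : Om m n) : Fin m → ℝ := fun i => ω (.row i 0)

theorem sysA_toMea (ω : Om m n) : sysA (toMea ω) = Am ω := rfl

theorem sysB_toMea (ω : Om m n) : sysB (toMea ω) = bm ω := by
  funext i
  change -(-ω (.row i 0)) = ω (.row i 0)
  ring

/-- The rows are the negatives of the rows `Gr`. -/
theorem rho_eq_neg_Gr (ω : Om m n) (r : Row m) : rho ω r = -Gr (Am ω) (bm ω) r := by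
  cases r with
  | none =>
    funext j
    refine Fin.cases ?_ (fun j => ?_) j
    · change (Pi.single 0 1 : Fin (n + 1) → ℝ) 0 =
        -((Fin.cons (-1) 0 : Fin (n + 1) → ℝ) 0)
      rw [Pi.single_eq_same, Fin.cons_zero, neg_neg]
    · change (Pi.single 0 1 : Fin (n + 1) → ℝ) j.succ =
        -((Fin.cons (-1) 0 : Fin (n + 1) → ℝ) j.succ)
      rw [Pi.single_eq_of_ne (Fin.succ_ne_zero j), Fin.cons_succ]
      change (0 : ℝ) = -0
      ring
  | some r =>
    funext j
    refine Fin.cases ?_ (fun j => ?_) j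
    · change ω (.row r 0) = -((Fin.cons (-(bm ω r)) (Am ω r) : Fin (n + 1) → ℝ) 0)
      rw [Fin.cons_zero, neg_neg]
      rfl
    · change ω (.row r j.succ) = -((Fin.cons (-(bm ω r)) (Am ω r) : Fin (n + 1) → ℝ) j.succ)
      rw [Fin.cons_succ]
      change ω (.row r j.succ) = -(-ω (.row r j.succ))
      ring

theorem rho_dot (ω : Om m n) (r : Row m) (y : Fin (n + 1) → ℝ) :
    rho ω r ⬝ᵥ y = -(Gr (Am ω) (bm ω) r ⬝ᵥ y) := by
  rw [rho_eq_neg_Gr, neg_dotProduct]

/-- The feasible coordinates. -/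
def feaO : Set (Om m n) := {ω | ∃ x : Fin n → ℝ, ∀ i, Am ω i ⬝ᵥ x ≤ bm ω i}

theorem feaO_eq : (feaO : Set (Om m n)) = toMea ⁻¹' fea (m := m) (n := n) (K := Kc m n) := by
  ext ω
  simp only [feaO, fea, Set.mem_preimage, Set.mem_ofPred_eq, sysA_toMea, sysB_toMea]

theorem measurableSet_feaO : MeasurableSet (feaO : Set (Om m n)) := by
  have h := measurableSet_fea (Ω := Om m n) (ι := Fin m) (fun ω i => Am ω i) (fun ω i => bm ω i)
    (fun i => by unfold Am; fun_prop) (fun i => by unfold bm; fun_prop) ∅ univ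
  unfold feaO
  simpa using h

/-- The map from `Om m n` to the noise of the problem. -/
def toNoise (Abar : Fin m → Fin n → ℝ) (bbar : Fin m → ℝ) (ω : Om m n) :
    (Fin m → Fin n → ℝ) × (Fin m → ℝ) :=
  ((fun i j => Am ω i j - Abar i j), (fun i => bm ω i - bbar i))

theorem toNoise_law (Abar : Fin m → Fin n → ℝ) (bbar : Fin m → ℝ) (σ : ℝ)
    (cc : Co m n → ℝ) (vv : Co m n → ℝ≥0) :
    MeasurePreserving (toNoise Abar bbar) (law Abar bbar σ cc vv) (noise m n σ) := by
  have h := (rows_back Abar bbar σ (fun k : Kc m n => cc k.1) (fun k : Kc m n => vv k.1)).comp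
    (toMea_law Abar bbar σ cc vv)
  have h2 : (fun ω : (Fin m × Fin (n + 1)) ⊕ Kc m n → ℝ =>
        ((fun i j => sysA ω i j - Abar i j : Fin m → Fin n → ℝ),
          (fun i => sysB ω i - bbar i : Fin m → ℝ))) ∘ toMea = toNoise Abar bbar := by
    funext ω
    simp only [Function.comp_apply, sysA_toMea, sysB_toMea]
    rfl
  rw [h2] at h
  exact h

theorem add_toNoise_fst (Abar : Fin m → Fin n → ℝ) (bbar : Fin m → ℝ) (ω : Om m n) :
    (fun i j => Abar i j + (toNoise Abar bbar ω).1 i j) = Am ω := by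
  funext i j
  change Abar i j + (Am ω i j - Abar i j) = Am ω i j
  ring

theorem add_toNoise_snd (Abar : Fin m → Fin n → ℝ) (bbar : Fin m → ℝ) (ω : Om m n) :
    (fun i => bbar i + (toNoise Abar bbar ω).2 i) = bm ω := by
  funext i
  change bbar i + (bm ω i - bbar i) = bm ω i
  ring

theorem law_feaO (Abar : Fin m → Fin n → ℝ) (bbar : Fin m → ℝ) (σ : ℝ)
    (cc : Co m n → ℝ) (vv : Co m n → ℝ≥0) :
    law Abar bbar σ cc vv (feaO : Set (Om m n)) = noise m n σ (feas Abar bbar) := by
  rw [← (toNoise_law Abar bbar σ cc vv).measure_preimage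
    (feas_measurable Abar bbar).nullMeasurableSet]
  congr 1
  ext ω
  simp only [feaO, feas, Set.mem_ofPred_eq, Set.mem_preimage]
  have e2 : ∀ i, bbar i + (toNoise Abar bbar ω).2 i = bm ω i :=
    fun i => congrFun (add_toNoise_snd Abar bbar ω) i
  have e1 : ∀ i, (fun j => Abar i j + (toNoise Abar bbar ω).1 i j) = Am ω i :=
    fun i => congrFun (add_toNoise_fst Abar bbar ω) i
  simp only [e1, e2]

/-- Events of the rows have the same probability. -/
theorem law_le_noise (Abar : Fin m → Fin n → ℝ) (bbar : Fin m → ℝ) (σ : ℝ)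
    (cc : Co m n → ℝ) (vv : Co m n → ℝ≥0) (E : Set ((Fin m → Fin n → ℝ) × (Fin m → ℝ))) :
    law Abar bbar σ cc vv (toNoise Abar bbar ⁻¹' E) ≤ noise m n σ E := by
  have h := Measure.le_map_apply (μ := law Abar bbar σ cc vv)
    (toNoise_law Abar bbar σ cc vv).measurable.aemeasurable E
  rwa [(toNoise_law Abar bbar σ cc vv).map_eq] at h

/-- Almost sure statements about the rows. -/
theorem ae_law_of_noise (Abar : Fin m → Fin n → ℝ) (bbar : Fin m → ℝ) (σ : ℝ)
    (cc : Co m n → ℝ) (vv : Co m n → ℝ≥0) {P : (Fin m → Fin n → ℝ) × (Fin m → ℝ) → Prop}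
    (h : ∀ᵐ ω ∂(noise m n σ), P ω) :
    ∀ᵐ ω ∂(law Abar bbar σ cc vv), P (toNoise Abar bbar ω) :=
  (toNoise_law Abar bbar σ cc vv).quasiMeasurePreserving.ae h

/-- Almost sure general position of the rows of the cone. -/
theorem gpc_law (Abar : Fin m → Fin n → ℝ) (bbar : Fin m → ℝ) {σ : ℝ} (hσ : 0 < σ)
    (cc : Co m n → ℝ) (vv : Co m n → ℝ≥0) :
    ∀ᵐ ω ∂(law Abar bbar σ cc vv), GPc (Gr (Am ω) (bm ω)) := by
  have h := ae_law_of_noise Abar bbar σ cc vv (gpc_noise Abar bbar hσ)
  filter_upwards [h] with ω hω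
  rwa [add_toNoise_fst, add_toNoise_snd] at hω

/-- Elimination of the coins. -/
theorem elim_law (Abar : Fin m → Fin n → ℝ) (bbar : Fin m → ℝ) (σ : ℝ)
    (cc : Co m n → ℝ) (vv : Co m n → ℝ≥0) (Bad : Set (Om m n))
    (P : (Fin m → Fin n → ℝ) × (Fin m → ℝ) → Prop)
    (hP : ∀ᵐ ω ∂(law Abar bbar σ cc vv), ω ∉ Bad → P (toNoise Abar bbar ω)) :
    ∃ B : Set ((Fin m → Fin n → ℝ) × (Fin m → ℝ)), MeasurableSet B ∧
      noise m n σ B ≤ law Abar bbar σ cc vv Bad ∧ ∀ᵐ ω ∂(noise m n σ), ω ∉ B → P ω := by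
  set L := law Abar bbar σ cc vv with hL
  set M := mea Abar bbar σ (fun k : Kc m n => cc k.1) (fun k : Kc m n => vv k.1) with hM
  have hto := toMea_law Abar bbar σ cc vv
  have hof : MeasurePreserving ofMea M L := by
    refine ⟨measurable_ofMea, ?_⟩
    rw [hM, ← hto.map_eq, Measure.map_map measurable_ofMea measurable_toMea]
    have : (ofMea ∘ toMea : Om m n → Om m n) = id := funext ofMea_toMea
    rw [this, Measure.map_id]
  obtain ⟨B, h1, h2, h3⟩ := elim_mea Abar bbar σ (fun k : Kc m n => cc k.1)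
    (fun k : Kc m n => vv k.1) (ofMea ⁻¹' Bad) P (by
      have h4 := hof.quasiMeasurePreserving.ae hP
      filter_upwards [h4] with w hw hnot
      have h5 := hw hnot
      have h6 : toNoise Abar bbar (ofMea w) =
          ((fun i j => sysA w i j - Abar i j : Fin m → Fin n → ℝ),
          (fun i => sysB w i - bbar i : Fin m → ℝ)) := by
        have e1 : Am (ofMea w) = sysA w := by rw [← sysA_toMea, toMea_ofMea]
        have e2 : bm (ofMea w) = sysB w := by rw [← sysB_toMea, toMea_ofMea]
        unfold toNoise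
        rw [e1, e2]
      rwa [h6] at h5)
  refine ⟨B, h1, h2.trans ?_, h3⟩
  have h7 := Measure.le_map_apply (μ := M) hof.measurable.aemeasurable Bad
  rwa [hof.map_eq] at h7

/-- The frozen statement from a bad set of rows and coins. -/
theorem assemble_law (C : ℕ)
    (H : ∀ m n : ℕ, 1 ≤ n → n ≤ m → ∀ σ : ℝ, 0 < σ →
      ∀ (Abar : Fin m → Fin n → ℝ) (bbar : Fin m → ℝ),
      ∑ i, ∑ j, Abar i j ^ 2 ≤ 1 → ∑ i, bbar i ^ 2 ≤ 1 →
      ∃ (cc : Co m n → ℝ) (vv : Co m n → ℝ≥0) (Bad : Set (Om m n)),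
        (∀ᵐ ω ∂(law Abar bbar σ cc vv), ω ∈ (feaO : Set (Om m n)) → ω ∉ Bad →
          dm (SHirsch.Pol (Am ω) (bm ω) ∅ Finset.univ) ≤ ((MM m n σ ^ C : ℕ) : ℕ∞)) ∧
        ((MM m n σ : ℕ) : ℝ≥0∞) ^ (Nat.log 2 n + 5) * law Abar bbar σ cc vv Bad ≤
          ((MM m n σ : ℕ) : ℝ≥0∞) ^ C * law Abar bbar σ cc vv (feaO : Set (Om m n))) :
    ∃ C : ℝ, ∃ k : ℕ, ∀ m n : ℕ, ∀ σ : ℝ, 0 < σ →
    ∀ Abar : Fin m → Fin n → ℝ, ∀ bbar : Fin m → ℝ,
      ∑ i, ∑ j, Abar i j ^ 2 ≤ 1 → ∑ i, bbar i ^ 2 ≤ 1 →
      ∫⁻ ω : (Fin m → Fin n → ℝ) × (Fin m → ℝ),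
          ENat.toENNReal
            (((SimpleGraph.fromRel (fun u v : Fin n → ℝ =>
                IsExtreme ℝ
                  {x : Fin n → ℝ | ∀ i, ∑ j, (Abar i j + ω.1 i j) * x j ≤ bbar i + ω.2 i}
                  (segment ℝ u v))).induce
              (Set.extremePoints ℝ
                {x : Fin n → ℝ | ∀ i, ∑ j, (Abar i j + ω.1 i j) * x j ≤ bbar i + ω.2 i})).ediam)
        ∂((Measure.pi fun _ : Fin m => Measure.pi fun _ : Fin n =>
              ProbabilityTheory.gaussianReal 0 (σ ^ 2).toNNReal).prod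
            (Measure.pi fun _ : Fin m => ProbabilityTheory.gaussianReal 0 (σ ^ 2).toNNReal))
      ≤ ENNReal.ofReal (C * (1 + (m : ℝ) + (n : ℝ) + 1 / σ) ^ k) *
        ((Measure.pi fun _ : Fin m => Measure.pi fun _ : Fin n =>
              ProbabilityTheory.gaussianReal 0 (σ ^ 2).toNNReal).prod
            (Measure.pi fun _ : Fin m => ProbabilityTheory.gaussianReal 0 (σ ^ 2).toNNReal))
          {ω : (Fin m → Fin n → ℝ) × (Fin m → ℝ) |
            ∃ x : Fin n → ℝ, ∀ i, ∑ j, (Abar i j + ω.1 i j) * x j ≤ bbar i + ω.2 i} := by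
  apply assemble C
  intro m n hn hmn σ hσ Abar bbar hA hb
  obtain ⟨cc, vv, Bad, h1, h2⟩ := H m n hn hmn σ hσ Abar bbar hA hb
  obtain ⟨B, -, hB, hBP⟩ := elim_law Abar bbar σ cc vv Bad
    (fun ω => ω ∈ feas Abar bbar →
      dm (SHirsch.Pol (fun i j => Abar i j + ω.1 i j) (fun i => bbar i + ω.2 i) ∅ Finset.univ) ≤
        ((MM m n σ ^ C : ℕ) : ℕ∞)) (by
      filter_upwards [h1] with ω hω hnot hf
      have hf' : ω ∈ (feaO : Set (Om m n)) := by
        simp only [feaO, feas, Set.mem_ofPred_eq] at hf ⊢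
        have e2 : ∀ i, bbar i + (toNoise Abar bbar ω).2 i = bm ω i :=
          fun i => congrFun (add_toNoise_snd Abar bbar ω) i
        have e1 : ∀ i, (fun j => Abar i j + (toNoise Abar bbar ω).1 i j) = Am ω i :=
          fun i => congrFun (add_toNoise_fst Abar bbar ω) i
        simpa only [e1, e2] using hf
      rw [add_toNoise_fst, add_toNoise_snd]
      exact hω hf' hnot)
  refine ⟨B, ?_, ?_⟩
  · filter_upwards [hBP] with ω hω hf hnot
    exact hω hnot hf
  · refine (mul_le_mul_right hB _).trans (h2.trans (le_of_eq ?_))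
    rw [law_feaO]

end Pool.Agent.Lib.S3.PL
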