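import Pool.Agent.Lib.S3.PL.Opt

/-!
# Strict optimal bases: invariance and confinement

* `Opt.congr`: adding multiples of a row `i ∈ R` to the other rows, and multiples of `N` and of rows
  of `R` to the functional, changes neither the points nor the multipliers outside `R`.
* `Opt.congr_del`: the rows of `D` do not matter.
* `conf_heavy`, `conf_light`: confinement of the parameters.
-/

set_option autoImplicit false

open MeasureTheory Matrix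

namespace Pool.Agent.Lib.S3.PL

variable {κ : Type} {n : ℕ}

/-- `(N, ρ', Γ')` is obtained from `(N, ρ, Γ)` by adding multiples of the row `i ∈ R` to the other
rows, and multiples of `N` and of rows of `R` to `Γ`. -/
structure Shr (N : Fin (n + 1) → ℝ) (ρ ρ' : κ → Fin (n + 1) → ℝ) (Γ Γ' : Fin (n + 1) → ℝ)
    (R : Finset κ) : Prop where
  row : ∃ i ∈ R, ρ' i = ρ i ∧ ∀ r, ∃ t : ℝ, ρ' r = ρ r + t • ρ i
  fn : ∃ (a : ℝ) (b : κ → ℝ), Γ' = Γ + a • N + ∑ r ∈ R, b r • ρ r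

/-- The same with unchanged rows. -/
structure Cns (N : Fin (n + 1) → ℝ) (ρ : κ → Fin (n + 1) → ℝ) (Γ Γ' : Fin (n + 1) → ℝ)
    (R : Finset κ) : Prop where
  fn : ∃ (a : ℝ) (b : κ → ℝ), Γ' = Γ + a • N + ∑ r ∈ R, b r • ρ r

section

variable {N : Fin (n + 1) → ℝ} {ρ ρ' : κ → Fin (n + 1) → ℝ} {Γ Γ' : Fin (n + 1) → ℝ}
  {R D : Finset κ} {e : Fin n → κ}

/-- Row operations with a row of the tuple do not change the determinant. -/
theorem det_shear (i : κ) (hi : ∃ k, e k = i) (hii : ρ' i = ρ i)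
    (hr : ∀ r, ∃ t : ℝ, ρ' r = ρ r + t • ρ i) :
    (amat N ρ' e).det = (amat N ρ e).det := by
  classical
  obtain ⟨k0, hk0⟩ := hi
  choose t ht using hr
  refine Matrix.det_eq_of_forall_row_eq_smul_add_const
    (Fin.cons 0 (fun k => if e k = i then 0 else t (e k))) k0.succ ?_ ?_
  · rw [Fin.cons_succ, hk0, if_pos rfl]
  · intro a b
    refine Fin.cases ?_ (fun k => ?_) a
    · simp [amat]
    · rw [Fin.cons_succ]
      change ρ' (e k) b = ρ (e k) b + _ * ρ (e k0) b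
      by_cases hk : e k = i
      · rw [if_pos hk, hk, hii, zero_mul, add_zero]
      · rw [if_neg hk, ht (e k), hk0]
        rfl

theorem Shr.det_eq (h : Shr N ρ ρ' Γ Γ' R) (hsub : ∀ r ∈ R, ∃ k, e k = r) :
    (amat N ρ' e).det = (amat N ρ e).det := by
  obtain ⟨i, hi, hii, hr⟩ := h.row
  exact det_shear i (hsub i hi) hii hr

theorem Shr.pt_eq (h : Shr N ρ ρ' Γ Γ' R) (hd : (amat N ρ e).det ≠ 0)
    (hsub : ∀ r ∈ R, ∃ k, e k = r) : pt N ρ' e = pt N ρ e := by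
  obtain ⟨i, hi, hii, hr⟩ := h.row
  have hd' : (amat N ρ' e).det ≠ 0 := by rw [h.det_eq hsub]; exact hd
  symm
  apply pt_unique hd' (N_pt hd)
  intro k
  obtain ⟨t, ht⟩ := hr (e k)
  obtain ⟨k0, hk0⟩ := hsub i hi
  rw [ht, add_dotProduct, smul_dotProduct, row_pt hd, ← hk0, row_pt hd, smul_zero, add_zero]

theorem Shr.row_pt_eq (h : Shr N ρ ρ' Γ Γ' R) (hd : (amat N ρ e).det ≠ 0)
    (hsub : ∀ r ∈ R, ∃ k, e k = r) (r : κ) : ρ' r ⬝ᵥ pt N ρ' e = ρ r ⬝ᵥ pt N ρ e := by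
  rw [h.pt_eq hd hsub]
  obtain ⟨i, hi, hii, hr⟩ := h.row
  obtain ⟨t, ht⟩ := hr r
  obtain ⟨k0, hk0⟩ := hsub i hi
  rw [ht, add_dotProduct, smul_dotProduct, ← hk0, row_pt hd, smul_zero, add_zero]

theorem Shr.dv_eq (h : Shr N ρ ρ' Γ Γ' R) (hd : (amat N ρ e).det ≠ 0)
    (hsub : ∀ r ∈ R, ∃ k, e k = r) {k : Fin n} (hk : e k ∉ R) :
    dv N ρ' e k = dv N ρ e k := by
  obtain ⟨i, hi, hii, hr⟩ := h.row
  have hd' : (amat N ρ' e).det ≠ 0 := by rw [h.det_eq hsub]; exact hd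
  obtain ⟨k0, hk0⟩ := hsub i hi
  have hne : k0 ≠ k := by
    rintro rfl
    exact hk (hk0 ▸ hi)
  have hi0 : ρ i ⬝ᵥ dv N ρ e k = 0 := by
    rw [← hk0]
    exact row_dv_ne hd hne
  symm
  apply dv_unique hd' (N_dv hd k)
  · obtain ⟨t, ht⟩ := hr (e k)
    rw [ht, add_dotProduct, smul_dotProduct, row_dv_self hd, hi0, smul_zero, add_zero]
  · intro l hl
    obtain ⟨t, ht⟩ := hr (e l)
    rw [ht, add_dotProduct, smul_dotProduct, row_dv_ne hd hl, hi0, smul_zero, add_zero]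

theorem Shr.lam_eq (h : Shr N ρ ρ' Γ Γ' R) (hd : (amat N ρ e).det ≠ 0)
    (hsub : ∀ r ∈ R, ∃ k, e k = r) {k : Fin n} (hk : e k ∉ R) :
    lam N ρ' Γ' e k = lam N ρ Γ e k := by
  unfold lam
  rw [h.dv_eq hd hsub hk]
  obtain ⟨a, b, hΓ⟩ := h.fn
  rw [hΓ, add_dotProduct, add_dotProduct, smul_dotProduct, N_dv hd, smul_zero, add_zero,
    sum_dotProduct, Finset.sum_eq_zero, add_zero]
  intro r hr
  obtain ⟨l, hl⟩ := hsub r hr
  have hlk : l ≠ k := by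
    rintro rfl
    exact hk (hl ▸ hr)
  rw [smul_dotProduct, ← hl, row_dv_ne hd hlk, smul_zero]

theorem Shr.opt (h : Shr N ρ ρ' Γ Γ' R) (ho : Opt N ρ Γ R D e) : Opt N ρ' Γ' R D e where
  det := by rw [h.det_eq ho.sub]; exact ho.det
  sub := ho.sub
  avoid := ho.avoid
  pos := by
    intro r hr hk
    rw [h.row_pt_eq ho.det ho.sub]
    exact ho.pos r hr hk
  mul := by
    intro k hk
    rw [h.lam_eq ho.det ho.sub hk]
    exact ho.mul k hk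

theorem Cns.lam_eq (h : Cns N ρ Γ Γ' R) (hd : (amat N ρ e).det ≠ 0)
    (hsub : ∀ r ∈ R, ∃ k, e k = r) {k : Fin n} (hk : e k ∉ R) :
    lam N ρ Γ' e k = lam N ρ Γ e k := by
  unfold lam
  obtain ⟨a, b, hΓ⟩ := h.fn
  rw [hΓ, add_dotProduct, add_dotProduct, smul_dotProduct, N_dv hd, smul_zero, add_zero,
    sum_dotProduct, Finset.sum_eq_zero, add_zero]
  intro r hr
  obtain ⟨l, hl⟩ := hsub r hr
  have hlk : l ≠ k := by
    rintro rfl
    exact hk (hl ▸ hr)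
  rw [smul_dotProduct, ← hl, row_dv_ne hd hlk, smul_zero]

theorem Cns.opt (h : Cns N ρ Γ Γ' R) (ho : Opt N ρ Γ R D e) : Opt N ρ Γ' R D e where
  det := ho.det
  sub := ho.sub
  avoid := ho.avoid
  pos := ho.pos
  mul := by
    intro k hk
    rw [h.lam_eq ho.det ho.sub hk]
    exact ho.mul k hk

/-- The rows of `D` do not matter. -/
theorem amat_congr (hρ : ∀ r, r ∉ D → ρ' r = ρ r) (ha : ∀ k, e k ∉ D) :
    amat N ρ' e = amat N ρ e := by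
  unfold amat
  congr 2
  funext k
  rw [hρ _ (ha k)]

theorem Opt.congr_del (hρ : ∀ r, r ∉ D → ρ' r = ρ r) (ho : Opt N ρ Γ R D e) :
    Opt N ρ' Γ R D e := by
  have h1 : amat N ρ' e = amat N ρ e := amat_congr hρ ho.avoid
  have h2 : pt N ρ' e = pt N ρ e := by unfold pt; rw [h1]
  have h3 : ∀ k, lam N ρ' Γ e k = lam N ρ Γ e k := by
    intro k; unfold lam dv; rw [h1]
  exact ⟨by rw [h1]; exact ho.det, ho.sub, ho.avoid,
    fun r hr hk => by rw [h2, hρ r hr]; exact ho.pos r hr hk,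
    fun k hk => by rw [h3]; exact ho.mul k hk⟩

/-- Confinement for near tight rows. -/
theorem conf_heavy {ρ₁ ρ₂ : κ → Fin (n + 1) → ℝ} {e₁ e₂ : Fin n → κ} {i : κ} (hi : i ∉ D)
    (h1 : ∀ r, r ∉ D → ρ₁ r = ρ r) (h2 : ∀ r, r ∉ D → ρ₂ r = ρ r)
    (o1 : Opt N ρ₁ Γ R D e₁) (o2 : Opt N ρ₂ Γ R D e₂) {ε : ℝ} {r : κ} (hr : r ∈ D)
    {t₁ t₂ : ℝ} (ht1 : ρ₁ r = ρ r + t₁ • ρ i) (ht2 : ρ₂ r = ρ r + t₂ • ρ i)
    (b1 : 0 < ρ₁ r ⬝ᵥ pt N ρ₁ e₁) (b1' : ρ₁ r ⬝ᵥ pt N ρ₁ e₁ ≤ ε * (ρ₁ i ⬝ᵥ pt N ρ₁ e₁))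
    (b2 : 0 < ρ₂ r ⬝ᵥ pt N ρ₂ e₂) (b2' : ρ₂ r ⬝ᵥ pt N ρ₂ e₂ ≤ ε * (ρ₂ i ⬝ᵥ pt N ρ₂ e₂)) :
    |t₁ - t₂| ≤ ε := by
  have o1' : Opt N ρ Γ R D e₁ := o1.congr_del (fun r hr => (h1 r hr).symm)
  have o2' : Opt N ρ Γ R D e₂ := o2.congr_del (fun r hr => (h2 r hr).symm)
  have p1 : pt N ρ₁ e₁ = pt N ρ e₁ := by
    unfold pt; rw [amat_congr h1 o1.avoid]
  have p2 : pt N ρ₂ e₂ = pt N ρ e₁ := by
    have : pt N ρ₂ e₂ = pt N ρ e₂ := by unfold pt; rw [amat_congr h2 o2.avoid]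
    rw [this, o1'.pt_eq o2']
  rw [p1, h1 i hi] at b1'
  rw [p2, h2 i hi] at b2'
  rw [p1] at b1
  rw [p2] at b2
  rw [ht1, add_dotProduct, smul_dotProduct, smul_eq_mul] at b1 b1'
  rw [ht2, add_dotProduct, smul_dotProduct, smul_eq_mul] at b2 b2'
  set X := pt N ρ e₁
  have hpos : 0 < ρ i ⬝ᵥ X := by
    rcases (o1'.nonneg hi).eq_or_lt with h0 | h0
    · exfalso
      change 0 = ρ i ⬝ᵥ X at h0
      rw [← h0] at b1 b1'
      linarith
    · exact h0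
  rw [abs_le]
  constructor
  · by_contra hcon
    push Not at hcon
    nlinarith
  · by_contra hcon
    push Not at hcon
    nlinarith

variable [DecidableEq κ]

/-- A strict optimum stays one when tight rows are pinned. -/
theorem Opt.pin {T : Finset κ} (ho : Opt N ρ Γ R ∅ e) (hT : ∀ r ∈ T, ∃ k, e k = r) :
    Opt N ρ Γ (R ∪ T) ∅ e where
  det := ho.det
  sub := by
    intro r hr
    rcases Finset.mem_union.1 hr with h | h
    · exact ho.sub r h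
    · exact hT r h
  avoid := ho.avoid
  pos := ho.pos
  mul := by
    intro k hk
    exact ho.mul k (fun h => hk (Finset.mem_union_left _ h))

/-- Confinement for small multipliers: `Γ₁ - Γ₂` is a combination of the rows of `T`, with
coefficients `t`, modulo `N` and the rows of `R`. -/
theorem conf_light {T : Finset κ} {Γ₁ Γ₂ : Fin (n + 1) → ℝ} {e₁ e₂ : Fin n → κ}
    (hRT : Disjoint T R) (o1 : Opt N ρ Γ₁ R ∅ e₁) (o2 : Opt N ρ Γ₂ R ∅ e₂)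
    (hT1 : ∀ r ∈ T, ∃ k, e₁ k = r) (hT2 : ∀ r ∈ T, ∃ k, e₂ k = r) {t : κ → ℝ}
    (hΓ : ∃ (a : ℝ) (b : κ → ℝ),
      Γ₁ = Γ₂ + ∑ r ∈ T, t r • ρ r + a • N + ∑ r ∈ R, b r • ρ r)
    {ε : ℝ} {r : κ} (hr : r ∈ T) {k₁ k₂ : Fin n} (hk1 : e₁ k₁ = r) (hk2 : e₂ k₂ = r)
    (b1 : lam N ρ Γ₁ e₁ k₁ ≤ ε) (b2 : lam N ρ Γ₂ e₂ k₂ ≤ ε) : |t r| ≤ ε := by
  obtain ⟨a, b, hΓ⟩ := hΓ
  have o1' : Opt N ρ Γ₁ (R ∪ T) ∅ e₁ := o1.pin hT1
  have o2' : Opt N ρ Γ₂ (R ∪ T) ∅ e₂ := o2.pin hT2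
  have hc : Cns N ρ Γ₂ Γ₁ (R ∪ T) := by
    refine ⟨a, fun s => if s ∈ R then b s else t s, ?_⟩
    rw [hΓ, Finset.sum_union hRT.symm]
    have e1 : ∑ s ∈ R, (if s ∈ R then b s else t s) • ρ s = ∑ s ∈ R, b s • ρ s :=
      Finset.sum_congr rfl fun s hs => by rw [if_pos hs]
    have e2 : ∑ s ∈ T, (if s ∈ R then b s else t s) • ρ s = ∑ s ∈ T, t s • ρ s :=
      Finset.sum_congr rfl fun s hs => by
        rw [if_neg (Finset.disjoint_left.1 hRT hs)]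
    rw [e1, e2]
    abel
  have o3 : Opt N ρ Γ₁ (R ∪ T) ∅ e₂ := hc.opt o2'
  have hsub : ∀ k, ∃ l, e₂ l = e₁ k := fun k => o1'.range_sub o3 k
  have hdv : dv N ρ e₂ k₂ = dv N ρ e₁ k₁ :=
    dv_eq_of_range o1.det o2.det hsub (hk1.trans hk2.symm)
  have hrR : r ∉ R := Finset.disjoint_left.1 hRT hr
  have hlam : lam N ρ Γ₁ e₁ k₁ = lam N ρ Γ₂ e₂ k₂ + t r := by
    unfold lam
    rw [hdv, hΓ, add_dotProduct, add_dotProduct, add_dotProduct, smul_dotProduct, N_dv o1.det,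
      smul_zero, add_zero, sum_dotProduct, sum_dotProduct]
    have e1 : ∑ s ∈ R, (b s • ρ s) ⬝ᵥ dv N ρ e₁ k₁ = 0 := by
      refine Finset.sum_eq_zero fun s hs => ?_
      obtain ⟨l, hl⟩ := o1.sub s hs
      have hlk : l ≠ k₁ := by
        rintro rfl
        exact hrR (hk1 ▸ hl ▸ hs)
      rw [smul_dotProduct, ← hl, row_dv_ne o1.det hlk, smul_zero]
    have e2 : ∑ s ∈ T, (t s • ρ s) ⬝ᵥ dv N ρ e₁ k₁ = t r := by
      rw [Finset.sum_eq_single_of_mem r hr]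
      · rw [smul_dotProduct, ← hk1, row_dv_self o1.det, smul_eq_mul, mul_one]
      · intro s hs hsr
        obtain ⟨l, hl⟩ := hT1 s hs
        have hlk : l ≠ k₁ := by
          rintro rfl
          exact hsr (hl.symm.trans hk1)
        rw [smul_dotProduct, ← hl, row_dv_ne o1.det hlk, smul_zero]
    rw [e1, e2, add_zero]
  have p1 : 0 < lam N ρ Γ₁ e₁ k₁ := o1.mul k₁ (by rw [hk1]; exact hrR)
  have p2 : 0 < lam N ρ Γ₂ e₂ k₂ := o2.mul k₂ (by rw [hk2]; exact hrR)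
  rw [abs_le]
  constructor <;> linarith

end

end Pool.Agent.Lib.S3.PL
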