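import Pool.Agent.Lib.S3.PL.OptMeas
import Pool.Agent.Lib.S3.PL.OptInv
import Pool.Agent.Lib.S3.PL.Law
import Pool.Agent.Lib.S3.Hub.PayCoord
import Pool.Agent.Lib.S3.Hop.HubFinal

/-!
# Small multipliers of the hub functional (smoothed Hirsch, MP_4a5c02_co)

* `cfHub Th ω`: the coefficients of the hub functional, the coin `hub (some r)` for the random row
  `r` and `-Th` for the facet at infinity.
* `EvHub Th τ k`: `k` random rows are tight at the strict optimum of the hub functional, with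
  multipliers at most `τ`.
* `pay_hub`, `law_hub`: the probability of `EvHub`, relative to the feasible systems.
* `hub_data`: outside `EvHub`, the strict optimum is the vertex needed in `Hop.hub_final`.
-/

set_option autoImplicit false

open MeasureTheory ProbabilityTheory Matrix
open scoped ENNReal NNReal

namespace Pool.Agent.Lib.S3.PL

open Pool.Agent.Lib.S3.Geo

variable {m n : ℕ}

/-- The coefficients of the hub functional. -/
def cfHub (Th : ℝ) (ω : Om m n) : Row m → ℝ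
  | none => -Th
  | some r => ω (.hub (some r))

/-- The hub event. -/
def EvHub (Th τ : ℝ) (k : ℕ) : Set (Om m n) :=
  {ω | ∃ T : Finset (Fin m), T.card = k ∧ ∃ f : Fin n → Row m,
    Opt (Nf ω) (rho ω) (fnl ω (cfHub Th ω)) ∅ ∅ f ∧
    ∀ r ∈ T, ∃ k', f k' = some r ∧ lam (Nf ω) (rho ω) (fnl ω (cfHub Th ω)) f k' ≤ τ}

/-- The hub event of the set `T`. -/
def EvHubT (Th τ : ℝ) (T : Finset (Fin m)) : Set (Om m n) :=
  {ω | ∃ f : Fin n → Row m,
    Opt (Nf ω) (rho ω) (fnl ω (cfHub Th ω)) ∅ ∅ f ∧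
    ∀ r ∈ T, ∃ k', f k' = some r ∧ lam (Nf ω) (rho ω) (fnl ω (cfHub Th ω)) f k' ≤ τ}

theorem evHub_eq (Th τ : ℝ) (k : ℕ) : (EvHub Th τ k : Set (Om m n)) =
    ⋃ T ∈ (Finset.univ : Finset (Fin m)).powersetCard k, EvHubT Th τ T := by
  ext ω
  simp only [EvHub, EvHubT, Set.mem_ofPred_eq, Set.mem_iUnion, Finset.mem_powersetCard,
    Finset.subset_univ, true_and, exists_prop]

private theorem mrho (r : Row m) (j : Fin (n + 1)) : Measurable fun ω : Om m n => rho ω r j := by
  cases r with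
  | none => exact measurable_const
  | some r => exact measurable_pi_apply _

private theorem msum {c : Om m n → Row m → ℝ} (hc : ∀ r, Measurable fun ω => c ω r)
    (j : Fin (n + 1)) : Measurable fun ω : Om m n => (∑ r : Row m, c ω r • rho ω r) j := by
  have h : ∀ ω : Om m n, (∑ r : Row m, c ω r • rho ω r) j = ∑ r : Row m, c ω r * rho ω r j := by
    intro ω
    rw [Finset.sum_apply]
    refine Finset.sum_congr rfl fun k _ => ?_
    rw [Pi.smul_apply, smul_eq_mul]
  simp only [h]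
  exact Finset.measurable_sum _ fun k _ => (hc k).mul (mrho k j)

private theorem mNf (j : Fin (n + 1)) : Measurable fun ω : Om m n => Nf ω j := by
  unfold Nf
  exact msum (fun r => measurable_pi_apply _) j

theorem meas_cfHub (Th : ℝ) (r : Row m) : Measurable fun ω : Om m n => cfHub Th ω r := by
  cases r with
  | none => exact measurable_const
  | some r => exact measurable_pi_apply _

private theorem mfnl (Th : ℝ) (j : Fin (n + 1)) :
    Measurable fun ω : Om m n => fnl ω (cfHub Th ω) j := by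
  unfold fnl
  exact msum (fun r => meas_cfHub Th r) j

theorem measurableSet_evHubT (Th τ : ℝ) (T : Finset (Fin m)) :
    MeasurableSet (EvHubT Th τ T : Set (Om m n)) := by
  have h : (EvHubT Th τ T : Set (Om m n)) = ⋃ f : Fin n → Row m,
      ({ω | Opt (Nf ω) (rho ω) (fnl ω (cfHub Th ω)) ∅ ∅ f} ∩
        ⋂ r ∈ T, ⋃ k' : Fin n, ({_ω | f k' = some r} ∩
          {ω | lam (Nf ω) (rho ω) (fnl ω (cfHub Th ω)) f k' ≤ τ})) := by
    ext ω
    simp only [EvHubT, Set.mem_ofPred_eq, Set.mem_iUnion, Set.mem_inter_iff, Set.mem_iInter]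
  rw [h]
  refine MeasurableSet.iUnion fun f => (measurableSet_opt mNf mrho (mfnl Th) ∅ ∅ f).inter ?_
  refine MeasurableSet.biInter (Set.to_countable _) fun r _ => MeasurableSet.iUnion fun k' =>
    (MeasurableSet.const _).inter ?_
  exact measurableSet_le (meas_lam mNf mrho (mfnl Th) f k') measurable_const

theorem measurableSet_evHub (Th τ : ℝ) (k : ℕ) : MeasurableSet (EvHub Th τ k : Set (Om m n)) := by
  rw [evHub_eq]
  exact Finset.measurableSet_biUnion _ fun T _ => measurableSet_evHubT Th τ T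

section same

variable {ω ω' : Om m n} (h : ∀ c : Co m n, (∀ r : Fin m, c ≠ .hub (some r)) → ω' c = ω c)

include h

theorem rho_hub : rho ω' = rho ω := by
  funext r
  cases r with
  | none => rfl
  | some r =>
    funext j
    exact h _ fun s hs => by cases hs

theorem Nf_hub : Nf ω' = Nf ω := by
  unfold Nf
  rw [rho_hub h]
  refine Finset.sum_congr rfl fun r _ => ?_
  rw [h (.eta r) fun s hs => by cases hs]

theorem fnl_hub (Th : ℝ) : fnl ω' (cfHub Th ω') = fnl ω (cfHub Th ω) +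
    ∑ r : Fin m, (ω' (.hub (some r)) - ω (.hub (some r))) • rho ω (some r) := by
  unfold fnl
  rw [rho_hub h, Fintype.sum_option, Fintype.sum_option]
  simp only [cfHub, sub_smul, Finset.sum_sub_distrib]
  abel

end same

/-- **The hub event is rare**: payment by the hub coins, which occur nowhere else. -/
theorem pay_hub (ctr : Co m n → ℝ) (v : Co m n → ℝ≥0) (Th τ : ℝ) (hτ : 0 ≤ τ) (k : ℕ)
    (v0 : ℝ≥0) (hv0 : v0 ≠ 0) (hv : ∀ r : Fin m, v (.hub (some r)) = v0)
    (R : ℝ) (hR0 : 0 ≤ R) (hR : 4 * (v0 : ℝ) ≤ R ^ 2)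
    (F F' : Set (Om m n)) (hF : MeasurableSet F) (hF' : MeasurableSet F')
    (hFF' : ∀ ω ∈ F, ∀ ω' : Om m n, (∀ c : Co m n, (∀ r : Fin m, c ≠ .hub (some r)) →
        ω' c = ω c) →
      (∀ r : Fin m, ω' (.hub (some r)) = ω (.hub (some r)) ∨
        |ω' (.hub (some r)) - ctr (.hub (some r))| ≤ R) → ω' ∈ F') :
    Measure.pi (fun c => gaussianReal (ctr c) (v c)) (EvHub Th τ k ∩ F) ≤
      ENNReal.ofReal (2 * m * τ / √v0) ^ k *
        Measure.pi (fun c => gaussianReal (ctr c) (v c)) F' := by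
  classical
  set μ := Measure.pi (fun c => gaussianReal (ctr c) (v c)) with hμ
  have hinj : Function.Injective fun r : Fin m => (Co.hub (some r) : Co m n) := by
    intro r s hrs
    simpa using hrs
  -- one set `T`
  have hone : ∀ T : Finset (Fin m), T.card = k →
      μ (EvHubT Th τ T ∩ F) ≤ ENNReal.ofReal (2 * τ / √v0) ^ k * μ F' := by
    intro T hT
    have hoff : ∀ ω ω' : Om m n,
        (∀ c, c ∉ T.image (fun r : Fin m => (Co.hub (some r) : Co m n)) → ω' c = ω c) →
        (∀ c : Co m n, (∀ r : Fin m, c ≠ .hub (some r)) → ω' c = ω c) ∧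
          ∀ r : Fin m, r ∉ T → ω' (.hub (some r)) = ω (.hub (some r)) := by
      intro ω ω' h
      refine ⟨fun c hc => h c fun hc' => ?_, fun r hr => h _ fun hr' => ?_⟩
      · obtain ⟨r, -, rfl⟩ := Finset.mem_image.1 hc'
        exact hc r rfl
      · obtain ⟨s, hs, hs'⟩ := Finset.mem_image.1 hr'
        exact hr (hinj hs' ▸ hs)
    have h := Hub.pay_coord ctr v (T.image (fun r : Fin m => (Co.hub (some r) : Co m n)))
      (by
        intro c hc
        obtain ⟨r, -, rfl⟩ := Finset.mem_image.1 hc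
        rw [hv]
        exact hv0) (fun _ => τ) (fun _ => R) (fun _ _ => hτ) (fun _ _ => hR0) (by
        intro c hc
        obtain ⟨r, -, rfl⟩ := Finset.mem_image.1 hc
        rw [hv]
        exact hR) (EvHubT Th τ T ∩ F) F' ((measurableSet_evHubT Th τ T).inter hF) hF' ?_ ?_
    · rw [Finset.prod_image fun r _ s _ h => hinj h] at h
      rw [Finset.prod_congr rfl fun r _ => by rw [hv], Finset.prod_const, hT] at h
      exact h
    · intro ω hω ω' hω' hR'
      obtain ⟨h1, h2⟩ := hoff ω ω' hω'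
      refine hFF' ω hω.2 ω' h1 fun r => ?_
      by_cases hr : r ∈ T
      · exact Or.inr (hR' _ (Finset.mem_image_of_mem _ hr))
      · exact Or.inl (h2 r hr)
    · intro ω hω ω' hω2 hω' c hc
      obtain ⟨r, hr, rfl⟩ := Finset.mem_image.1 hc
      obtain ⟨h1, h2⟩ := hoff ω ω' hω'
      obtain ⟨f, ho, hl⟩ := hω.1
      obtain ⟨f', ho', hl'⟩ := hω2.1
      rw [rho_hub h1, Nf_hub h1, fnl_hub h1] at ho' hl'
      obtain ⟨k1, hk1, b1⟩ := hl r hr
      obtain ⟨k2, hk2, b2⟩ := hl' r hr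
      have hc := conf_light (T := up T) (R := (∅ : Finset (Row m)))
        (t := fun o => ω' (.hub o) - ω (.hub o)) (Finset.disjoint_empty_right _) ho' ho
        (fun o ho => by
          obtain ⟨s, hs, rfl⟩ := mem_up'.1 ho
          obtain ⟨k', hk', -⟩ := hl' s hs
          exact ⟨k', hk'⟩)
        (fun o ho => by
          obtain ⟨s, hs, rfl⟩ := mem_up'.1 ho
          obtain ⟨k', hk', -⟩ := hl s hs
          exact ⟨k', hk'⟩)
        ⟨0, 0, by
          rw [zero_smul, Finset.sum_empty, add_zero, add_zero]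
          congr 1
          unfold up
          rw [Finset.sum_map, ← Finset.sum_subset (Finset.subset_univ T)]
          · rfl
          · intro s _ hs
            rw [h2 s hs, sub_self, zero_smul]⟩ (mem_up.2 hr) hk2 hk1 b2 b1
      exact hc
  rw [evHub_eq]
  calc μ ((⋃ T ∈ (Finset.univ : Finset (Fin m)).powersetCard k, EvHubT Th τ T) ∩ F)
      ≤ μ (⋃ T ∈ (Finset.univ : Finset (Fin m)).powersetCard k, (EvHubT Th τ T ∩ F)) := by
        refine measure_mono ?_
        rintro ω ⟨h1, h2⟩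
        simp only [Set.mem_iUnion, exists_prop] at h1 ⊢
        obtain ⟨T, hT, h3⟩ := h1
        exact ⟨T, hT, h3, h2⟩
    _ ≤ ∑ T ∈ (Finset.univ : Finset (Fin m)).powersetCard k, μ (EvHubT Th τ T ∩ F) :=
        measure_biUnion_finset_le _ _
    _ ≤ ∑ T ∈ (Finset.univ : Finset (Fin m)).powersetCard k,
          ENNReal.ofReal (2 * τ / √v0) ^ k * μ F' :=
        Finset.sum_le_sum fun T hT => hone T (Finset.mem_powersetCard.1 hT).2
    _ = (m.choose k : ℝ≥0∞) * (ENNReal.ofReal (2 * τ / √v0) ^ k * μ F') := by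
        rw [Finset.sum_const, Finset.card_powersetCard, Finset.card_univ, Fintype.card_fin,
          nsmul_eq_mul]
    _ ≤ (m : ℝ≥0∞) ^ k * (ENNReal.ofReal (2 * τ / √v0) ^ k * μ F') := by
        gcongr
        exact_mod_cast Nat.choose_le_pow m k
    _ = ENNReal.ofReal (2 * m * τ / √v0) ^ k * μ F' := by
        rw [← mul_assoc, ← mul_pow]
        congr 2
        rw [← ENNReal.ofReal_natCast, ← ENNReal.ofReal_mul (Nat.cast_nonneg m)]
        congr 1
        ring

/-- The hub event relative to the feasible systems. -/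
theorem law_hub (Abar : Fin m → Fin n → ℝ) (bbar : Fin m → ℝ) (σ : ℝ)
    (cc : Co m n → ℝ) (vv : Co m n → ℝ≥0) (Th τ : ℝ) (hτ : 0 ≤ τ) (k : ℕ)
    (v0 : ℝ≥0) (hv0 : v0 ≠ 0) (hv : ∀ r : Fin m, vv (.hub (some r)) = v0) :
    law Abar bbar σ cc vv (EvHub Th τ k ∩ feaO) ≤
      ENNReal.ofReal (2 * m * τ / √v0) ^ k * law Abar bbar σ cc vv (feaO : Set (Om m n)) := by
  refine pay_hub (ctr Abar bbar cc) (vr σ vv) Th τ hτ k v0 hv0 hv (√(4 * v0)) (Real.sqrt_nonneg _)
    (le_of_eq (Real.sq_sqrt (by positivity)).symm) feaO feaO measurableSet_feaO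
    measurableSet_feaO fun ω hω ω' hω' _ => ?_
  obtain ⟨x, hx⟩ := hω
  refine ⟨x, fun i => ?_⟩
  have h1 : Am ω' = Am ω := by
    funext i j
    unfold Am
    rw [hω' _ fun s hs => by cases hs]
  have h2 : bm ω' = bm ω := by
    funext i
    unfold bm
    rw [hω' _ fun s hs => by cases hs]
  rw [h1, h2]
  exact hx i

/-! ### The vertex -/

/-- The chart functional is the chart row of the geometry layer. -/
theorem Nf_eq_chN (ω : Om m n) : Nf ω = chN (Am ω) (bm ω) (fun r => ω (.eta r)) := by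
  unfold Nf chN
  rw [← Finset.sum_neg_distrib]
  refine Finset.sum_congr rfl fun r _ => ?_
  rw [rho_eq_neg_Gr, smul_neg]

/-- Functionals with coefficients in the rows. -/
theorem fnl_eq_hubv (ω : Om m n) (c : Row m → ℝ) : fnl ω c = Hop.hubv (Am ω) (bm ω) c := by
  unfold fnl Hop.hubv
  refine Finset.sum_congr rfl fun r _ => ?_
  rw [rho_eq_neg_Gr]

theorem rho_slk (ω : Om m n) (r : Row m) (y : Fin (n + 1) → ℝ) :
    rho ω r ⬝ᵥ y = Hop.slk (Am ω) (bm ω) r y := by
  rw [rho_dot, Hop.slk_apply]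

/-- The strict optimum of a functional, as a vertex of the chart. -/
theorem Opt.vert {ω : Om m n} {Γ : Fin (n + 1) → ℝ} {f : Fin n → Row m} {R : Finset (Row m)}
    (h : Opt (Nf ω) (rho ω) Γ R ∅ f) :
    Vert (chA (Am ω) (bm ω) (Nf ω)) (chB m) {none} (chS m) (pt (Nf ω) (rho ω) f) ∧
      ∀ o, o ∈ Hop.tig (Hop.slk (Am ω) (bm ω)) (pt (Nf ω) (rho ω) f) ↔ ∃ k, f k = o := by
  classical
  have htig : ∀ o, o ∈ Hop.tig (Hop.slk (Am ω) (bm ω)) (pt (Nf ω) (rho ω) f) ↔ ∃ k, f k = o := by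
    intro o
    rw [Hop.mem_tig, ← rho_slk]
    constructor
    · intro h0
      by_contra hcon
      push Not at hcon
      have := h.pos o (Finset.notMem_empty _) hcon
      rw [h0] at this
      exact lt_irrefl _ this
    · rintro ⟨k, rfl⟩
      exact row_pt h.det k
  have hmem : pt (Nf ω) (rho ω) f ∈ Chart (Am ω) (bm ω) (Nf ω) := by
    rw [← Hop.mem_hat_iff]
    refine ⟨?_, fun r => ?_⟩
    · rw [Hop.dl_apply]
      exact N_pt h.det
    · rw [← rho_slk]
      exact h.nonneg (Finset.notMem_empty _)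
  refine ⟨⟨hmem, ?_⟩, htig⟩
  have himg : Hop.tig (Hop.slk (Am ω) (bm ω)) (pt (Nf ω) (rho ω) f) =
      Finset.univ.map ⟨f, inj_of_det h.det⟩ := by
    ext o
    rw [htig, Finset.mem_map]
    simp
  rw [Hop.univ_chS {none} (Finset.mem_singleton_self _), Hop.card_tt _ _ (N_pt h.det), himg,
    Finset.card_map, Finset.card_univ, Fintype.card_fin]

/-- **The vertex of the hub.** -/
theorem hub_data {ω : Om m n} {Th τ : ℝ} {k₁ : ℕ} (hbad : ω ∉ EvHub Th τ (k₁ + 1))
    {f : Fin n → Row m} (ho : Opt (Nf ω) (rho ω) (fnl ω (cfHub Th ω)) ∅ ∅ f)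
    (hc0 : ∀ i : Fin m, 0 ≤ ω (.hub (some i)))
    {X : Fin (n + 1) → ℝ} (hX : X ∈ Chart (Am ω) (bm ω) (Nf ω))
    (hneg : Hop.hubv (Am ω) (bm ω) (cfHub Th ω) ⬝ᵥ X < 0) :
    ∃ (h : Fin (n + 1) → ℝ) (lm : Option (Fin m) → ℝ) (μ : ℝ),
      Vert (chA (Am ω) (bm ω) (Nf ω)) (chB m) {none} (chS m) h ∧
      (∀ y ∈ Chart (Am ω) (bm ω) (Nf ω), Hop.hubv (Am ω) (bm ω) (cfHub Th ω) ⬝ᵥ h ≤
        Hop.hubv (Am ω) (bm ω) (cfHub Th ω) ⬝ᵥ y) ∧
      (∀ o ∈ Hop.tig (Hop.slk (Am ω) (bm ω)) h, 0 ≤ lm o) ∧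
      (∀ y, Hop.hubv (Am ω) (bm ω) (cfHub Th ω) ⬝ᵥ y =
        μ * (Nf ω ⬝ᵥ y) + ∑ o ∈ Hop.tig (Hop.slk (Am ω) (bm ω)) h,
          lm o * Hop.slk (Am ω) (bm ω) o y) ∧
      ((Hop.tig (Hop.slk (Am ω) (bm ω)) h).filter (fun o => lm o < τ)).card ≤ k₁ := by
  classical
  obtain ⟨hv, htig⟩ := ho.vert
  have hfi := inj_of_det ho.det
  have hmin : ∀ y ∈ Chart (Am ω) (bm ω) (Nf ω),
      fnl ω (cfHub Th ω) ⬝ᵥ pt (Nf ω) (rho ω) f ≤ fnl ω (cfHub Th ω) ⬝ᵥ y := by
    intro y hy
    have hy' := (Hop.mem_hat_iff _ _ _ y).2 hy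
    refine ho.le_of_feas hy'.1 (fun r hr => absurd hr (Finset.notMem_empty r)) fun r _ => ?_
    rw [rho_slk]
    exact hy'.2 r
  -- the facet at infinity is not tight
  have hnone : ∀ k, f k ≠ none := by
    intro k hk
    have h0 : rho ω none ⬝ᵥ pt (Nf ω) (rho ω) f = 0 := by
      rw [← hk]
      exact row_pt ho.det k
    have h1 := hmin X hX
    rw [fnl_eq_hubv] at h1
    have h2 : 0 ≤ Hop.hubv (Am ω) (bm ω) (cfHub Th ω) ⬝ᵥ pt (Nf ω) (rho ω) f := by
      rw [← fnl_eq_hubv]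
      unfold fnl
      rw [sum_dotProduct, Fintype.sum_option, smul_dotProduct, h0, smul_zero, zero_add]
      refine Finset.sum_nonneg fun i _ => ?_
      rw [smul_dotProduct, smul_eq_mul]
      exact mul_nonneg (hc0 i) (ho.nonneg (Finset.notMem_empty _))
    linarith
  -- the multipliers
  let lm : Option (Fin m) → ℝ := fun o =>
    if h : ∃ k, f k = o then lam (Nf ω) (rho ω) (fnl ω (cfHub Th ω)) f h.choose else 0
  have hlm : ∀ k, lm (f k) = lam (Nf ω) (rho ω) (fnl ω (cfHub Th ω)) f k := by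
    intro k
    have h : ∃ k', f k' = f k := ⟨k, rfl⟩
    have h2 : h.choose = k := hfi h.choose_spec
    simp only [lm, dif_pos h, h2]
  have himg : Hop.tig (Hop.slk (Am ω) (bm ω)) (pt (Nf ω) (rho ω) f) =
      Finset.univ.map ⟨f, hfi⟩ := by
    ext o
    rw [htig, Finset.mem_map]
    simp
  refine ⟨pt (Nf ω) (rho ω) f, lm, fnl ω (cfHub Th ω) ⬝ᵥ pt (Nf ω) (rho ω) f, hv, ?_, ?_, ?_, ?_⟩
  · rw [← fnl_eq_hubv]
    exact hmin
  · intro o hoT
    obtain ⟨k, rfl⟩ := (htig o).1 hoT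
    rw [hlm]
    exact (ho.mul k (Finset.notMem_empty _)).le
  · intro y
    rw [← fnl_eq_hubv, expand ho.det (fnl ω (cfHub Th ω)) y, himg, Finset.sum_map]
    congr 1
    refine Finset.sum_congr rfl fun k _ => ?_
    rw [← rho_slk]
    change _ = lm (f k) * (rho ω (f k) ⬝ᵥ y)
    rw [hlm]
  · by_contra hcon
    push Not at hcon
    obtain ⟨A, hA, hAk⟩ := Finset.exists_subset_card_eq (Nat.succ_le_of_lt hcon)
    -- the names of the light rows
    have hAsome : ∀ o ∈ A, ∃ r : Fin m, o = some r := by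
      intro o hoA
      obtain ⟨k, rfl⟩ := (htig o).1 (Finset.mem_filter.1 (hA hoA)).1
      exact Option.ne_none_iff_exists'.1 (hnone k)
    refine hbad ⟨Finset.univ.filter fun r : Fin m => some r ∈ A, ?_, f, ho, ?_⟩
    · have : A = (Finset.univ.filter fun r : Fin m => some r ∈ A).map
          ⟨some, Option.some_injective _⟩ := by
        ext o
        rw [Finset.mem_map]
        constructor
        · intro hoA
          obtain ⟨r, rfl⟩ := hAsome o hoA
          exact ⟨r, Finset.mem_filter.2 ⟨Finset.mem_univ _, hoA⟩, rfl⟩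
        · rintro ⟨r, hr, rfl⟩
          exact (Finset.mem_filter.1 hr).2
      have h2 := congrArg Finset.card this
      rw [Finset.card_map, hAk] at h2
      exact h2.symm
    · intro r hr
      have h1 := Finset.mem_filter.1 (hA (Finset.mem_filter.1 hr).2)
      obtain ⟨k, hk⟩ := (htig _).1 h1.1
      refine ⟨k, hk, ?_⟩
      have h2 := h1.2
      rw [← hk, hlm] at h2
      exact h2.le

end Pool.Agent.Lib.S3.PL
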