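import Mathlib

/-!
# Optimal bases in strict form (smoothed Hirsch, MP_4a5c02_co)

`κ` is the finite set of row names, `ρ r` the rows, `N` the chart functional. A tuple
`e : Fin n → κ` gives the matrix with rows `N, ρ (e 0), …, ρ (e (n-1))`, its point `pt` (with
`N ⬝ pt = 1` and `ρ (e k) ⬝ pt = 0`) and the multipliers `lam` of a functional `Γ`.
-/

set_option autoImplicit false

open MeasureTheory Matrix

namespace Pool.Agent.Lib.S3.PL

variable {κ : Type} {n : ℕ}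

/-- The matrix with rows `N, ρ (e 0), …`. -/
def amat (N : Fin (n + 1) → ℝ) (ρ : κ → Fin (n + 1) → ℝ) (e : Fin n → κ) :
    Matrix (Fin (n + 1)) (Fin (n + 1)) ℝ :=
  Matrix.of (Fin.cons N (fun k => ρ (e k)))

/-- The point of the tuple `e`. -/
noncomputable def pt (N : Fin (n + 1) → ℝ) (ρ : κ → Fin (n + 1) → ℝ) (e : Fin n → κ) :
    Fin (n + 1) → ℝ :=
  (amat N ρ e)⁻¹ *ᵥ Pi.single 0 1

/-- The vector dual to the `k`-th row of the tuple `e`. -/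
noncomputable def dv (N : Fin (n + 1) → ℝ) (ρ : κ → Fin (n + 1) → ℝ) (e : Fin n → κ)
    (k : Fin n) : Fin (n + 1) → ℝ :=
  (amat N ρ e)⁻¹ *ᵥ Pi.single k.succ 1

/-- The multiplier of the `k`-th row of the tuple `e`. -/
noncomputable def lam (N : Fin (n + 1) → ℝ) (ρ : κ → Fin (n + 1) → ℝ) (Γ : Fin (n + 1) → ℝ)
    (e : Fin n → κ) (k : Fin n) : ℝ :=
  Γ ⬝ᵥ dv N ρ e k

/-- `e` is the strict optimal basis for minimising `Γ` over the points `X` with `N X = 1`,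
`ρ r X = 0` for `r ∈ R`, `ρ r X ≥ 0` for `r ∉ D`. -/
structure Opt (N : Fin (n + 1) → ℝ) (ρ : κ → Fin (n + 1) → ℝ) (Γ : Fin (n + 1) → ℝ)
    (R D : Finset κ) (e : Fin n → κ) : Prop where
  det : (amat N ρ e).det ≠ 0
  sub : ∀ r ∈ R, ∃ k, e k = r
  avoid : ∀ k, e k ∉ D
  pos : ∀ r, r ∉ D → (∀ k, e k ≠ r) → 0 < ρ r ⬝ᵥ pt N ρ e
  mul : ∀ k, e k ∉ R → 0 < lam N ρ Γ e k

section basic

variable {N : Fin (n + 1) → ℝ} {ρ : κ → Fin (n + 1) → ℝ} {e : Fin n → κ}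

theorem isUnit_of_det (hd : (amat N ρ e).det ≠ 0) : IsUnit (amat N ρ e).det :=
  isUnit_iff_ne_zero.2 hd

theorem amat_zero_dot (X : Fin (n + 1) → ℝ) : (amat N ρ e *ᵥ X) 0 = N ⬝ᵥ X := rfl

theorem amat_succ_dot (X : Fin (n + 1) → ℝ) (k : Fin n) :
    (amat N ρ e *ᵥ X) k.succ = ρ (e k) ⬝ᵥ X := rfl

theorem ext_of_dot (hd : (amat N ρ e).det ≠ 0) {X Y : Fin (n + 1) → ℝ}
    (h0 : N ⬝ᵥ X = N ⬝ᵥ Y) (hk : ∀ k, ρ (e k) ⬝ᵥ X = ρ (e k) ⬝ᵥ Y) : X = Y := by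
  have h1 : amat N ρ e *ᵥ X = amat N ρ e *ᵥ Y := by
    funext j
    refine Fin.cases ?_ (fun k => ?_) j
    · rw [amat_zero_dot, amat_zero_dot, h0]
    · rw [amat_succ_dot, amat_succ_dot, hk]
  have h2 := congrArg (fun v => (amat N ρ e)⁻¹ *ᵥ v) h1
  simpa [Matrix.mulVec_mulVec, Matrix.nonsing_inv_mul _ (isUnit_of_det hd)] using h2

theorem amat_pt (hd : (amat N ρ e).det ≠ 0) : amat N ρ e *ᵥ pt N ρ e = Pi.single 0 1 := by
  unfold pt
  rw [Matrix.mulVec_mulVec, Matrix.mul_nonsing_inv _ (isUnit_of_det hd), Matrix.one_mulVec]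

theorem amat_dv (hd : (amat N ρ e).det ≠ 0) (k : Fin n) :
    amat N ρ e *ᵥ dv N ρ e k = Pi.single k.succ 1 := by
  unfold dv
  rw [Matrix.mulVec_mulVec, Matrix.mul_nonsing_inv _ (isUnit_of_det hd), Matrix.one_mulVec]

theorem N_pt (hd : (amat N ρ e).det ≠ 0) : N ⬝ᵥ pt N ρ e = 1 := by
  rw [← amat_zero_dot (ρ := ρ) (e := e), amat_pt hd, Pi.single_eq_same]

theorem row_pt (hd : (amat N ρ e).det ≠ 0) (k : Fin n) : ρ (e k) ⬝ᵥ pt N ρ e = 0 := by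
  rw [← amat_succ_dot (N := N), amat_pt hd, Pi.single_eq_of_ne (Fin.succ_ne_zero k)]

theorem N_dv (hd : (amat N ρ e).det ≠ 0) (k : Fin n) : N ⬝ᵥ dv N ρ e k = 0 := by
  rw [← amat_zero_dot (ρ := ρ) (e := e), amat_dv hd, Pi.single_eq_of_ne (Fin.succ_ne_zero k).symm]

theorem row_dv_self (hd : (amat N ρ e).det ≠ 0) (k : Fin n) :
    ρ (e k) ⬝ᵥ dv N ρ e k = 1 := by
  rw [← amat_succ_dot (N := N), amat_dv hd, Pi.single_eq_same]

theorem row_dv_ne (hd : (amat N ρ e).det ≠ 0) {k l : Fin n} (h : l ≠ k) :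
    ρ (e l) ⬝ᵥ dv N ρ e k = 0 := by
  rw [← amat_succ_dot (N := N), amat_dv hd, Pi.single_eq_of_ne]
  exact fun h' => h (Fin.succ_injective _ h')

/-- A tuple with nonzero determinant is injective. -/
theorem inj_of_det (hd : (amat N ρ e).det ≠ 0) : Function.Injective e := by
  intro k l hkl
  by_contra hne
  have h1 := row_dv_self hd k
  have h2 := row_dv_ne hd (k := k) (l := l) (fun h => hne h.symm)
  rw [hkl] at h1
  rw [h1] at h2
  exact one_ne_zero h2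

/-- The expansion of a functional in the rows of the tuple. -/
theorem expand (hd : (amat N ρ e).det ≠ 0) (Γ X : Fin (n + 1) → ℝ) :
    Γ ⬝ᵥ X = (Γ ⬝ᵥ pt N ρ e) * (N ⬝ᵥ X) + ∑ k, lam N ρ Γ e k * (ρ (e k) ⬝ᵥ X) := by
  have h1 : X = (N ⬝ᵥ X) • pt N ρ e + ∑ k, (ρ (e k) ⬝ᵥ X) • dv N ρ e k := by
    apply ext_of_dot hd
    · rw [dotProduct_add, dotProduct_smul, N_pt hd, dotProduct_sum]
      simp only [dotProduct_smul, N_dv hd, smul_eq_mul, mul_zero, Finset.sum_const_zero, mul_one,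
        add_zero]
    · intro l
      rw [dotProduct_add, dotProduct_smul, row_pt hd, dotProduct_sum,
        Finset.sum_eq_single l]
      · simp only [dotProduct_smul, row_dv_self hd, smul_eq_mul, mul_zero, mul_one, zero_add]
      · intro k _ hk
        rw [dotProduct_smul, row_dv_ne hd hk.symm, smul_zero]
      · intro h
        exact absurd (Finset.mem_univ l) h
  conv_lhs => rw [h1]
  rw [dotProduct_add, dotProduct_smul, dotProduct_sum, smul_eq_mul]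
  congr 1
  · ring
  · refine Finset.sum_congr rfl fun k _ => ?_
    rw [dotProduct_smul, smul_eq_mul, lam]
    ring

theorem dv_unique (hd : (amat N ρ e).det ≠ 0) {k : Fin n} {Z : Fin (n + 1) → ℝ}
    (h0 : N ⬝ᵥ Z = 0) (hk : ρ (e k) ⬝ᵥ Z = 1) (hl : ∀ l, l ≠ k → ρ (e l) ⬝ᵥ Z = 0) :
    Z = dv N ρ e k := by
  apply ext_of_dot hd
  · rw [h0, N_dv hd]
  · intro l
    by_cases h : l = k
    · subst h
      rw [hk, row_dv_self hd]
    · rw [hl l h, row_dv_ne hd h]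

theorem pt_unique (hd : (amat N ρ e).det ≠ 0) {X : Fin (n + 1) → ℝ}
    (h0 : N ⬝ᵥ X = 1) (hk : ∀ k, ρ (e k) ⬝ᵥ X = 0) : X = pt N ρ e := by
  apply ext_of_dot hd
  · rw [h0, N_pt hd]
  · intro l
    rw [hk, row_pt hd]

end basic

section opt

variable {N : Fin (n + 1) → ℝ} {ρ : κ → Fin (n + 1) → ℝ} {Γ : Fin (n + 1) → ℝ}
  {R D : Finset κ} {e e' : Fin n → κ}

/-- All rows outside `D` are nonnegative at the point. -/
theorem Opt.nonneg (h : Opt N ρ Γ R D e) {r : κ} (hr : r ∉ D) : 0 ≤ ρ r ⬝ᵥ pt N ρ e := by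
  by_cases hk : ∃ k, e k = r
  · obtain ⟨k, rfl⟩ := hk
    rw [row_pt h.det]
  · push Not at hk
    exact (h.pos r hr hk).le

/-- Optimality. -/
theorem Opt.le_of_feas (h : Opt N ρ Γ R D e) {X : Fin (n + 1) → ℝ} (h0 : N ⬝ᵥ X = 1)
    (hR : ∀ r ∈ R, ρ r ⬝ᵥ X = 0) (hD : ∀ r, r ∉ D → 0 ≤ ρ r ⬝ᵥ X) :
    Γ ⬝ᵥ pt N ρ e ≤ Γ ⬝ᵥ X := by
  rw [expand h.det Γ X, h0, mul_one]
  have : 0 ≤ ∑ k, lam N ρ Γ e k * (ρ (e k) ⬝ᵥ X) := by
    refine Finset.sum_nonneg fun k _ => ?_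
    by_cases hk : e k ∈ R
    · rw [hR _ hk, mul_zero]
    · exact mul_nonneg (h.mul k hk).le (hD _ (h.avoid k))
  linarith

/-- Uniqueness of the optimum. -/
theorem Opt.eq_of_feas (h : Opt N ρ Γ R D e) {X : Fin (n + 1) → ℝ} (h0 : N ⬝ᵥ X = 1)
    (hR : ∀ r ∈ R, ρ r ⬝ᵥ X = 0) (hD : ∀ r, r ∉ D → 0 ≤ ρ r ⬝ᵥ X)
    (hle : Γ ⬝ᵥ X ≤ Γ ⬝ᵥ pt N ρ e) : X = pt N ρ e := by
  rw [expand h.det Γ X, h0, mul_one] at hle
  have hnn : ∀ k ∈ Finset.univ, 0 ≤ lam N ρ Γ e k * (ρ (e k) ⬝ᵥ X) := by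
    intro k _
    by_cases hk : e k ∈ R
    · rw [hR _ hk, mul_zero]
    · exact mul_nonneg (h.mul k hk).le (hD _ (h.avoid k))
  have hz : ∑ k, lam N ρ Γ e k * (ρ (e k) ⬝ᵥ X) = 0 :=
    le_antisymm (by linarith) (Finset.sum_nonneg hnn)
  rw [Finset.sum_eq_zero_iff_of_nonneg hnn] at hz
  refine pt_unique h.det h0 fun k => ?_
  by_cases hk : e k ∈ R
  · exact hR _ hk
  · have := hz k (Finset.mem_univ k)
    rcases mul_eq_zero.1 this with h1 | h1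
    · exact absurd h1 (h.mul k hk).ne'
    · exact h1

theorem Opt.feasR (h : Opt N ρ Γ R D e) {r : κ} (hr : r ∈ R) : ρ r ⬝ᵥ pt N ρ e = 0 := by
  obtain ⟨k, rfl⟩ := h.sub r hr
  exact row_pt h.det k

theorem Opt.pt_eq (h : Opt N ρ Γ R D e) (h' : Opt N ρ Γ R D e') : pt N ρ e' = pt N ρ e := by
  apply h.eq_of_feas (N_pt h'.det) (fun r hr => h'.feasR hr) (fun r hr => h'.nonneg hr)
  exact h'.le_of_feas (N_pt h.det) (fun r hr => h.feasR hr) (fun r hr => h.nonneg hr)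

theorem Opt.range_sub (h : Opt N ρ Γ R D e) (h' : Opt N ρ Γ R D e') (k : Fin n) :
    ∃ l, e' l = e k := by
  by_contra hcon
  push Not at hcon
  have h1 := h'.pos (e k) (h.avoid k) hcon
  rw [h.pt_eq h', row_pt h.det] at h1
  exact lt_irrefl _ h1

/-- Dual vectors only depend on the set of rows. -/
theorem dv_eq_of_range (hd : (amat N ρ e).det ≠ 0) (hd' : (amat N ρ e').det ≠ 0)
    (hsub : ∀ k, ∃ l, e' l = e k) {k k' : Fin n} (hk : e k = e' k') :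
    dv N ρ e' k' = dv N ρ e k := by
  apply dv_unique hd (N_dv hd' k')
  · rw [hk, row_dv_self hd']
  · intro l hl
    obtain ⟨l', hl'⟩ := hsub l
    rw [← hl', row_dv_ne hd']
    intro h
    apply hl
    apply inj_of_det hd
    rw [← hl', h, hk]

theorem lam_eq_of_range (hd : (amat N ρ e).det ≠ 0) (hd' : (amat N ρ e').det ≠ 0)
    (hsub : ∀ k, ∃ l, e' l = e k) {k k' : Fin n} (hk : e k = e' k') :
    lam N ρ Γ e' k' = lam N ρ Γ e k := by
  unfold lam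
  rw [dv_eq_of_range hd hd' hsub hk]

end opt

end Pool.Agent.Lib.S3.PL
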