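import Pool.Agent.Lib.S3.PL.Defs
import Pool.Agent.Lib.S3.Leg.Leg

/-!
# Bounds for the objectives of the pair machine (smoothed Hirsch, MP_4a5c02_co)

`CoinOk ω`: all coins lie in `[1, 2]`. `StOk`: invariants of the costs of a state (costs in
`[-kap, Th]`, equal to `Th` on untouched columns, to `0` on the protected ones), preserved by the
moves. Bounds for the values of the objectives on the chart, at the vertices and at deep points.
-/

set_option autoImplicit false

open MeasureTheory Matrix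

namespace Pool.Agent.Lib.S3.PL

open Pool.Agent.Lib.S3.Leg (Fe Mn)

variable {m n : ℕ}

/-- A coordinate is a coin. -/
def IsCoin : Co m n → Prop
  | .row _ _ => False
  | _ => True

/-- All coins are in `[1, 2]`. -/
def CoinOk (ω : Om m n) : Prop := ∀ c : Co m n, IsCoin c → 1 ≤ ω c ∧ ω c ≤ 2

/-- Coins in the box with centre `3/2` and radius `1/2`. -/
theorem coinOk_of_box {ctr Rb : Co m n → ℝ} {b : ℝ} (hc : ∀ c, IsCoin c → ctr c = 3 / 2)
    (hR : ∀ c, IsCoin c → Rb c + b ≤ 1 / 2) {ω : Om m n} (h : ω ∈ Box ctr Rb b) : CoinOk ω := by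
  intro c hcc
  have h1 : |ω c - ctr c| ≤ Rb c + b := h c
  have h2 := abs_le.1 (h1.trans (hR c hcc))
  rw [hc c hcc] at h2
  constructor <;> linarith [h2.1, h2.2]

/-- The invariants of the costs of a state. -/
structure StOk (P : Par) (kap : ℝ) (C : Cf m) (S : St m n) : Prop where
  Rbu : S.R ⊆ S.bu
  lo : ∀ s j, -kap ≤ S.kc s j
  hi : ∀ s j, S.kc s j ≤ P.Th
  unt : ∀ s j, j ∉ S.bu → j ∉ C.Y s → S.kc s j = P.Th
  prot : ∀ s j, j ∈ C.Y s → S.kc s j = 0

theorem stOk_st0 {P : Par} {kap : ℝ} (hk : 0 ≤ kap) (hT : 0 ≤ P.Th) (C : Cf m) :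
    StOk (n := n) P kap C (st0 P C) := by
  classical
  refine ⟨fun j hj => ?_, fun s j => ?_, fun s j => ?_, fun s j _ hY => ?_, fun s j hY => ?_⟩
  · simp [st0] at hj
  · simp only [st0]
    split_ifs <;> linarith
  · simp only [st0]
    split_ifs <;> linarith
  · simp only [st0]
    rw [if_neg hY]
  · simp only [st0]
    rw [if_pos hY]

theorem stOk_nxt {P : Par} {kap : ℝ} (hd : 0 ≤ P.dl) (hK : (P.K1 : ℝ) * P.dl ≤ P.Th + kap)
    {C : Cf m} {S : St m n} (hS : StOk P kap C S) (mv : Mv m P) (hc : OkCol C S mv.col) :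
    StOk P kap C (nxt P S mv) := by
  classical
  have hclose : ∀ (s : Bool) (i : Fin m) (k : Fin (P.K1 + 1)), OkCol C S i →
      ∀ B' : Bool → Finset (Row m × Fin (n + 1)),
      StOk P kap C
        { S with
          bu := insert i S.bu
          kc := fun s' j => if s' = s ∧ j = i then S.kc s' j - ((k : ℕ) : ℝ) * P.dl else S.kc s' j
          B := B'
          t := S.t + 1 } := by
    intro s i k ho B'
    obtain ⟨h1, h2, h3, h4, h5, h6⟩ := ho
    have hYs : ∀ s', i ∉ C.Y s' := by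
      intro s'
      cases s'
      · exact h5
      · exact h6
    have hk0 : 0 ≤ ((k : ℕ) : ℝ) * P.dl := mul_nonneg (Nat.cast_nonneg _) hd
    have hk1 : ((k : ℕ) : ℝ) * P.dl ≤ P.Th + kap := by
      refine le_trans (mul_le_mul_of_nonneg_right ?_ hd) hK
      exact_mod_cast Nat.lt_succ_iff.1 k.2
    refine ⟨fun j hj => Finset.mem_insert_of_mem (hS.Rbu hj), fun s' j => ?_, fun s' j => ?_,
      fun s' j hj hY => ?_, fun s' j hY => ?_⟩
    · show -kap ≤ if s' = s ∧ j = i then S.kc s' j - ((k : ℕ) : ℝ) * P.dl else S.kc s' j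
      split_ifs with h
      · rw [h.2, hS.unt s' i h4 (hYs s')]
        linarith
      · exact hS.lo s' j
    · show (if s' = s ∧ j = i then S.kc s' j - ((k : ℕ) : ℝ) * P.dl else S.kc s' j) ≤ P.Th
      split_ifs with h
      · linarith [hS.hi s' j]
      · exact hS.hi s' j
    · show (if s' = s ∧ j = i then S.kc s' j - ((k : ℕ) : ℝ) * P.dl else S.kc s' j) = P.Th
      have hji : j ≠ i := fun h => hj (h ▸ Finset.mem_insert_self _ _)
      rw [if_neg (fun h : s' = s ∧ j = i => hji h.2)]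
      exact hS.unt s' j (fun h => hj (Finset.mem_insert_of_mem h)) hY
    · show (if s' = s ∧ j = i then S.kc s' j - ((k : ℕ) : ℝ) * P.dl else S.kc s' j) = 0
      rw [if_neg (fun h : s' = s ∧ j = i => hYs s' (h.2 ▸ hY))]
      exact hS.prot s' j hY
  have hfail : ∀ i : Fin m, StOk P kap C
      { S with R := insert i S.R, bu := insert i S.bu, t := S.t + 1 } := by
    intro i
    refine ⟨Finset.insert_subset_insert _ hS.Rbu, hS.lo, hS.hi, fun s' j hj hY => ?_, hS.prot⟩
    exact hS.unt s' j (fun h => hj (Finset.mem_insert_of_mem h)) hY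
  match mv with
  | .hv s i p D => exact hfail i
  | .lf s i k e T => exact hfail i
  | .cb s i k T => exact hclose s i k hc _
  | .cw s i k W => exact hclose s i k hc _

section values

variable {ω : Om m n}

private theorem fnl_dotB (c : Row m → ℝ) (X : Fin (n + 1) → ℝ) :
    fnl ω c ⬝ᵥ X = ∑ r : Row m, c r * (rho ω r ⬝ᵥ X) := by
  unfold fnl
  rw [sum_dotProduct]
  exact Finset.sum_congr rfl fun r _ => by rw [smul_dotProduct, smul_eq_mul]

theorem Nf_dot (X : Fin (n + 1) → ℝ) :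
    Nf ω ⬝ᵥ X = ∑ r : Row m, ω (.eta r) * (rho ω r ⬝ᵥ X) := fnl_dotB _ X

/-- The slacks of a point of the chart sum up to at most `1`. -/
theorem sum_slack (hω : CoinOk ω) {R : Finset (Row m)} {X : Fin (n + 1) → ℝ}
    (hX : Fe (rho ω) (Nf ω) R X) : ∑ r : Row m, rho ω r ⬝ᵥ X ≤ 1 := by
  have h1 := hX.2.2
  rw [Nf_dot] at h1
  rw [← h1]
  refine Finset.sum_le_sum fun r _ => ?_
  exact le_mul_of_one_le_left (hX.1 r) (hω (.eta r) trivial).1

theorem slack_le_one (hω : CoinOk ω) {R : Finset (Row m)} {X : Fin (n + 1) → ℝ}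
    (hX : Fe (rho ω) (Nf ω) R X) (r : Row m) : rho ω r ⬝ᵥ X ≤ 1 :=
  (Finset.single_le_sum (f := fun r => rho ω r ⬝ᵥ X) (fun r _ => hX.1 r)
    (Finset.mem_univ r)).trans (sum_slack hω hX)

/-- Upper bound for a functional on the chart. -/
theorem fnl_le (hω : CoinOk ω) {R : Finset (Row m)} {X : Fin (n + 1) → ℝ}
    (hX : Fe (rho ω) (Nf ω) R X) {c : Row m → ℝ} {K : ℝ} (hK : 0 ≤ K)
    (hc : ∀ r, rho ω r ⬝ᵥ X ≠ 0 → c r ≤ K) : fnl ω c ⬝ᵥ X ≤ K := by
  rw [fnl_dotB]
  calc ∑ r : Row m, c r * (rho ω r ⬝ᵥ X) ≤ ∑ r : Row m, K * (rho ω r ⬝ᵥ X) := by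
        refine Finset.sum_le_sum fun r _ => ?_
        by_cases h : rho ω r ⬝ᵥ X = 0
        · rw [h, mul_zero, mul_zero]
        · exact mul_le_mul_of_nonneg_right (hc r h) (hX.1 r)
    _ = K * ∑ r : Row m, rho ω r ⬝ᵥ X := by rw [Finset.mul_sum]
    _ ≤ K * 1 := mul_le_mul_of_nonneg_left (sum_slack hω hX) hK
    _ = K := mul_one K

/-- Lower bound for a functional on the chart. -/
theorem le_fnl (hω : CoinOk ω) {R : Finset (Row m)} {X : Fin (n + 1) → ℝ}
    (hX : Fe (rho ω) (Nf ω) R X) {c : Row m → ℝ} {K : ℝ} (hK : 0 ≤ K)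
    (hc : ∀ r, rho ω r ⬝ᵥ X ≠ 0 → -K ≤ c r) : -K ≤ fnl ω c ⬝ᵥ X := by
  rw [fnl_dotB]
  calc -K = -(K * 1) := by rw [mul_one]
    _ ≤ -(K * ∑ r : Row m, rho ω r ⬝ᵥ X) := by
        have := mul_le_mul_of_nonneg_left (sum_slack hω hX) hK
        linarith
    _ = ∑ r : Row m, -K * (rho ω r ⬝ᵥ X) := by
        rw [← Finset.mul_sum]; ring
    _ ≤ ∑ r : Row m, c r * (rho ω r ⬝ᵥ X) := by
        refine Finset.sum_le_sum fun r _ => ?_
        by_cases h : rho ω r ⬝ᵥ X = 0
        · rw [h, mul_zero, mul_zero]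
        · exact mul_le_mul_of_nonneg_right (hc r h) (hX.1 r)

/-- The exit functional `G^i`. -/
noncomputable def Gi (ω : Om m n) (i : Fin m) : Fin (n + 1) → ℝ := fnl ω fun r => ω (.gi i r)

theorem Gi_nonneg (hω : CoinOk ω) {R : Finset (Row m)} {X : Fin (n + 1) → ℝ}
    (hX : Fe (rho ω) (Nf ω) R X) (i : Fin m) : 0 ≤ Gi ω i ⬝ᵥ X := by
  unfold Gi
  rw [fnl_dotB]
  exact Finset.sum_nonneg fun r _ =>
    mul_nonneg (zero_le_one.trans (hω (.gi i r) trivial).1) (hX.1 r)

theorem Gi_le (hω : CoinOk ω) {R : Finset (Row m)} {X : Fin (n + 1) → ℝ}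
    (hX : Fe (rho ω) (Nf ω) R X) (i : Fin m) : Gi ω i ⬝ᵥ X ≤ 2 :=
  fnl_le hω hX zero_le_two fun r _ => (hω (.gi i r) trivial).2

/-- The field `G` of `Leg.Hyp`. -/
theorem Gi_diff (hω : CoinOk ω) {R : Finset (Row m)} {al Dd : ℝ} (h : 4 ≤ Dd * al) (i : Fin m)
    (X Y : Fin (n + 1) → ℝ) (hX : Fe (rho ω) (Nf ω) R X) (hY : Fe (rho ω) (Nf ω) R Y) :
    2 * (Gi ω i ⬝ᵥ X - Gi ω i ⬝ᵥ Y) ≤ Dd * al := by
  have h1 := Gi_le hω hX i
  have h2 := Gi_nonneg hω hY i
  linarith

/-- The known part of the coefficients: columns. -/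
noncomputable def cfI (C : Cf m) (S : St m n) (s : Bool) (ω : Om m n) (r : Row m) : ℝ := by
  classical
  exact
  match r with
  | none => 0
  | some j => if j ∈ C.I s ∧ j ∉ S.R then S.kc s j + ω (.nu s j) else 0

/-- The boosts. -/
noncomputable def cfB (S : St m n) (s : Bool) (ω : Om m n) (r : Row m) : ℝ := by
  classical
  exact ∑ l : Fin (n + 1), if (r, l) ∈ S.B s then ω (.om s r l) else 0

theorem cfG_eq (C : Cf m) (S : St m n) (s : Bool) (r : Row m) :
    cfG C S s ω r = cfI C S s ω r + cfB S s ω r := by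
  classical
  unfold cfG cfI cfB
  cases r <;> rfl

theorem cfB_nonneg (hω : CoinOk ω) (S : St m n) (s : Bool) (r : Row m) : 0 ≤ cfB S s ω r := by
  classical
  unfold cfB
  refine Finset.sum_nonneg fun l _ => ?_
  split_ifs
  · exact zero_le_one.trans (hω (.om s r l) trivial).1
  · exact le_rfl

theorem cfB_le (hω : CoinOk ω) (S : St m n) (s : Bool) (r : Row m) :
    cfB S s ω r ≤ 2 * ((n : ℝ) + 1) := by
  classical
  unfold cfB
  calc ∑ l : Fin (n + 1), (if (r, l) ∈ S.B s then ω (.om s r l) else 0)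
      ≤ ∑ _l : Fin (n + 1), (2 : ℝ) := by
        refine Finset.sum_le_sum fun l _ => ?_
        split_ifs
        · exact (hω (.om s r l) trivial).2
        · exact zero_le_two
    _ = 2 * ((n : ℝ) + 1) := by
        rw [Finset.sum_const, Finset.card_univ, Fintype.card_fin, nsmul_eq_mul]
        push_cast
        ring

theorem cfI_le {P : Par} {kap : ℝ} (hω : CoinOk ω) {C : Cf m} {S : St m n} (hT : 0 ≤ P.Th)
    (hS : StOk P kap C S) (s : Bool) (r : Row m) : cfI C S s ω r ≤ P.Th + 2 := by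
  classical
  unfold cfI
  match r with
  | none =>
    show (0 : ℝ) ≤ _
    linarith
  | some j =>
    show (if j ∈ C.I s ∧ j ∉ S.R then S.kc s j + ω (.nu s j) else 0) ≤ _
    split_ifs
    · linarith [hS.hi s j, (hω (.nu s j) trivial).2]
    · linarith

theorem le_cfI {P : Par} {kap : ℝ} (hω : CoinOk ω) {C : Cf m} {S : St m n} (hk : 0 ≤ kap)
    (hS : StOk P kap C S) (s : Bool) (r : Row m) : -kap ≤ cfI C S s ω r := by
  classical
  unfold cfI
  match r with
  | none =>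
    show _ ≤ (0 : ℝ)
    linarith
  | some j =>
    show _ ≤ if j ∈ C.I s ∧ j ∉ S.R then S.kc s j + ω (.nu s j) else 0
    split_ifs
    · linarith [hS.lo s j, (hω (.nu s j) trivial).1]
    · linarith

/-- Bound for the coefficients of the leg objectives. -/
theorem abs_cfL_le {P : Par} {kap : ℝ} (hω : CoinOk ω) {C : Cf m} {S : St m n} (hT : 0 ≤ P.Th)
    (hk : 0 ≤ kap) (hd : 0 ≤ P.dl) (hK : (P.K1 : ℝ) * P.dl ≤ P.Th + kap) (hS : StOk P kap C S)
    (s : Bool) (i : Fin m) {k : ℕ} (hk1 : k ≤ P.K1) (r : Row m) :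
    |cfL P C S s i k ω r| ≤ 2 * P.Th + 2 * kap + 2 * n + 4 := by
  have h1 := cfI_le hω hT hS s r
  have h2 := le_cfI hω hk hS s r
  have h3 := cfB_le hω S s r
  have h4 := cfB_nonneg hω S s r
  have h5 : 0 ≤ (k : ℝ) * P.dl := mul_nonneg (Nat.cast_nonneg _) hd
  have h6 : (k : ℝ) * P.dl ≤ P.Th + kap := by
    refine le_trans (mul_le_mul_of_nonneg_right ?_ hd) hK
    exact_mod_cast hk1
  unfold cfL
  rw [cfG_eq, abs_le]
  split_ifs <;> constructor <;> linarith

/-- The field `win2` of `Leg.Hyp`. -/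
theorem L_diff {P : Par} {kap : ℝ} (hω : CoinOk ω) {C : Cf m} {S : St m n} (hT : 0 ≤ P.Th)
    (hk : 0 ≤ kap) (hd : 0 ≤ P.dl) (hK : (P.K1 : ℝ) * P.dl ≤ P.Th + kap) (hS : StOk P kap C S)
    (s : Bool) (i : Fin m) {k : ℕ} (hk1 : k ≤ P.K1) {R : Finset (Row m)}
    (X Y : Fin (n + 1) → ℝ) (hX : Fe (rho ω) (Nf ω) R X) (hY : Fe (rho ω) (Nf ω) R Y) :
    fnl ω (cfL P C S s i k ω) ⬝ᵥ X - fnl ω (cfL P C S s i k ω) ⬝ᵥ Y ≤
      2 * (2 * P.Th + 2 * kap + 2 * n + 4) := by
  have hn : (0 : ℝ) ≤ n := Nat.cast_nonneg n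
  have hK0 : 0 ≤ 2 * P.Th + 2 * kap + 2 * n + 4 := by linarith
  have h1 := fnl_le hω hX hK0 fun r _ =>
    (abs_le.1 (abs_cfL_le hω hT hk hd hK hS s i hk1 r)).2
  have h2 := le_fnl hω hY hK0 fun r _ =>
    (abs_le.1 (abs_cfL_le hω hT hk hd hK hS s i hk1 r)).1
  linarith

/-- Value of the natural objective at a point where all the columns of the side vanish. -/
theorem val_vertex (hω : CoinOk ω) (C : Cf m) (S : St m n) (s : Bool) {R : Finset (Row m)}
    {X : Fin (n + 1) → ℝ} (hX : Fe (rho ω) (Nf ω) R X)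
    (h0 : ∀ j ∈ C.I s, rho ω (some j) ⬝ᵥ X = 0) :
    fnl ω (cfG C S s ω) ⬝ᵥ X ≤ 2 * n + 2 := by
  classical
  have hn : (0 : ℝ) ≤ n := Nat.cast_nonneg n
  refine fnl_le hω hX (by linarith) fun r hr => ?_
  rw [cfG_eq]
  have h1 : cfI C S s ω r = 0 := by
    unfold cfI
    match r, hr with
    | none, _ => rfl
    | some j, hr =>
      show (if j ∈ C.I s ∧ j ∉ S.R then S.kc s j + ω (.nu s j) else 0) = 0
      rw [if_neg fun h => hr (h0 j h.1)]
  have h2 := cfB_le hω S s r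
  linarith

/-- Value of the leg objective at a deep point of the column `i`. -/
theorem val_deep {P : Par} {kap : ℝ} (hω : CoinOk ω) {C : Cf m} {S : St m n} (hT : 0 ≤ P.Th)
    (hS : StOk P kap C S) (s : Bool) {i : Fin m} (k : ℕ)
    {R : Finset (Row m)} {X : Fin (n + 1) → ℝ} (hX : Fe (rho ω) (Nf ω) R X)
    (h0 : ∀ j ∈ C.I s, j ∉ C.Y s → j ≠ i → rho ω (some j) ⬝ᵥ X = 0) :
    fnl ω (cfL P C S s i k ω) ⬝ᵥ X ≤
      2 * n + 4 + (P.Th - k * P.dl) * (rho ω (some i) ⬝ᵥ X) := by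
  classical
  have hn : (0 : ℝ) ≤ n := Nat.cast_nonneg n
  -- the columns
  have h1 : ∀ r : Row m, rho ω r ⬝ᵥ X ≠ 0 →
      cfI C S s ω r ≤ 2 + if r = some i then P.Th else 0 := by
    intro r hr
    by_cases hri : r = some i
    · rw [if_pos hri]
      have := cfI_le hω hT hS s r
      linarith
    · rw [if_neg hri, add_zero]
      unfold cfI
      match r, hr, hri with
      | none, _, _ => exact zero_le_two
      | some j, hr, hri =>
        show (if j ∈ C.I s ∧ j ∉ S.R then S.kc s j + ω (.nu s j) else 0) ≤ 2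
        have hnu := (hω (.nu s j) trivial).2
        split_ifs with h
        · by_cases hY : j ∈ C.Y s
          · rw [hS.prot s j hY]
            linarith
          · exact absurd (h0 j h.1 hY fun h' => hri (by rw [h'])) hr
        · exact zero_le_two
  have key : fnl ω (fun r => cfL P C S s i k ω r -
      if r = some i then P.Th - k * P.dl else 0) ⬝ᵥ X ≤ 2 * n + 4 := by
    refine fnl_le hω hX (by linarith) fun r hr => ?_
    have h2 := cfB_le hω S s r
    have h3 := h1 r hr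
    unfold cfL
    rw [cfG_eq]
    by_cases hri : r = some i
    · rw [if_pos hri] at h3 ⊢
      rw [if_pos hri]
      linarith
    · rw [if_neg hri] at h3 ⊢
      rw [if_neg hri]
      linarith
  have hsplit : fnl ω (cfL P C S s i k ω) ⬝ᵥ X =
      fnl ω (fun r => cfL P C S s i k ω r - if r = some i then P.Th - k * P.dl else 0) ⬝ᵥ X +
        (P.Th - k * P.dl) * (rho ω (some i) ⬝ᵥ X) := by
    rw [fnl_dotB, fnl_dotB]
    have h1 : ∀ r : Row m, cfL P C S s i k ω r * (rho ω r ⬝ᵥ X) =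
        (cfL P C S s i k ω r - if r = some i then P.Th - k * P.dl else 0) * (rho ω r ⬝ᵥ X) +
          if r = some i then (P.Th - k * P.dl) * (rho ω (some i) ⬝ᵥ X) else 0 := by
      intro r
      split_ifs with h
      · rw [h]; ring
      · ring
    rw [Finset.sum_congr rfl fun r _ => h1 r, Finset.sum_add_distrib]
    congr 1
    rw [Finset.sum_ite_eq' Finset.univ (some i) fun _ => (P.Th - k * P.dl) * (rho ω (some i) ⬝ᵥ X),
      if_pos (Finset.mem_univ _)]
  rw [hsplit]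
  linarith

end values

end Pool.Agent.Lib.S3.PL
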