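import Pool.Agent.Lib.S3.PL.Defs
import Pool.Agent.Lib.S3.MachNum

/-!
# The pair machine as a `Machine` (smoothed Hirsch, MP_4a5c02_co)

* `labs P C S`: the moves available in the state `S`; `wt`: number of boosted walls;
* `mach P C : Machine (Om m n) (St m n) (Mv m P)`;
* `Ok P C S`: the invariant of the states, kept by the moves (`ok_st0`, `ok_nxt`);
* `card_hv`, `card_lf`, `card_cb`, `card_cw`: numbers of moves;
* `mach_bound`: the union bound from the prices of the paid moves.
-/

set_option autoImplicit false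

open MeasureTheory Set
open scoped ENNReal

namespace Pool.Agent.Lib.S3.PL

open Pool.Agent.Lib.S3.Mach

variable {m n : ℕ}

/-- Positions: a leg step, or a leg step and an exit step. -/
theorem card_pos (P : Par) : Fintype.card (Pos P) ≤ (P.K1 + 1) * (P.K3 + 2) := by
  classical
  let f : Pos P → Fin (P.K1 + 1) × Fin (P.K3 + 2) := fun p => match p with
    | .leg k => (k, 0)
    | .exit k e => (k, e.succ)
  have hf : Function.Injective f := by
    intro p p' h
    cases p with
    | leg k =>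
      cases p' with
      | leg k' => simp only [f, Prod.mk.injEq, and_true] at h; rw [h]
      | exit k' e' =>
        simp only [f, Prod.mk.injEq] at h
        exact absurd h.2.symm (Fin.succ_ne_zero _)
    | exit k e =>
      cases p' with
      | leg k' =>
        simp only [f, Prod.mk.injEq] at h
        exact absurd h.2 (Fin.succ_ne_zero _)
      | exit k' e' =>
        simp only [f, Prod.mk.injEq, Fin.succ_inj] at h
        rw [h.1, h.2]
  calc Fintype.card (Pos P) ≤ Fintype.card (Fin (P.K1 + 1) × Fin (P.K3 + 2)) :=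
        Fintype.card_le_of_injective f hf
    _ = _ := by rw [Fintype.card_prod, Fintype.card_fin, Fintype.card_fin]

/-- All heavy moves. -/
noncomputable def labHV (m : ℕ) (P : Par) : Finset (Mv m P) :=
  ((Finset.univ : Finset (Bool × Fin m × Pos P)) ×ˢ
    (Finset.univ : Finset (Fin m)).powersetCard P.d0).image
      (fun x => Mv.hv x.1.1 x.1.2.1 x.1.2.2 x.2)

/-- All light moves on the exit line. -/
noncomputable def labLF (m : ℕ) (P : Par) : Finset (Mv m P) :=
  ((Finset.univ : Finset (Bool × Fin m × Fin (P.K1 + 1) × Fin (P.K3 + 1))) ×ˢ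
    (Finset.univ : Finset (Option (Fin m))).powersetCard P.q).image
      (fun x => Mv.lf x.1.1 x.1.2.1 x.1.2.2.1 x.1.2.2.2 x.2)

/-- All batches. -/
noncomputable def labCB (m : ℕ) (P : Par) : Finset (Mv m P) :=
  ((Finset.univ : Finset (Bool × Fin m × Fin (P.K1 + 1))) ×ˢ
    (Finset.univ : Finset (Option (Fin m))).powersetCard P.q).image
      (fun x => Mv.cb x.1.1 x.1.2.1 x.1.2.2 x.2)

/-- All closings by `c` walls. -/
noncomputable def labCWc (m : ℕ) (P : Par) (c : ℕ) : Finset (Mv m P) :=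
  ((Finset.univ : Finset (Bool × Fin m × Fin (P.K1 + 1))) ×ˢ
    (Finset.univ : Finset (Option (Fin m))).powersetCard c).image
      (fun x => Mv.cw x.1.1 x.1.2.1 x.1.2.2 x.2)

/-- All closings by walls. -/
noncomputable def labCW (m : ℕ) (P : Par) : Finset (Mv m P) :=
  (Finset.range (m + 1)).biUnion (fun c => labCWc m P (c + 1))

theorem mem_labHV {P : Par} {s : Bool} {i : Fin m} {p : Pos P} {D : Finset (Fin m)} :
    Mv.hv s i p D ∈ labHV m P ↔ D.card = P.d0 := by
  unfold labHV
  simp only [Finset.mem_image, Finset.mem_product, Finset.mem_univ, true_and,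
    Finset.mem_powersetCard_univ, Prod.exists, Mv.hv.injEq]
  constructor
  · rintro ⟨a, b, c, d, h, rfl, rfl, rfl, rfl⟩; exact h
  · intro h; exact ⟨s, i, p, D, h, rfl, rfl, rfl, rfl⟩

theorem mem_labLF {P : Par} {s : Bool} {i : Fin m} {k : Fin (P.K1 + 1)} {e : Fin (P.K3 + 1)}
    {T : Finset (Option (Fin m))} :
    Mv.lf s i k e T ∈ labLF m P ↔ T.card = P.q := by
  unfold labLF
  simp only [Finset.mem_image, Finset.mem_product, Finset.mem_univ, true_and,
    Finset.mem_powersetCard_univ, Prod.exists, Mv.lf.injEq]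
  constructor
  · rintro ⟨a, b, c, d, e', h, rfl, rfl, rfl, rfl, rfl⟩; exact h
  · intro h; exact ⟨s, i, k, e, T, h, rfl, rfl, rfl, rfl, rfl⟩

theorem mem_labCB {P : Par} {s : Bool} {i : Fin m} {k : Fin (P.K1 + 1)}
    {T : Finset (Option (Fin m))} :
    Mv.cb s i k T ∈ labCB m P ↔ T.card = P.q := by
  unfold labCB
  simp only [Finset.mem_image, Finset.mem_product, Finset.mem_univ, true_and,
    Finset.mem_powersetCard_univ, Prod.exists, Mv.cb.injEq]
  constructor
  · rintro ⟨a, b, c, d, h, rfl, rfl, rfl, rfl⟩; exact h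
  · intro h; exact ⟨s, i, k, T, h, rfl, rfl, rfl, rfl⟩

theorem mem_labCWc {P : Par} {s : Bool} {i : Fin m} {k : Fin (P.K1 + 1)} {c : ℕ}
    {W : Finset (Option (Fin m))} :
    Mv.cw s i k W ∈ labCWc m P c ↔ W.card = c := by
  unfold labCWc
  simp only [Finset.mem_image, Finset.mem_product, Finset.mem_univ, true_and,
    Finset.mem_powersetCard_univ, Prod.exists, Mv.cw.injEq]
  constructor
  · rintro ⟨a, b, c, d, h, rfl, rfl, rfl, rfl⟩; exact h
  · intro h; exact ⟨s, i, k, W, h, rfl, rfl, rfl, rfl⟩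

theorem mem_labCW {P : Par} {s : Bool} {i : Fin m} {k : Fin (P.K1 + 1)}
    {W : Finset (Option (Fin m))} :
    Mv.cw s i k W ∈ labCW m P ↔ W.Nonempty := by
  unfold labCW
  rw [Finset.mem_biUnion]
  constructor
  · rintro ⟨c, -, h⟩
    rw [mem_labCWc] at h
    rw [← Finset.card_pos]; omega
  · intro h
    rw [← Finset.card_pos] at h
    refine ⟨W.card - 1, ?_, ?_⟩
    · have h1 : W.card ≤ m + 1 := by
        have := Finset.card_le_univ W
        simpa using this
      rw [Finset.mem_range]; omega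
    · rw [mem_labCWc]; omega

theorem card_labHV (m : ℕ) (P : Par) :
    (labHV m P).card ≤ 2 * m * ((P.K1 + 1) * (P.K3 + 2)) * m ^ P.d0 := by
  refine Finset.card_image_le.trans ?_
  rw [Finset.card_product, Finset.card_univ, Fintype.card_prod, Fintype.card_prod,
    Fintype.card_bool, Fintype.card_fin]
  refine Nat.mul_le_mul ?_ ?_
  · calc 2 * (m * Fintype.card (Pos P)) ≤ 2 * (m * ((P.K1 + 1) * (P.K3 + 2))) :=
          Nat.mul_le_mul le_rfl (Nat.mul_le_mul le_rfl (card_pos P))
      _ = _ := by ring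
  · have := card_powersetCard_le (Fin m) P.d0
    rwa [Fintype.card_fin] at this

theorem card_labLF (m : ℕ) (P : Par) :
    (labLF m P).card ≤ 2 * m * ((P.K1 + 1) * (P.K3 + 1)) * (m + 1) ^ P.q := by
  refine Finset.card_image_le.trans ?_
  rw [Finset.card_product, Finset.card_univ, Fintype.card_prod, Fintype.card_prod,
    Fintype.card_prod, Fintype.card_bool, Fintype.card_fin, Fintype.card_fin, Fintype.card_fin]
  refine Nat.mul_le_mul (le_of_eq (by ring)) ?_
  have := card_powersetCard_le (Option (Fin m)) P.q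
  rwa [Fintype.card_option, Fintype.card_fin] at this

theorem card_labCB (m : ℕ) (P : Par) :
    (labCB m P).card ≤ 2 * m * (P.K1 + 1) * (m + 1) ^ P.q := by
  refine Finset.card_image_le.trans ?_
  rw [Finset.card_product, Finset.card_univ, Fintype.card_prod, Fintype.card_prod,
    Fintype.card_bool, Fintype.card_fin, Fintype.card_fin]
  refine Nat.mul_le_mul (le_of_eq (by ring)) ?_
  have := card_powersetCard_le (Option (Fin m)) P.q
  rwa [Fintype.card_option, Fintype.card_fin] at this

theorem card_labCWc (m : ℕ) (P : Par) (c : ℕ) :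
    (labCWc m P c).card ≤ 2 * m * (P.K1 + 1) * (m + 1) ^ c := by
  refine Finset.card_image_le.trans ?_
  rw [Finset.card_product, Finset.card_univ, Fintype.card_prod, Fintype.card_prod,
    Fintype.card_bool, Fintype.card_fin, Fintype.card_fin]
  refine Nat.mul_le_mul (le_of_eq (by ring)) ?_
  have := card_powersetCard_le (Option (Fin m)) c
  rwa [Fintype.card_option, Fintype.card_fin] at this

/-- The weight of a move: the number of walls that are boosted. -/
def wt {P : Par} : Mv m P → ℕ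
  | .cw _ _ _ W => W.card
  | _ => 0

open Classical in
/-- The moves available in a state. -/
noncomputable def labs (P : Par) (C : Cf m) (S : St m n) : Finset (Mv m P) :=
  (labHV m P ∪ labLF m P ∪ labCB m P ∪ labCW m P).filter (fun l => OkCol C S l.col)

/-- The pair machine. -/
noncomputable def mach (P : Par) (C : Cf m) : Machine (Om m n) (St m n) (Mv m P) where
  labs := labs P C
  step := nxt P
  ev := Ev P C
  wt := wt

theorem mem_labs {P : Par} {C : Cf m} {S : St m n} {l : Mv m P} :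
    l ∈ labs P C S ↔ (l ∈ labHV m P ∨ l ∈ labLF m P ∨ l ∈ labCB m P ∨ l ∈ labCW m P) ∧
      OkCol C S l.col := by
  classical
  unfold labs
  rw [Finset.mem_filter, Finset.mem_union, Finset.mem_union, Finset.mem_union]
  tauto

theorem hv_mem_labs {P : Par} {C : Cf m} {S : St m n} {s : Bool} {i : Fin m} {p : Pos P}
    {D : Finset (Fin m)} :
    Mv.hv s i p D ∈ labs P C S ↔ D.card = P.d0 ∧ OkCol C S i := by
  rw [mem_labs]
  have h1 : Mv.hv s i p D ∉ labLF m P := by unfold labLF; simp
  have h2 : Mv.hv s i p D ∉ labCB m P := by unfold labCB; simp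
  have h3 : Mv.hv s i p D ∉ labCW m P := by unfold labCW labCWc; simp
  simp only [h1, h2, h3, or_false, mem_labHV]
  rfl

theorem lf_mem_labs {P : Par} {C : Cf m} {S : St m n} {s : Bool} {i : Fin m}
    {k : Fin (P.K1 + 1)} {e : Fin (P.K3 + 1)} {T : Finset (Option (Fin m))} :
    Mv.lf s i k e T ∈ labs P C S ↔ T.card = P.q ∧ OkCol C S i := by
  rw [mem_labs]
  have h1 : Mv.lf s i k e T ∉ labHV m P := by unfold labHV; simp
  have h2 : Mv.lf s i k e T ∉ labCB m P := by unfold labCB; simp
  have h3 : Mv.lf s i k e T ∉ labCW m P := by unfold labCW labCWc; simp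
  simp only [h1, h2, h3, or_false, false_or, mem_labLF]
  rfl

theorem cb_mem_labs {P : Par} {C : Cf m} {S : St m n} {s : Bool} {i : Fin m}
    {k : Fin (P.K1 + 1)} {T : Finset (Option (Fin m))} :
    Mv.cb s i k T ∈ labs P C S ↔ T.card = P.q ∧ OkCol C S i := by
  rw [mem_labs]
  have h1 : Mv.cb s i k T ∉ labHV m P := by unfold labHV; simp
  have h2 : Mv.cb s i k T ∉ labLF m P := by unfold labLF; simp
  have h3 : Mv.cb s i k T ∉ labCW m P := by unfold labCW labCWc; simp
  simp only [h1, h2, h3, or_false, false_or, mem_labCB]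
  rfl

theorem cw_mem_labs {P : Par} {C : Cf m} {S : St m n} {s : Bool} {i : Fin m}
    {k : Fin (P.K1 + 1)} {W : Finset (Option (Fin m))} :
    Mv.cw s i k W ∈ labs P C S ↔ W.Nonempty ∧ OkCol C S i := by
  rw [mem_labs]
  have h1 : Mv.cw s i k W ∉ labHV m P := by unfold labHV; simp
  have h2 : Mv.cw s i k W ∉ labLF m P := by unfold labLF; simp
  have h3 : Mv.cw s i k W ∉ labCB m P := by unfold labCB; simp
  simp only [h1, h2, h3, false_or, mem_labCW]
  rfl

/-- The invariant of the states. -/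
structure Ok (P : Par) (C : Cf m) (S : St m n) : Prop where
  Rbu : S.R ⊆ S.bu
  bu : ∀ j ∈ S.bu, j ∈ C.I false ∧ j ∈ C.I true ∧ j ∉ C.Y false ∧ j ∉ C.Y true
  card : S.bu.card = S.t
  copy : ∀ s r l, (r, l) ∈ S.B s → (l : ℕ) < S.t
  kcY : ∀ s, ∀ j ∈ C.Y s, S.kc s j = 0
  kcU : ∀ s j, j ∉ C.Y s → j ∉ S.bu → S.kc s j = P.Th
  kcb : ∀ s, ∀ j ∈ S.bu, ∃ k : ℕ, k ≤ P.K1 ∧ S.kc s j = P.Th - k * P.dl

theorem Ok.t_le {P : Par} {C : Cf m} {S : St m n} (h : Ok P C S) (hC : (C.I false).card = n) :
    S.t ≤ n := by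
  have h1 : S.bu.card ≤ (C.I false).card := Finset.card_le_card fun j hj => (h.bu j hj).1
  have h2 := h.card
  omega

/-- A move is possible only before all columns are burnt. -/
theorem Ok.t_lt {P : Par} {C : Cf m} {S : St m n} (h : Ok P C S) (hC : (C.I false).card = n)
    {i : Fin m} (hi : OkCol C S i) : S.t < n := by
  have h1 : S.bu.card < (C.I false).card := by
    refine Finset.card_lt_card ⟨fun j hj => (h.bu j hj).1, fun hsub => ?_⟩
    exact hi.2.2.2.1 (hsub hi.1)
  have h2 := h.card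
  omega

theorem ok_st0 (P : Par) (C : Cf m) : Ok P C (st0 P C : St m n) where
  Rbu := Finset.empty_subset _
  bu := by intro j hj; exact absurd hj (Finset.notMem_empty _)
  card := rfl
  copy := by intro s r l h; exact absurd h (Finset.notMem_empty _)
  kcY := by intro s j hj; exact if_pos hj
  kcU := by intro s j hj _; exact if_neg hj
  kcb := by intro s j hj; exact absurd hj (Finset.notMem_empty _)

/-- The state after a failed leg. -/
theorem ok_fail {P : Par} {C : Cf m} {S : St m n} (h : Ok P C S) {i : Fin m}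
    (hi : OkCol C S i) (S' : St m n) (hR : S'.R = insert i S.R) (hbu : S'.bu = insert i S.bu)
    (hkc : S'.kc = S.kc) (hB : S'.B = S.B) (ht : S'.t = S.t + 1) : Ok P C S' where
  Rbu := by rw [hR, hbu]; exact Finset.insert_subset_insert _ h.Rbu
  bu := by
    intro j hj
    rw [hbu, Finset.mem_insert] at hj
    rcases hj with rfl | hj
    · exact ⟨hi.1, hi.2.1, hi.2.2.2.2.1, hi.2.2.2.2.2⟩
    · exact h.bu j hj
  card := by rw [hbu, ht, Finset.card_insert_of_notMem hi.2.2.2.1, h.card]
  copy := by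
    intro s r l hl
    rw [hB] at hl
    rw [ht]
    exact Nat.lt_succ_of_lt (h.copy s r l hl)
  kcY := by intro s j hj; rw [hkc]; exact h.kcY s j hj
  kcU := by
    intro s j hj hb
    rw [hkc]
    exact h.kcU s j hj fun hc => hb (by rw [hbu]; exact Finset.mem_insert_of_mem hc)
  kcb := by
    intro s j hj
    rw [hkc]
    rw [hbu, Finset.mem_insert] at hj
    rcases hj with rfl | hj
    · refine ⟨0, Nat.zero_le _, ?_⟩
      have hY : j ∉ C.Y s := by
        cases s
        · exact hi.2.2.2.2.1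
        · exact hi.2.2.2.2.2
      rw [h.kcU s j hY hi.2.2.2.1]
      simp
    · exact h.kcb s j hj

/-- The state after a closed leg. -/
theorem ok_close {P : Par} {C : Cf m} {S : St m n} (h : Ok P C S) {i : Fin m}
    (hi : OkCol C S i) (hC : (C.I false).card = n) (s : Bool) (k : Fin (P.K1 + 1))
    (T : Finset (Row m)) (S' : St m n)
    (hR : S'.R = S.R) (hbu : S'.bu = insert i S.bu)
    (hkc : ∀ s' j, S'.kc s' j =
      if s' = s ∧ j = i then S.kc s' j - ((k : ℕ) : ℝ) * P.dl else S.kc s' j)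
    (hB : ∀ s', S'.B s' = if s' = s then S.B s' ∪ T ×ˢ {Fin.ofNat (n + 1) S.t} else S.B s')
    (ht : S'.t = S.t + 1) : Ok P C S' where
  Rbu := by rw [hR, hbu]; exact h.Rbu.trans (Finset.subset_insert _ _)
  bu := by
    intro j hj
    rw [hbu, Finset.mem_insert] at hj
    rcases hj with rfl | hj
    · exact ⟨hi.1, hi.2.1, hi.2.2.2.2.1, hi.2.2.2.2.2⟩
    · exact h.bu j hj
  card := by rw [hbu, ht, Finset.card_insert_of_notMem hi.2.2.2.1, h.card]
  copy := by
    intro s' r l hl
    rw [hB] at hl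
    rw [ht]
    split_ifs at hl with hs
    · rw [Finset.mem_union, Finset.mem_product, Finset.mem_singleton] at hl
      rcases hl with hl | hl
      · exact Nat.lt_succ_of_lt (h.copy s' r l hl)
      · have h2 : l = Fin.ofNat (n + 1) S.t := hl.2
        have h1 := h.t_lt hC hi
        rw [h2, Fin.val_ofNat, Nat.mod_eq_of_lt (by omega)]
        omega
    · exact Nat.lt_succ_of_lt (h.copy s' r l hl)
  kcY := by
    intro s' j hj
    rw [hkc]
    rw [if_neg, h.kcY s' j hj]
    rintro ⟨-, rfl⟩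
    cases s'
    · exact hi.2.2.2.2.1 hj
    · exact hi.2.2.2.2.2 hj
  kcU := by
    intro s' j hj hb
    rw [hbu, Finset.mem_insert, not_or] at hb
    rw [hkc, if_neg (fun hc => hb.1 hc.2)]
    exact h.kcU s' j hj hb.2
  kcb := by
    intro s' j hj
    rw [hbu, Finset.mem_insert] at hj
    have hY : i ∉ C.Y s' := by
      cases s'
      · exact hi.2.2.2.2.1
      · exact hi.2.2.2.2.2
    by_cases hji : j = i
    · subst hji
      by_cases hs : s' = s
      · refine ⟨k, Nat.lt_succ_iff.1 k.2, ?_⟩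
        rw [hkc, if_pos ⟨hs, rfl⟩, h.kcU s' j hY hi.2.2.2.1]
      · refine ⟨0, Nat.zero_le _, ?_⟩
        rw [hkc, if_neg (fun hc => hs hc.1), h.kcU s' j hY hi.2.2.2.1]
        simp
    · rw [hkc, if_neg (fun hc => hji hc.2)]
      exact h.kcb s' j (hj.resolve_left hji)

/-- The invariant is kept by the moves. -/
theorem ok_nxt {P : Par} {C : Cf m} (hC : (C.I false).card = n) (S : St m n) (l : Mv m P)
    (h : Ok P C S) (hl : l ∈ labs P C S) : Ok P C (nxt P S l) := by
  have hi : OkCol C S l.col := (mem_labs.1 hl).2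
  cases l with
  | hv s i p D => exact ok_fail h hi _ rfl rfl rfl rfl rfl
  | lf s i k e T => exact ok_fail h hi _ rfl rfl rfl rfl rfl
  | cb s i k T =>
    exact ok_close h hi hC s k T _ rfl rfl (fun _ _ => rfl) (fun _ => rfl) rfl
  | cw s i k W =>
    exact ok_close h hi hC s k W _ rfl rfl (fun _ _ => rfl) (fun _ => rfl) rfl

/-- The number of closings by `c` walls. -/
theorem card_cw (P : Par) (C : Cf m) (S : St m n) (hm : 1 ≤ m) (c : ℕ) :
    ((labs P C S).filter (fun l => wt l = c + 1)).card ≤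
      (2 * m * (P.K1 + 1) * (m + 1)) ^ (c + 1) := by
  have hsub : (labs P C S).filter (fun l => wt l = c + 1) ⊆ labCWc m P (c + 1) := by
    intro l hl
    rw [Finset.mem_filter] at hl
    obtain ⟨hl, hw⟩ := hl
    cases l with
    | hv s i p D => exact absurd hw (by simp [wt])
    | lf s i k e T => exact absurd hw (by simp [wt])
    | cb s i k T => exact absurd hw (by simp [wt])
    | cw s i k W => rw [mem_labCWc]; exact hw
  refine (Finset.card_le_card hsub).trans ((card_labCWc m P (c + 1)).trans ?_)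
  rw [mul_pow]
  refine Nat.mul_le_mul ?_ le_rfl
  have h1 : 1 ≤ 2 * m * (P.K1 + 1) :=
    Nat.one_le_iff_ne_zero.2 (by positivity)
  exact Nat.le_self_pow (Nat.succ_ne_zero _) _

/-- The prices of the paid moves. -/
def cost {P : Par} (a b c : ℝ≥0∞) : Mv m P → ℝ≥0∞
  | .hv _ _ _ _ => a
  | .lf _ _ _ _ _ => b
  | .cb _ _ _ _ => c
  | .cw _ _ _ _ => 0

/-- The total price of the paid moves in a state. -/
theorem sum_cost_le (P : Par) (C : Cf m) (S : St m n) (a b c : ℝ≥0∞) :
    ∑ l ∈ (labs P C S).filter (fun l => wt l = 0), cost a b c l ≤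
      ((labHV m P).card : ℝ≥0∞) * a + ((labLF m P).card : ℝ≥0∞) * b +
        ((labCB m P).card : ℝ≥0∞) * c := by
  classical
  have hsub : (labs P C S).filter (fun l => wt l = 0) ⊆ labHV m P ∪ labLF m P ∪ labCB m P := by
    intro l hl
    rw [Finset.mem_filter] at hl
    obtain ⟨hl, hw⟩ := hl
    rcases (mem_labs.1 hl).1 with h | h | h | h
    · exact Finset.mem_union_left _ (Finset.mem_union_left _ h)
    · exact Finset.mem_union_left _ (Finset.mem_union_right _ h)
    · exact Finset.mem_union_right _ h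
    · exfalso
      cases l with
      | hv s i p D => unfold labCW labCWc at h; simp at h
      | lf s i k e T => unfold labCW labCWc at h; simp at h
      | cb s i k T => unfold labCW labCWc at h; simp at h
      | cw s i k W =>
        rw [mem_labCW, ← Finset.card_pos] at h
        have : W.card = 0 := hw
        omega
  have hA : ∀ l ∈ labHV m P, cost a b c l = a := by
    intro l hl
    unfold labHV at hl
    rw [Finset.mem_image] at hl
    obtain ⟨x, -, rfl⟩ := hl
    rfl
  have hB : ∀ l ∈ labLF m P, cost a b c l = b := by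
    intro l hl
    unfold labLF at hl
    rw [Finset.mem_image] at hl
    obtain ⟨x, -, rfl⟩ := hl
    rfl
  have hCc : ∀ l ∈ labCB m P, cost a b c l = c := by
    intro l hl
    unfold labCB at hl
    rw [Finset.mem_image] at hl
    obtain ⟨x, -, rfl⟩ := hl
    rfl
  calc ∑ l ∈ (labs P C S).filter (fun l => wt l = 0), cost a b c l
      ≤ ∑ l ∈ labHV m P ∪ labLF m P ∪ labCB m P, cost a b c l :=
        Finset.sum_le_sum_of_subset hsub
    _ ≤ ∑ l ∈ labHV m P ∪ labLF m P, cost a b c l + ∑ l ∈ labCB m P, cost a b c l := by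
        rw [← Finset.sum_union_inter]
        exact le_self_add
    _ ≤ (∑ l ∈ labHV m P, cost a b c l + ∑ l ∈ labLF m P, cost a b c l) +
        ∑ l ∈ labCB m P, cost a b c l := by
        refine add_le_add ?_ le_rfl
        rw [← Finset.sum_union_inter]
        exact le_self_add
    _ = _ := by
        rw [Finset.sum_congr rfl hA, Finset.sum_congr rfl hB, Finset.sum_congr rfl hCc,
          Finset.sum_const, Finset.sum_const, Finset.sum_const, nsmul_eq_mul, nsmul_eq_mul,
          nsmul_eq_mul]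

/-- **The union bound of the pair machine**, with boxes up to the index `K`. `a`, `b`, `c` are the
prices of a heavy window, a light node on the exit line and a batch. -/
theorem mach_bound_le (μ : Measure (Om m n)) (P : Par) (C : Cf m) (hm : 1 ≤ m)
    (hC : (C.I false).card = n) (G : ℕ → Set (Om m n)) (hG : ∀ k, G k ⊆ G (k + 1))
    (a b c A : ℝ≥0∞) (hA1 : A ≤ 1)
    (hA : (2 * m * ((P.K1 + 1) * (P.K3 + 2)) * m ^ P.d0 : ℕ) * a +
      (2 * m * ((P.K1 + 1) * (P.K3 + 1)) * (m + 1) ^ P.q : ℕ) * b +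
      (2 * m * (P.K1 + 1) * (m + 1) ^ P.q : ℕ) * c ≤ A)
    (K : ℕ)
    (hhv : ∀ (k : ℕ) (S : St m n) s i p D, Ok P C S → OkCol C S i → D.card = P.d0 → ∀ j w,
      k + 1 + j ≤ K →
      μ (EvHV P C S s i p D ∩ BadU (mach P C) j w (nxt P S (.hv s i p D)) ∩ G k) ≤
        a * μ (BadU (mach P C) j w (nxt P S (.hv s i p D)) ∩ G (k + 1)))
    (hlf : ∀ (k : ℕ) (S : St m n) s i (k' : Fin (P.K1 + 1)) (e : Fin (P.K3 + 1)) T, Ok P C S →
      OkCol C S i → T.card = P.q → ∀ j w, k + 1 + j ≤ K →
      μ (EvLF P C S s i k' e T ∩ BadU (mach P C) j w (nxt P S (.lf s i k' e T)) ∩ G k) ≤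
        b * μ (BadU (mach P C) j w (nxt P S (.lf s i k' e T)) ∩ G (k + 1)))
    (hcb : ∀ (k : ℕ) (S : St m n) s i (k' : Fin (P.K1 + 1)) T, Ok P C S →
      OkCol C S i → T.card = P.q → ∀ j w, k + 1 + j ≤ K →
      μ (EvCB P C S s i k' T ∩ BadU (mach P C) j w (nxt P S (.cb s i k' T)) ∩ G k) ≤
        c * μ (BadU (mach P C) j w (nxt P S (.cb s i k' T)) ∩ G (k + 1)))
    (j w : ℕ) (hjK : j ≤ K) :
    μ (BadU (mach P C) j w (st0 P C) ∩ G 0) ≤
      fac A ((2 * m * (P.K1 + 1) * (m + 1) : ℕ) : ℝ≥0∞) j w * μ (G j) := by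
  have hB1 : (1 : ℝ≥0∞) ≤ ((2 * m * (P.K1 + 1) * (m + 1) : ℕ) : ℝ≥0∞) := by
    have : 1 ≤ 2 * m * (P.K1 + 1) * (m + 1) := Nat.one_le_iff_ne_zero.2 (by positivity)
    exact_mod_cast this
  have key := bad_bound_le μ (mach P C) (Ok P C) (fun S l h hl => ok_nxt hC S l h hl) G hG A
    ((2 * m * (P.K1 + 1) * (m + 1) : ℕ) : ℝ≥0∞) hA1 hB1 (fun _ l => cost a b c l) K ?_ ?_ ?_ j w 0
    (st0 P C) (ok_st0 P C) (by rwa [Nat.zero_add])
  · rwa [Nat.zero_add] at key
  · intro k S l hS hl hw j w hkK
    cases l with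
    | hv s i p D =>
      obtain ⟨h1, h2⟩ := hv_mem_labs.1 hl
      exact hhv k S s i p D hS h2 h1 j w hkK
    | lf s i k' e T =>
      obtain ⟨h1, h2⟩ := lf_mem_labs.1 hl
      exact hlf k S s i k' e T hS h2 h1 j w hkK
    | cb s i k' T =>
      obtain ⟨h1, h2⟩ := cb_mem_labs.1 hl
      exact hcb k S s i k' T hS h2 h1 j w hkK
    | cw s i k' W =>
      exfalso
      obtain ⟨h1, h2⟩ := cw_mem_labs.1 hl
      rw [← Finset.card_pos] at h1
      have : W.card = 0 := hw
      omega
  · intro S hS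
    refine (sum_cost_le P C S a b c).trans (le_trans ?_ hA)
    refine add_le_add (add_le_add ?_ ?_) ?_
    · exact mul_le_mul' (by exact_mod_cast card_labHV m P) le_rfl
    · exact mul_le_mul' (by exact_mod_cast card_labLF m P) le_rfl
    · exact mul_le_mul' (by exact_mod_cast card_labCB m P) le_rfl
  · intro S hS d
    have := card_cw P C S hm d
    exact_mod_cast this

/-- **The union bound of the pair machine.** `a`, `b`, `c` are the prices of a heavy window, a
light node on the exit line and a batch. -/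
theorem mach_bound (μ : Measure (Om m n)) (P : Par) (C : Cf m) (hm : 1 ≤ m)
    (hC : (C.I false).card = n) (G : ℕ → Set (Om m n)) (hG : ∀ k, G k ⊆ G (k + 1))
    (a b c A : ℝ≥0∞) (hA1 : A ≤ 1)
    (hA : (2 * m * ((P.K1 + 1) * (P.K3 + 2)) * m ^ P.d0 : ℕ) * a +
      (2 * m * ((P.K1 + 1) * (P.K3 + 1)) * (m + 1) ^ P.q : ℕ) * b +
      (2 * m * (P.K1 + 1) * (m + 1) ^ P.q : ℕ) * c ≤ A)
    (hhv : ∀ (k : ℕ) (S : St m n) s i p D, Ok P C S → OkCol C S i → D.card = P.d0 → ∀ j w,
      μ (EvHV P C S s i p D ∩ BadU (mach P C) j w (nxt P S (.hv s i p D)) ∩ G k) ≤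
        a * μ (BadU (mach P C) j w (nxt P S (.hv s i p D)) ∩ G (k + 1)))
    (hlf : ∀ (k : ℕ) (S : St m n) s i (k' : Fin (P.K1 + 1)) (e : Fin (P.K3 + 1)) T, Ok P C S →
      OkCol C S i → T.card = P.q → ∀ j w,
      μ (EvLF P C S s i k' e T ∩ BadU (mach P C) j w (nxt P S (.lf s i k' e T)) ∩ G k) ≤
        b * μ (BadU (mach P C) j w (nxt P S (.lf s i k' e T)) ∩ G (k + 1)))
    (hcb : ∀ (k : ℕ) (S : St m n) s i (k' : Fin (P.K1 + 1)) T, Ok P C S →
      OkCol C S i → T.card = P.q → ∀ j w,
      μ (EvCB P C S s i k' T ∩ BadU (mach P C) j w (nxt P S (.cb s i k' T)) ∩ G k) ≤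
        c * μ (BadU (mach P C) j w (nxt P S (.cb s i k' T)) ∩ G (k + 1)))
    (j w : ℕ) :
    μ (BadU (mach P C) j w (st0 P C) ∩ G 0) ≤
      fac A ((2 * m * (P.K1 + 1) * (m + 1) : ℕ) : ℝ≥0∞) j w * μ (G j) :=
  mach_bound_le μ P C hm hC G hG a b c A hA1 hA j
    (fun k S s i p D h1 h2 h3 j w _ => hhv k S s i p D h1 h2 h3 j w)
    (fun k S s i k' e T h1 h2 h3 j w _ => hlf k S s i k' e T h1 h2 h3 j w)
    (fun k S s i k' T h1 h2 h3 j w _ => hcb k S s i k' T h1 h2 h3 j w) j w le_rfl

end Pool.Agent.Lib.S3.PL
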