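import Pool.Agent.Lib.S3.PL.Num
import Pool.Agent.Lib.S3.PL.Bounds
import Pool.Agent.Lib.S3.PL.Mach

/-!
# Deterministic numerics of the pair machine (smoothed Hirsch, MP_4a5c02_co)

The inequalities of `Leg.Hyp`, of the private column and of the hub for the parameters `parM`.
-/

set_option autoImplicit false

namespace Pool.Agent.Lib.S3.PL

open Pool.Agent.Lib.S3.Leg (Fe Mn)

variable {m n : ℕ} {C0 cg ce M : ℕ}

/-- The invariants `Ok` of the machine imply the invariants of the costs. -/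
theorem stOk_of_ok {P : Par} {kap : ℝ} (hk : 0 ≤ kap) (hT : 0 ≤ P.Th) (hd : 0 ≤ P.dl)
    (hK : (P.K1 : ℝ) * P.dl ≤ P.Th + kap) {C : Cf m} {S : St m n} (h : Ok P C S) :
    StOk P kap C S := by
  have key : ∀ s j, -kap ≤ S.kc s j ∧ S.kc s j ≤ P.Th := by
    intro s j
    by_cases hY : j ∈ C.Y s
    · rw [h.kcY s j hY]
      constructor <;> linarith
    · by_cases hb : j ∈ S.bu
      · obtain ⟨k, hk1, hk2⟩ := h.kcb s j hb
        rw [hk2]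
        have h1 : 0 ≤ (k : ℝ) * P.dl := mul_nonneg (Nat.cast_nonneg _) hd
        have h2 : (k : ℝ) * P.dl ≤ P.Th + kap := by
          refine le_trans (mul_le_mul_of_nonneg_right ?_ hd) hK
          exact_mod_cast hk1
        constructor <;> linarith
      · rw [h.kcU s j hY hb]
        constructor <;> linarith
  exact ⟨h.Rbu, fun s j => (key s j).1, fun s j => (key s j).2,
    fun s j hb hY => h.kcU s j hY hb, h.kcY⟩

/-- The same for `parM`. -/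
theorem stOk_parM (hM : 5 ≤ M) {C : Cf m} {S : St m n} (h : Ok (parM C0 cg ce M) C S) :
    StOk (parM C0 cg ce M) (kaM C0 cg ce M) C S :=
  stOk_of_ok (kaM_pos hM).le (parM_Th_pos hM).le (parM_dl_pos hM).le (parM_K1_dl hM).le h

/-- The condition of `Gi_diff`. -/
theorem parM_four (hM : 5 ≤ M) : 4 ≤ (parM C0 cg ce M).Dd * alM C0 cg ce M := by
  rw [parM_Dd_al hM]
  have := M_five hM
  nlinarith

/-- The field `G` of `Leg.Hyp`. -/
theorem parM_G (hM : 5 ≤ M) {ω : Om m n} (hω : CoinOk ω) {R : Finset (Row m)} (i : Fin m)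
    (X Y : Fin (n + 1) → ℝ) (hX : Fe (rho ω) (Nf ω) R X) (hY : Fe (rho ω) (Nf ω) R Y) :
    2 * (Gi ω i ⬝ᵥ X - Gi ω i ⬝ᵥ Y) ≤ (parM C0 cg ce M).Dd * alM C0 cg ce M :=
  Gi_diff hω (parM_four hM) i X Y hX hY

theorem kaM_le_Th (hM : 5 ≤ M) : kaM C0 cg ce M ≤ (parM C0 cg ce M).Th :=
  pow_le hM (by unfold xth; omega)

theorem M_le_Th (hM : 5 ≤ M) : (M : ℝ) ≤ (parM C0 cg ce M).Th := by
  calc (M : ℝ) = (M : ℝ) ^ 1 := (pow_one _).symm
    _ ≤ (M : ℝ) ^ xth C0 cg ce := pow_le hM (by unfold xth; omega)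

theorem cast_n_le (hn : n + 1 ≤ M) : (n : ℝ) + 1 ≤ M := by exact_mod_cast hn

/-- The bound of the leg objectives. -/
theorem parM_size (hM : 5 ≤ M) (hn : n + 1 ≤ M) :
    2 * (2 * (parM C0 cg ce M).Th + 2 * kaM C0 cg ce M + 2 * n + 4) ≤
      (M : ℝ) ^ (xth C0 cg ce + 4) := by
  have h1 := kaM_le_Th (C0 := C0) (cg := cg) (ce := ce) hM
  have h2 := M_le_Th (C0 := C0) (cg := cg) (ce := ce) hM
  have h3 := cast_n_le hn
  have h5 := M_five hM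
  have h6 : (25 : ℝ) ≤ (M : ℝ) ^ 2 := by nlinarith
  have h7 : (M : ℝ) ^ 2 ≤ (M : ℝ) ^ 4 := pow_le hM (by norm_num)
  have h8 : (M : ℝ) ^ (xth C0 cg ce + 4) = (parM C0 cg ce M).Th * (M : ℝ) ^ 4 := by
    rw [pow_add]; rfl
  have h9 : 0 < (parM C0 cg ce M).Th := parM_Th_pos hM
  rw [h8]
  nlinarith

/-- The field `win2` of `Leg.Hyp`. -/
theorem parM_win2' (hM : 5 ≤ M) (hn : n + 1 ≤ M) {ω : Om m n} (hω : CoinOk ω) {C : Cf m}
    {S : St m n} (hS : StOk (parM C0 cg ce M) (kaM C0 cg ce M) C S) (s : Bool) (i : Fin m) {k : ℕ}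
    (hk1 : k ≤ (parM C0 cg ce M).K1) {R : Finset (Row m)} (X Y : Fin (n + 1) → ℝ)
    (hX : Fe (rho ω) (Nf ω) R X) (hY : Fe (rho ω) (Nf ω) R Y) :
    fnl ω (cfL (parM C0 cg ce M) C S s i k ω) ⬝ᵥ X -
      fnl ω (cfL (parM C0 cg ce M) C S s i k ω) ⬝ᵥ Y ≤
      ((parM C0 cg ce M).K3 : ℝ) *
        ((parM C0 cg ce M).ta2 * ((parM C0 cg ce M).ep * (alM C0 cg ce M / 2))) :=
  ((L_diff hω (parM_Th_pos hM).le (kaM_pos hM).le (parM_dl_pos hM).le (parM_K1_dl hM).le hS s i hk1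
    X Y hX hY).trans (parM_size hM hn)).trans (parM_win2 hM)

/-- The loss of the value in one closing. -/
noncomputable def drM (C0 cg ce M : ℕ) : ℝ :=
  ((parM C0 cg ce M).K1 : ℝ) * (parM C0 cg ce M).dl * alM C0 cg ce M + (parM C0 cg ce M).dl

theorem drM_nonneg (hM : 5 ≤ M) : 0 ≤ drM C0 cg ce M := by
  unfold drM
  have h1 := (parM_dl_pos (C0 := C0) (cg := cg) (ce := ce) hM).le
  have h2 := (alM_pos (C0 := C0) (cg := cg) (ce := ce) hM).le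
  exact add_nonneg (mul_nonneg (mul_nonneg (Nat.cast_nonneg _) h1) h2) h1

theorem drM_le (hM : 5 ≤ M) : drM C0 cg ce M ≤ ((M : ℝ) ^ 2)⁻¹ := by
  unfold drM
  rw [parM_K1_dl hM]
  have h1 := parM_loss (C0 := C0) (cg := cg) (ce := ce) hM
  have h2 : (parM C0 cg ce M).dl ≤ ((M : ℝ) ^ 3)⁻¹ :=
    (parM_dl_le (C0 := C0) (cg := cg) (ce := ce) hM).trans (inv_pow_le hM (by norm_num))
  have h4 : (3 : ℝ) * ((M : ℝ) ^ 3)⁻¹ ≤ ((M : ℝ) ^ 2)⁻¹ :=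
    const_mul_inv_pow_le (k := 1) hM (by norm_num) (by norm_num)
  linarith

/-- The total loss. -/
theorem drM_total (hM : 5 ≤ M) {t : ℕ} (ht : t ≤ M) : (t : ℝ) * drM C0 cg ce M ≤ 1 := by
  have h0 := M_pos hM
  have h1 : (t : ℝ) ≤ M := by exact_mod_cast ht
  have h2 := drM_le (C0 := C0) (cg := cg) (ce := ce) hM
  have h3 := drM_nonneg (C0 := C0) (cg := cg) (ce := ce) hM
  calc (t : ℝ) * drM C0 cg ce M ≤ M * ((M : ℝ) ^ 2)⁻¹ := by gcongr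
    _ = (M : ℝ)⁻¹ := by
        rw [pow_two, mul_inv, ← mul_assoc, mul_inv_cancel₀ h0.ne', one_mul]
    _ ≤ 1 := inv_le_one_of_one_le₀ (M_one hM)

/-- The field `pv` of `Leg.Hyp`: numerical part. -/
theorem parM_pv (hM : 5 ≤ M) (hn : n + 1 ≤ M) {x h : ℝ} (hx : s4M C0 cg ce M ≤ x) (h1 : h ≤ 1) :
    2 * (n : ℝ) + 4 + ((parM C0 cg ce M).Th - ((parM C0 cg ce M).K1 : ℝ) *
      (parM C0 cg ce M).dl) * x ≤
      -h - ((parM C0 cg ce M).K1 * (parM C0 cg ce M).dl) * alM C0 cg ce M := by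
  have h2 := drM_le (C0 := C0) (cg := cg) (ce := ce) hM
  have h3 : ((parM C0 cg ce M).K1 : ℝ) * (parM C0 cg ce M).dl * alM C0 cg ce M ≤ 1 := by
    have h4 := (parM_dl_pos (C0 := C0) (cg := cg) (ce := ce) hM).le
    have h5 : ((M : ℝ) ^ 2)⁻¹ ≤ 1 := inv_le_one_of_one_le₀ (one_le_pow₀ (M_one hM))
    unfold drM at h2
    linarith
  have h6 := kaM_s4M (C0 := C0) (cg := cg) (ce := ce) hM
  have h7 : (M : ℝ) ^ 4 ≤ kaM C0 cg ce M * x := by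
    rw [← h6]
    exact mul_le_mul_of_nonneg_left hx (kaM_pos hM).le
  have h8 := cast_n_le hn
  have h9 : (M : ℝ) * 5 ≤ (M : ℝ) ^ 4 := by
    have h5 := M_five hM
    have : (M : ℝ) ^ 4 = (M : ℝ) * ((M : ℝ) * (M : ℝ) * (M : ℝ)) := by ring
    rw [this]
    have h10 : (5 : ℝ) ≤ (M : ℝ) * (M : ℝ) * (M : ℝ) := by nlinarith
    exact mul_le_mul_of_nonneg_left h10 (M_pos hM).le
  have h5 := M_five hM
  have h10 : ((parM C0 cg ce M).Th - ((parM C0 cg ce M).K1 : ℝ) * (parM C0 cg ce M).dl) * x =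
      -(kaM C0 cg ce M * x) := by
    rw [parM_K1_dl hM]; ring
  rw [h10]
  linarith

/-- The field `pv` of `Leg.Hyp`. -/
theorem parM_pv' (hM : 5 ≤ M) (hn : n + 1 ≤ M) {ω : Om m n} (hω : CoinOk ω) {C : Cf m}
    {S : St m n} (hS : StOk (parM C0 cg ce M) (kaM C0 cg ce M) C S) (s : Bool) {i : Fin m}
    {R : Finset (Row m)} {p : Fin (n + 1) → ℝ} (hp : Fe (rho ω) (Nf ω) R p)
    (h0 : ∀ j ∈ C.I s, j ∉ C.Y s → j ≠ i → rho ω (some j) ⬝ᵥ p = 0)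
    (hpi : s4M C0 cg ce M ≤ rho ω (some i) ⬝ᵥ p) {h : ℝ} (h1 : h ≤ 1) :
    fnl ω (cfL (parM C0 cg ce M) C S s i (parM C0 cg ce M).K1 ω) ⬝ᵥ p ≤
      -h - ((parM C0 cg ce M).K1 * (parM C0 cg ce M).dl) * alM C0 cg ce M :=
  (val_deep hω (parM_Th_pos hM).le hS s _ hp h0).trans (parM_pv hM hn hpi h1)

/-- The field `vh` of `Leg.Hyp`, with the new value `-(h + drM)`. -/
theorem parM_vh (hM : 5 ≤ M) {ω : Om m n} (hω : CoinOk ω) {R : Finset (Row m)} {i : Fin m}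
    {h : ℝ} {x : Fin (n + 1) → ℝ} (hx : Fe (rho ω) (Nf ω) R x) :
    -(h + drM C0 cg ce M) ≤
      -h - ((parM C0 cg ce M).K1 * (parM C0 cg ce M).dl) * alM C0 cg ce M -
        (parM C0 cg ce M).dl * (rho ω (some i) ⬝ᵥ x) := by
  have h1 := slack_le_one hω hx (some i)
  have h2 := (parM_dl_pos (C0 := C0) (cg := cg) (ce := ce) hM).le
  have h3 : (parM C0 cg ce M).dl * (rho ω (some i) ⬝ᵥ x) ≤ (parM C0 cg ce M).dl := by
    nlinarith
  unfold drM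
  linarith

/-- The condition of the private column: `cB + κ ≤ Θ M ^ (-ce)`, `cB = 2 n + 2`. -/
theorem parM_priv (hM : 5 ≤ M) (hn : n + 1 ≤ M) :
    2 * (n : ℝ) + 2 + kaM C0 cg ce M ≤ (parM C0 cg ce M).Th * ((M : ℝ) ^ ce)⁻¹ := by
  have h0 := M_pos hM
  rw [parM_Th_eq, mul_assoc, pow_mul_inv_pow' hM (by omega)]
  have e : ce + 3 - ce = 3 := by omega
  rw [e]
  have h1 : (M : ℝ) ≤ kaM C0 cg ce M := by
    calc (M : ℝ) = (M : ℝ) ^ 1 := (pow_one _).symm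
      _ ≤ (M : ℝ) ^ xk C0 cg ce := pow_le hM (by unfold xk; omega)
  have h2 := cast_n_le hn
  have h5 := M_five hM
  have h6 : (3 : ℝ) ≤ (M : ℝ) ^ 3 := by
    have : (M : ℝ) ^ 3 = (M : ℝ) * (M : ℝ) * (M : ℝ) := by ring
    rw [this]; nlinarith
  have h7 : kaM C0 cg ce M * 3 ≤ kaM C0 cg ce M * (M : ℝ) ^ 3 :=
    mul_le_mul_of_nonneg_left h6 (kaM_pos hM).le
  linarith

/-- The same with `cB = 0`. -/
theorem parM_priv0 (hM : 5 ≤ M) (hn : n + 1 ≤ M) :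
    kaM C0 cg ce M ≤ (parM C0 cg ce M).Th * ((M : ℝ) ^ ce)⁻¹ := by
  have h := parM_priv (C0 := C0) (cg := cg) (ce := ce) (n := n) hM hn
  have h2 : (0 : ℝ) ≤ n := Nat.cast_nonneg n
  linarith

/-- Geometric decay in powers of `M`. -/
theorem decay (hM : 5 ≤ M) {x y t : ℕ} (ht : y * M ^ (x + 1) ≤ t) :
    (1 - ((M : ℝ) ^ x)⁻¹) ^ t ≤ ((M : ℝ) ^ y)⁻¹ := by
  have h0 := M_pos hM
  have hp := pow_pos h0 x
  have h1 : ((M : ℝ) ^ x)⁻¹ ≤ 1 := inv_le_one_of_one_le₀ (one_le_pow₀ (M_one hM))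
  have h2 : 1 - ((M : ℝ) ^ x)⁻¹ ≤ Real.exp (-((M : ℝ) ^ x)⁻¹) := by
    have := Real.add_one_le_exp (-((M : ℝ) ^ x)⁻¹)
    linarith
  have h3 : (0 : ℝ) ≤ 1 - ((M : ℝ) ^ x)⁻¹ := by linarith
  calc (1 - ((M : ℝ) ^ x)⁻¹) ^ t ≤ Real.exp (-((M : ℝ) ^ x)⁻¹) ^ t := pow_le_pow_left₀ h3 h2 t
    _ = Real.exp (-((t : ℝ) * ((M : ℝ) ^ x)⁻¹)) := by
        rw [← Real.exp_nat_mul]; ring_nf
    _ ≤ Real.exp (-((y : ℝ) * (M : ℝ))) := by
        rw [Real.exp_le_exp]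
        have h4 : ((y * M ^ (x + 1) : ℕ) : ℝ) ≤ t := by exact_mod_cast ht
        push_cast at h4
        have h5 : (y : ℝ) * M = (y * (M : ℝ) ^ (x + 1)) * ((M : ℝ) ^ x)⁻¹ := by
          rw [pow_succ]
          field_simp
        rw [h5]
        have := mul_le_mul_of_nonneg_right h4 (inv_nonneg.2 hp.le)
        linarith
    _ ≤ ((M : ℝ) ^ y)⁻¹ := by
        rw [Real.exp_neg]
        refine inv_anti₀ (pow_pos h0 y) ?_
        rw [Real.exp_nat_mul]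
        refine pow_le_pow_left₀ h0.le ?_ y
        have := Real.add_one_le_exp (M : ℝ)
        linarith

end Pool.Agent.Lib.S3.PL
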