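import Pool.Agent.Lib.S3.PL.Defs

/-!
# The parameters of the pair machine (smoothed Hirsch, MP_4a5c02_co)

All parameters are powers of one natural number `M ≥ 5` (later `M = MM m n σ`). The three free
exponents are `C0` (`M ^ (-C0 n)` bounds the determinants of the bases from below), `cg`
(`M ^ (-cg)` is the slack of the deep point) and `ce` (`M ^ (-ce)` is the near tight threshold).
-/

set_option autoImplicit false

namespace Pool.Agent.Lib.S3.PL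

variable (C0 cg ce : ℕ)

/-- exponent of the weak rows; also of `Mw` -/
def xw : ℕ := 128 * (C0 + 16)
/-- the deep points of the faces have slack `M ^ (- x4)` -/
def x4 : ℕ := xw C0 + ce + cg + 5
/-- exponent of the end cost `κ` of a leg -/
def xk : ℕ := x4 C0 cg ce + 4
/-- exponent of the start cost `Θ` -/
def xth : ℕ := xk C0 cg ce + ce + 3
/-- exponent of the macroscopic level `α` of the private column -/
def xal : ℕ := xth C0 cg ce + 3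
/-- exponent of the near tight ratio, and of the light thresholds -/
def xE : ℕ := 2 * (xth C0 cg ce + xal C0 cg ce + xw C0 + 64)
/-- exponent of the amplitude `φ` of the exit coins -/
def xph : ℕ := 2 * xE C0 cg ce + xal C0 cg ce + 3
/-- exponent of `K3` -/
def x3 : ℕ := xth C0 cg ce + 5 + (xph C0 cg ce + xE C0 cg ce) + xE C0 cg ce + xal C0 cg ce
/-- gain of a paid move -/
def xP : ℕ := 4 * xE C0 cg ce
/-- price of a boosted wall -/
def xQ : ℕ := 3 * xE C0 cg ce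

/-- The macroscopic level of the private column. -/
noncomputable def alM (M : ℕ) : ℝ := ((M : ℝ) ^ xal C0 cg ce)⁻¹

/-- The end cost of a leg (with the opposite sign). -/
noncomputable def kaM (M : ℕ) : ℝ := (M : ℝ) ^ xk C0 cg ce

/-- The slack of the deep points. -/
noncomputable def s4M (M : ℕ) : ℝ := ((M : ℝ) ^ x4 C0 cg ce)⁻¹

/-- The parameters. -/
noncomputable def parM (M : ℕ) : Par where
  Th := (M : ℝ) ^ xth C0 cg ce
  dl := ((M : ℝ) ^ (xE C0 cg ce + xE C0 cg ce))⁻¹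
  ph := ((M : ℝ) ^ xph C0 cg ce)⁻¹
  Dd := (M : ℝ) ^ (xal C0 cg ce + 2)
  ep := ((M : ℝ) ^ xE C0 cg ce)⁻¹
  ta := ((M : ℝ) ^ xE C0 cg ce)⁻¹
  ta2 := ((M : ℝ) ^ (xph C0 cg ce + xE C0 cg ce))⁻¹
  Mw := (M : ℝ) ^ xw C0
  K1 := (M ^ xth C0 cg ce + M ^ xk C0 cg ce) * M ^ (xE C0 cg ce + xE C0 cg ce)
  K3 := M ^ x3 C0 cg ce
  d0 := 24
  q := 24

variable {C0 cg ce} {M : ℕ}

section basic

theorem M_pos (hM : 5 ≤ M) : (0 : ℝ) < M := by
  have : (5 : ℝ) ≤ M := by exact_mod_cast hM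
  linarith

theorem M_five (hM : 5 ≤ M) : (5 : ℝ) ≤ M := by exact_mod_cast hM

theorem M_one (hM : 5 ≤ M) : (1 : ℝ) ≤ M := by have := M_five hM; linarith

/-- Product of inverse powers. -/
theorem inv_pow_mul (x y : ℕ) : ((M : ℝ) ^ x)⁻¹ * ((M : ℝ) ^ y)⁻¹ = ((M : ℝ) ^ (x + y))⁻¹ := by
  rw [pow_add, mul_inv]

/-- A power times a larger inverse power. -/
theorem pow_mul_inv_pow (hM : 5 ≤ M) {x y : ℕ} (h : x ≤ y) :
    (M : ℝ) ^ x * ((M : ℝ) ^ y)⁻¹ = ((M : ℝ) ^ (y - x))⁻¹ := by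
  have h0 := M_pos hM
  have h1 : (M : ℝ) ^ y = (M : ℝ) ^ x * (M : ℝ) ^ (y - x) := by
    rw [← pow_add]; congr 1; omega
  rw [h1, mul_inv, ← mul_assoc, mul_inv_cancel₀ (pow_pos h0 x).ne', one_mul]

/-- A larger power times an inverse power. -/
theorem pow_mul_inv_pow' (hM : 5 ≤ M) {x y : ℕ} (h : y ≤ x) :
    (M : ℝ) ^ x * ((M : ℝ) ^ y)⁻¹ = (M : ℝ) ^ (x - y) := by
  have h0 := M_pos hM
  have h1 : (M : ℝ) ^ x = (M : ℝ) ^ (x - y) * (M : ℝ) ^ y := by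
    rw [← pow_add]; congr 1; omega
  rw [h1, mul_assoc, mul_inv_cancel₀ (pow_pos h0 y).ne', mul_one]

theorem inv_pow_le (hM : 5 ≤ M) {x y : ℕ} (h : x ≤ y) : ((M : ℝ) ^ y)⁻¹ ≤ ((M : ℝ) ^ x)⁻¹ := by
  have h0 := M_pos hM
  exact inv_anti₀ (pow_pos h0 x) (pow_le_pow_right₀ (M_one hM) h)

theorem pow_le (hM : 5 ≤ M) {x y : ℕ} (h : x ≤ y) : (M : ℝ) ^ x ≤ (M : ℝ) ^ y :=
  pow_le_pow_right₀ (M_one hM) h

/-- A constant at most `5 ^ k` is absorbed by `k` powers. -/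
theorem const_mul_pow_le (hM : 5 ≤ M) {c : ℝ} {k x : ℕ} (hc : c ≤ 5 ^ k) :
    c * (M : ℝ) ^ x ≤ (M : ℝ) ^ (k + x) := by
  rw [pow_add]
  refine mul_le_mul_of_nonneg_right (hc.trans ?_) (pow_nonneg (M_pos hM).le x)
  exact pow_le_pow_left₀ (by norm_num) (M_five hM) k

/-- A constant at most `5 ^ k` is absorbed by `k` inverse powers. -/
theorem const_mul_inv_pow_le (hM : 5 ≤ M) {c : ℝ} {k x y : ℕ} (hc : c ≤ 5 ^ k) (h : y + k ≤ x) :
    c * ((M : ℝ) ^ x)⁻¹ ≤ ((M : ℝ) ^ y)⁻¹ := by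
  have h0 := M_pos hM
  have h1 : c ≤ (M : ℝ) ^ k := hc.trans (pow_le_pow_left₀ (by norm_num) (M_five hM) k)
  calc c * ((M : ℝ) ^ x)⁻¹ ≤ (M : ℝ) ^ k * ((M : ℝ) ^ x)⁻¹ :=
        mul_le_mul_of_nonneg_right h1 (inv_nonneg.2 (pow_nonneg h0.le x))
    _ = ((M : ℝ) ^ (x - k))⁻¹ := pow_mul_inv_pow hM (by omega)
    _ ≤ _ := inv_pow_le hM (by omega)

end basic

section positivity

theorem parM_Th_pos (hM : 5 ≤ M) : 0 < (parM C0 cg ce M).Th := pow_pos (M_pos hM) _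
theorem parM_dl_pos (hM : 5 ≤ M) : 0 < (parM C0 cg ce M).dl := inv_pos.2 (pow_pos (M_pos hM) _)
theorem parM_ph_pos (hM : 5 ≤ M) : 0 < (parM C0 cg ce M).ph := inv_pos.2 (pow_pos (M_pos hM) _)
theorem parM_Dd_pos (hM : 5 ≤ M) : 0 < (parM C0 cg ce M).Dd := pow_pos (M_pos hM) _
theorem parM_ep_pos (hM : 5 ≤ M) : 0 < (parM C0 cg ce M).ep := inv_pos.2 (pow_pos (M_pos hM) _)
theorem parM_ta_pos (hM : 5 ≤ M) : 0 < (parM C0 cg ce M).ta := inv_pos.2 (pow_pos (M_pos hM) _)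
theorem parM_ta2_pos (hM : 5 ≤ M) : 0 < (parM C0 cg ce M).ta2 := inv_pos.2 (pow_pos (M_pos hM) _)
theorem parM_Mw_pos (hM : 5 ≤ M) : 0 < (parM C0 cg ce M).Mw := pow_pos (M_pos hM) _
theorem alM_pos (hM : 5 ≤ M) : 0 < alM C0 cg ce M := inv_pos.2 (pow_pos (M_pos hM) _)
theorem kaM_pos (hM : 5 ≤ M) : 0 < kaM C0 cg ce M := pow_pos (M_pos hM) _
theorem s4M_pos (hM : 5 ≤ M) : 0 < s4M C0 cg ce M := inv_pos.2 (pow_pos (M_pos hM) _)

theorem parM_K1_pos (hM : 5 ≤ M) : 0 < (parM C0 cg ce M).K1 := by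
  have h : 0 < M := by omega
  exact Nat.mul_pos (Nat.add_pos_left (pow_pos h _) _) (pow_pos h _)

theorem parM_K3_pos (hM : 5 ≤ M) : 0 < (parM C0 cg ce M).K3 := by
  have h : 0 < M := by omega
  exact pow_pos h _

theorem one_le_xE : 1 ≤ xE C0 cg ce := by unfold xE; omega

theorem parM_ep_lt_one (hM : 5 ≤ M) : (parM C0 cg ce M).ep < 1 := by
  have h1 : (1 : ℝ) < (M : ℝ) ^ xE C0 cg ce := by
    refine one_lt_pow₀ (by have := M_five hM; linarith) ?_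
    have := one_le_xE (C0 := C0) (cg := cg) (ce := ce)
    omega
  exact inv_lt_one_of_one_lt₀ h1

theorem parM_Mw_one (hM : 5 ≤ M) : 1 ≤ (parM C0 cg ce M).Mw := one_le_pow₀ (M_one hM)

end positivity

section leg

/-- The range of the cost of a leg. -/
theorem parM_K1_dl (hM : 5 ≤ M) :
    ((parM C0 cg ce M).K1 : ℝ) * (parM C0 cg ce M).dl = (parM C0 cg ce M).Th + kaM C0 cg ce M := by
  have h0 : ((M : ℝ) ^ (xE C0 cg ce + xE C0 cg ce)) ≠ 0 := (pow_pos (M_pos hM) _).ne'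
  simp only [parM, kaM]
  push_cast
  rw [mul_assoc, mul_inv_cancel₀ h0, mul_one]

theorem parM_win : (parM C0 cg ce M).dl ≤ (parM C0 cg ce M).ta * (parM C0 cg ce M).ep := by
  simp only [parM]
  rw [inv_pow_mul]

theorem parM_win1 (hM : 5 ≤ M) :
    2 * (parM C0 cg ce M).ph * (parM C0 cg ce M).Dd ≤
      (parM C0 cg ce M).ta * (parM C0 cg ce M).ep := by
  simp only [parM]
  rw [inv_pow_mul]
  have h1 : 2 * ((M : ℝ) ^ xph C0 cg ce)⁻¹ * (M : ℝ) ^ (xal C0 cg ce + 2) =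
      2 * ((M : ℝ) ^ (xph C0 cg ce - (xal C0 cg ce + 2)))⁻¹ := by
    rw [mul_assoc, mul_comm (((M : ℝ) ^ xph C0 cg ce)⁻¹), pow_mul_inv_pow hM]
    unfold xph; omega
  rw [h1]
  refine const_mul_inv_pow_le (k := 1) hM (by norm_num) ?_
  unfold xph; omega

/-- The exit steps: `|L| ≤ M ^ (xth + 4)`. -/
theorem parM_win2 (hM : 5 ≤ M) :
    (M : ℝ) ^ (xth C0 cg ce + 4) ≤ ((parM C0 cg ce M).K3 : ℝ) *
      ((parM C0 cg ce M).ta2 * ((parM C0 cg ce M).ep * (alM C0 cg ce M / 2))) := by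
  have h0 := M_pos hM
  simp only [parM, alM]
  push_cast
  have e : ((M : ℝ) ^ x3 C0 cg ce) * (((M : ℝ) ^ (xph C0 cg ce + xE C0 cg ce))⁻¹ *
      (((M : ℝ) ^ xE C0 cg ce)⁻¹ * (((M : ℝ) ^ xal C0 cg ce)⁻¹ / 2))) =
      (M : ℝ) ^ x3 C0 cg ce * ((M : ℝ) ^ (xph C0 cg ce + xE C0 cg ce + xE C0 cg ce +
        xal C0 cg ce))⁻¹ / 2 := by
    rw [← inv_pow_mul (xph C0 cg ce + xE C0 cg ce + xE C0 cg ce) (xal C0 cg ce),
      ← inv_pow_mul (xph C0 cg ce + xE C0 cg ce) (xE C0 cg ce)]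
    ring
  rw [e, pow_mul_inv_pow' hM (by unfold x3; omega), le_div_iff₀ (by norm_num : (0:ℝ) < 2), mul_comm]
  refine (const_mul_pow_le (k := 1) hM (by norm_num)).trans (pow_le hM ?_)
  unfold x3; omega

/-- The coupling of the private column: `Dd α = M ^ 2`. -/
theorem parM_Dd_al (hM : 5 ≤ M) : (parM C0 cg ce M).Dd * alM C0 cg ce M = (M : ℝ) ^ 2 := by
  simp only [parM, alM]
  rw [pow_mul_inv_pow' hM (by omega)]
  congr 1
  omega

/-- `κ S4 = M ^ 4`. -/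
theorem kaM_s4M (hM : 5 ≤ M) : kaM C0 cg ce M * s4M C0 cg ce M = (M : ℝ) ^ 4 := by
  unfold kaM s4M
  rw [pow_mul_inv_pow' hM (by unfold xk; omega)]
  congr 1
  unfold xk; omega

/-- `Θ = κ M ^ (ce + 3)`. -/
theorem parM_Th_eq : (parM C0 cg ce M).Th = kaM C0 cg ce M * (M : ℝ) ^ (ce + 3) := by
  simp only [parM, kaM]
  rw [← pow_add]
  congr 1

/-- The loss of a closed leg: `(Θ + κ) α ≤ 2 M ^ (-3)`. -/
theorem parM_loss (hM : 5 ≤ M) :
    ((parM C0 cg ce M).Th + kaM C0 cg ce M) * alM C0 cg ce M ≤ 2 * ((M : ℝ) ^ 3)⁻¹ := by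
  simp only [parM, kaM, alM]
  have h1 : (M : ℝ) ^ xk C0 cg ce ≤ (M : ℝ) ^ xth C0 cg ce := pow_le hM (by unfold xth; omega)
  have h2 : ((M : ℝ) ^ xth C0 cg ce + (M : ℝ) ^ xk C0 cg ce) ≤ 2 * (M : ℝ) ^ xth C0 cg ce := by
    linarith
  refine (mul_le_mul_of_nonneg_right h2 (inv_nonneg.2 (pow_nonneg (M_pos hM).le _))).trans ?_
  rw [mul_assoc, pow_mul_inv_pow hM (by unfold xal; omega)]
  have : xal C0 cg ce - xth C0 cg ce = 3 := by unfold xal; omega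
  rw [this]

/-- `δ ≤ M ^ (-100)`. -/
theorem parM_dl_le (hM : 5 ≤ M) : (parM C0 cg ce M).dl ≤ ((M : ℝ) ^ 100)⁻¹ := by
  simp only [parM]
  exact inv_pow_le hM (by unfold xE; omega)

end leg

section counts

/-- exponent of `K1 + 1` -/
def x1 (C0 cg ce : ℕ) : ℕ := xth C0 cg ce + 1 + (xE C0 cg ce + xE C0 cg ce)

theorem parM_K1_le (hM : 5 ≤ M) : (parM C0 cg ce M).K1 + 1 ≤ M ^ x1 C0 cg ce := by
  have h1 : M ^ xk C0 cg ce ≤ M ^ xth C0 cg ce :=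
    Nat.pow_le_pow_right (by omega) (by unfold xth; omega)
  have h2 : 1 ≤ M ^ xth C0 cg ce := Nat.one_le_pow _ _ (by omega)
  have h3 : 1 ≤ M ^ (xE C0 cg ce + xE C0 cg ce) := Nat.one_le_pow _ _ (by omega)
  have h4 : 1 ≤ M ^ xth C0 cg ce * M ^ (xE C0 cg ce + xE C0 cg ce) := Nat.mul_le_mul h2 h3
  calc (parM C0 cg ce M).K1 + 1
      = (M ^ xth C0 cg ce + M ^ xk C0 cg ce) * M ^ (xE C0 cg ce + xE C0 cg ce) + 1 := rfl
    _ ≤ (M ^ xth C0 cg ce + M ^ xth C0 cg ce) * M ^ (xE C0 cg ce + xE C0 cg ce) + 1 := by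
        gcongr
    _ ≤ 3 * (M ^ xth C0 cg ce * M ^ (xE C0 cg ce + xE C0 cg ce)) := by
        have : (M ^ xth C0 cg ce + M ^ xth C0 cg ce) * M ^ (xE C0 cg ce + xE C0 cg ce) =
          2 * (M ^ xth C0 cg ce * M ^ (xE C0 cg ce + xE C0 cg ce)) := by ring
        omega
    _ ≤ M * (M ^ xth C0 cg ce * M ^ (xE C0 cg ce + xE C0 cg ce)) :=
        Nat.mul_le_mul_right _ (by omega)
    _ = M ^ x1 C0 cg ce := by unfold x1; ring

theorem parM_K3_le (hM : 5 ≤ M) : (parM C0 cg ce M).K3 + 1 ≤ M ^ (x3 C0 cg ce + 1) := by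
  have h2 : 1 ≤ M ^ x3 C0 cg ce := Nat.one_le_pow _ _ (by omega)
  calc (parM C0 cg ce M).K3 + 1 = M ^ x3 C0 cg ce + 1 := rfl
    _ ≤ 2 * M ^ x3 C0 cg ce := by omega
    _ ≤ M * M ^ x3 C0 cg ce := Nat.mul_le_mul_right _ (by omega)
    _ = M ^ (x3 C0 cg ce + 1) := by ring

end counts

end Pool.Agent.Lib.S3.PL
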