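import Pool.Agent.Lib.S3.PL.Mach
import Pool.Agent.Lib.S3.PL.Num

/-!
# The union over the configurations (smoothed Hirsch, MP_4a5c02_co)

* `cfs m n`: the configurations `C : Cf m` with `n` columns in both bases and protected columns
  inside the bases (`mem_cfs`); there are at most `M ^ (4 n)` of them (`card_cfs_le`);
* `BadC P j w`: the union over `cfs m n` of the bad sets `BadU (mach P C) j w (st0 P C)`;
* `badC_le`: union bound; `badC_parM`: with the parameters `parM`, from the bound of the pair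
  machine `fac A B j w` for every configuration: at most `M ^ (- r)`; `badC_parM32`: the case
  `n ≤ 8 j`, `8 w ≤ j`, `r = 32 n`.
-/

set_option autoImplicit false

open MeasureTheory Set
open scoped ENNReal

namespace Pool.Agent.Lib.S3.PL

open Pool.Agent.Lib.S3.Mach

variable {m n : ℕ}

/-- The pairs `(I, Y)` with `#I = n` and `Y ⊆ I`. -/
def pairsC (m n : ℕ) : Finset (Finset (Fin m) × Finset (Fin m)) :=
  ((Finset.univ : Finset (Fin m)).powersetCard n).biUnion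
    (fun I => I.powerset.image (fun Y => (I, Y)))

theorem mem_pairsC {p : Finset (Fin m) × Finset (Fin m)} :
    p ∈ pairsC m n ↔ p.1.card = n ∧ p.2 ⊆ p.1 := by
  unfold pairsC
  simp only [Finset.mem_biUnion, Finset.mem_powersetCard_univ, Finset.mem_image,
    Finset.mem_powerset]
  constructor
  · rintro ⟨I, hI, Y, hY, rfl⟩
    exact ⟨hI, hY⟩
  · rintro ⟨h1, h2⟩
    exact ⟨p.1, h1, p.2, h2, rfl⟩

theorem card_pairsC_le (m n : ℕ) : (pairsC m n).card ≤ m ^ n * 2 ^ n := by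
  unfold pairsC
  refine Finset.card_biUnion_le.trans ?_
  calc ∑ I ∈ (Finset.univ : Finset (Fin m)).powersetCard n,
        (I.powerset.image (fun Y => (I, Y))).card
      ≤ ∑ _I ∈ (Finset.univ : Finset (Fin m)).powersetCard n, 2 ^ n := by
        refine Finset.sum_le_sum fun I hI => ?_
        rw [Finset.mem_powersetCard_univ] at hI
        refine Finset.card_image_le.trans ?_
        rw [Finset.card_powerset, hI]
    _ = ((Finset.univ : Finset (Fin m)).powersetCard n).card * 2 ^ n := by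
        rw [Finset.sum_const, smul_eq_mul]
    _ ≤ m ^ n * 2 ^ n := by
        refine Nat.mul_le_mul_right _ ?_
        have := card_powersetCard_le (Fin m) n
        rwa [Fintype.card_fin] at this

/-- The configuration of two pairs. -/
def cfOf (p : (Finset (Fin m) × Finset (Fin m)) × (Finset (Fin m) × Finset (Fin m))) : Cf m where
  I := fun s => if s then p.2.1 else p.1.1
  Y := fun s => if s then p.2.2 else p.1.2

open Classical in
/-- The configurations: two bases of `n` columns with protected subsets. -/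
noncomputable def cfs (m n : ℕ) : Finset (Cf m) :=
  (pairsC m n ×ˢ pairsC m n).image cfOf

theorem mem_cfs {C : Cf m} :
    C ∈ cfs m n ↔ ∀ s, (C.I s).card = n ∧ C.Y s ⊆ C.I s := by
  classical
  unfold cfs
  rw [Finset.mem_image]
  constructor
  · rintro ⟨p, hp, rfl⟩ s
    rw [Finset.mem_product, mem_pairsC, mem_pairsC] at hp
    cases s
    · exact hp.1
    · exact hp.2
  · intro h
    refine ⟨((C.I false, C.Y false), (C.I true, C.Y true)), ?_, ?_⟩
    · rw [Finset.mem_product, mem_pairsC, mem_pairsC]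
      exact ⟨h false, h true⟩
    · obtain ⟨I, Y⟩ := C
      unfold cfOf
      congr 1 <;> funext s <;> cases s <;> rfl

theorem card_cfs_le {M : ℕ} (hM : 2 ≤ M) (hm : m ≤ M) : (cfs m n).card ≤ M ^ (4 * n) := by
  classical
  unfold cfs
  refine Finset.card_image_le.trans ?_
  rw [Finset.card_product]
  have h1 : (pairsC m n).card ≤ M ^ (2 * n) := by
    refine (card_pairsC_le m n).trans ?_
    calc m ^ n * 2 ^ n ≤ M ^ n * M ^ n :=
          Nat.mul_le_mul (Nat.pow_le_pow_left hm n) (Nat.pow_le_pow_left hM n)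
      _ = M ^ (2 * n) := by rw [← pow_add]; congr 1; omega
  calc (pairsC m n).card * (pairsC m n).card ≤ M ^ (2 * n) * M ^ (2 * n) := Nat.mul_le_mul h1 h1
    _ = M ^ (4 * n) := by rw [← pow_add]; congr 1; omega

/-- The bad set of the pair machine: the union over all configurations. -/
def BadC (m n : ℕ) (P : Par) (j w : ℕ) : Set (Om m n) :=
  ⋃ C ∈ cfs m n, BadU (mach P C) j w (st0 P C)

theorem mem_BadC {P : Par} {j w : ℕ} {ω : Om m n} :
    ω ∈ BadC m n P j w ↔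
      ∃ C : Cf m, (∀ s, (C.I s).card = n ∧ C.Y s ⊆ C.I s) ∧
        ω ∈ BadU (mach P C) j w (st0 P C) := by
  unfold BadC
  simp only [mem_iUnion, exists_prop, mem_cfs]

/-- Outside `BadC` no configuration is bad. -/
theorem notMem_BadU_of_notMem_BadC {P : Par} {j w : ℕ} {ω : Om m n} (h : ω ∉ BadC m n P j w)
    {C : Cf m} (hC : ∀ s, (C.I s).card = n ∧ C.Y s ⊆ C.I s) :
    ω ∉ BadU (mach P C) j w (st0 P C) :=
  fun hc => h (mem_BadC.2 ⟨C, hC, hc⟩)

/-- **The union bound over the configurations.** -/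
theorem badC_le (μ : Measure (Om m n)) (P : Par) (j w : ℕ) (A : Set (Om m n)) (F : ℝ≥0∞)
    (h : ∀ C : Cf m, (∀ s, (C.I s).card = n ∧ C.Y s ⊆ C.I s) →
      μ (BadU (mach P C) j w (st0 P C) ∩ A) ≤ F) :
    μ (BadC m n P j w ∩ A) ≤ (cfs m n).card * F := by
  unfold BadC
  rw [Set.iUnion₂_inter]
  calc μ (⋃ C ∈ cfs m n, BadU (mach P C) j w (st0 P C) ∩ A)
      ≤ ∑ C ∈ cfs m n, μ (BadU (mach P C) j w (st0 P C) ∩ A) := measure_biUnion_finset_le _ _
    _ ≤ ∑ _C ∈ cfs m n, F := Finset.sum_le_sum fun C hC => h C (mem_cfs.1 hC)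
    _ = _ := by rw [Finset.sum_const, nsmul_eq_mul]

section numerics

variable {C0 cg ce : ℕ} {M : ℕ}

/-- The number of the closings by one wall is at most `M ^ xQ`. -/
theorem parM_B_le (hM : 5 ≤ M) (hm : m + 1 ≤ M) :
    2 * m * ((parM C0 cg ce M).K1 + 1) * (m + 1) ≤ M ^ xQ C0 cg ce := by
  have h1 := parM_K1_le (C0 := C0) (cg := cg) (ce := ce) hM
  calc 2 * m * ((parM C0 cg ce M).K1 + 1) * (m + 1)
      ≤ M * M * M ^ x1 C0 cg ce * M := by
        refine Nat.mul_le_mul (Nat.mul_le_mul (Nat.mul_le_mul (by omega) (by omega)) h1) hm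
    _ = M ^ (x1 C0 cg ce + 3) := by ring
    _ ≤ M ^ xQ C0 cg ce := by
        refine Nat.pow_le_pow_right (by omega) ?_
        unfold x1 xQ xE
        omega

/-- **The bad set of the pair machine is small** (general form). `A0` is the total price of the
paid moves of one state. -/
theorem badC_parM (μ : Measure (Om m n)) (hM : 5 ≤ M) (hm : m + 1 ≤ M) (A0 : ℝ≥0∞)
    (hA0 : A0 * (M : ℝ≥0∞) ^ xP C0 cg ce ≤ 1) (j w r : ℕ) (A F : Set (Om m n))
    (hjw : 4 * n + r + (j + w) + xQ C0 cg ce * w ≤ xP C0 cg ce * (j - w))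
    (h : ∀ C : Cf m, (∀ s, (C.I s).card = n ∧ C.Y s ⊆ C.I s) →
      μ (BadU (mach (parM C0 cg ce M) C) j w (st0 (parM C0 cg ce M) C) ∩ A) ≤
        fac A0 ((2 * m * ((parM C0 cg ce M).K1 + 1) * (m + 1) : ℕ) : ℝ≥0∞) j w * μ F) :
    (M : ℝ≥0∞) ^ r * μ (BadC m n (parM C0 cg ce M) j w ∩ A) ≤ μ F := by
  set B : ℝ≥0∞ := ((2 * m * ((parM C0 cg ce M).K1 + 1) * (m + 1) : ℕ) : ℝ≥0∞) with hB
  have hB1 : B ≤ (M : ℝ≥0∞) ^ xQ C0 cg ce := by
    rw [hB]
    have := parM_B_le (m := m) (C0 := C0) (cg := cg) (ce := ce) hM hm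
    exact_mod_cast this
  have h2 : (2 : ℝ≥0∞) ≤ (M : ℝ≥0∞) := by
    have : 2 ≤ M := by omega
    exact_mod_cast this
  have h3 := fac_le (M : ℝ≥0∞) h2 A0 B (xP C0 cg ce) (xQ C0 cg ce) (4 * n) r j w hA0 hB1 hjw
  have h4 := badC_le μ (parM C0 cg ce M) j w A (fac A0 B j w * μ F) h
  have h5 : ((cfs m n).card : ℝ≥0∞) ≤ (M : ℝ≥0∞) ^ (4 * n) := by
    have := card_cfs_le (m := m) (n := n) (M := M) (by omega) (by omega)
    exact_mod_cast this
  calc (M : ℝ≥0∞) ^ r * μ (BadC m n (parM C0 cg ce M) j w ∩ A)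
      ≤ (M : ℝ≥0∞) ^ r * (((M : ℝ≥0∞) ^ (4 * n)) * (fac A0 B j w * μ F)) :=
        mul_le_mul' le_rfl (h4.trans (mul_le_mul' h5 le_rfl))
    _ = ((M : ℝ≥0∞) ^ (4 * n) * fac A0 B j w * (M : ℝ≥0∞) ^ r) * μ F := by ring
    _ ≤ 1 * μ F := mul_le_mul' h3 le_rfl
    _ = μ F := one_mul _

theorem one_twentyeight_le_xE : 128 ≤ xE C0 cg ce := by unfold xE; omega

/-- The numerical condition. -/
theorem num_jw {j w r : ℕ} (hj : n ≤ 8 * j) (hw : 8 * w ≤ j) (hr : r ≤ 32 * n) :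
    4 * n + r + (j + w) + xQ C0 cg ce * w ≤ xP C0 cg ce * (j - w) := by
  have hE := one_twentyeight_le_xE (C0 := C0) (cg := cg) (ce := ce)
  unfold xQ xP
  set E := xE C0 cg ce
  obtain ⟨d, hd⟩ : ∃ d, j = w + d := ⟨j - w, by omega⟩
  subst hd
  have e1 : w + d - w = d := by omega
  rw [e1]
  have hd7 : 7 * w ≤ d := by omega
  have h1 : 3 * E * w ≤ E * d := by
    calc 3 * E * w = E * (3 * w) := by ring
      _ ≤ E * d := Nat.mul_le_mul_left _ (by omega)
  have h2 : 128 * d ≤ E * d := Nat.mul_le_mul_right _ hE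
  have h3 : 4 * E * d = E * d + E * d + (E * d + E * d) := by ring
  rw [h3]
  have h4 : n ≤ 8 * (w + d) := hj
  omega

/-- **The bad set of the pair machine is small**: `M ^ (- 32 n)`. -/
theorem badC_parM32 (μ : Measure (Om m n)) (hM : 5 ≤ M) (hm : m + 1 ≤ M) (A0 : ℝ≥0∞)
    (hA0 : A0 * (M : ℝ≥0∞) ^ xP C0 cg ce ≤ 1) (j w : ℕ) (hj : n ≤ 8 * j) (hw : 8 * w ≤ j)
    (A F : Set (Om m n))
    (h : ∀ C : Cf m, (∀ s, (C.I s).card = n ∧ C.Y s ⊆ C.I s) →
      μ (BadU (mach (parM C0 cg ce M) C) j w (st0 (parM C0 cg ce M) C) ∩ A) ≤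
        fac A0 ((2 * m * ((parM C0 cg ce M).K1 + 1) * (m + 1) : ℕ) : ℝ≥0∞) j w * μ F) :
    (M : ℝ≥0∞) ^ (32 * n) * μ (BadC m n (parM C0 cg ce M) j w ∩ A) ≤ μ F :=
  badC_parM μ hM hm A0 hA0 j w (32 * n) A F (num_jw hj hw le_rfl) h

/-- From the product form to the form with an inverse power. -/
theorem le_ofReal_of_pow_mul_le {M : ℕ} (hM : 1 ≤ M) {r : ℕ} {x y : ℝ≥0∞}
    (h : (M : ℝ≥0∞) ^ r * x ≤ y) : x ≤ ENNReal.ofReal ((1 / (M : ℝ)) ^ r) * y := by
  have hM0 : (0 : ℝ) < M := by exact_mod_cast hM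
  have hne : (M : ℝ≥0∞) ^ r ≠ 0 := by
    refine pow_ne_zero _ ?_
    exact_mod_cast (by omega : M ≠ 0)
  have hnt : (M : ℝ≥0∞) ^ r ≠ ∞ := ENNReal.pow_ne_top (ENNReal.natCast_ne_top M)
  have h1 : ENNReal.ofReal ((1 / (M : ℝ)) ^ r) = ((M : ℝ≥0∞) ^ r)⁻¹ := by
    rw [one_div, inv_pow, ENNReal.ofReal_inv_of_pos (pow_pos hM0 r),
      ENNReal.ofReal_pow hM0.le, ENNReal.ofReal_natCast]
  rw [h1]
  calc x = ((M : ℝ≥0∞) ^ r)⁻¹ * ((M : ℝ≥0∞) ^ r * x) := by
        rw [← mul_assoc, ENNReal.inv_mul_cancel hne hnt, one_mul]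
    _ ≤ _ := mul_le_mul' le_rfl h

/-- The bad set is small, form with an inverse power. -/
theorem badC_parM32' (μ : Measure (Om m n)) (hM : 5 ≤ M) (hm : m + 1 ≤ M) (A0 : ℝ≥0∞)
    (hA0 : A0 * (M : ℝ≥0∞) ^ xP C0 cg ce ≤ 1) (j w : ℕ) (hj : n ≤ 8 * j) (hw : 8 * w ≤ j)
    (A F : Set (Om m n))
    (h : ∀ C : Cf m, (∀ s, (C.I s).card = n ∧ C.Y s ⊆ C.I s) →
      μ (BadU (mach (parM C0 cg ce M) C) j w (st0 (parM C0 cg ce M) C) ∩ A) ≤
        fac A0 ((2 * m * ((parM C0 cg ce M).K1 + 1) * (m + 1) : ℕ) : ℝ≥0∞) j w * μ F) :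
    μ (BadC m n (parM C0 cg ce M) j w ∩ A) ≤
      ENNReal.ofReal ((1 / (M : ℝ)) ^ (32 * n)) * μ F :=
  le_ofReal_of_pow_mul_le (by omega) (badC_parM32 μ hM hm A0 hA0 j w hj hw A F h)

end numerics

end Pool.Agent.Lib.S3.PL
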