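import Pool.Agent.Lib.S3.Fat.Sizes
import Pool.Agent.Lib.S3.Fat.Near
import Pool.Agent.Lib.S3.Fat.Det
import Pool.Agent.Lib.S3.Fat.Deep
import Pool.Agent.Lib.S3.Fat.Final
import Pool.Agent.Lib.S3.Fat.Prob
import Pool.Agent.Lib.S3.PL.Hub
import Pool.Agent.Lib.S3.PL.UnionC
import Pool.Agent.Lib.S3.PL.NumDet
import Pool.Agent.Lib.S3.Hop.HubTuple

/-!
# Top: the good event of the FAT theorem (smoothed Hirsch, MP_4a5c02_co)

`GoodW`: all deterministic facts about one `ω` from which the bound of the diameter follows;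
the constants of the FAT theorem in one place.
-/

set_option autoImplicit false

open MeasureTheory Matrix Set
open scoped ENNReal NNReal

namespace Pool.Agent.Lib.S3.PL

open Pool.Agent.Lib.S3.Geo
open Pool.Agent.Lib.SHirsch (Gr GPos GPc dm)
open Pool.Agent.Lib.SHirsch.Thin

/-- Exponent of the determinants: `|det| ≥ MM ^ (-(C0 n))`. -/
def xC0 : ℕ := 17
/-- Exponent of the deep point. -/
def xcg : ℕ := 43
/-- Exponent of the near tight threshold. -/
def xce : ℕ := 2000
/-- Exponent of the weakness in the hub argument. -/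
def xwk : ℕ := 2400
/-- Exponent of the factor of the hub. -/
def xhub : ℕ := 4445
/-- Exponent of the light threshold at the hub. -/
def xtau : ℕ := 100
/-- Exponent of the number of hops. -/
def xhop : ℕ := 11000

/-- The number of near tight random rows is less than this. -/
def nNr (n : ℕ) : ℕ := n / 256
/-- Bound of the number of light multipliers at the hub. -/
def nHub (n : ℕ) : ℕ := n / 32
/-- Number of common rows of a pair: at least `n - nKap n`. -/
def nKap (n : ℕ) : ℕ := n / 8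
/-- Number of moves of the pair machine. -/
def nJ (n : ℕ) : ℕ := n / 4
/-- Number of walls of one side. -/
def nW (n : ℕ) : ℕ := n / 128

variable {m n : ℕ}

/-- The parameters of the pair machine. -/
noncomputable def parS (m n : ℕ) (σ : ℝ) : Par := parM xC0 xcg xce (MM m n σ)

/-- The near tight event. -/
def NearS (m n : ℕ) (σ : ℝ) : Set (Om m n) :=
  NearBad m n (nNr n)
    (((MM m n σ : ℝ) ^ xce)⁻¹ * ((n + 1) * (2 * (m + 1) * ((MM m n σ : ℝ) ^ 3 + 1))))

/-- The determinant event. -/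
def DetS (m n : ℕ) (σ : ℝ) : Set (Om m n) := DetBad ((1 / (MM m n σ : ℝ)) ^ (5 * n + 2 * (2 * n) + 8))

/-- The hub event. -/
def HubS (m n : ℕ) (σ : ℝ) : Set (Om m n) :=
  EvHub ((MM m n σ : ℝ) ^ xhub) (((MM m n σ : ℝ) ^ xtau)⁻¹) (nHub n + 1)

/-- The bad set of the pairs. -/
def PairS (m n : ℕ) (σ : ℝ) : Set (Om m n) := BadC m n (parS m n σ) (nJ n) (2 * nW n)

/-- The good event (deterministic side of the FAT theorem). -/
structure GoodW (m n : ℕ) (σ : ℝ) (ω : Om m n) : Prop where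
  n512 : 512 ≤ n
  nm : n + 1 ≤ m
  hσ : 0 < σ
  gp : GPos (Am ω) (bm ω)
  gpc : GP (chA (Am ω) (bm ω) (Nf ω)) (chB m) {none}
  coin : CoinOk ω
  row : ∀ r j, |rho ω r j| ≤ (MM m n σ : ℝ) ^ 3 + 1
  near : ω ∉ NearS m n σ
  det : ω ∉ DetS m n σ
  hub : ω ∉ HubS m n σ
  optH : ∃ f, Opt (Nf ω) (rho ω) (fnl ω (cfHub ((MM m n σ : ℝ) ^ xhub) ω)) ∅ ∅ f
  thick : ¬ ThinOn ((((MM m n σ : ℕ) : ℝ) ^ 30)⁻¹) Finset.univ (rw' (Am ω) (bm ω))
  pair : ω ∉ PairS m n σ

/-- The pair lemma at `ω`: chart vertices off infinity with at least `n - κ` common rows are joined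
by a path of length `L`. -/
def PairAt (ω : Om m n) (L κ : ℕ) : Prop :=
  ∀ u u', Vert (chA (Am ω) (bm ω) (Nf ω)) (chB m) {none} (chS m) u →
    Vert (chA (Am ω) (bm ω) (Nf ω)) (chB m) {none} (chS m) u' → 0 < u 0 → 0 < u' 0 →
    n ≤ (Hop.tig (Hop.slk (Am ω) (bm ω)) u ∩ Hop.tig (Hop.slk (Am ω) (bm ω)) u').card + κ →
    Reach (chA (Am ω) (bm ω) (Nf ω)) (chB m) {none} (chS m) L u u'

namespace GoodW

variable {σ : ℝ} {ω : Om m n} (h : GoodW m n σ ω)

include h

theorem M5 : 5 ≤ MM m n σ := five_le_MM (by have := h.n512; omega) (by have := h.nm; omega) h.hσ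

theorem M512 : 512 ≤ MM m n σ := by
  have := h.n512
  unfold MM
  omega

theorem mM : m + 1 ≤ MM m n σ := by
  have h0 : 0 < ⌈1 / σ⌉₊ := Nat.ceil_pos.2 (by have := h.hσ; positivity)
  unfold MM
  omega

theorem nM : n + 1 ≤ MM m n σ := by
  have := h.mM
  have := h.nm
  omega

theorem eta1 (r : Row m) : 1 ≤ ω (.eta r) ∧ ω (.eta r) ≤ 2 := h.coin _ trivial

end GoodW

end Pool.Agent.Lib.S3.PL
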