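import Pool.Agent.Lib.S3.PL.LegDat
import Pool.Agent.Lib.S3.PL.Mach

/-!
# One side of the pair machine, and the leg lemma for it

* `Side`: the invariant of one side;
* `side_fail`, `side_other`, `side_start`: it is kept when a column is removed, and on the other
  side of a closing;
* `leg_pl`: a leg of one side reaches the end of the exit line, or the event of a move of this side
  happens; after a closing the invariant of the side holds in the next state.
-/

set_option autoImplicit false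

open Matrix

namespace Pool.Agent.Lib.S3.PL

variable {m n : ℕ}

/-- The invariant of one side: the current optimum `x`, reached from `u` by a walk of length `len`,
all its tight rows are representable, and its value is at least `-h`. -/
structure Side (C : Cf m) (S : St m n) (s : Bool) (ω : Om m n) (c : ℝ)
    (u x : Fin (n + 1) → ℝ) (len : ℕ) (h : ℝ) : Prop where
  mn : Leg.Mn (rho ω) (Nf ω) (up S.R) (fnl ω (cfG C S s ω)) x
  vx : VxC ω x
  rc : RcC ω len u x
  rep : ∀ r ∈ Leg.tgt (rho ω) x \ up S.R,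
    RepN (rho ω) (Nf ω) c (avl C S s) (up S.R) (rho ω r)
  val : -h ≤ fnl ω (cfG C S s ω) ⬝ᵥ x

theorem Side.mono {C : Cf m} {S : St m n} {s : Bool} {ω : Om m n} {c : ℝ}
    {u x : Fin (n + 1) → ℝ} {len len' : ℕ} {h h' : ℝ} (H : Side C S s ω c u x len h)
    (hl : len ≤ len') (hh : h ≤ h') : Side C S s ω c u x len' h' where
  mn := H.mn
  vx := H.vx
  rc := Geo.reach_mono hl H.rc
  rep := H.rep
  val := (neg_le_neg hh).trans H.val

theorem fe_up_insert {S : Finset (Fin m)} {i : Fin m} {ω : Om m n} {x : Fin (n + 1) → ℝ} :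
    Leg.Fe (rho ω) (Nf ω) (up (insert i S)) x ↔
      Leg.Fe (rho ω) (Nf ω) (up S) x ∧ rho ω (some i) ⬝ᵥ x = 0 := by
  constructor
  · rintro ⟨h1, h2, h3⟩
    refine ⟨⟨h1, fun r hr => ?_, h3⟩, h2 _ (mem_up.2 (Finset.mem_insert_self _ _))⟩
    obtain ⟨j, hj, rfl⟩ := mem_up'.1 hr
    exact h2 _ (mem_up.2 (Finset.mem_insert_of_mem hj))
  · rintro ⟨⟨h1, h2, h3⟩, h4⟩
    refine ⟨h1, fun r hr => ?_, h3⟩
    obtain ⟨j, hj, rfl⟩ := mem_up'.1 hr
    rcases Finset.mem_insert.1 hj with rfl | hj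
    · exact h4
    · exact h2 _ (mem_up.2 hj)

/-- Removing a column which is tight at the optimum. -/
theorem side_remove {C : Cf m} {S S' : St m n} {s : Bool} {ω : Om m n} {c : ℝ} (hc : 0 ≤ c)
    {u x : Fin (n + 1) → ℝ} {len : ℕ} {h : ℝ} (H : Side C S s ω c u x len h) {i : Fin m}
    (hi : rho ω (some i) ⬝ᵥ x = 0) (hR : S'.R = insert i S.R) (hkc : S'.kc s = S.kc s)
    (hB : S'.B s = S.B s) : Side C S' s ω c u x len h := by
  classical
  -- the objective changes by a multiple of the row `i`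
  have hcf : ∀ y, rho ω (some i) ⬝ᵥ y = 0 →
      fnl ω (cfG C S' s ω) ⬝ᵥ y = fnl ω (cfG C S s ω) ⬝ᵥ y := by
    intro y hy
    rw [fnl_dot, fnl_dot]
    refine Finset.sum_congr rfl fun r _ => ?_
    by_cases hr : r = some i
    · rw [hr, hy, mul_zero, mul_zero]
    · congr 1
      unfold cfG
      rw [hB]
      congr 1
      match r, hr with
      | none, _ => rfl
      | some j, hr =>
        have hji : j ≠ i := fun h => hr (by rw [h])
        simp only [hR, hkc, Finset.mem_insert, hji, false_or]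
  have havl : avl C S' s = avl C S s := by
    unfold avl
    rw [hB]
  have hupsub : up S.R ⊆ up S'.R := by
    intro r hr
    obtain ⟨j, hj, rfl⟩ := mem_up'.1 hr
    rw [mem_up, hR]
    exact Finset.mem_insert_of_mem hj
  refine ⟨⟨?_, ?_⟩, H.vx, H.rc, ?_, ?_⟩
  · rw [hR]
    exact fe_up_insert.2 ⟨H.mn.1, hi⟩
  · intro y hy
    rw [hR] at hy
    obtain ⟨hy1, hy2⟩ := fe_up_insert.1 hy
    rw [hcf x hi, hcf y hy2]
    exact H.mn.2 y hy1
  · intro r hr
    rw [Finset.mem_sdiff] at hr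
    rw [havl]
    exact (H.rep r (Finset.mem_sdiff.2 ⟨hr.1, fun h' => hr.2 (hupsub h')⟩)).mono
      (Finset.Subset.refl _) hupsub le_rfl hc
  · rw [hcf x hi]
    exact H.val

/-- Nothing changes on the side. -/
theorem side_same {C : Cf m} {S S' : St m n} {s : Bool} {ω : Om m n} {c : ℝ}
    {u x : Fin (n + 1) → ℝ} {len : ℕ} {h : ℝ} (H : Side C S s ω c u x len h)
    (hR : S'.R = S.R) (hkc : S'.kc s = S.kc s)
    (hB : S'.B s = S.B s) : Side C S' s ω c u x len h := by
  classical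
  have hcf : cfG C S' s ω = cfG C S s ω := by
    funext r
    unfold cfG
    rw [hR, hkc, hB]
  have havl : avl C S' s = avl C S s := by
    unfold avl
    rw [hB]
  exact ⟨by rw [hR, hcf]; exact H.mn, H.vx, H.rc, by rw [hR, havl]; exact H.rep,
    by rw [hcf]; exact H.val⟩

/-- The inequalities between the parameters. -/
structure ParOk (P : Par) (al : ℝ) : Prop where
  dl0 : 0 < P.dl
  ta0 : 0 < P.ta
  ta20 : 0 < P.ta2
  ep0 : 0 < P.ep
  ep1 : P.ep < 1
  al0 : 0 < al
  ph0 : 0 < P.ph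
  Dd0 : 0 < P.Dd
  K10 : 0 < P.K1
  K30 : 0 < P.K3
  win : P.dl ≤ P.ta * P.ep
  win1 : 2 * P.ph * P.Dd ≤ P.ta * P.ep

/-- The bounds on the chart polytope which are used in a leg of the column `i` on the side `s`;
`p` is the deep point of the column, `-h` the value at the start. -/
structure LegB (P : Par) (C : Cf m) (S : St m n) (s : Bool) (i : Fin m) (ω : Om m n) (al h : ℝ)
    (p : Fin (n + 1) → ℝ) : Prop where
  om0 : ∀ r l, 0 ≤ ω (.om s r l)
  G : ∀ x y, Leg.Fe (rho ω) (Nf ω) (up S.R) x → Leg.Fe (rho ω) (Nf ω) (up S.R) y →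
    2 * (fnl ω (fun r => ω (.gi i r)) ⬝ᵥ x - fnl ω (fun r => ω (.gi i r)) ⬝ᵥ y) ≤ P.Dd * al
  win2 : ∀ k ≤ P.K1, ∀ x y, Leg.Fe (rho ω) (Nf ω) (up S.R) x →
    Leg.Fe (rho ω) (Nf ω) (up S.R) y →
    fnl ω (cfL P C S s i k ω) ⬝ᵥ x - fnl ω (cfL P C S s i k ω) ⬝ᵥ y ≤
      P.K3 * (P.ta2 * (P.ep * (al / 2)))
  pF : Leg.Fe (rho ω) (Nf ω) (up S.R) p
  pv : fnl ω (cfL P C S s i P.K1 ω) ⬝ᵥ p ≤ -h - (P.K1 * P.dl) * al
  s1 : ∀ x, Leg.Fe (rho ω) (Nf ω) (up S.R) x → rho ω (some i) ⬝ᵥ x ≤ 1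

/-- The hypotheses of the leg lemma. -/
theorem legHyp {P : Par} {C : Cf m} {S : St m n} {s : Bool} {i : Fin m} {ω : Om m n}
    {c al h : ℝ} {p : Fin (n + 1) → ℝ} (hP : ParOk P al) (hB : LegB P C S s i ω al h p)
    (hiR : i ∉ S.R) (hc : 1 ≤ c) :
    Leg.Hyp (legDat P C S s i ω c al) h (-(h + ((P.K1 * P.dl) * al + P.dl))) p where
  rpm := by
    intro B r t hr
    refine RepN.mono hr ?_ (Finset.Subset.refl _) le_rfl (by linarith)
    intro x hx
    rcases Finset.mem_union.1 hx with h | h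
    · exact Finset.mem_union_left _ h
    · apply Finset.mem_union_right
      rw [List.mem_toFinset] at h ⊢
      exact List.mem_cons_of_mem _ h
  rps := by
    intro B r
    refine repN_self hc ?_
    apply Finset.mem_union_right
    rw [List.mem_toFinset]
    exact List.mem_cons_self
  w0 := fun _ r => hB.om0 r _
  bst := by
    intro B r
    have h1 : ∀ W : List (Row m), (legDat P C S s i ω c al).bst W =
        (W.map (fun r => ω (.om s r (Fin.ofNat (n + 1) S.t)) • rho ω r)).sum := fun _ => rfl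
    rw [h1, h1, List.map_cons, List.sum_cons]
    exact add_comm _ _
  δ0 := hP.dl0
  τ0 := hP.ta0
  τ20 := hP.ta20
  ε0 := hP.ep0
  ε1 := hP.ep1
  α0 := hP.al0
  φ0 := hP.ph0
  Dd0 := hP.Dd0
  K10 := hP.K10
  K30 := hP.K30
  iR := fun h => hiR (mem_up.1 h)
  win := hP.win
  win1 := hP.win1
  G := hB.G
  win2 := by
    intro k hk x y hx hy
    have h1 : (legDat P C S s i ω c al).L k (legDat P C S s i ω c al).B =
        fnl ω (cfL P C S s i k ω) := L_eq k
    rw [h1]
    exact hB.win2 k hk x y hx hy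
  pF := hB.pF
  pv := by
    have h1 : (legDat P C S s i ω c al).L (legDat P C S s i ω c al).K1
        (legDat P C S s i ω c al).B = fnl ω (cfL P C S s i P.K1 ω) := L_eq P.K1
    rw [h1]
    exact hB.pv
  vh := by
    intro x hx
    have h1 := hB.s1 x hx
    have h2 : P.dl * (rho ω (some i) ⬝ᵥ x) ≤ P.dl * 1 := mul_le_mul_of_nonneg_left h1 hP.dl0.le
    show -(h + ((P.K1 * P.dl) * al + P.dl)) ≤ -h - (P.K1 * P.dl) * al -
      P.dl * (rho ω (some i) ⬝ᵥ x)
    linarith

end Pool.Agent.Lib.S3.PL
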