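import Pool.Agent.Lib.S3.PL.Defs
import Pool.Agent.Lib.S3.Leg.Leg
import Pool.Agent.Lib.S3.Geo.ChartN
import Pool.Agent.Lib.S3.Geo.Face

/-!
# The chart of a sample point and the geometric hypotheses of the leg lemma

`aOf ω`, `bOf ω`: the polyhedron `a x ≤ b` of the sample point. `VxC ω`, `RcC ω`: vertices and walks
of its chart. `legGeo`: the structure `Leg.Geo`.
-/

set_option autoImplicit false

open Matrix

namespace Pool.Agent.Lib.S3.PL

open Pool.Agent.Lib.SHirsch (Gr)

variable {m n : ℕ}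

/-- The rows of the polyhedron. -/
def aOf (ω : Om m n) : Fin m → Fin n → ℝ := fun i j => -ω (.row i j.succ)

/-- The right hand sides of the polyhedron. -/
def bOf (ω : Om m n) : Fin m → ℝ := fun i => ω (.row i 0)

theorem gr_eq (ω : Om m n) (r : Row m) : Gr (aOf ω) (bOf ω) r = -rho ω r := by
  match r with
  | none =>
    funext j
    show (Fin.cons (-1) 0 : Fin (n + 1) → ℝ) j = -(Pi.single 0 1 : Fin (n + 1) → ℝ) j
    refine Fin.cases ?_ (fun j => ?_) j
    · simp
    · simp
  | some i =>
    funext j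
    show (Fin.cons (-(bOf ω i)) (aOf ω i) : Fin (n + 1) → ℝ) j = -ω (.row i j)
    refine Fin.cases ?_ (fun j => ?_) j
    · rw [Fin.cons_zero]
      rfl
    · rw [Fin.cons_succ]
      rfl

theorem nf_eq (ω : Om m n) : Nf ω = Geo.chN (aOf ω) (bOf ω) (fun r => ω (.eta r)) := by
  unfold Nf Geo.chN
  rw [← Finset.sum_neg_distrib]
  refine Finset.sum_congr rfl fun r _ => ?_
  rw [gr_eq, smul_neg, neg_neg]

/-- The rows of the chart. -/
def cA (ω : Om m n) : Option (Option (Fin m)) → Fin (n + 1) → ℝ :=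
  Geo.chA (aOf ω) (bOf ω) (Nf ω)

/-- Vertices of the chart. -/
def VxC (ω : Om m n) (x : Fin (n + 1) → ℝ) : Prop :=
  Geo.Vert (cA ω) (Geo.chB m) {none} (Geo.chS m) x

/-- Walks in the chart. -/
def RcC (ω : Om m n) (k : ℕ) (x y : Fin (n + 1) → ℝ) : Prop :=
  Geo.Reach (cA ω) (Geo.chB m) {none} (Geo.chS m) k x y

/-- Rows as rows of the chart. -/
def sm (R : Finset (Row m)) : Finset (Option (Option (Fin m))) := R.map Function.Embedding.some

theorem mem_sm {R : Finset (Row m)} {r : Row m} :
    (some r : Option (Option (Fin m))) ∈ sm R ↔ r ∈ R := by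
  simp [sm]

theorem none_notMem_sm {R : Finset (Row m)} : (none : Option (Option (Fin m))) ∉ sm R := by
  simp [sm]

theorem cA_none (ω : Om m n) : cA ω none = Nf ω := rfl

theorem cA_some (ω : Om m n) (r : Row m) : cA ω (some r) = -rho ω r := gr_eq ω r

theorem sm_sub_chS (R : Finset (Row m)) : sm R ⊆ Geo.chS m := by
  intro i hi
  match i, hi with
  | none, hi => exact absurd hi none_notMem_sm
  | some r, _ => exact Finset.mem_erase.2 ⟨by simp, Finset.mem_univ _⟩

theorem union_chS (R : Finset (Row m)) :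
    ({none} ∪ sm R) ∪ (Geo.chS m \ sm R) = {none} ∪ Geo.chS m := by
  ext i
  simp only [Finset.mem_union, Finset.mem_sdiff]
  constructor
  · rintro ((h | h) | h)
    · exact Or.inl h
    · exact Or.inr (sm_sub_chS R h)
    · exact Or.inr h.1
  · rintro (h | h)
    · exact Or.inl (Or.inl h)
    · by_cases hi : i ∈ sm R
      · exact Or.inl (Or.inr hi)
      · exact Or.inr ⟨h, hi⟩

theorem univ_chS (i : Option (Option (Fin m))) : i ∈ ({none} : Finset _) ∪ Geo.chS m := by
  by_cases hi : i = none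
  · exact Finset.mem_union_left _ (Finset.mem_singleton.2 hi)
  · exact Finset.mem_union_right _ (Finset.mem_erase.2 ⟨hi, Finset.mem_univ _⟩)

theorem mem_pol_iff (ω : Om m n) {R : Finset (Row m)} {x : Fin (n + 1) → ℝ} :
    x ∈ Geo.Pol (cA ω) (Geo.chB m) ({none} ∪ sm R) (Geo.chS m \ sm R) ↔
      Leg.Fe (rho ω) (Nf ω) R x := by
  constructor
  · rintro ⟨h1, h2⟩
    have hR : ∀ r ∈ R, rho ω r ⬝ᵥ x = 0 := by
      intro r hr
      have h3 := h1 (some r) (Finset.mem_union_right _ (mem_sm.2 hr))
      rw [cA_some, neg_dotProduct] at h3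
      have h4 : -(rho ω r ⬝ᵥ x) = 0 := h3
      linarith
    refine ⟨fun r => ?_, hR, h1 none (Finset.mem_union_left _ (Finset.mem_singleton_self _))⟩
    by_cases hr : r ∈ R
    · exact (hR r hr).ge
    · have h3 := h2 (some r) (Finset.mem_sdiff.2
        ⟨Finset.mem_erase.2 ⟨by simp, Finset.mem_univ _⟩, fun h => hr (mem_sm.1 h)⟩)
      rw [cA_some, neg_dotProduct] at h3
      have h4 : -(rho ω r ⬝ᵥ x) ≤ 0 := h3
      linarith
  · rintro ⟨h1, h2, h3⟩
    constructor
    · intro i hi
      match i, hi with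
      | none, _ => exact h3
      | some r, hi =>
        have hr : r ∈ R := by
          rcases Finset.mem_union.1 hi with h | h
          · simp at h
          · exact mem_sm.1 h
        rw [cA_some, neg_dotProduct, h2 r hr, neg_zero]
        rfl
    · intro i hi
      match i, hi with
      | none, hi =>
        exfalso
        exact absurd (Finset.mem_sdiff.1 hi).1 (Finset.notMem_erase _ _)
      | some r, _ =>
        rw [cA_some, neg_dotProduct]
        have := h1 r
        show -(rho ω r ⬝ᵥ x) ≤ 0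
        linarith

/-- The tight rows of a point of the chart. -/
theorem tt_eq (ω : Om m n) {x : Fin (n + 1) → ℝ} (hN : Nf ω ⬝ᵥ x = 1) :
    Geo.tt (cA ω) (Geo.chB m) ({none} ∪ Geo.chS m) x = insert none (sm (Leg.tgt (rho ω) x)) := by
  ext i
  rw [Geo.mem_tt, Finset.mem_insert]
  match i with
  | none =>
    simp only [univ_chS, true_and, true_or, iff_true]
    exact hN
  | some r =>
    simp only [univ_chS, true_and, reduceCtorEq, false_or]
    rw [mem_sm, Leg.mem_tgt, cA_some, neg_dotProduct]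
    show -(rho ω r ⬝ᵥ x) = 0 ↔ _
    constructor <;> intro h <;> linarith

theorem vert_face_iff (ω : Om m n) {R : Finset (Row m)} {x : Fin (n + 1) → ℝ}
    (hx : Leg.Fe (rho ω) (Nf ω) R x) :
    Geo.Vert (cA ω) (Geo.chB m) ({none} ∪ sm R) (Geo.chS m \ sm R) x ↔ VxC ω x := by
  have h0 : x ∈ Geo.Pol (cA ω) (Geo.chB m) {none} (Geo.chS m) := by
    have h1 := (mem_pol_iff ω (R := ∅) (x := x)).2 ⟨hx.1, by simp, hx.2.2⟩
    have h2 : sm (∅ : Finset (Row m)) = ∅ := rfl
    rwa [h2, Finset.union_empty, Finset.sdiff_empty] at h1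
  unfold VxC Geo.Vert
  rw [union_chS]
  exact ⟨fun h => ⟨h0, h.2⟩, fun h => ⟨(mem_pol_iff ω).2 hx, h.2⟩⟩

theorem VxC.fe {ω : Om m n} {x : Fin (n + 1) → ℝ} (h : VxC ω x) :
    Leg.Fe (rho ω) (Nf ω) ∅ x := by
  have h1 := h.1
  have h2 : sm (∅ : Finset (Row m)) = ∅ := rfl
  have h3 := mem_pol_iff ω (R := ∅) (x := x)
  rw [h2, Finset.union_empty, Finset.sdiff_empty] at h3
  exact h3.1 h1

theorem VxC.card_tgt {ω : Om m n} {x : Fin (n + 1) → ℝ} (h : VxC ω x) :
    (Leg.tgt (rho ω) x).card = n := by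
  have h1 := h.2
  rw [tt_eq ω h.fe.2.2, Finset.card_insert_of_notMem none_notMem_sm] at h1
  unfold sm at h1
  rw [Finset.card_map] at h1
  omega

/-- The geometric hypotheses of the leg lemma. -/
theorem legGeo {ω : Om m n} (hG : Geo.GP (cA ω) (Geo.chB m) {none})
    (hbd : Bornology.IsBounded (Geo.Chart (aOf ω) (bOf ω) (Nf ω))) {R : Finset (Row m)}
    (hne : ∃ x, Leg.Fe (rho ω) (Nf ω) R x) (h : ℕ) :
    Leg.Geo (rho ω) (Nf ω) R (VxC ω) (RcC ω) h ((m + 2) ^ h) where
  ex := by
    intro Γ
    have hbd' : Bornology.IsBounded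
        (Geo.Pol (cA ω) (Geo.chB m) ({none} ∪ sm R) (Geo.chS m \ sm R)) := by
      refine hbd.subset fun y hy => ?_
      have h1 := (mem_pol_iff ω).1 hy
      have h2 := (mem_pol_iff ω (R := ∅) (x := y)).2 ⟨h1.1, by simp, h1.2.2⟩
      have h3 : sm (∅ : Finset (Row m)) = ∅ := rfl
      rw [h3, Finset.union_empty, Finset.sdiff_empty] at h2
      exact h2
    obtain ⟨x0, hx0⟩ := hne
    obtain ⟨x, hx, hopt⟩ := Geo.exists_opt hG (T := {none} ∪ sm R) (S := Geo.chS m \ sm R)
      Finset.subset_union_left ⟨x0, (mem_pol_iff ω).2 hx0⟩ hbd' (-Γ)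
    have hfe := (mem_pol_iff ω).1 hopt.1
    refine ⟨x, (vert_face_iff ω hfe).1 hx, hfe, fun y hy => ?_⟩
    have h1 := hopt.2 y ((mem_pol_iff ω).2 hy)
    rw [neg_dotProduct, neg_dotProduct] at h1
    linarith
  mul := by
    intro Γ x hx hmn
    have hv := (vert_face_iff ω hmn.1).2 hx
    obtain ⟨l, hl⟩ := Geo.exists_mult hG hv.2 (-Γ)
    have hopt : Geo.IsOpt (cA ω) (Geo.chB m) ({none} ∪ sm R) (Geo.chS m \ sm R) (-Γ) x := by
      refine ⟨(mem_pol_iff ω).2 hmn.1, fun z hz => ?_⟩
      have h1 := hmn.2 z ((mem_pol_iff ω).1 hz)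
      rw [neg_dotProduct, neg_dotProduct]
      linarith
    have hnn := fun i hi hiT =>
      Geo.mult_nonneg hG (T := {none} ∪ sm R) (S := Geo.chS m \ sm R)
        Finset.subset_union_left hv hopt hl (i := i) hi hiT
    rw [union_chS, tt_eq ω hmn.1.2.2] at hl hnn
    refine ⟨fun r => if r ∈ Leg.tgt (rho ω) x then l (some r) else 0, ?_, ?_, -l none, ?_⟩
    · intro r hr
      exact if_neg hr
    · intro r hr
      by_cases hrt : r ∈ Leg.tgt (rho ω) x
      · simp only [if_pos hrt]
        apply hnn (some r) (Finset.mem_insert_of_mem (mem_sm.2 hrt))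
        intro hcon
        rcases Finset.mem_union.1 hcon with h1 | h1
        · simp at h1
        · exact hr (mem_sm.1 h1)
      · simp only [if_neg hrt]
        exact le_rfl
    · unfold Geo.IsMult at hl
      rw [Finset.sum_insert none_notMem_sm] at hl
      have h1 : ∑ i ∈ sm (Leg.tgt (rho ω) x), l i • cA ω i =
          -∑ r ∈ Leg.tgt (rho ω) x, l (some r) • rho ω r := by
        unfold sm
        rw [Finset.sum_map, ← Finset.sum_neg_distrib]
        refine Finset.sum_congr rfl fun r _ => ?_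
        show l (some r) • cA ω (some r) = _
        rw [cA_some, smul_neg]
      rw [h1, cA_none] at hl
      have h2 : ∑ r, (if r ∈ Leg.tgt (rho ω) x then l (some r) else 0) • rho ω r =
          ∑ r ∈ Leg.tgt (rho ω) x, l (some r) • rho ω r := by
        rw [← Finset.sum_filter_add_sum_filter_not Finset.univ
          (fun r => r ∈ Leg.tgt (rho ω) x)]
        have h3 : Finset.univ.filter (fun r => r ∈ Leg.tgt (rho ω) x) =
            Leg.tgt (rho ω) x := by
          ext r; simp
        rw [h3]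
        have h4 : ∑ r ∈ Finset.univ.filter (fun r => ¬ r ∈ Leg.tgt (rho ω) x),
            (if r ∈ Leg.tgt (rho ω) x then l (some r) else 0) • rho ω r = 0 := by
          refine Finset.sum_eq_zero fun r hr => ?_
          rw [if_neg (Finset.mem_filter.1 hr).2, zero_smul]
        rw [h4, add_zero]
        refine Finset.sum_congr rfl fun r hr => ?_
        rw [if_pos hr]
      rw [h2, neg_smul]
      have h5 : Γ = -(-Γ) := (neg_neg Γ).symm
      rw [h5, hl]
      abel
  win := by
    intro x y hx hy _ _ hc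
    have h0 : Geo.Reach (cA ω) (Geo.chB m) {none} (Geo.chS m)
        (Fintype.card (Option (Option (Fin m))) ^ h) x y := by
      apply Geo.reach_common hG Finset.Subset.rfl hx hy
      rw [tt_eq ω hx.fe.2.2, tt_eq ω hy.fe.2.2]
      have h1 : insert none (sm (Leg.tgt (rho ω) x)) ∩ insert none (sm (Leg.tgt (rho ω) y)) =
          insert none (sm (Leg.tgt (rho ω) x ∩ Leg.tgt (rho ω) y)) := by
        rw [← Finset.insert_inter_distrib]
        congr 1
        unfold sm
        rw [Finset.map_inter]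
      rw [h1, Finset.card_insert_of_notMem none_notMem_sm]
      unfold sm
      rw [Finset.card_map]
      have h2 := Finset.card_inter_add_card_sdiff (Leg.tgt (rho ω) x) (Leg.tgt (rho ω) y)
      have h3 := hx.card_tgt
      omega
    have h4 : Fintype.card (Option (Option (Fin m))) = m + 2 := by
      rw [Fintype.card_option, Fintype.card_option, Fintype.card_fin]
    rw [h4] at h0
    exact h0
  refl := fun x hx => ⟨hx, rfl⟩
  trans := fun a b x y z h1 h2 => Geo.reach_trans h1 h2

end Pool.Agent.Lib.S3.PL
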