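import Pool.Agent.Lib.S3.PL.Defs
import Pool.Agent.Lib.S3.WallPow

/-! From representability `RepN` (free removed rows) to the basis form `RepB` of the pair machine.

A frame which contains the removed rows `R` and has maximal determinant represents all available
rows with coefficients at most one outside `R`. -/

set_option autoImplicit false

open Matrix

namespace Pool.Agent.Lib.S3.PL

variable {κ : Type} {n : ℕ} {N : Fin (n + 1) → ℝ} {ρ : κ → Fin (n + 1) → ℝ}

/-- The expansion of a vector in the rows of a tuple. -/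
theorem expand_vec {e : Fin n → κ} (hd : (amat N ρ e).det ≠ 0) (v : Fin (n + 1) → ℝ) :
    v = (v ⬝ᵥ pt N ρ e) • N + ∑ k, lam N ρ v e k • ρ (e k) := by
  funext j
  have h := expand hd v (Pi.single j 1)
  rw [dotProduct_single, dotProduct_single, mul_one, mul_one] at h
  rw [h, Pi.add_apply, Finset.sum_apply, Pi.smul_apply, smul_eq_mul]
  congr 1
  refine Finset.sum_congr rfl fun k _ => ?_
  rw [dotProduct_single, mul_one, Pi.smul_apply, smul_eq_mul]

/-- Cramer's rule for the multipliers of a row. -/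
theorem lam_mul_det [DecidableEq κ] {e : Fin n → κ} (hd : (amat N ρ e).det ≠ 0) (j : κ)
    (k : Fin n) :
    (amat N ρ (Function.update e k j)).det = lam N ρ (ρ j) e k * (amat N ρ e).det := by
  have h1 := Matrix.det_updateRow_sum (amat N ρ e) k.succ
    (Fin.cons (ρ j ⬝ᵥ pt N ρ e) (fun l => lam N ρ (ρ j) e l))
  have h2 : ∑ l, (Fin.cons (ρ j ⬝ᵥ pt N ρ e) (fun l => lam N ρ (ρ j) e l) :
      Fin (n + 1) → ℝ) l • (amat N ρ e) l = ρ j := by
    rw [Fin.sum_univ_succ]
    exact (expand_vec hd (ρ j)).symm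
  rw [h2] at h1
  have h3 : amat N ρ (Function.update e k j) = (amat N ρ e).updateRow k.succ (ρ j) := by
    funext l
    refine Fin.cases ?_ (fun l => ?_) l
    · rw [Matrix.updateRow_ne (Fin.succ_ne_zero k).symm]
      rfl
    · by_cases hl : l = k
      · subst hl
        rw [Matrix.updateRow_self]
        show ρ (Function.update e l j l) = ρ j
        rw [Function.update_self]
      · rw [Matrix.updateRow_ne (fun h => hl (Fin.succ_injective _ h))]
        show ρ (Function.update e k j l) = ρ (e l)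
        rw [Function.update_of_ne hl]
  rw [h3, h1, Fin.cons_succ, smul_eq_mul]

/-- The frames with rows in `S` which contain all rows of `R`. -/
def Fr (S R : Finset κ) (e : Fin n → κ) : Prop :=
  (∀ k, e k ∈ S) ∧ ∀ r ∈ R, ∃ k, e k = r

/-- There is a frame with nonzero determinant in which all rows of `S` have coefficients at most
one outside `R`. -/
theorem exists_max_frame [Fintype κ] [DecidableEq κ] (S R : Finset κ) (e0 : Fin n → κ)
    (he0 : Fr S R e0) (hd0 : (amat N ρ e0).det ≠ 0) :
    ∃ e : Fin n → κ, Fr S R e ∧ (amat N ρ e).det ≠ 0 ∧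
      ∀ j ∈ S, ∀ k, e k ∉ R → |lam N ρ (ρ j) e k| ≤ 1 := by
  classical
  let P : Finset (Fin n → κ) := Finset.univ.filter (fun e => Fr S R e)
  have hP : P.Nonempty := ⟨e0, Finset.mem_filter.2 ⟨Finset.mem_univ _, he0⟩⟩
  obtain ⟨e, heP, hmax⟩ := Finset.exists_max_image P (fun e => |(amat N ρ e).det|) hP
  have he : Fr S R e := (Finset.mem_filter.1 heP).2
  have h0 := hmax e0 (Finset.mem_filter.2 ⟨Finset.mem_univ _, he0⟩)
  have hpos : 0 < |(amat N ρ e).det| := lt_of_lt_of_le (abs_pos.2 hd0) h0
  have hd : (amat N ρ e).det ≠ 0 := abs_pos.1 hpos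
  refine ⟨e, he, hd, ?_⟩
  intro j hj k hk
  have hF : Fr S R (Function.update e k j) := by
    refine ⟨?_, ?_⟩
    · intro l
      by_cases hl : l = k
      · subst hl
        rw [Function.update_self]
        exact hj
      · rw [Function.update_of_ne hl]
        exact he.1 l
    · intro r hr
      obtain ⟨l, hl⟩ := he.2 r hr
      refine ⟨l, ?_⟩
      rw [Function.update_of_ne]
      · exact hl
      · intro h
        apply hk
        rw [← h, hl]
        exact hr
  have h1 := hmax _ (Finset.mem_filter.2 ⟨Finset.mem_univ _, hF⟩)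
  rw [lam_mul_det hd, abs_mul] at h1
  have h2 : |lam N ρ (ρ j) e k| * |(amat N ρ e).det| ≤ 1 * |(amat N ρ e).det| := by
    rw [one_mul]
    exact h1
  exact le_of_mul_le_mul_right h2 hpos

/-- In such a frame a representable vector has bounded coefficients outside `R`. -/
theorem lam_le_of_repN [DecidableEq κ] (S R : Finset κ) (c : ℝ) (hc : 0 ≤ c) (v : Fin (n + 1) → ℝ)
    (hv : RepN ρ N c S R v) (e : Fin n → κ) (he : Fr S R e) (hd : (amat N ρ e).det ≠ 0)
    (hmax : ∀ j ∈ S, ∀ k, e k ∉ R → |lam N ρ (ρ j) e k| ≤ 1) (k : Fin n) (hk : e k ∉ R) :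
    |lam N ρ v e k| ≤ S.card * c := by
  obtain ⟨x, y, hx, hv⟩ := hv
  have h1 : lam N ρ v e k = ∑ j ∈ S, x j * lam N ρ (ρ j) e k := by
    unfold lam
    rw [hv, add_dotProduct, smul_dotProduct, N_dv hd, smul_zero, zero_add, sum_dotProduct]
    refine Finset.sum_congr rfl fun j _ => ?_
    rw [smul_dotProduct, smul_eq_mul]
  rw [h1]
  refine le_trans (Finset.abs_sum_le_sum_abs _ _) ?_
  have h2 : ∀ j ∈ S, |x j * lam N ρ (ρ j) e k| ≤ c := by
    intro j hj
    by_cases hjR : j ∈ R
    · obtain ⟨l, hl⟩ := he.2 j hjR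
      have hlk : l ≠ k := by
        intro h
        apply hk
        rw [← h, hl]
        exact hjR
      have h3 : lam N ρ (ρ j) e k = 0 := by
        rw [← hl]
        exact row_dv_ne hd hlk
      rw [h3, mul_zero, abs_zero]
      exact hc
    · rw [abs_mul]
      calc |x j| * |lam N ρ (ρ j) e k| ≤ c * 1 :=
            mul_le_mul (hx j hj hjR) (hmax j hj k hk) (abs_nonneg _) hc
        _ = c := mul_one c
  calc ∑ j ∈ S, |x j * lam N ρ (ρ j) e k| ≤ ∑ j ∈ S, c := Finset.sum_le_sum h2
    _ = S.card * c := by rw [Finset.sum_const, nsmul_eq_mul]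

/-- A row of `S` is representable. -/
theorem repN_self [DecidableEq κ] {S R : Finset κ} {c : ℝ} (hc : 1 ≤ c) {r : κ} (hr : r ∈ S) :
    RepN ρ N c S R (ρ r) := by
  refine ⟨fun j => if j = r then 1 else 0, 0, ?_, ?_⟩
  · intro j _ _
    by_cases h : j = r
    · simp only [if_pos h, abs_one]
      exact hc
    · simp only [if_neg h, abs_zero]
      exact le_trans zero_le_one hc
  · rw [zero_smul, zero_add, Finset.sum_eq_single r]
    · simp
    · intro j _ hj
      simp [hj]
    · intro h
      exact absurd hr h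

/-- A free row is representable. -/
theorem repN_free [DecidableEq κ] {S R : Finset κ} {c : ℝ} (hc : 0 ≤ c) {r : κ} (hr : r ∈ S)
    (hrR : r ∈ R) : RepN ρ N c S R (ρ r) := by
  refine ⟨fun j => if j = r then 1 else 0, 0, ?_, ?_⟩
  · intro j _ hjR
    have h : j ≠ r := fun h => hjR (h ▸ hrR)
    simp only [if_neg h, abs_zero]
    exact hc
  · rw [zero_smul, zero_add, Finset.sum_eq_single r]
    · simp
    · intro j _ hj
      simp [hj]
    · intro h
      exact absurd hr h

/-! ### The pair machine -/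

section machine

variable {m n : ℕ}

open Classical in
/-- The rows available for representations on the side `s`: the columns of the basis and the
boosted rows. -/
noncomputable def avl (C : Cf m) (S : St m n) (s : Bool) : Finset (Row m) :=
  up (C.I s) ∪ (S.B s).image Prod.fst

theorem mem_avl {C : Cf m} {S : St m n} {s : Bool} {r : Row m} :
    r ∈ avl C S s ↔ r ∈ up (C.I s) ∨ ∃ l, (r, l) ∈ S.B s := by
  unfold avl
  rw [Finset.mem_union, Finset.mem_image]
  constructor
  · rintro (h | ⟨⟨r', l⟩, h1, h2⟩)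
    · exact Or.inl h
    · simp only at h2
      exact Or.inr ⟨l, h2 ▸ h1⟩
  · rintro (h | ⟨l, h⟩)
    · exact Or.inl h
    · exact Or.inr ⟨(r, l), h, rfl⟩

/-- If all rows of `T` are representable by the available rows with constant `c`, then `T` is
representable in basis form, with one frame for all rows. -/
theorem repB_of_repN (P : Par) (C : Cf m) (S : St m n) (s : Bool) (ω : Om m n)
    (T : Finset (Row m)) (c : ℝ) (hc : 0 ≤ c) (hMw : ((m : ℝ) + 1) * c ≤ P.Mw)
    (e0 : Fin n → Row m) (hd0 : (amat (Nf ω) (rho ω) e0).det ≠ 0)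
    (hI0 : ∀ k, e0 k ∈ up (C.I s)) (hR0 : ∀ r ∈ up S.R, ∃ k, e0 k = r)
    (hT : ∀ r ∈ T, RepN (rho ω) (Nf ω) c (avl C S s) (up S.R) (rho ω r)) :
    ∃ e : Fin n → Row m, RepB P C S s ω T e := by
  classical
  have hFr0 : Fr (avl C S s) (up S.R) e0 :=
    ⟨fun k => mem_avl.2 (Or.inl (hI0 k)), hR0⟩
  obtain ⟨e, he, hd, hmax⟩ := exists_max_frame (N := Nf ω) (ρ := rho ω) (avl C S s) (up S.R) e0
    hFr0 hd0
  refine ⟨e, hd, he.2, fun k _ => mem_avl.1 (he.1 k), ?_⟩
  intro r hr k hk
  have h1 := lam_le_of_repN (avl C S s) (up S.R) c hc (rho ω r) (hT r hr) e he hd hmax k hk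
  have h2 : ((avl C S s).card : ℝ) ≤ (m : ℝ) + 1 := by
    have h3 : (avl C S s).card ≤ Fintype.card (Row m) := Finset.card_le_univ _
    have h4 : Fintype.card (Row m) = m + 1 := by
      simp [Row]
    rw [h4] at h3
    exact_mod_cast h3
  refine le_trans h1 (le_trans (mul_le_mul_of_nonneg_right h2 hc) hMw)

/-- `avl` grows along moves. -/
theorem avl_nxt (P : Par) (C : Cf m) (S : St m n) (mv : Mv m P) (s : Bool) :
    avl C S s ⊆ avl C (nxt P S mv) s := by
  classical
  intro r hr
  rw [mem_avl] at hr ⊢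
  rcases hr with h | ⟨l, h⟩
  · exact Or.inl h
  · right
    refine ⟨l, ?_⟩
    cases mv with
    | hv s' i p D => exact h
    | lf s' i k e T => exact h
    | cb s' i k T =>
      simp only [nxt]
      by_cases hs : s = s'
      · rw [if_pos hs]
        exact Finset.mem_union_left _ h
      · rw [if_neg hs]
        exact h
    | cw s' i k W =>
      simp only [nxt]
      by_cases hs : s = s'
      · rw [if_pos hs]
        exact Finset.mem_union_left _ h
      · rw [if_neg hs]
        exact h

/-- The boosted rows of a closing by walls are available afterwards. -/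
theorem mem_avl_cw (P : Par) (C : Cf m) (S : St m n) (s : Bool) (i : Fin m)
    (k : Fin (P.K1 + 1)) (W : Finset (Option (Fin m))) {r : Row m} (hr : r ∈ W) :
    r ∈ avl C (nxt P S (.cw s i k W)) s := by
  classical
  rw [mem_avl]
  right
  refine ⟨Fin.ofNat (n + 1) S.t, ?_⟩
  simp only [nxt, if_true]
  apply Finset.mem_union_right
  rw [Finset.mem_product]
  exact ⟨hr, Finset.mem_singleton_self _⟩

/-- The boosted rows of a batch are available afterwards. -/
theorem mem_avl_cb (P : Par) (C : Cf m) (S : St m n) (s : Bool) (i : Fin m)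
    (k : Fin (P.K1 + 1)) (T : Finset (Option (Fin m))) {r : Row m} (hr : r ∈ T) :
    r ∈ avl C (nxt P S (.cb s i k T)) s := by
  classical
  rw [mem_avl]
  right
  refine ⟨Fin.ofNat (n + 1) S.t, ?_⟩
  simp only [nxt, if_true]
  apply Finset.mem_union_right
  rw [Finset.mem_product]
  exact ⟨hr, Finset.mem_singleton_self _⟩

/-- The removed rows only grow. -/
theorem R_nxt (P : Par) (S : St m n) (mv : Mv m P) : S.R ⊆ (nxt P S mv).R := by
  classical
  cases mv with
  | hv s' i p D => exact Finset.subset_insert _ _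
  | lf s' i k e T => exact Finset.subset_insert _ _
  | cb s' i k T => exact Finset.Subset.refl _
  | cw s' i k W => exact Finset.Subset.refl _

/-- Representability is kept along moves. -/
theorem repN_nxt (P : Par) (C : Cf m) (S : St m n) (mv : Mv m P) (s : Bool) (ω : Om m n) (c : ℝ)
    (hc : 0 ≤ c) (v : Fin (n + 1) → ℝ) (h : RepN (rho ω) (Nf ω) c (avl C S s) (up S.R) v) :
    RepN (rho ω) (Nf ω) c (avl C (nxt P S mv) s) (up (nxt P S mv).R) v := by
  refine h.mono (avl_nxt P C S mv s) ?_ le_rfl hc
  intro r hr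
  obtain ⟨j, hj, hjr⟩ := mem_up'.1 hr
  exact mem_up'.2 ⟨j, R_nxt P S mv hj, hjr⟩

/-- A set of walls of one leg: an ordering in which no element is representable by the available
rows and the elements below it. -/
def IsWalls (C : Cf m) (S : St m n) (s : Bool) (ω : Om m n) (c : ℝ) (W : Finset (Row m)) :
    Prop :=
  ∃ Wl : List (Row m), Wl.Nodup ∧ Wl.toFinset = W ∧
    WChN (rho ω) (Nf ω) c (avl C S s) (up S.R) [] Wl

/-- The walls of a leg multiply the potential of its side. -/
theorem MD_walls (P : Par) (C : Cf m) (S : St m n) (s : Bool) (ω : Om m n) (c : ℝ) (hc : 0 ≤ c)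
    (W : Finset (Row m)) (h : IsWalls C S s ω c W) (i : Fin m) (k : Fin (P.K1 + 1)) :
    c ^ W.card * MD (rho ω) (Nf ω) (avl C S s) ≤
      MD (rho ω) (Nf ω) (avl C (nxt P S (.cw s i k W)) s) := by
  classical
  obtain ⟨Wl, hnd, hW, hch⟩ := h
  have h1 := MD_wch (rho ω) (Nf ω) c hc (avl C S s) (up S.R) [] Wl hch
  have h2 : Wl.length = W.card := by
    rw [← hW, List.toFinset_card_of_nodup hnd]
  rw [h2] at h1
  simp only [List.toFinset_nil, Finset.union_empty, List.append_nil] at h1
  refine le_trans h1 (MD_mono _ _ ?_)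
  rw [hW]
  intro r hr
  rcases Finset.mem_union.1 hr with h | h
  · exact avl_nxt P C S _ s h
  · exact mem_avl_cw P C S s i k W h

/-- All other moves do not lower the potential. -/
theorem MD_nxt (P : Par) (C : Cf m) (S : St m n) (s : Bool) (ω : Om m n) (mv : Mv m P) :
    MD (rho ω) (Nf ω) (avl C S s) ≤ MD (rho ω) (Nf ω) (avl C (nxt P S mv) s) :=
  MD_mono _ _ (avl_nxt P C S mv s)

end machine

end Pool.Agent.Lib.S3.PL
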