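import Pool.Agent.Lib.S3.PL.Opt

/-!
# Measurability of the points, multipliers and of the strict optimal basis events
-/

set_option autoImplicit false

open MeasureTheory Matrix

namespace Pool.Agent.Lib.S3.PL

variable {Ω : Type*} [MeasurableSpace Ω]

theorem meas_det {d : ℕ} {A : Ω → Matrix (Fin d) (Fin d) ℝ}
    (hA : ∀ i j, Measurable fun ω => A ω i j) : Measurable fun ω => (A ω).det := by
  simp only [Matrix.det_apply']
  exact Finset.measurable_sum _ fun σ _ =>
    measurable_const.mul (Finset.measurable_prod _ fun i _ => hA _ _)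

theorem meas_inv {d : ℕ} {A : Ω → Matrix (Fin d) (Fin d) ℝ}
    (hA : ∀ i j, Measurable fun ω => A ω i j) (i j : Fin d) :
    Measurable fun ω => (A ω)⁻¹ i j := by
  have h1 : ∀ ω, (A ω)⁻¹ i j = (A ω).det⁻¹ * (A ω).adjugate i j := by
    intro ω
    rw [Matrix.inv_def, Ring.inverse_eq_inv', Matrix.smul_apply, smul_eq_mul]
  simp only [h1]
  refine (meas_det hA).inv.mul ?_
  simp only [Matrix.adjugate_apply]
  refine meas_det fun a b => ?_
  by_cases ha : a = j
  · subst ha
    simp only [Matrix.updateRow_self]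
    exact measurable_const
  · simp only [Matrix.updateRow_ne ha]
    exact hA a b

theorem meas_dot {d : ℕ} {u v : Ω → Fin d → ℝ} (hu : ∀ j, Measurable fun ω => u ω j)
    (hv : ∀ j, Measurable fun ω => v ω j) : Measurable fun ω => u ω ⬝ᵥ v ω := by
  simp only [dotProduct]
  exact Finset.measurable_sum _ fun j _ => (hu j).mul (hv j)

variable {κ : Type} {n : ℕ} {N : Ω → Fin (n + 1) → ℝ} {ρ : Ω → κ → Fin (n + 1) → ℝ}
  {Γ : Ω → Fin (n + 1) → ℝ}

theorem meas_amat (hN : ∀ j, Measurable fun ω => N ω j)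
    (hρ : ∀ r j, Measurable fun ω => ρ ω r j) (e : Fin n → κ) (i j : Fin (n + 1)) :
    Measurable fun ω => amat (N ω) (ρ ω) e i j := by
  refine Fin.cases ?_ (fun k => ?_) i
  · exact hN j
  · exact hρ (e k) j

theorem meas_pt (hN : ∀ j, Measurable fun ω => N ω j)
    (hρ : ∀ r j, Measurable fun ω => ρ ω r j) (e : Fin n → κ) (j : Fin (n + 1)) :
    Measurable fun ω => pt (N ω) (ρ ω) e j := by
  unfold pt
  exact meas_dot (fun i => meas_inv (meas_amat hN hρ e) j i) (fun _ => measurable_const)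

theorem meas_dv (hN : ∀ j, Measurable fun ω => N ω j)
    (hρ : ∀ r j, Measurable fun ω => ρ ω r j) (e : Fin n → κ) (k : Fin n) (j : Fin (n + 1)) :
    Measurable fun ω => dv (N ω) (ρ ω) e k j := by
  unfold dv
  exact meas_dot (fun i => meas_inv (meas_amat hN hρ e) j i) (fun _ => measurable_const)

theorem meas_lam (hN : ∀ j, Measurable fun ω => N ω j)
    (hρ : ∀ r j, Measurable fun ω => ρ ω r j) (hΓ : ∀ j, Measurable fun ω => Γ ω j)
    (e : Fin n → κ) (k : Fin n) : Measurable fun ω => lam (N ω) (ρ ω) (Γ ω) e k :=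
  meas_dot hΓ (fun j => meas_dv hN hρ e k j)

theorem meas_row_pt (hN : ∀ j, Measurable fun ω => N ω j)
    (hρ : ∀ r j, Measurable fun ω => ρ ω r j) (e : Fin n → κ) (r : κ) :
    Measurable fun ω => ρ ω r ⬝ᵥ pt (N ω) (ρ ω) e :=
  meas_dot (hρ r) (fun j => meas_pt hN hρ e j)

theorem measurableSet_opt [Finite κ] (hN : ∀ j, Measurable fun ω => N ω j)
    (hρ : ∀ r j, Measurable fun ω => ρ ω r j) (hΓ : ∀ j, Measurable fun ω => Γ ω j)
    (R D : Finset κ) (e : Fin n → κ) :
    MeasurableSet {ω | Opt (N ω) (ρ ω) (Γ ω) R D e} := by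
  have h1 : {ω | Opt (N ω) (ρ ω) (Γ ω) R D e} =
      ({ω | (amat (N ω) (ρ ω) e).det ≠ 0} ∩ {_ω | ∀ r ∈ R, ∃ k, e k = r}) ∩
      ({_ω | ∀ k, e k ∉ D} ∩ ({ω | ∀ r, r ∉ D → (∀ k, e k ≠ r) →
        0 < ρ ω r ⬝ᵥ pt (N ω) (ρ ω) e} ∩
        {ω | ∀ k, e k ∉ R → 0 < lam (N ω) (ρ ω) (Γ ω) e k})) := by
    ext ω
    constructor
    · intro h
      exact ⟨⟨h.det, h.sub⟩, h.avoid, h.pos, h.mul⟩
    · rintro ⟨⟨h1, h2⟩, h3, h4, h5⟩
      exact ⟨h1, h2, h3, h4, h5⟩
  rw [h1]
  refine ((?_ : MeasurableSet _).inter (MeasurableSet.const _)).inter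
    ((MeasurableSet.const _).inter ((?_ : MeasurableSet _).inter ?_))
  · exact (measurableSet_eq_fun (meas_det (meas_amat hN hρ e)) measurable_const).compl
  · simp only [Set.ofPred_forall]
    refine MeasurableSet.iInter fun r => MeasurableSet.iInter fun _ => MeasurableSet.iInter fun _ =>
      measurableSet_lt measurable_const (meas_row_pt hN hρ e r)
  · simp only [Set.ofPred_forall]
    exact MeasurableSet.iInter fun k => MeasurableSet.iInter fun _ =>
      measurableSet_lt measurable_const (meas_lam hN hρ hΓ e k)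

end Pool.Agent.Lib.S3.PL
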