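import Pool.Agent.Lib.S3.PL.Defs
import Pool.Agent.Lib.S3.PL.OptMeas
import Pool.Agent.Lib.S3.Machine
import Pool.Agent.Lib.S3.FSig

/-!
# Measurability of the events of the pair machine (smoothed Hirsch, MP_4a5c02_co)

* `meas_rho`, `meas_Nf`, `meas_fnl`, `meas_cfG`, `meas_cfL`, `meas_cfE`, `meas_cfP`;
* `measurableSet_repB`, `measurableSet_evHV`, `measurableSet_evLF`, `measurableSet_evCB`,
  `measurableSet_ev`, `measurableSet_rl`, `measurableSet_vx`, `measurableSet_box`.
-/

set_option autoImplicit false

open MeasureTheory Matrix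

namespace Pool.Agent.Lib.S3.PL

variable {m n : ℕ}

theorem meas_rho (r : Row m) (j : Fin (n + 1)) : Measurable fun ω : Om m n => rho ω r j := by
  cases r with
  | none => exact measurable_const
  | some r => exact measurable_pi_apply _

theorem meas_sum_smul {κ : Type*} (s : Finset κ) {f : Om m n → κ → ℝ}
    {g : Om m n → κ → Fin (n + 1) → ℝ} (hf : ∀ k, Measurable fun ω => f ω k)
    (hg : ∀ k j, Measurable fun ω => g ω k j) (j : Fin (n + 1)) :
    Measurable fun ω => (∑ k ∈ s, f ω k • g ω k) j := by
  have h : ∀ ω, (∑ k ∈ s, f ω k • g ω k) j = ∑ k ∈ s, f ω k * g ω k j := by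
    intro ω
    rw [Finset.sum_apply]
    refine Finset.sum_congr rfl fun k _ => ?_
    rw [Pi.smul_apply, smul_eq_mul]
  simp only [h]
  exact Finset.measurable_sum _ fun k _ => (hf k).mul (hg k j)

theorem meas_Nf (j : Fin (n + 1)) : Measurable fun ω : Om m n => Nf ω j := by
  unfold Nf
  exact meas_sum_smul _ (fun r => measurable_pi_apply _) (fun r j => meas_rho r j) j

theorem meas_fnl {c : Om m n → Row m → ℝ} (hc : ∀ r, Measurable fun ω => c ω r)
    (j : Fin (n + 1)) : Measurable fun ω : Om m n => fnl ω (c ω) j := by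
  unfold fnl
  exact meas_sum_smul _ hc (fun r j => meas_rho r j) j

theorem meas_cfG (C : Cf m) (S : St m n) (s : Bool) (r : Row m) :
    Measurable fun ω : Om m n => cfG C S s ω r := by
  unfold cfG
  refine Measurable.add ?_ (Finset.measurable_sum _ fun l _ => ?_)
  · cases r with
    | none => exact measurable_const
    | some j =>
      by_cases h : j ∈ C.I s ∧ j ∉ S.R
      · simp only [h]
        exact measurable_const.add (measurable_pi_apply _)
      · simp only [h]
        exact measurable_const
  · by_cases h : (r, l) ∈ S.B s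
    · simp only [h, if_true]
      exact measurable_pi_apply _
    · simp only [h, if_false]
      exact measurable_const

theorem meas_cfL (P : Par) (C : Cf m) (S : St m n) (s : Bool) (i : Fin m) (k : ℕ) (r : Row m) :
    Measurable fun ω : Om m n => cfL P C S s i k ω r := by
  unfold cfL
  exact (meas_cfG C S s r).sub measurable_const

theorem meas_cfE (P : Par) (C : Cf m) (S : St m n) (s : Bool) (i : Fin m) (k e : ℕ) (r : Row m) :
    Measurable fun ω : Om m n => cfE P C S s i k e ω r := by
  unfold cfE
  exact (measurable_const.mul (meas_cfL P C S s i k r)).add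
    (measurable_const.mul ((measurable_pi_apply _).sub measurable_const))

theorem meas_cfP (P : Par) (C : Cf m) (S : St m n) (s : Bool) (i : Fin m) (p : Pos P)
    (r : Row m) : Measurable fun ω : Om m n => cfP P C S s i p ω r := by
  cases p with
  | leg k => exact meas_cfL P C S s i k r
  | exit k e => exact meas_cfE P C S s i k e r

/-- Strict optimal bases of a functional with measurable coefficients. -/
theorem measurableSet_opt_fnl {c : Om m n → Row m → ℝ} (hc : ∀ r, Measurable fun ω => c ω r)
    (R D : Finset (Row m)) (e : Fin n → Row m) :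
    MeasurableSet {ω : Om m n | Opt (Nf ω) (rho ω) (fnl ω (c ω)) R D e} :=
  measurableSet_opt meas_Nf meas_rho (meas_fnl hc) R D e

theorem measurableSet_repB (P : Par) (C : Cf m) (S : St m n) (s : Bool) (T : Finset (Row m))
    (e : Fin n → Row m) : MeasurableSet {ω : Om m n | RepB P C S s ω T e} := by
  have h : {ω : Om m n | RepB P C S s ω T e} =
      {ω | (amat (Nf ω) (rho ω) e).det ≠ 0} ∩
      ({_ω | ∀ r ∈ up S.R, ∃ k, e k = r} ∩
      ({_ω | ∀ k, e k ∉ up S.R → e k ∈ up (C.I s) ∨ ∃ l, (e k, l) ∈ S.B s} ∩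
      {ω | ∀ r ∈ T, ∀ k, e k ∉ up S.R → |lam (Nf ω) (rho ω) (rho ω r) e k| ≤ P.Mw})) := by
    ext ω
    exact Iff.rfl
  rw [h]
  refine MeasurableSet.inter ?_ ((MeasurableSet.const _).inter
    ((MeasurableSet.const _).inter ?_))
  · exact (measurableSet_eq_fun (meas_det (meas_amat meas_Nf meas_rho e)) measurable_const).compl
  · simp only [Set.ofPred_forall]
    exact MeasurableSet.iInter fun r => MeasurableSet.iInter fun _ => MeasurableSet.iInter
      fun k => MeasurableSet.iInter fun _ => measurableSet_le
        ((meas_lam meas_Nf meas_rho (meas_rho r) e k).norm) measurable_const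

theorem measurableSet_evHV (P : Par) (C : Cf m) (S : St m n) (s : Bool) (i : Fin m) (p : Pos P)
    (D : Finset (Fin m)) : MeasurableSet (EvHV P C S s i p D) := by
  have h : EvHV P C S s i p D =
      {_ω | OkCol C S i ∧ D.card = P.d0 ∧ i ∉ D ∧ Disjoint D S.R} ∩
      ⋃ e : Fin n → Row m, ({ω | Opt (Nf ω) (rho ω) (fnl ω (cfP P C S s i p ω)) (up S.R) (up D) e} ∩
        {ω | ∀ r ∈ D, 0 < rho ω (some r) ⬝ᵥ pt (Nf ω) (rho ω) e ∧
        rho ω (some r) ⬝ᵥ pt (Nf ω) (rho ω) e ≤
          P.ep * (rho ω (some i) ⬝ᵥ pt (Nf ω) (rho ω) e)}) := by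
    ext ω
    simp only [EvHV, Set.mem_ofPred_eq, Set.mem_inter_iff, Set.mem_iUnion]
    tauto
  rw [h]
  refine (MeasurableSet.const _).inter (MeasurableSet.iUnion fun e => MeasurableSet.inter
    (measurableSet_opt_fnl (meas_cfP P C S s i p) _ _ e) ?_)
  simp only [Set.ofPred_forall]
  refine MeasurableSet.iInter fun r => MeasurableSet.iInter fun _ => MeasurableSet.inter ?_ ?_
  · exact measurableSet_lt measurable_const (meas_row_pt meas_Nf meas_rho e _)
  · exact measurableSet_le (meas_row_pt meas_Nf meas_rho e _)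
      (measurable_const.mul (meas_row_pt meas_Nf meas_rho e _))

/-- The light condition: measurable. -/
theorem measurableSet_light {c : Om m n → Row m → ℝ} (hc : ∀ r, Measurable fun ω => c ω r)
    (T : Finset (Row m)) (t : ℝ) (f : Fin n → Row m) :
    MeasurableSet {ω : Om m n | ∀ r ∈ T, ∃ k', f k' = r ∧
      lam (Nf ω) (rho ω) (fnl ω (c ω)) f k' ≤ t} := by
  simp only [Set.ofPred_forall, Set.ofPred_exists]
  exact MeasurableSet.iInter fun r => MeasurableSet.iInter fun _ => MeasurableSet.iUnion
    fun k => (MeasurableSet.const _).inter (measurableSet_le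
      (meas_lam meas_Nf meas_rho (meas_fnl hc) f k) measurable_const)

theorem measurableSet_evLF (P : Par) (C : Cf m) (S : St m n) (s : Bool) (i : Fin m) (k e : ℕ)
    (T : Finset (Row m)) : MeasurableSet (EvLF P C S s i k e T) := by
  have h : EvLF P C S s i k e T =
      {_ω | OkCol C S i ∧ T.card = P.q ∧ Disjoint T (up S.R)} ∩
      ⋃ f : Fin n → Row m, ({ω | Opt (Nf ω) (rho ω) (fnl ω (cfE P C S s i k e ω)) (up S.R) ∅ f} ∩
        {ω | ∀ r ∈ T, ∃ k', f k' = r ∧
          lam (Nf ω) (rho ω) (fnl ω (cfE P C S s i k e ω)) f k' ≤ P.ta2}) := by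
    ext ω
    simp only [EvLF, Set.mem_ofPred_eq, Set.mem_inter_iff, Set.mem_iUnion]
    tauto
  rw [h]
  exact (MeasurableSet.const _).inter (MeasurableSet.iUnion fun f => MeasurableSet.inter
    (measurableSet_opt_fnl (meas_cfE P C S s i k e) _ _ f)
    (measurableSet_light (meas_cfE P C S s i k e) T _ f))

theorem measurableSet_evCB (P : Par) (C : Cf m) (S : St m n) (s : Bool) (i : Fin m) (k : ℕ)
    (T : Finset (Row m)) : MeasurableSet (EvCB P C S s i k T) := by
  have h : EvCB P C S s i k T =
      {_ω | OkCol C S i ∧ T.card = P.q ∧ Disjoint T (up S.R)} ∩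
      ((⋃ f : Fin n → Row m, ({ω | Opt (Nf ω) (rho ω) (fnl ω (cfL P C S s i k ω)) (up S.R) ∅ f} ∩
        {ω | ∀ r ∈ T, ∃ k', f k' = r ∧
          lam (Nf ω) (rho ω) (fnl ω (cfL P C S s i k ω)) f k' ≤ P.ta})) ∩
      ⋃ e : Fin n → Row m, {ω | RepB P C S s ω T e}) := by
    ext ω
    simp only [EvCB, Set.mem_ofPred_eq, Set.mem_inter_iff, Set.mem_iUnion]
    tauto
  rw [h]
  exact (MeasurableSet.const _).inter ((MeasurableSet.iUnion fun f => MeasurableSet.inter
    (measurableSet_opt_fnl (meas_cfL P C S s i k) _ _ f)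
    (measurableSet_light (meas_cfL P C S s i k) T _ f)).inter
    (MeasurableSet.iUnion fun e => measurableSet_repB P C S s T e))

/-- The events of the machine are measurable. -/
theorem measurableSet_ev (P : Par) (C : Cf m) (S : St m n) (mv : Mv m P) :
    MeasurableSet (Ev P C S mv) := by
  cases mv with
  | hv s i p D => exact measurableSet_evHV P C S s i p D
  | lf s i k e T => exact measurableSet_evLF P C S s i k e T
  | cb s i k T => exact measurableSet_evCB P C S s i k T
  | cw s i k W => exact MeasurableSet.const _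

/-- Realised strings: measurable. -/
theorem measurableSet_rl (P : Par) (C : Cf m) (l : List (Mv m P)) :
    ∀ S : St m n, MeasurableSet (Rl P C S l) := by
  induction l with
  | nil => intro S; exact MeasurableSet.univ
  | cons mv l ih => intro S; exact (measurableSet_ev P C S mv).inter (ih _)

theorem measurableSet_vx (C : Cf m) : MeasurableSet (Vx C : Set (Om m n)) := by
  have h : (Vx C : Set (Om m n)) = ⋂ s : Bool, ({_ω | (C.I s).card = n} ∩
      ⋃ e : Fin n → Row m, {ω | Opt (Nf ω) (rho ω) 0 (up (C.I s)) ∅ e}) := by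
    ext ω
    simp only [Vx, Set.mem_ofPred_eq, Set.mem_iInter, Set.mem_inter_iff, Set.mem_iUnion]
  rw [h]
  exact MeasurableSet.iInter fun s => (MeasurableSet.const _).inter
    (MeasurableSet.iUnion fun e => measurableSet_opt meas_Nf meas_rho
      (fun _ => measurable_const) _ _ e)

theorem measurableSet_box (ctr Rb : Co m n → ℝ) (b : ℝ) :
    MeasurableSet (Box ctr Rb b : Set (Om m n)) := by
  unfold Box
  simp only [Set.ofPred_forall]
  exact MeasurableSet.iInter fun c => measurableSet_le
    (((measurable_pi_apply c).sub measurable_const).norm) measurable_const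

/-- The bad sets of any machine with the events `Ev` are measurable. -/
theorem measurableSet_badU (P : Par) (C : Cf m) (M : Mach.Machine (Om m n) (St m n) (Mv m P))
    (hev : ∀ S l, M.ev S l = Ev P C S l) (j w : ℕ) (S : St m n) :
    MeasurableSet (Mach.BadU M j w S) :=
  Mach.bad_measurable M (fun _ => True) (fun _ _ _ _ => trivial)
    (fun S l _ _ => by rw [hev]; exact measurableSet_ev P C S l) j w S trivial

theorem cont_rho (r : Row m) : Continuous fun ω : Om m n => rho ω r := by
  cases r with
  | none => exact continuous_const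
  | some r => exact continuous_pi fun j => continuous_apply _

theorem cont_rho_dot (r : Row m) :
    Continuous fun p : Om m n × (Fin (n + 1) → ℝ) => rho p.1 r ⬝ᵥ p.2 := by
  have h := (cont_rho (m := m) (n := n) r).comp (continuous_fst (Y := Fin (n + 1) → ℝ))
  exact h.dotProduct continuous_snd

theorem measurableSet_fs {A : Set (Om m n)} (h : FS A) : MeasurableSet A := h.measurableSet

/-- Feasibility is measurable. -/
theorem measurableSet_feas :
    MeasurableSet {ω : Om m n | ∃ X : Fin (n + 1) → ℝ, 0 < X 0 ∧ ∀ r, 0 ≤ rho ω r ⬝ᵥ X} := by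
  refine FS.measurableSet (FS.exi (FS.and ?_ (FS.all fun r => ?_)))
  · exact FS.lt continuous_const ((continuous_apply 0).comp continuous_snd)
  · exact FS.le continuous_const (cont_rho_dot r)

/-- A fat point is a measurable condition. -/
theorem measurableSet_fat (c : ℝ) :
    MeasurableSet {ω : Om m n | ∃ X : Fin (n + 1) → ℝ, (∀ j, |X j| ≤ 1) ∧
      ∀ r, c ≤ rho ω r ⬝ᵥ X} := by
  refine FS.measurableSet (FS.exi (FS.and (FS.all fun j => ?_) (FS.all fun r => ?_)))
  · exact FS.le ((continuous_apply j).comp continuous_snd).abs continuous_const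
  · exact FS.le continuous_const (cont_rho_dot r)

end Pool.Agent.Lib.S3.PL
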