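import Pool.Agent.Lib.S3.PL.PayAll
import Pool.Agent.Lib.S3.PL.UnionC
import Pool.Agent.Lib.S3.Fat.Sizes

/-!
# The bad set of the pair machine under the law of the problem (smoothed Hirsch, MP_4a5c02_co)

The instance of `pair_bound` and `badC_parM32'` for the law `law1` with the standard coins, the box
`Rb1` and the parameters `parM C0 cg ce (MM m n σ)`:

* `price_le`: the price of a paid move; `parM_prices`: the total price is at most `M ^ (- xP)`;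
* `pairLaw32`: the probability of `BadC j w ∩ Box ∩ feaO` is at most `M ^ (- 32 n)` times the
  probability of feasibility, for `n ≤ 8 j`, `8 w ≤ j`; `pairLaw`: with `M ^ (- 2 n)`.
-/

set_option autoImplicit false

open MeasureTheory ProbabilityTheory Set
open scoped ENNReal NNReal

namespace Pool.Agent.Lib.S3.PL

open Pool.Agent.Lib.S3.Mach

section price

variable {C0 cg ce : ℕ} {M m n : ℕ}

/-- The price of a paid move. -/
theorem price_le (hM : 5 ≤ M) {N c e q p : ℕ} {x : ℝ} (hx0 : 0 ≤ x) (hx : x ≤ ((M : ℝ) ^ e)⁻¹)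
    (hN : N ≤ M ^ c) (h : c + 1 + p ≤ e * q) :
    (N : ℝ) * (Real.exp 1 * x ^ q) ≤ ((M : ℝ) ^ p)⁻¹ := by
  have h0 := M_pos hM
  have he : Real.exp 1 ≤ M := by
    have := Real.exp_one_lt_d9
    have h5 := M_five hM
    linarith
  have hN' : (N : ℝ) ≤ (M : ℝ) ^ c := by exact_mod_cast hN
  have hx' : x ^ q ≤ ((M : ℝ) ^ (e * q))⁻¹ := by
    rw [pow_mul, ← inv_pow]
    exact pow_le_pow_left₀ hx0 hx q
  calc (N : ℝ) * (Real.exp 1 * x ^ q)
      ≤ (M : ℝ) ^ c * ((M : ℝ) * ((M : ℝ) ^ (e * q))⁻¹) := by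
        refine mul_le_mul hN' (mul_le_mul he hx' (by positivity) h0.le) (by positivity)
          (by positivity)
    _ = (M : ℝ) ^ (c + 1) * ((M : ℝ) ^ (e * q))⁻¹ := by ring
    _ = ((M : ℝ) ^ (e * q - (c + 1)))⁻¹ := pow_mul_inv_pow hM (by omega)
    _ ≤ ((M : ℝ) ^ p)⁻¹ := inv_pow_le hM (by omega)

/-- The three price ratios. -/
theorem ratio_le (hM : 5 ≤ M) {a b e : ℕ} (h : e + b + 1 ≤ a) :
    2 * ((M : ℝ) ^ a)⁻¹ / ((M : ℝ) ^ b)⁻¹ ≤ ((M : ℝ) ^ e)⁻¹ := by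
  have h0 := M_pos hM
  have e1 : 2 * ((M : ℝ) ^ a)⁻¹ / ((M : ℝ) ^ b)⁻¹ = 2 * ((M : ℝ) ^ b * ((M : ℝ) ^ a)⁻¹) := by
    rw [div_inv_eq_mul]; ring
  rw [e1, pow_mul_inv_pow hM (by omega)]
  exact const_mul_inv_pow_le (k := 1) hM (by norm_num) (by omega)

theorem parM_K3_le2 (hM : 5 ≤ M) : (parM C0 cg ce M).K3 + 2 ≤ M ^ (x3 C0 cg ce + 1) := by
  have h2 : 1 ≤ M ^ x3 C0 cg ce := Nat.one_le_pow _ _ (by omega)
  calc (parM C0 cg ce M).K3 + 2 = M ^ x3 C0 cg ce + 2 := rfl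
    _ ≤ 3 * M ^ x3 C0 cg ce := by omega
    _ ≤ M * M ^ x3 C0 cg ce := Nat.mul_le_mul_right _ (by omega)
    _ = M ^ (x3 C0 cg ce + 1) := by ring

/-- **The total price of the paid moves of one state.** -/
theorem parM_prices (hM : 5 ≤ M) (hm : m + 1 ≤ M) :
    (2 * m * (((parM C0 cg ce M).K1 + 1) * ((parM C0 cg ce M).K3 + 2)) *
        m ^ (parM C0 cg ce M).d0 : ℕ) *
        ENNReal.ofReal (Real.exp 1 * (2 * (parM C0 cg ce M).ep /
          ((M : ℝ) ^ (xth C0 cg ce + 20))⁻¹) ^ (parM C0 cg ce M).d0) +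
      (2 * m * (((parM C0 cg ce M).K1 + 1) * ((parM C0 cg ce M).K3 + 1)) *
        (m + 1) ^ (parM C0 cg ce M).q : ℕ) *
        ENNReal.ofReal (Real.exp 1 * (2 * ((parM C0 cg ce M).ta2 / (parM C0 cg ce M).ph) /
          ((M : ℝ) ^ 12)⁻¹) ^ (parM C0 cg ce M).q) +
      (2 * m * ((parM C0 cg ce M).K1 + 1) * (m + 1) ^ (parM C0 cg ce M).q : ℕ) *
        ENNReal.ofReal (Real.exp 1 * (2 * (parM C0 cg ce M).ta /
          ((M : ℝ) ^ (xw C0 + 15))⁻¹) ^ (parM C0 cg ce M).q) ≤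
      ENNReal.ofReal (((M : ℝ) ^ xP C0 cg ce)⁻¹) := by
  have h0 := M_pos hM
  have hK1 := parM_K1_le (C0 := C0) (cg := cg) (ce := ce) hM
  have hK3 := parM_K3_le (C0 := C0) (cg := cg) (ce := ce) hM
  have hK3' := parM_K3_le2 (C0 := C0) (cg := cg) (ce := ce) hM
  have hmM : m ≤ M := by omega
  have h2 : 2 ≤ M := by omega
  -- the counts
  have hN1 : 2 * m * (((parM C0 cg ce M).K1 + 1) * ((parM C0 cg ce M).K3 + 2)) * m ^ 24 ≤
      M ^ (x1 C0 cg ce + x3 C0 cg ce + 27) := by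
    calc 2 * m * (((parM C0 cg ce M).K1 + 1) * ((parM C0 cg ce M).K3 + 2)) * m ^ 24
        ≤ M * M * (M ^ x1 C0 cg ce * M ^ (x3 C0 cg ce + 1)) * M ^ 24 :=
          Nat.mul_le_mul (Nat.mul_le_mul (Nat.mul_le_mul h2 hmM) (Nat.mul_le_mul hK1 hK3'))
            (Nat.pow_le_pow_left hmM 24)
      _ = M ^ (x1 C0 cg ce + x3 C0 cg ce + 27) := by ring
  have hN2 : 2 * m * (((parM C0 cg ce M).K1 + 1) * ((parM C0 cg ce M).K3 + 1)) * (m + 1) ^ 24 ≤
      M ^ (x1 C0 cg ce + x3 C0 cg ce + 27) := by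
    calc 2 * m * (((parM C0 cg ce M).K1 + 1) * ((parM C0 cg ce M).K3 + 1)) * (m + 1) ^ 24
        ≤ M * M * (M ^ x1 C0 cg ce * M ^ (x3 C0 cg ce + 1)) * M ^ 24 :=
          Nat.mul_le_mul (Nat.mul_le_mul (Nat.mul_le_mul h2 hmM) (Nat.mul_le_mul hK1 hK3))
            (Nat.pow_le_pow_left hm 24)
      _ = M ^ (x1 C0 cg ce + x3 C0 cg ce + 27) := by ring
  have hN3 : 2 * m * ((parM C0 cg ce M).K1 + 1) * (m + 1) ^ 24 ≤ M ^ (x1 C0 cg ce + 26) := by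
    calc 2 * m * ((parM C0 cg ce M).K1 + 1) * (m + 1) ^ 24
        ≤ M * M * M ^ x1 C0 cg ce * M ^ 24 :=
          Nat.mul_le_mul (Nat.mul_le_mul (Nat.mul_le_mul h2 hmM) hK1)
            (Nat.pow_le_pow_left hm 24)
      _ = M ^ (x1 C0 cg ce + 26) := by ring
  -- the ratios
  have hx1 : 2 * (parM C0 cg ce M).ep / ((M : ℝ) ^ (xth C0 cg ce + 20))⁻¹ ≤
      ((M : ℝ) ^ (xE C0 cg ce - (xth C0 cg ce + 21)))⁻¹ :=
    ratio_le hM (by unfold xE; omega)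
  have hx2 : 2 * ((parM C0 cg ce M).ta2 / (parM C0 cg ce M).ph) / ((M : ℝ) ^ 12)⁻¹ ≤
      ((M : ℝ) ^ (xE C0 cg ce - 13))⁻¹ := by
    have e1 : (parM C0 cg ce M).ta2 / (parM C0 cg ce M).ph = ((M : ℝ) ^ xE C0 cg ce)⁻¹ := by
      change ((M : ℝ) ^ (xph C0 cg ce + xE C0 cg ce))⁻¹ / ((M : ℝ) ^ xph C0 cg ce)⁻¹ = _
      rw [div_inv_eq_mul, mul_comm, pow_mul_inv_pow hM (by omega)]
      congr 2
      omega
    rw [e1]
    exact ratio_le hM (by unfold xE; omega)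
  have hx3 : 2 * (parM C0 cg ce M).ta / ((M : ℝ) ^ (xw C0 + 15))⁻¹ ≤
      ((M : ℝ) ^ (xE C0 cg ce - (xw C0 + 16)))⁻¹ :=
    ratio_le hM (by unfold xE; omega)
  have hep := parM_ep_pos (C0 := C0) (cg := cg) (ce := ce) hM
  have hta := parM_ta_pos (C0 := C0) (cg := cg) (ce := ce) hM
  have hta2 := parM_ta2_pos (C0 := C0) (cg := cg) (ce := ce) hM
  have hph := parM_ph_pos (C0 := C0) (cg := cg) (ce := ce) hM
  have y1 : 0 ≤ 2 * (parM C0 cg ce M).ep / ((M : ℝ) ^ (xth C0 cg ce + 20))⁻¹ :=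
    div_nonneg (mul_nonneg zero_le_two hep.le) (inv_nonneg.2 (pow_nonneg h0.le _))
  have y2 : 0 ≤ 2 * ((parM C0 cg ce M).ta2 / (parM C0 cg ce M).ph) / ((M : ℝ) ^ 12)⁻¹ :=
    div_nonneg (mul_nonneg zero_le_two (div_nonneg hta2.le hph.le))
      (inv_nonneg.2 (pow_nonneg h0.le _))
  have y3 : 0 ≤ 2 * (parM C0 cg ce M).ta / ((M : ℝ) ^ (xw C0 + 15))⁻¹ :=
    div_nonneg (mul_nonneg zero_le_two hta.le) (inv_nonneg.2 (pow_nonneg h0.le _))
  have t1 := price_le (M := M) (q := 24) (p := xP C0 cg ce + 1) hM y1 hx1 hN1 (by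
    unfold x1 x3 xP xph
    unfold xE
    omega)
  have t2 := price_le (M := M) (q := 24) (p := xP C0 cg ce + 1) hM y2 hx2 hN2 (by
    unfold x1 x3 xP xph
    unfold xE
    omega)
  have t3 := price_le (M := M) (q := 24) (p := xP C0 cg ce + 1) hM y3 hx3 hN3 (by
    unfold x1 xP
    unfold xE
    omega)
  have hq : (parM C0 cg ce M).q = 24 := rfl
  have hd : (parM C0 cg ce M).d0 = 24 := rfl
  rw [hq, hd]
  have hcast : ∀ (N : ℕ) (y : ℝ), (N : ℝ≥0∞) * ENNReal.ofReal y = ENNReal.ofReal (N * y) := by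
    intro N y
    rw [ENNReal.ofReal_mul (Nat.cast_nonneg N), ENNReal.ofReal_natCast]
  have hnn : ∀ (N : ℕ) {y : ℝ}, 0 ≤ y → 0 ≤ (N : ℝ) * (Real.exp 1 * y ^ 24) := fun N y hy =>
    mul_nonneg (Nat.cast_nonneg N) (mul_nonneg (Real.exp_pos 1).le (pow_nonneg hy 24))
  rw [hcast, hcast, hcast, ← ENNReal.ofReal_add (hnn _ y1) (hnn _ y2),
    ← ENNReal.ofReal_add (add_nonneg (hnn _ y1) (hnn _ y2)) (hnn _ y3)]
  refine ENNReal.ofReal_le_ofReal ?_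
  have h3 : 3 * ((M : ℝ) ^ (xP C0 cg ce + 1))⁻¹ ≤ ((M : ℝ) ^ xP C0 cg ce)⁻¹ :=
    const_mul_inv_pow_le (k := 1) hM (by norm_num) (by omega)
  linarith

end price

section law

variable {m n : ℕ}

/-- The centres are at most `3 / 2`. -/
theorem abs_ctr1_le {Abar : Fin m → Fin n → ℝ} {bbar : Fin m → ℝ}
    (hA : ∑ i, ∑ j, Abar i j ^ 2 ≤ 1) (hb : ∑ i, bbar i ^ 2 ≤ 1) (c : Co m n) :
    |ctr Abar bbar (cc1 m n) c| ≤ 3 / 2 := by
  have hcoin : |(3 / 2 : ℝ)| ≤ 3 / 2 := by rw [abs_of_pos (by norm_num)]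
  cases c with
  | row r j =>
    have hc : |ctr Abar bbar (cc1 m n) (.row r j)| ≤ 1 := by
      change |(Fin.cons (bbar r) (fun j => -Abar r j) : Fin (n + 1) → ℝ) j| ≤ 1
      refine Fin.cases ?_ (fun j => ?_) j
      · rw [Fin.cons_zero]
        have h1 : bbar r ^ 2 ≤ 1 :=
          (Finset.single_le_sum (f := fun i => bbar i ^ 2) (fun i _ => sq_nonneg _)
            (Finset.mem_univ r)).trans hb
        rw [abs_le_one_iff_mul_self_le_one]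
        nlinarith
      · rw [Fin.cons_succ, abs_neg]
        have h2 : Abar r j ^ 2 ≤ 1 := by
          refine le_trans ?_ hA
          refine le_trans ?_ (Finset.single_le_sum (f := fun i => ∑ j, Abar i j ^ 2)
            (fun i _ => Finset.sum_nonneg fun j _ => sq_nonneg _) (Finset.mem_univ r))
          exact Finset.single_le_sum (f := fun j => Abar r j ^ 2) (fun i _ => sq_nonneg _)
            (Finset.mem_univ j)
        rw [abs_le_one_iff_mul_self_le_one]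
        nlinarith
    linarith
  | eta r => exact hcoin
  | nu s j => exact hcoin
  | om s r l => exact hcoin
  | gi i r => exact hcoin
  | hub r => exact hcoin

theorem Rb1_nonneg (σ : ℝ) (c : Co m n) : 0 ≤ Rb1 m n σ c := by
  cases c with
  | row r j =>
    change 0 ≤ ((MM m n σ : ℕ) : ℝ) ^ 3
    positivity
  | eta r => change (0 : ℝ) ≤ 1 / 2; norm_num
  | nu s j => change (0 : ℝ) ≤ 1 / 2; norm_num
  | om s r l => change (0 : ℝ) ≤ 1 / 2; norm_num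
  | gi i r => change (0 : ℝ) ≤ 1 / 2; norm_num
  | hub r => change (0 : ℝ) ≤ 1 / 2; norm_num

theorem Rb1_le {σ : ℝ} (hM : 5 ≤ MM m n σ) (c : Co m n) :
    Rb1 m n σ c ≤ ((MM m n σ : ℕ) : ℝ) ^ 3 := by
  have h1 : (1 : ℝ) ≤ ((MM m n σ : ℕ) : ℝ) ^ 3 := one_le_pow₀ (M_one hM)
  have h2 : (1 / 2 : ℝ) ≤ ((MM m n σ : ℕ) : ℝ) ^ 3 := by linarith
  cases c with
  | row r j => exact le_refl _
  | eta r => exact h2
  | nu s j => exact h2
  | om s r l => exact h2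
  | gi i r => exact h2
  | hub r => exact h2

/-- The variances are at least `M ^ (- 6)`. -/
theorem vr1_ge {σ : ℝ} (hσ : 0 < σ) (hM : 5 ≤ MM m n σ) (c : Co m n) :
    (((MM m n σ : ℕ) : ℝ) ^ 6)⁻¹ ≤ (vr σ (vv1 m n σ) c : ℝ) := by
  have h0 := M_pos hM
  have hcoin : (((MM m n σ : ℕ) : ℝ) ^ 6)⁻¹ ≤
      (((((MM m n σ : ℕ) : ℝ≥0)⁻¹ ^ 6 : ℝ≥0)) : ℝ) := by
    push_cast
    rw [inv_pow]
  cases c with
  | row r j =>
    change (((MM m n σ : ℕ) : ℝ) ^ 6)⁻¹ ≤ (((σ ^ 2).toNNReal : ℝ≥0) : ℝ)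
    rw [Real.coe_toNNReal _ (by positivity)]
    have h1 : ((MM m n σ : ℕ) : ℝ)⁻¹ ≤ σ := by
      rw [inv_le_comm₀ h0 hσ, ← one_div]
      exact le_MM_sigma m n σ
    calc (((MM m n σ : ℕ) : ℝ) ^ 6)⁻¹ ≤ (((MM m n σ : ℕ) : ℝ) ^ 2)⁻¹ :=
          inv_pow_le hM (by norm_num)
      _ = (((MM m n σ : ℕ) : ℝ)⁻¹) ^ 2 := by rw [inv_pow]
      _ ≤ σ ^ 2 := pow_le_pow_left₀ (by positivity) h1 2
  | eta r => exact hcoin
  | nu s j => exact hcoin
  | om s r l => exact hcoin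
  | gi i r => exact hcoin
  | hub r => exact hcoin

/-- **The bad set of the pair machine under the law of the problem** (`M ^ (- 32 n)`). -/
theorem pairLaw32 (C0 cg ce : ℕ) (hn : 1 ≤ n) (hmn : n + 1 ≤ m) (Abar : Fin m → Fin n → ℝ)
    (bbar : Fin m → ℝ) {σ : ℝ} (hσ : 0 < σ) (hA : ∑ i, ∑ j, Abar i j ^ 2 ≤ 1)
    (hb : ∑ i, bbar i ^ 2 ≤ 1) (j w : ℕ) (hj : n ≤ 8 * j) (hw : 8 * w ≤ j) :
    law1 Abar bbar σ (BadC m n (parM C0 cg ce (MM m n σ)) j w ∩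
        (Box (ctr Abar bbar (cc1 m n)) (Rb1 m n σ) 0 ∩ feaO)) ≤
      ENNReal.ofReal ((1 / (MM m n σ : ℝ)) ^ (32 * n)) *
        law1 Abar bbar σ (feaO : Set (Om m n)) := by
  have hM : 5 ≤ MM m n σ := five_le_MM hn (by omega) hσ
  have hmM : m + 1 ≤ MM m n σ := by unfold MM; omega
  have hnM : n + 2 ≤ MM m n σ := by unfold MM; omega
  have hcard := card_Co m n σ
  have hctr := abs_ctr1_le (n := n) hA hb
  have hRb := Rb1_le (m := m) (n := n) hM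
  have hRb0 := Rb1_nonneg (m := m) (n := n) σ
  have hvr := vr1_ge (m := m) (n := n) hσ hM
  set M : ℕ := MM m n σ with hMdef
  have h0 := M_pos hM
  have h5 := M_five hM
  have h1 := M_one hM
  have hP : 0 < ((M : ℝ) ^ xP C0 cg ce) := pow_pos h0 _
  have hA0 : ENNReal.ofReal (((M : ℝ) ^ xP C0 cg ce)⁻¹) * (M : ℝ≥0∞) ^ xP C0 cg ce ≤ 1 := by
    have e1 : (M : ℝ≥0∞) ^ xP C0 cg ce = ENNReal.ofReal ((M : ℝ) ^ xP C0 cg ce) := by
      rw [ENNReal.ofReal_pow h0.le, ENNReal.ofReal_natCast]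
    rw [e1, ← ENNReal.ofReal_mul (by positivity), inv_mul_cancel₀ hP.ne', ENNReal.ofReal_one]
  refine badC_parM32' _ hM hmM _ hA0 j w hj hw _ _ ?_
  intro C hC
  have hv0 : ∀ c : Co m n, vr σ (vv1 m n σ) c ≠ 0 := by
    intro c hc
    have := hvr c
    rw [hc, NNReal.coe_zero] at this
    have h6 : 0 < ((M : ℝ) ^ 6)⁻¹ := by positivity
    linarith
  have hM2 : (25 : ℝ) ≤ (M : ℝ) ^ 2 := by nlinarith
  have hM3 : (125 : ℝ) ≤ (M : ℝ) ^ 3 := by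
    have := pow_le_pow_left₀ (by norm_num) h5 3
    norm_num at this
    exact this
  have hb12 : ((M : ℝ) ^ 12)⁻¹ ≤ 1 := inv_le_one_of_one_le₀ (one_le_pow₀ h1)
  have hn0 : (0 : ℝ) ≤ n := Nat.cast_nonneg n
  have hnM' : (n : ℝ) + 2 ≤ M := by exact_mod_cast hnM
  have hxth : 7 ≤ xth C0 cg ce := by unfold xth xk x4; omega
  refine pair_bound hv0 (parM C0 cg ce M) C (by omega) (hC false).1
    (parM_Th_pos hM).le (parM_dl_pos hM).le (parM_ph_pos hM) (parM_Mw_pos hM).le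
    (w1 := ((M : ℝ) ^ (xth C0 cg ce + 20))⁻¹) (w2 := ((M : ℝ) ^ 12)⁻¹)
    (w3 := ((M : ℝ) ^ (xw C0 + 15))⁻¹) (by positivity) (by positivity) (by positivity)
    (Rb1 m n σ) hRb0 (β := ((M : ℝ) ^ 12)⁻¹) (Hc := (M : ℝ) ^ 4) (Rg := 3 / 4)
    (vg := ((M : ℝ) ^ 6)⁻¹) (K := 1) (by positivity) ?_ ?_ ?_ le_rfl ?_ ?_ (by norm_num)
    (by positivity) (fun i r => hvr _) ?_ ?_ ?_ (parM_prices hM hmM) j w
  · -- n β ≤ 1 / 4
    calc (n : ℝ) * ((M : ℝ) ^ 12)⁻¹ ≤ (M : ℝ) ^ 1 * ((M : ℝ) ^ 12)⁻¹ := by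
          refine mul_le_mul_of_nonneg_right ?_ (by positivity)
          rw [pow_one]
          linarith
      _ = ((M : ℝ) ^ 11)⁻¹ := by rw [pow_mul_inv_pow hM (by norm_num)]
      _ ≤ ((M : ℝ) ^ 1)⁻¹ := inv_pow_le hM (by norm_num)
      _ ≤ 1 / 4 := by
          rw [pow_one, one_div]
          exact inv_anti₀ (by norm_num) (by linarith)
  · -- the coordinates
    intro c
    have e1 := hctr c
    have e2 := hRb c
    have e3 : (M : ℝ) ^ 4 = M * (M : ℝ) ^ 3 := by ring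
    rw [e3]
    nlinarith
  · -- the shifts of the heavy windows
    have e0 : ((parM C0 cg ce M).d0 : ℝ) = 24 := by
      have : (parM C0 cg ce M).d0 = 24 := rfl
      rw [this]
      norm_num
    have eTh : (parM C0 cg ce M).Th = (M : ℝ) ^ xth C0 cg ce := rfl
    have eka : kaM C0 cg ce M ≤ (M : ℝ) ^ xth C0 cg ce := pow_le hM (by unfold xth; omega)
    have e2 : ((n : ℝ) + 2) * (M : ℝ) ^ 4 ≤ (M : ℝ) ^ xth C0 cg ce := by
      calc ((n : ℝ) + 2) * (M : ℝ) ^ 4 ≤ M * (M : ℝ) ^ 4 :=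
            mul_le_mul_of_nonneg_right hnM' (by positivity)
        _ = (M : ℝ) ^ 5 := by ring
        _ ≤ _ := pow_le hM (by omega)
    rw [e0, parM_K1_dl hM, eTh]
    have e3 : ((M : ℝ) ^ xth C0 cg ce + ((M : ℝ) ^ xth C0 cg ce + kaM C0 cg ce M)) +
        ((n : ℝ) + 2) * (M : ℝ) ^ 4 ≤ 4 * (M : ℝ) ^ xth C0 cg ce := by linarith
    calc 24 * ((M : ℝ) ^ (xth C0 cg ce + 20))⁻¹ *
          (((M : ℝ) ^ xth C0 cg ce + ((M : ℝ) ^ xth C0 cg ce + kaM C0 cg ce M)) +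
            ((n : ℝ) + 2) * (M : ℝ) ^ 4)
        ≤ 24 * ((M : ℝ) ^ (xth C0 cg ce + 20))⁻¹ * (4 * (M : ℝ) ^ xth C0 cg ce) :=
          mul_le_mul_of_nonneg_left e3 (by positivity)
      _ = 96 * ((M : ℝ) ^ xth C0 cg ce * ((M : ℝ) ^ (xth C0 cg ce + 20))⁻¹) := by ring
      _ = 96 * ((M : ℝ) ^ (xth C0 cg ce + 20 - xth C0 cg ce))⁻¹ := by
          rw [pow_mul_inv_pow hM (by omega)]
      _ ≤ ((M : ℝ) ^ 12)⁻¹ := const_mul_inv_pow_le (k := 3) hM (by norm_num) (by omega)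
  · -- the shifts of the light nodes in the leg
    have e0 : ((parM C0 cg ce M).q : ℝ) = 24 := by
      have : (parM C0 cg ce M).q = 24 := rfl
      rw [this]
      norm_num
    have eMw : (parM C0 cg ce M).Mw = (M : ℝ) ^ xw C0 := rfl
    have e1 : (1 : ℝ) ≤ (M : ℝ) ^ xw C0 := one_le_pow₀ h1
    rw [e0, eMw]
    calc 24 * ((M : ℝ) ^ (xw C0 + 15))⁻¹ * ((M : ℝ) ^ xw C0 + 1)
        ≤ 24 * ((M : ℝ) ^ (xw C0 + 15))⁻¹ * (2 * (M : ℝ) ^ xw C0) :=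
          mul_le_mul_of_nonneg_left (by linarith) (by positivity)
      _ = 48 * ((M : ℝ) ^ xw C0 * ((M : ℝ) ^ (xw C0 + 15))⁻¹) := by ring
      _ = 48 * ((M : ℝ) ^ (xw C0 + 15 - xw C0))⁻¹ := by rw [pow_mul_inv_pow hM (by omega)]
      _ ≤ ((M : ℝ) ^ 12)⁻¹ := const_mul_inv_pow_le (k := 3) hM (by norm_num) (by omega)
  · -- the exit coins
    intro i r
    change (1 / 2 : ℝ) + 1 / 4 ≤ 3 / 4
    norm_num
  · -- the density ratio of all coordinates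
    intro c
    have e1 := hRb c
    have e2 := hvr c
    have e3 : 0 ≤ Rb1 m n σ c := hRb0 c
    have hv6 : 0 < ((M : ℝ) ^ 6)⁻¹ := by positivity
    have hcard0 : (0 : ℝ) ≤ (Fintype.card (Co m n) : ℝ) := Nat.cast_nonneg _
    have e4 : ((M : ℝ) ^ 12)⁻¹ * (2 * (Rb1 m n σ c + 1 / 4) + ((M : ℝ) ^ 12)⁻¹) /
        (2 * (vr σ (vv1 m n σ) c : ℝ)) ≤
        ((M : ℝ) ^ 12)⁻¹ * (3 * (M : ℝ) ^ 3) / (2 * ((M : ℝ) ^ 6)⁻¹) := by
      refine div_le_div₀ (by positivity) ?_ (by positivity) (by linarith)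
      refine mul_le_mul_of_nonneg_left ?_ (by positivity)
      linarith
    calc (Fintype.card (Co m n) : ℝ) *
          (((M : ℝ) ^ 12)⁻¹ * (2 * (Rb1 m n σ c + 1 / 4) + ((M : ℝ) ^ 12)⁻¹) /
            (2 * (vr σ (vv1 m n σ) c : ℝ)))
        ≤ (2 * (M : ℝ) ^ 2) * (((M : ℝ) ^ 12)⁻¹ * (3 * (M : ℝ) ^ 3) / (2 * ((M : ℝ) ^ 6)⁻¹)) :=
          mul_le_mul hcard e4 (by positivity) (by positivity)
      _ = 3 * (M : ℝ)⁻¹ := by
          field_simp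
      _ ≤ 1 := by
          rw [← div_eq_mul_inv, div_le_one h0]
          linarith
  · -- the density ratio of the exit coins
    have e0 : ((parM C0 cg ce M).q : ℝ) = 24 := by
      have : (parM C0 cg ce M).q = 24 := rfl
      rw [this]
      norm_num
    rw [e0]
    have e1 : ((M : ℝ) ^ 12)⁻¹ ≤ 1 / 48 := by
      rw [one_div]
      refine inv_anti₀ (by norm_num) ?_
      calc (48 : ℝ) ≤ (M : ℝ) ^ 3 := by linarith
        _ ≤ (M : ℝ) ^ 12 := pow_le hM (by norm_num)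
    have hM6 : (15625 : ℝ) ≤ (M : ℝ) ^ 6 := by
      have := pow_le_pow_left₀ (by norm_num) h5 6
      norm_num at this
      exact this
    calc 24 * (24 * ((M : ℝ) ^ 12)⁻¹ * (2 * (3 / 4) + 24 * ((M : ℝ) ^ 12)⁻¹) /
          (2 * ((M : ℝ) ^ 6)⁻¹))
        ≤ 24 * (24 * ((M : ℝ) ^ 12)⁻¹ * 2 / (2 * ((M : ℝ) ^ 6)⁻¹)) := by
          refine mul_le_mul_of_nonneg_left ?_ (by norm_num)
          refine div_le_div_of_nonneg_right ?_ (by positivity)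
          refine mul_le_mul_of_nonneg_left ?_ (by positivity)
          linarith
      _ = 576 * ((M : ℝ) ^ 6)⁻¹ := by
          field_simp
          ring
      _ ≤ 1 := by
          rw [← div_eq_mul_inv, div_le_one (by positivity)]
          linarith
  · -- the price is at most one
    rw [← ENNReal.ofReal_one]
    refine ENNReal.ofReal_le_ofReal ?_
    exact inv_le_one_of_one_le₀ (one_le_pow₀ h1)

/-- **The bad set of the pair machine under the law of the problem.** -/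
theorem pairLaw (C0 cg ce : ℕ) (hn : 1 ≤ n) (hmn : n + 1 ≤ m) (Abar : Fin m → Fin n → ℝ)
    (bbar : Fin m → ℝ) {σ : ℝ} (hσ : 0 < σ) (hA : ∑ i, ∑ j, Abar i j ^ 2 ≤ 1)
    (hb : ∑ i, bbar i ^ 2 ≤ 1) (j w : ℕ) (hj : n ≤ 8 * j) (hw : 8 * w ≤ j) :
    law1 Abar bbar σ (BadC m n (parM C0 cg ce (MM m n σ)) j w ∩
        (Box (ctr Abar bbar (cc1 m n)) (Rb1 m n σ) 0 ∩ feaO)) ≤
      ENNReal.ofReal ((1 / (MM m n σ : ℝ)) ^ (2 * n)) *
        law1 Abar bbar σ (feaO : Set (Om m n)) := by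
  refine (pairLaw32 C0 cg ce hn hmn Abar bbar hσ hA hb j w hj hw).trans ?_
  refine mul_le_mul' (ENNReal.ofReal_le_ofReal ?_) le_rfl
  have hM : 5 ≤ MM m n σ := five_le_MM hn (by omega) hσ
  have h0 := M_pos hM
  have h1 := M_one hM
  refine pow_le_pow_of_le_one (by positivity) ?_ (by omega)
  rw [div_le_one h0]
  exact h1

end law

end Pool.Agent.Lib.S3.PL
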