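import Pool.Agent.Lib.S3.PL.Opt

/-!
# The pair machine: coordinates, states, objectives, moves, events (smoothed Hirsch, MP_4a5c02_co)

Text: /team-store/MP_4a5c02_pair96.md (helper96), /team-store/MP_4a5c02_paper67.md (helper67).

* `Co m n`: names of the real coordinates (entries of the random rows, and coins).
* `rho ω r`: the rows (`none` is the facet at infinity), slack of `X` is `rho ω r ⬝ᵥ X`.
* `Nf ω`: the chart functional.
* `St`: state of the machine (common removed rows `R`; known costs and boosted rows of both sides).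
* `Mv`: moves; `Ev`: the event of a move in a state; `nxt`: the next state; `Real`: a string of moves
  is realised.
-/

set_option autoImplicit false

open MeasureTheory Matrix

namespace Pool.Agent.Lib.S3.PL

/-- Names of the rows; `none` is the facet at infinity. -/
abbrev Row (m : ℕ) := Option (Fin m)

/-- Names of the real coordinates. -/
inductive Co (m n : ℕ)
  /-- entries of the random rows -/
  | row (r : Fin m) (j : Fin (n + 1))
  /-- coins of the chart -/
  | eta (r : Option (Fin m))
  /-- cost coins of the side `s` -/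
  | nu (s : Bool) (j : Fin m)
  /-- boost coins of the side `s`, copy `l` -/
  | om (s : Bool) (r : Option (Fin m)) (l : Fin (n + 1))
  /-- coins of the exit of the leg `i` -/
  | gi (i : Fin m) (r : Option (Fin m))
  /-- coins of the hub -/
  | hub (r : Option (Fin m))
  deriving DecidableEq, Fintype

/-- The probability space. -/
abbrev Om (m n : ℕ) := Co m n → ℝ

variable {m n : ℕ}

/-- The rows. -/
def rho (ω : Om m n) : Row m → Fin (n + 1) → ℝ
  | none => Pi.single 0 1
  | some r => fun j => ω (.row r j)

/-- The chart functional. -/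
def Nf (ω : Om m n) : Fin (n + 1) → ℝ := ∑ r : Row m, ω (.eta r) • rho ω r

/-- The functional with coefficients `c` in the rows. -/
def fnl (ω : Om m n) (c : Row m → ℝ) : Fin (n + 1) → ℝ := ∑ r : Row m, c r • rho ω r

/-- Finite sets of random rows as sets of rows. -/
def up (R : Finset (Fin m)) : Finset (Row m) := R.map Function.Embedding.some

theorem mem_up {R : Finset (Fin m)} {j : Fin m} : (some j : Row m) ∈ up R ↔ j ∈ R := by
  simp [up]

theorem none_notMem_up {R : Finset (Fin m)} : (none : Row m) ∉ up R := by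
  simp [up]

theorem mem_up' {R : Finset (Fin m)} {r : Row m} : r ∈ up R ↔ ∃ j ∈ R, some j = r := by
  simp [up]

/-- The two bases and the two sets of protected columns. -/
structure Cf (m : ℕ) where
  I : Bool → Finset (Fin m)
  Y : Bool → Finset (Fin m)

/-- The parameters of the machine. -/
structure Par where
  /-- start cost of an untouched column -/
  Th : ℝ
  /-- step of a leg -/
  dl : ℝ
  /-- amplitude of the exit coins -/
  ph : ℝ
  /-- coupling of the exit coins with the private column -/
  Dd : ℝ
  /-- near tight ratio -/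
  ep : ℝ
  /-- light threshold in a leg -/
  ta : ℝ
  /-- light threshold on the exit line -/
  ta2 : ℝ
  /-- bound of the coefficients of a representable row -/
  Mw : ℝ
  /-- number of steps of a leg -/
  K1 : ℕ
  /-- number of steps of the exit line -/
  K3 : ℕ
  /-- number of near tight rows of a heavy window -/
  d0 : ℕ
  /-- number of light rows of a light node -/
  q : ℕ

/-- The state of the machine. -/
structure St (m n : ℕ) where
  /-- removed columns -/
  R : Finset (Fin m)
  /-- burnt columns (removed or closed) -/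
  bu : Finset (Fin m)
  /-- known costs -/
  kc : Bool → Fin m → ℝ
  /-- boosted rows with copy number -/
  B : Bool → Finset (Row m × Fin (n + 1))
  /-- number of moves done -/
  t : ℕ

/-- The start state. -/
noncomputable def st0 (P : Par) (C : Cf m) : St m n := by
  classical
  exact
  { R := ∅
    bu := ∅
    kc := fun s j => if j ∈ C.Y s then 0 else P.Th
    B := fun _ => ∅
    t := 0 }

/-- Positions in a leg. -/
inductive Pos (P : Par)
  | leg (k : Fin (P.K1 + 1))
  | exit (k : Fin (P.K1 + 1)) (e : Fin (P.K3 + 1))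
  deriving DecidableEq, Fintype

/-- Moves. -/
inductive Mv (m : ℕ) (P : Par)
  /-- heavy window: the leg fails -/
  | hv (s : Bool) (i : Fin m) (p : Pos P) (D : Finset (Fin m))
  /-- light node on the exit line: the leg fails -/
  | lf (s : Bool) (i : Fin m) (k : Fin (P.K1 + 1)) (e : Fin (P.K3 + 1)) (T : Finset (Option (Fin m)))
  /-- light node in the leg: the batch is boosted and the leg is closed -/
  | cb (s : Bool) (i : Fin m) (k : Fin (P.K1 + 1)) (T : Finset (Option (Fin m)))
  /-- walls in the leg: they are boosted and the leg is closed -/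
  | cw (s : Bool) (i : Fin m) (k : Fin (P.K1 + 1)) (W : Finset (Option (Fin m)))
  deriving DecidableEq

/-- The column of a move. -/
def Mv.col {P : Par} : Mv m P → Fin m
  | .hv _ i _ _ => i
  | .lf _ i _ _ _ => i
  | .cb _ i _ _ => i
  | .cw _ i _ _ => i

open Classical in
/-- Coefficients of the natural objective of the side `s`. -/
noncomputable def cfG (C : Cf m) (S : St m n) (s : Bool) (ω : Om m n) (r : Row m) : ℝ :=
  (match r with
    | none => 0
    | some j => if j ∈ C.I s ∧ j ∉ S.R then S.kc s j + ω (.nu s j) else 0) +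
  ∑ l : Fin (n + 1), if (r, l) ∈ S.B s then ω (.om s r l) else 0

/-- Coefficients of the objective at the step `k` of the leg `i`. -/
noncomputable def cfL (P : Par) (C : Cf m) (S : St m n) (s : Bool) (i : Fin m) (k : ℕ)
    (ω : Om m n) (r : Row m) : ℝ :=
  cfG C S s ω r - if r = some i then (k : ℝ) * P.dl else 0

/-- Coefficients of the objective at the step `e` of the exit line. -/
noncomputable def cfE (P : Par) (C : Cf m) (S : St m n) (s : Bool) (i : Fin m) (k e : ℕ)
    (ω : Om m n) (r : Row m) : ℝ :=
  (1 - (e : ℝ) / P.K3) * cfL P C S s i k ω r +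
    P.ph * (ω (.gi i r) - if r = some i then P.Dd else 0)

/-- Coefficients of the objective at a position. -/
noncomputable def cfP (P : Par) (C : Cf m) (S : St m n) (s : Bool) (i : Fin m) :
    Pos P → Om m n → Row m → ℝ
  | .leg k => cfL P C S s i k
  | .exit k e => cfE P C S s i k e

/-- `T` is representable by the rows of the basis `e`, which contains the removed rows and
otherwise only columns of the side `s` and boosted rows, with coefficients at most `Mw` outside the
removed rows. -/
def RepB (P : Par) (C : Cf m) (S : St m n) (s : Bool) (ω : Om m n) (T : Finset (Row m))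
    (e : Fin n → Row m) : Prop :=
  (amat (Nf ω) (rho ω) e).det ≠ 0 ∧ (∀ r ∈ up S.R, ∃ k, e k = r) ∧
    (∀ k, e k ∉ up S.R → e k ∈ up (C.I s) ∨ ∃ l, (e k, l) ∈ S.B s) ∧
    ∀ r ∈ T, ∀ k, e k ∉ up S.R → |lam (Nf ω) (rho ω) (rho ω r) e k| ≤ P.Mw

/-- The combinatorial conditions on the column of a move. -/
def OkCol (C : Cf m) (S : St m n) (i : Fin m) : Prop :=
  i ∈ C.I false ∧ i ∈ C.I true ∧ i ∉ S.R ∧ i ∉ S.bu ∧ i ∉ C.Y false ∧ i ∉ C.Y true

/-- The event of a heavy window. -/
def EvHV (P : Par) (C : Cf m) (S : St m n) (s : Bool) (i : Fin m) (p : Pos P)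
    (D : Finset (Fin m)) : Set (Om m n) :=
  {ω | OkCol C S i ∧ D.card = P.d0 ∧ i ∉ D ∧ Disjoint D S.R ∧
    ∃ e : Fin n → Row m,
      Opt (Nf ω) (rho ω) (fnl ω (cfP P C S s i p ω)) (up S.R) (up D) e ∧
      ∀ r ∈ D, 0 < rho ω (some r) ⬝ᵥ pt (Nf ω) (rho ω) e ∧
        rho ω (some r) ⬝ᵥ pt (Nf ω) (rho ω) e ≤ P.ep * (rho ω (some i) ⬝ᵥ pt (Nf ω) (rho ω) e)}

/-- The event of a light node on the exit line. -/
def EvLF (P : Par) (C : Cf m) (S : St m n) (s : Bool) (i : Fin m) (k e : ℕ)
    (T : Finset (Row m)) : Set (Om m n) :=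
  {ω | OkCol C S i ∧ T.card = P.q ∧ Disjoint T (up S.R) ∧
    ∃ f : Fin n → Row m,
      Opt (Nf ω) (rho ω) (fnl ω (cfE P C S s i k e ω)) (up S.R) ∅ f ∧
      ∀ r ∈ T, ∃ k', f k' = r ∧ lam (Nf ω) (rho ω) (fnl ω (cfE P C S s i k e ω)) f k' ≤ P.ta2}

/-- The event of a light node in a leg. -/
def EvCB (P : Par) (C : Cf m) (S : St m n) (s : Bool) (i : Fin m) (k : ℕ)
    (T : Finset (Row m)) : Set (Om m n) :=
  {ω | OkCol C S i ∧ T.card = P.q ∧ Disjoint T (up S.R) ∧
    (∃ f : Fin n → Row m,
      Opt (Nf ω) (rho ω) (fnl ω (cfL P C S s i k ω)) (up S.R) ∅ f ∧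
      ∀ r ∈ T, ∃ k', f k' = r ∧ lam (Nf ω) (rho ω) (fnl ω (cfL P C S s i k ω)) f k' ≤ P.ta) ∧
    ∃ e : Fin n → Row m, RepB P C S s ω T e}

/-- The event of a move. -/
def Ev (P : Par) (C : Cf m) (S : St m n) : Mv m P → Set (Om m n)
  | .hv s i p D => EvHV P C S s i p D
  | .lf s i k e T => EvLF P C S s i k e T
  | .cb s i k T => EvCB P C S s i k T
  | .cw _ i _ _ => {_ω | OkCol C S i}

open Classical in
/-- The state after a move. -/
noncomputable def nxt (P : Par) (S : St m n) : Mv m P → St m n
  | .hv _ i _ _ => { S with R := insert i S.R, bu := insert i S.bu, t := S.t + 1 }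
  | .lf _ i _ _ _ => { S with R := insert i S.R, bu := insert i S.bu, t := S.t + 1 }
  | .cb s i k T =>
    { S with
      bu := insert i S.bu
      kc := fun s' j => if s' = s ∧ j = i then S.kc s' j - ((k : ℕ) : ℝ) * P.dl else S.kc s' j
      B := fun s' => if s' = s then S.B s' ∪ T ×ˢ {Fin.ofNat (n + 1) S.t} else S.B s'
      t := S.t + 1 }
  | .cw s i k W =>
    { S with
      bu := insert i S.bu
      kc := fun s' j => if s' = s ∧ j = i then S.kc s' j - ((k : ℕ) : ℝ) * P.dl else S.kc s' j
      B := fun s' => if s' = s then S.B s' ∪ W ×ˢ {Fin.ofNat (n + 1) S.t} else S.B s'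
      t := S.t + 1 }

/-- The string of moves is realised, starting in the state `S`. -/
def Rl (P : Par) (C : Cf m) : St m n → List (Mv m P) → Set (Om m n)
  | _, [] => Set.univ
  | S, mv :: l => Ev P C S mv ∩ Rl P C (nxt P S mv) l

/-- Both bases are (simple) vertices of the compactified polyhedron, off the facet at infinity. -/
def Vx (C : Cf m) : Set (Om m n) :=
  {ω | ∀ s, (C.I s).card = n ∧ ∃ e : Fin n → Row m, Opt (Nf ω) (rho ω) 0 (up (C.I s)) ∅ e}

/-- All coordinates are within `Rb + b` of their centres. -/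
def Box (ctr Rb : Co m n → ℝ) (b : ℝ) : Set (Om m n) :=
  {ω | ∀ c, |ω c - ctr c| ≤ Rb c + b}

end Pool.Agent.Lib.S3.PL
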