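import Pool.Agent.Lib.S3.PL.OptInv
import Pool.Agent.Lib.S3.PL.EvMeas

/-!
# The direction of the shift which pays for a light node in a leg (move `cb`)

`dirCB P C S s T r ω` is the vector of changes of the coordinates for the row `r ∈ T`: the new copy of
`r` goes up by one, the cost coins and boost coins of the side `s` go down by the coefficients of a
representation of `r` (the tuple is selected measurably, and depends only on rows and chart).

* `good`: the representing tuples, `pick`: a choice, `cof`: the coefficients, `sum_cof`: the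
  expansion of a row;
* `meas_dirCB`, `dirCB_congr`, `dirCB_supp`, `dirCB_le`: measurability, dependence on the rows and
  the chart only, support, bound.
-/

set_option autoImplicit false

open MeasureTheory Matrix

namespace Pool.Agent.Lib.S3.PL.CB

variable {m n : ℕ}

theorem rho_congr {ω ω' : Om m n} (h : ∀ r j, ω (.row r j) = ω' (.row r j)) :
    rho ω = rho ω' := by
  funext r
  cases r with
  | none => rfl
  | some r => funext j; exact h r j

theorem Nf_congr {ω ω' : Om m n} (h : ∀ r j, ω (.row r j) = ω' (.row r j))
    (he : ∀ r, ω (.eta r) = ω' (.eta r)) : Nf ω = Nf ω' := by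
  unfold Nf
  rw [rho_congr h]
  exact Finset.sum_congr rfl fun r _ => by rw [he]

/-- Representability depends only on the rows and the chart. -/
theorem RepB_congr {P : Par} {C : Cf m} {S : St m n} {s : Bool} {ω ω' : Om m n}
    {T : Finset (Row m)} {e : Fin n → Row m} (hr : rho ω' = rho ω) (hN : Nf ω' = Nf ω) :
    RepB P C S s ω' T e ↔ RepB P C S s ω T e := by
  unfold RepB
  rw [hr, hN]

/-- The tuples which represent `T`. -/
def good (P : Par) (C : Cf m) (S : St m n) (s : Bool) (T : Finset (Row m)) (ω : Om m n) :
    Set (Fin n → Row m) :=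
  {e | RepB P C S s ω T e}

open Classical in
/-- A choice of a tuple. -/
noncomputable def pick (Q : Set (Fin n → Row m)) : Fin n → Row m :=
  if h : Q.Nonempty then h.some else fun _ => none

theorem pick_mem {Q : Set (Fin n → Row m)} (h : Q.Nonempty) : pick Q ∈ Q := by
  unfold pick
  rw [dif_pos h]
  exact h.some_mem

/-- The coefficient of the row `b` in the representation of the row `r` by the tuple `e`. -/
noncomputable def cof (e : Fin n → Row m) (r b : Row m) (ω : Om m n) : ℝ :=
  ∑ k, if e k = b then lam (Nf ω) (rho ω) (rho ω r) e k else 0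

theorem meas_cof (e : Fin n → Row m) (r b : Row m) : Measurable (cof (n := n) e r b) := by
  unfold cof
  refine Finset.measurable_sum _ fun k _ => ?_
  split_ifs
  · exact meas_lam meas_Nf meas_rho (meas_rho r) e k
  · exact measurable_const

theorem cof_congr {e : Fin n → Row m} {r b : Row m} {ω ω' : Om m n} (hr : rho ω' = rho ω)
    (hN : Nf ω' = Nf ω) : cof e r b ω' = cof e r b ω := by
  unfold cof
  rw [hr, hN]

theorem cof_le {P : Par} {C : Cf m} {S : St m n} {s : Bool} {ω : Om m n} {T : Finset (Row m)}
    {e : Fin n → Row m} (he : RepB P C S s ω T e) {r b : Row m} (hr : r ∈ T) (hb : b ∉ up S.R)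
    (h0 : 0 ≤ P.Mw) : |cof e r b ω| ≤ P.Mw := by
  unfold cof
  by_cases h : ∃ k, e k = b
  · obtain ⟨k, rfl⟩ := h
    rw [Finset.sum_eq_single_of_mem k (Finset.mem_univ k)]
    · rw [if_pos rfl]
      exact he.2.2.2 r hr k hb
    · intro l _ hl
      rw [if_neg]
      exact fun h => hl (inj_of_det he.1 h)
  · push Not at h
    rw [Finset.sum_eq_zero, abs_zero]
    · exact h0
    · intro k _
      rw [if_neg (h k)]

theorem cof_zero {P : Par} {C : Cf m} {S : St m n} {s : Bool} {ω : Om m n} {T : Finset (Row m)}
    {e : Fin n → Row m} (he : RepB P C S s ω T e) {r b : Row m} (hb : b ∉ up S.R)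
    (hI : b ∉ up (C.I s)) (hB : ¬ ∃ l, (b, l) ∈ S.B s) : cof e r b ω = 0 := by
  unfold cof
  refine Finset.sum_eq_zero fun k _ => ?_
  rw [if_neg]
  rintro rfl
  rcases he.2.2.1 k hb with h | h
  · exact hI h
  · exact hB h

/-- The expansion of the row `r`. -/
theorem sum_cof {ω : Om m n} {e : Fin n → Row m} (hd : (amat (Nf ω) (rho ω) e).det ≠ 0)
    (r : Row m) : ∑ b : Row m, cof e r b ω • rho ω b =
      rho ω r - (rho ω r ⬝ᵥ pt (Nf ω) (rho ω) e) • Nf ω := by
  have h1 : ∑ b : Row m, cof e r b ω • rho ω b =
      ∑ k, lam (Nf ω) (rho ω) (rho ω r) e k • rho ω (e k) := by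
    unfold cof
    simp only [Finset.sum_smul]
    rw [Finset.sum_comm]
    refine Finset.sum_congr rfl fun k _ => ?_
    rw [Finset.sum_eq_single_of_mem (e k) (Finset.mem_univ _)]
    · rw [if_pos rfl]
    · intro b _ hb
      rw [if_neg hb.symm, zero_smul]
  rw [h1]
  refine dotProduct_eq _ _ fun X => ?_
  rw [sub_dotProduct, smul_dotProduct, smul_eq_mul, expand hd (rho ω r) X, sum_dotProduct]
  simp only [smul_dotProduct, smul_eq_mul]
  ring

/-- The new copy number. -/
def nw (S : St m n) : Fin (n + 1) := Fin.ofNat (n + 1) S.t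

open Classical in
/-- A copy of the boosted row `b`. -/
noncomputable def cp (S : St m n) (s : Bool) (b : Row m) : Fin (n + 1) :=
  if h : ∃ l, (b, l) ∈ S.B s then h.choose else 0

theorem cp_mem {S : St m n} {s : Bool} {b : Row m} (h : ∃ l, (b, l) ∈ S.B s) :
    (b, cp S s b) ∈ S.B s := by
  unfold cp
  rw [dif_pos h]
  exact h.choose_spec

open Classical in
/-- The direction for the row `r`, the representing tuple being `e`. -/
noncomputable def dirE (C : Cf m) (S : St m n) (s : Bool) (e : Fin n → Row m) (r : Row m)
    (ω : Om m n) : Co m n → ℝ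
  | .nu s' j => if s' = s ∧ j ∈ C.I s ∧ j ∉ S.R then -cof e r (some j) ω else 0
  | .om s' b l =>
    if s' = s then
      (if b = r ∧ l = nw S then 1 else 0) -
        (if b ∉ up (C.I s) ∧ b ∉ up S.R ∧ (b, l) ∈ S.B s ∧ l = cp S s b then cof e r b ω else 0)
    else 0
  | _ => 0

open Classical in
/-- The direction for the row `r`. -/
noncomputable def dirCB (P : Par) (C : Cf m) (S : St m n) (s : Bool) (T : Finset (Row m))
    (r : Row m) (ω : Om m n) : Co m n → ℝ :=
  if (good P C S s T ω).Nonempty then dirE C S s (pick (good P C S s T ω)) r ω else fun _ => 0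

theorem meas_dirE (C : Cf m) (S : St m n) (s : Bool) (e : Fin n → Row m) (r : Row m) :
    Measurable (dirE C S s e r) := by
  refine measurable_pi_lambda _ fun c => ?_
  cases c with
  | nu s' j =>
    simp only [dirE]
    split_ifs
    · exact (meas_cof e r _).neg
    · exact measurable_const
  | om s' b l =>
    simp only [dirE]
    split_ifs
    · exact measurable_const.sub (meas_cof e r _)
    · exact measurable_const
    · exact measurable_const.sub (meas_cof e r _)
    · exact measurable_const
    · exact measurable_const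
  | row r j => exact measurable_const
  | eta r => exact measurable_const
  | gi i r => exact measurable_const
  | hub r => exact measurable_const

open Classical in
theorem meas_dirCB (P : Par) (C : Cf m) (S : St m n) (s : Bool) (T : Finset (Row m)) (r : Row m) :
    Measurable (dirCB P C S s T r) := by
  have hfib : ∀ Q : Set (Fin n → Row m), MeasurableSet {ω : Om m n | good P C S s T ω = Q} := by
    intro Q
    have : {ω : Om m n | good P C S s T ω = Q} =
        ⋂ e : Fin n → Row m, {ω | (RepB P C S s ω T e) ↔ e ∈ Q} := by
      ext ω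
      simp only [Set.mem_iInter, Set.mem_ofPred_eq, good, Set.ext_iff]
    rw [this]
    refine MeasurableSet.iInter fun e => ?_
    exact (measurableSet_repB P C S s T e).iff (MeasurableSet.const _)
  have hsum : dirCB P C S s T r = fun ω => ∑ Q : Set (Fin n → Row m),
      if good P C S s T ω = Q then (if Q.Nonempty then dirE C S s (pick Q) r ω else fun _ => 0)
        else 0 := by
    funext ω
    rw [Finset.sum_ite_eq Finset.univ (good P C S s T ω), if_pos (Finset.mem_univ _)]
    rfl
  rw [hsum]
  refine Finset.measurable_sum _ fun Q _ => ?_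
  refine Measurable.ite (hfib Q) ?_ measurable_const
  split_ifs
  · exact meas_dirE C S s _ r
  · exact measurable_const

/-- The moved coordinates. -/
def MvC (s : Bool) : Co m n → Prop
  | .nu s' _ => s' = s
  | .om s' _ _ => s' = s
  | _ => False

instance (s : Bool) : DecidablePred (MvC (m := m) (n := n) s) := by
  intro c
  cases c <;> unfold MvC <;> infer_instance

theorem rho_of_MvC {s : Bool} {ω ω' : Om m n} (h : ∀ c, ¬ MvC s c → ω c = ω' c) :
    rho ω = rho ω' :=
  rho_congr fun r j => h _ (by simp [MvC])

theorem Nf_of_MvC {s : Bool} {ω ω' : Om m n} (h : ∀ c, ¬ MvC s c → ω c = ω' c) :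
    Nf ω = Nf ω' :=
  Nf_congr (fun r j => h _ (by simp [MvC])) (fun r => h _ (by simp [MvC]))

theorem dirE_congr {C : Cf m} {S : St m n} {s : Bool} {e : Fin n → Row m} {r : Row m}
    {ω ω' : Om m n} (hr : rho ω' = rho ω) (hN : Nf ω' = Nf ω) :
    dirE C S s e r ω' = dirE C S s e r ω := by
  funext c
  cases c <;> simp only [dirE, cof_congr hr hN]

theorem good_congr {P : Par} {C : Cf m} {S : St m n} {s : Bool} {T : Finset (Row m)}
    {ω ω' : Om m n} (hr : rho ω' = rho ω) (hN : Nf ω' = Nf ω) :
    good P C S s T ω' = good P C S s T ω := by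
  ext e
  exact RepB_congr hr hN

theorem dirCB_congr {P : Par} {C : Cf m} {S : St m n} {s : Bool} {T : Finset (Row m)} {r : Row m}
    {ω ω' : Om m n} (hr : rho ω' = rho ω) (hN : Nf ω' = Nf ω) :
    dirCB P C S s T r ω' = dirCB P C S s T r ω := by
  unfold dirCB
  rw [good_congr hr hN, dirE_congr hr hN]

theorem dirCB_supp (P : Par) (C : Cf m) (S : St m n) (s : Bool) (T : Finset (Row m)) (r : Row m)
    (ω : Om m n) (c : Co m n) (hc : ¬ MvC s c) : dirCB P C S s T r ω c = 0 := by
  unfold dirCB
  split_ifs
  · cases c with
    | nu s' j =>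
      simp only [MvC] at hc
      simp only [dirE]
      rw [if_neg fun h => hc h.1]
    | om s' b l =>
      simp only [MvC] at hc
      simp only [dirE]
      rw [if_neg hc]
    | row r j => rfl
    | eta r => rfl
    | gi i r => rfl
    | hub r => rfl
  · rfl

theorem dirCB_le {P : Par} {C : Cf m} {S : St m n} {s : Bool} {T : Finset (Row m)} {r : Row m}
    (hr : r ∈ T) (h0 : 0 ≤ P.Mw) (ω : Om m n) (c : Co m n) :
    |dirCB P C S s T r ω c| ≤ P.Mw + 1 := by
  have h1 : |(0 : ℝ)| ≤ P.Mw + 1 := by rw [abs_zero]; linarith
  unfold dirCB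
  split_ifs with hne
  · have he : RepB P C S s ω T (pick (good P C S s T ω)) := pick_mem hne
    cases c with
    | nu s' j =>
      simp only [dirE]
      split_ifs with h
      · rw [abs_neg]
        have := cof_le he hr (b := some j) (fun h' => h.2.2 (mem_up.1 h')) h0
        linarith
      · exact h1
    | om s' b l =>
      simp only [dirE]
      split_ifs with h2 h3 h4 h4
      · have := cof_le he hr h4.2.1 h0
        rw [abs_le] at this ⊢
        constructor <;> linarith [this.1, this.2]
      · rw [sub_zero, abs_one]
        linarith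
      · have := cof_le he hr h4.2.1 h0
        rw [abs_le] at this ⊢
        constructor <;> linarith [this.1, this.2]
      · rw [sub_zero]
        exact h1
      · exact h1
    | row r j => exact h1
    | eta r => exact h1
    | gi i r => exact h1
    | hub r => exact h1
  · exact h1

end Pool.Agent.Lib.S3.PL.CB
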