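import Pool.Agent.Lib.S3.PL.Law
import Pool.Agent.Lib.SHirsch.TDet

/-!
# The fat point in the chart (smoothed Hirsch, MP_4a5c02_co)

`fat_point`: if the rows are not thin (`ThinOn ρ`), there is a point `X` of the chart `Nf ω ⬝ᵥ X = 1`
at which all rows, including the facet at infinity, have slack at least
`ρ / (8 (W+1) (m (n+1) W + 1))`.
-/

set_option autoImplicit false

open MeasureTheory Matrix

namespace Pool.Agent.Lib.S3.PL

open Pool.Agent.Lib.SHirsch.Thin

variable {m n : ℕ}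

theorem rho_some_dot (ω : Om m n) (r : Fin m) (X : Fin (n + 1) → ℝ) :
    rho ω (some r) ⬝ᵥ X = -ev (rw' (Am ω) (bm ω)) r X := by
  unfold ev rw' rho Am bm dotProduct
  rw [← Finset.sum_neg_distrib]
  refine Finset.sum_congr rfl fun k _ => ?_
  refine Fin.cases ?_ (fun k => ?_) k
  · simp
  · simp

theorem rho_none_dot (ω : Om m n) (X : Fin (n + 1) → ℝ) : rho ω none ⬝ᵥ X = X 0 := by
  unfold rho
  rw [single_dotProduct, one_mul]

/-- Not thin: there is a point of the half box with all slacks larger than `ρ`. -/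
theorem exists_of_not_thin {ω : Om m n} {ρ : ℝ}
    (h : ¬ ThinOn ρ Finset.univ (rw' (Am ω) (bm ω))) :
    ∃ X : Fin (n + 1) → ℝ, (∀ j, |X j| ≤ 1) ∧ 0 ≤ X 0 ∧ ∀ r : Fin m, ρ < rho ω (some r) ⬝ᵥ X := by
  unfold ThinOn at h
  push Not at h
  obtain ⟨X, hX, h1⟩ := h
  refine ⟨X, hX.1, hX.2, fun r => ?_⟩
  rw [rho_some_dot]
  linarith [h1 r (Finset.mem_univ _)]

/-- The fat point of the chart. -/
theorem fat_point {ω : Om m n} {ρ W : ℝ} (hρ : 0 < ρ) (hρ1 : ρ ≤ 1) (hW : 0 ≤ W)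
    (hrow : ∀ r j, |ω (.row r j)| ≤ W)
    (heta : ∀ r, 1 / 2 ≤ ω (.eta r) ∧ ω (.eta r) ≤ 2)
    (h : ¬ ThinOn ρ Finset.univ (rw' (Am ω) (bm ω))) :
    ∃ X : Fin (n + 1) → ℝ, Nf ω ⬝ᵥ X = 1 ∧
      ∀ r : Row m, ρ / (8 * (W + 1) * (m * (n + 1) * W + 1)) ≤ rho ω r ⬝ᵥ X := by
  obtain ⟨X, hX1, hX0, hX⟩ := exists_of_not_thin h
  set δ : ℝ := ρ / (2 * (W + 1)) with hδ
  have hδ0 : 0 < δ := by positivity
  have hδ1 : δ ≤ 1 := by
    rw [hδ, div_le_one (by positivity)]
    linarith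
  set Y : Fin (n + 1) → ℝ := X + δ • Pi.single 0 1 with hY
  have hdot : ∀ r : Row m, rho ω r ⬝ᵥ Y = rho ω r ⬝ᵥ X + δ * rho ω r 0 := by
    intro r
    rw [hY, dotProduct_add, dotProduct_smul, dotProduct_single, mul_one, smul_eq_mul]
  -- lower bounds of the slacks
  have hlow : ∀ r : Row m, δ ≤ rho ω r ⬝ᵥ Y := by
    intro r
    rw [hdot]
    cases r with
    | none =>
      rw [rho_none_dot]
      have : rho ω none 0 = 1 := by unfold rho; simp
      rw [this]
      linarith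
    | some r =>
      have h1 := hX r
      have h2 : -W ≤ rho ω (some r) 0 := by
        have := (abs_le.mp (hrow r 0)).1
        exact this
      have h3 : δ * (2 * (W + 1)) = ρ := by
        rw [hδ]; field_simp
      nlinarith
  -- upper bounds of the slacks
  have hYabs : ∀ j, |Y j| ≤ 2 := by
    intro j
    have h1 : Y j = X j + δ * (Pi.single (M := fun _ => ℝ) 0 1 : Fin (n + 1) → ℝ) j := by
      rw [hY]; simp
    rw [h1]
    refine (abs_add_le _ _).trans ?_
    have h2 : |δ * (Pi.single (M := fun _ => ℝ) 0 1 : Fin (n + 1) → ℝ) j| ≤ 1 := by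
      rw [abs_mul, abs_of_pos hδ0]
      have : |(Pi.single (M := fun _ => ℝ) 0 1 : Fin (n + 1) → ℝ) j| ≤ 1 := by
        by_cases hj : j = 0
        · subst hj; simp
        · simp [Pi.single_eq_of_ne hj]
      calc δ * |(Pi.single (M := fun _ => ℝ) 0 1 : Fin (n + 1) → ℝ) j| ≤ 1 * 1 := by gcongr
        _ = 1 := one_mul 1
    linarith [hX1 j]
  have hup : ∀ r : Fin m, rho ω (some r) ⬝ᵥ Y ≤ 2 * ((n + 1) * W) := by
    intro r
    calc rho ω (some r) ⬝ᵥ Y ≤ ∑ j, |rho ω (some r) j * Y j| :=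
          Finset.sum_le_sum fun j _ => le_abs_self _
      _ ≤ ∑ _j : Fin (n + 1), W * 2 := by
          refine Finset.sum_le_sum fun j _ => ?_
          rw [abs_mul]
          have h1 : |rho ω (some r) j| ≤ W := hrow r j
          have h2 := hYabs j
          gcongr
      _ = 2 * ((n + 1) * W) := by
          rw [Finset.sum_const, Finset.card_univ, Fintype.card_fin, nsmul_eq_mul]
          push_cast
          ring
  have hup0 : rho ω none ⬝ᵥ Y ≤ 2 := by
    rw [rho_none_dot]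
    exact (le_abs_self _).trans (hYabs 0)
  -- the chart functional
  have hN : Nf ω ⬝ᵥ Y = ∑ r : Row m, ω (.eta r) * (rho ω r ⬝ᵥ Y) := by
    unfold Nf
    rw [sum_dotProduct]
    exact Finset.sum_congr rfl fun r _ => by rw [smul_dotProduct, smul_eq_mul]
  have hNle : Nf ω ⬝ᵥ Y ≤ 4 * (m * (n + 1) * W + 1) := by
    rw [hN, Fintype.sum_option]
    have h1 : ω (.eta none) * (rho ω none ⬝ᵥ Y) ≤ 2 * 2 := by
      have := heta none
      have h0 := hδ0.le.trans (hlow none)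
      have : (0 : ℝ) ≤ ω (.eta none) := by linarith [(heta none).1]
      have h3 := (heta none).2
      gcongr
    have h2 : ∑ r : Fin m, ω (.eta (some r)) * (rho ω (some r) ⬝ᵥ Y) ≤
        ∑ _r : Fin m, 2 * (2 * ((n + 1) * W)) := by
      refine Finset.sum_le_sum fun r _ => ?_
      have h0 := hδ0.le.trans (hlow (some r))
      have h3 := (heta (some r)).2
      have h4 := hup r
      gcongr
    rw [Finset.sum_const, Finset.card_univ, Fintype.card_fin, nsmul_eq_mul] at h2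
    linarith
  have hNpos : 0 < Nf ω ⬝ᵥ Y := by
    rw [hN]
    refine Finset.sum_pos (fun r _ => ?_) ⟨none, Finset.mem_univ _⟩
    have h1 := (heta r).1
    have h2 := hδ0.trans_le (hlow r)
    have : (0 : ℝ) < ω (.eta r) := by linarith
    positivity
  refine ⟨(Nf ω ⬝ᵥ Y)⁻¹ • Y, ?_, fun r => ?_⟩
  · rw [dotProduct_smul, smul_eq_mul, inv_mul_cancel₀ hNpos.ne']
  · rw [dotProduct_smul, smul_eq_mul]
    have h1 := hlow r
    have h2 : ρ / (8 * (W + 1) * (m * (n + 1) * W + 1)) = (4 * (m * (n + 1) * W + 1))⁻¹ * δ := by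
      rw [hδ]
      field_simp
      ring
    rw [h2]
    have h3 : (4 * ((m : ℝ) * (n + 1) * W + 1))⁻¹ ≤ (Nf ω ⬝ᵥ Y)⁻¹ :=
      inv_anti₀ hNpos hNle
    gcongr

end Pool.Agent.Lib.S3.PL
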