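import Pool.Agent.Lib.S3.PL.Generic
import Pool.Agent.Lib.S3.PL.EvMeas
import Pool.Agent.Lib.S3.PL.Mach
import Pool.Agent.Lib.S3.PL.Hub
import Pool.Agent.Lib.S3.PL.Side
import Pool.Agent.Lib.S3.Geo.LegAdapter

/-!
# Generic multipliers (smoothed Hirsch, MP_4a5c02_co)

`MulNZ ω Γ R`: the multipliers of `Γ` at every tuple containing `R` are nonzero off `R`.
`GenP P ω`: all objectives of the machine at all positions in all `Ok` states and the end
functionals of the exit lines are generic. `ae_genP`: this holds almost surely.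
-/

set_option autoImplicit false

open MeasureTheory ProbabilityTheory Matrix
open scoped ENNReal NNReal

namespace Pool.Agent.Lib.S3.PL

variable {m n : ℕ}

/-- The multipliers of `Γ` at every tuple containing `R` are nonzero off `R`. -/
def MulNZ (ω : Om m n) (Γ : Fin (n + 1) → ℝ) (R : Finset (Row m)) : Prop :=
  ∀ e : Fin n → Row m, Function.Injective e → (∀ r ∈ R, ∃ k, e k = r) →
    ∀ k, e k ∉ R → lam (Nf ω) (rho ω) Γ e k ≠ 0

theorem MulNZ.mono {ω : Om m n} {Γ : Fin (n + 1) → ℝ} {R R' : Finset (Row m)}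
    (h : MulNZ ω Γ R) (hR : R ⊆ R') : MulNZ ω Γ R' :=
  fun e he hs k hk => h e he (fun r hr => hs r (hR hr)) k (fun h' => hk (hR h'))

private theorem fdot (ω : Om m n) (c : Row m → ℝ) (z : Fin (n + 1) → ℝ) :
    fnl ω c ⬝ᵥ z = ∑ r : Row m, c r * (rho ω r ⬝ᵥ z) := by
  unfold fnl
  rw [sum_dotProduct]
  exact Finset.sum_congr rfl fun r _ => by rw [smul_dotProduct, smul_eq_mul]

section upd

variable [DecidableEq (Co m n)]

private theorem rho_update (ω : Om m n) {k₀ : Co m n} (hk : ∀ r j, k₀ ≠ .row r j) (x : ℝ) :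
    rho (Function.update ω k₀ x) = rho ω := by
  funext r
  cases r with
  | none => rfl
  | some r =>
    funext j
    exact Function.update_of_ne (fun h => hk r j h.symm) _ _

private theorem Nf_update (ω : Om m n) {k₀ : Co m n} (hk : ∀ r j, k₀ ≠ .row r j)
    (hk' : ∀ r, k₀ ≠ .eta r) (x : ℝ) : Nf (Function.update ω k₀ x) = Nf ω := by
  unfold Nf
  rw [rho_update ω hk]
  refine Finset.sum_congr rfl fun r _ => ?_
  rw [Function.update_of_ne (fun h => hk' r h.symm)]

/-- A multiplier is nonzero almost surely where the slope of some coin is nonzero. -/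
theorem ae_lam_ne (c : Co m n → ℝ) (v : Co m n → ℝ≥0) (hv : ∀ i, v i ≠ 0)
    {k₀ : Co m n} (hk : ∀ r j, k₀ ≠ .row r j) (hk' : ∀ r, k₀ ≠ .eta r)
    (cf : Om m n → Row m → ℝ) (hcf : ∀ r, Measurable fun ω => cf ω r) (r₀ : Row m) (a : ℝ)
    (hc : ∀ ω x r, cf (Function.update ω k₀ x) r =
      cf (Function.update ω k₀ 0) r + if r = r₀ then x * a else 0)
    (e : Fin n → Row m) (k : Fin n) :
    ∀ᵐ ω ∂(Measure.pi fun i => gaussianReal (c i) (v i)),
      a * (rho ω r₀ ⬝ᵥ dv (Nf ω) (rho ω) e k) ≠ 0 →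
        lam (Nf ω) (rho ω) (fnl ω (cf ω)) e k ≠ 0 := by
  refine ae_ne_of_coord c v hv k₀ (fun ω => lam (Nf ω) (rho ω) (fnl ω (cf ω)) e k)
    (fun ω => a * (rho ω r₀ ⬝ᵥ dv (Nf ω) (rho ω) e k))
    (meas_lam meas_Nf meas_rho (meas_fnl hcf) e k)
    (measurable_const.mul (meas_dot (fun j => meas_rho r₀ j)
      (fun j => meas_dv meas_Nf meas_rho e k j))) ?_ ?_
  · intro ω x
    show lam _ _ _ e k = lam _ _ _ e k + _
    unfold lam
    rw [fdot, fdot, Nf_update ω hk hk', rho_update ω hk, Nf_update ω hk hk',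
      rho_update ω hk]
    simp only [hc ω x]
    simp only [add_mul, Finset.sum_add_distrib, ite_mul, zero_mul]
    rw [Finset.sum_ite_eq' Finset.univ r₀, if_pos (Finset.mem_univ _)]
    ring
  · intro ω x
    rw [Nf_update ω hk hk', rho_update ω hk]

end upd

/-- Some free column sees the edge, if the basis is nonsingular. -/
theorem exists_col {ω : Om m n} (hg : RowGen ω) {I R : Finset (Fin m)} (hI : I.card = n)
    {e : Fin n → Row m} (he : Function.Injective e)
    (hs : ∀ r ∈ up R, ∃ k, e k = r) {k : Fin n} (hk : e k ∉ up R) :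
    ∃ j ∈ I, j ∉ R ∧ rho ω (some j) ⬝ᵥ dv (Nf ω) (rho ω) e k ≠ 0 := by
  by_contra hcon
  push Not at hcon
  have hd := hg.det e he
  let f : Fin n → Row m := fun l => some ((I.equivFinOfCardEq hI).symm l : Fin m)
  have hf : Function.Injective f := fun l l' h =>
    (I.equivFinOfCardEq hI).symm.injective (Subtype.ext (Option.some_injective _ h))
  have hz : dv (Nf ω) (rho ω) e k = 0 := by
    refine ext_of_dot (hg.det f hf) (X := dv (Nf ω) (rho ω) e k) (Y := 0) ?_ ?_
    · rw [N_dv hd, dotProduct_zero]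
    · intro l
      rw [dotProduct_zero]
      by_cases hR : ((I.equivFinOfCardEq hI).symm l : Fin m) ∈ R
      · obtain ⟨l', hl'⟩ := hs (f l) (mem_up.2 hR)
        rw [← hl']
        refine row_dv_ne hd fun h => hk ?_
        rw [← h, hl']
        exact mem_up.2 hR
      · exact hcon _ ((I.equivFinOfCardEq hI).symm l).2 hR
  have h1 := row_dv_self hd k
  rw [hz, dotProduct_zero] at h1
  exact zero_ne_one h1

open Classical in
/-- Genericity of a leg objective. -/
theorem ae_leg (c : Co m n → ℝ) (v : Co m n → ℝ≥0) (hv : ∀ i, v i ≠ 0) (P : Par) (C : Cf m)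
    (S : St m n) (s : Bool) (i : Fin m) (k₁ : ℕ) (hI : (C.I s).card = n) :
    ∀ᵐ ω ∂(Measure.pi fun i => gaussianReal (c i) (v i)),
      RowGen ω → MulNZ ω (fnl ω (cfL P C S s i k₁ ω)) (up S.R) := by
  have h : ∀ᵐ ω ∂(Measure.pi fun i => gaussianReal (c i) (v i)),
      ∀ (e : Fin n → Row m) (k : Fin n) (j : Fin m), j ∈ C.I s → j ∉ S.R →
        (1 : ℝ) * (rho ω (some j) ⬝ᵥ dv (Nf ω) (rho ω) e k) ≠ 0 →
          lam (Nf ω) (rho ω) (fnl ω (cfL P C S s i k₁ ω)) e k ≠ 0 := by
    rw [ae_all_iff]
    intro e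
    rw [ae_all_iff]
    intro k
    rw [ae_all_iff]
    intro j
    by_cases hj : j ∈ C.I s ∧ j ∉ S.R
    swap
    · exact Filter.Eventually.of_forall fun ω h1 h2 => absurd ⟨h1, h2⟩ hj
    have h1 := ae_lam_ne c v hv (k₀ := .nu s j) (fun _ _ h => by cases h) (fun _ h => by cases h)
      (fun ω => cfL P C S s i k₁ ω) (meas_cfL P C S s i k₁) (some j) 1 (by
        intro ω x r
        unfold cfL cfG
        have hB : ∀ y, ∑ l : Fin (n + 1), (if (r, l) ∈ S.B s then
            (Function.update ω (.nu s j) y) (.om s r l) else 0) =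
            ∑ l : Fin (n + 1), if (r, l) ∈ S.B s then ω (.om s r l) else 0 := by
          intro y
          refine Finset.sum_congr rfl fun l _ => ?_
          rw [Function.update_of_ne (by simp)]
        rw [hB, hB]
        cases r with
        | none => simp
        | some r =>
          by_cases hr : r = j
          · subst hr
            simp only [hj, not_false_eq_true, and_self, if_true, Function.update_self]
            ring
          · have hr' : (some r : Row m) ≠ some j := fun h => hr (Option.some_injective _ h)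
            rw [if_neg hr', add_zero]
            simp only
            rw [Function.update_of_ne (by simpa using hr), Function.update_of_ne (by simpa using hr)])
      e k
    filter_upwards [h1] with ω hω _ _
    exact hω
  filter_upwards [h] with ω hω hg e he hs k hk
  obtain ⟨j, hj1, hj2, hj3⟩ := exists_col hg hI he hs hk
  exact hω e k j hj1 hj2 (by rwa [one_mul])

open Classical in
/-- Genericity of an objective on the exit line. -/
theorem ae_exit (c : Co m n → ℝ) (v : Co m n → ℝ≥0) (hv : ∀ i, v i ≠ 0) (P : Par)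
    (hph : P.ph ≠ 0) (C : Cf m)
    (S : St m n) (s : Bool) (i : Fin m) (k₁ e₁ : ℕ) :
    ∀ᵐ ω ∂(Measure.pi fun i => gaussianReal (c i) (v i)),
      RowGen ω → MulNZ ω (fnl ω (cfE P C S s i k₁ e₁ ω)) ∅ := by
  have h : ∀ᵐ ω ∂(Measure.pi fun i => gaussianReal (c i) (v i)),
      ∀ (e : Fin n → Row m) (k : Fin n),
        P.ph * (rho ω (e k) ⬝ᵥ dv (Nf ω) (rho ω) e k) ≠ 0 →
          lam (Nf ω) (rho ω) (fnl ω (cfE P C S s i k₁ e₁ ω)) e k ≠ 0 := by
    rw [ae_all_iff]
    intro e
    rw [ae_all_iff]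
    intro k
    exact ae_lam_ne c v hv (k₀ := .gi i (e k)) (fun _ _ h => by cases h) (fun _ h => by cases h)
      (fun ω => cfE P C S s i k₁ e₁ ω) (meas_cfE P C S s i k₁ e₁) (e k) P.ph (by
        intro ω x r
        have hL : ∀ y, cfL P C S s i k₁ (Function.update ω (.gi i (e k)) y) r =
            cfL P C S s i k₁ ω r := by
          intro y
          unfold cfL cfG
          congr 2
        unfold cfE
        rw [hL, hL]
        by_cases hr : r = e k
        · subst hr
          rw [if_pos rfl, Function.update_self, Function.update_self]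
          ring
        · rw [if_neg hr, add_zero, Function.update_of_ne (by simpa using hr),
            Function.update_of_ne (by simpa using hr)])
      e k
  filter_upwards [h] with ω hω hg e he _ k _
  refine hω e k ?_
  rw [row_dv_self (hg.det e he), mul_one]
  exact hph

open Classical in
/-- Genericity of the end functional of the exit line. -/
theorem ae_end (c : Co m n → ℝ) (v : Co m n → ℝ≥0) (hv : ∀ i, v i ≠ 0) (P : Par)
    (hph : P.ph ≠ 0) (i : Fin m) :
    ∀ᵐ ω ∂(Measure.pi fun i => gaussianReal (c i) (v i)),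
      RowGen ω → MulNZ ω (fnl ω (cfJ P i ω)) ∅ := by
  have h : ∀ᵐ ω ∂(Measure.pi fun i => gaussianReal (c i) (v i)),
      ∀ (e : Fin n → Row m) (k : Fin n),
        P.ph * (rho ω (e k) ⬝ᵥ dv (Nf ω) (rho ω) e k) ≠ 0 →
          lam (Nf ω) (rho ω) (fnl ω (cfJ P i ω)) e k ≠ 0 := by
    rw [ae_all_iff]
    intro e
    rw [ae_all_iff]
    intro k
    exact ae_lam_ne c v hv (k₀ := .gi i (e k)) (fun _ _ h => by cases h) (fun _ h => by cases h)
      (fun ω => cfJ P i ω) (fun r => by
        unfold cfJ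
        exact measurable_const.mul ((measurable_pi_apply _).sub measurable_const)) (e k) P.ph (by
        intro ω x r
        unfold cfJ
        by_cases hr : r = e k
        · subst hr
          rw [if_pos rfl, Function.update_self, Function.update_self]
          ring
        · rw [if_neg hr, add_zero, Function.update_of_ne (by simpa using hr),
            Function.update_of_ne (by simpa using hr)])
      e k
  filter_upwards [h] with ω hω hg e he _ k _
  refine hω e k ?_
  rw [row_dv_self (hg.det e he), mul_one]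
  exact hph

open Classical in
/-- Genericity of the hub functional. -/
theorem ae_hub (c : Co m n → ℝ) (v : Co m n → ℝ≥0) (hv : ∀ i, v i ≠ 0) (Th : ℝ) :
    ∀ᵐ ω ∂(Measure.pi fun i => gaussianReal (c i) (v i)),
      RowGen ω → MulNZ ω (fnl ω (cfHub Th ω)) ∅ := by
  have h : ∀ᵐ ω ∂(Measure.pi fun i => gaussianReal (c i) (v i)),
      ∀ (e : Fin n → Row m) (k : Fin n) (r : Fin m),
        (1 : ℝ) * (rho ω (some r) ⬝ᵥ dv (Nf ω) (rho ω) e k) ≠ 0 →
          lam (Nf ω) (rho ω) (fnl ω (cfHub Th ω)) e k ≠ 0 := by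
    rw [ae_all_iff]
    intro e
    rw [ae_all_iff]
    intro k
    rw [ae_all_iff]
    intro r₀
    exact ae_lam_ne c v hv (k₀ := .hub (some r₀)) (fun _ _ h => by cases h) (fun _ h => by cases h)
      (fun ω => cfHub Th ω) (meas_cfHub Th) (some r₀) 1 (by
        intro ω x r
        cases r with
        | none => simp [cfHub]
        | some r =>
          by_cases hr : r = r₀
          · subst hr
            simp [cfHub]
          · have hr' : (some r : Row m) ≠ some r₀ := fun h => hr (Option.some_injective _ h)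
            rw [if_neg hr', add_zero]
            show Function.update ω _ _ _ = Function.update ω _ _ _
            rw [Function.update_of_ne (by simpa using hr),
              Function.update_of_ne (by simpa using hr)])
      e k
  have h0 : ∀ᵐ ω ∂(Measure.pi fun i => gaussianReal (c i) (v i)),
      ω (.eta none : Co m n) ≠ 0 := by
    have h1 := ae_ne_of_coord c v hv (.eta none) (fun ω => ω (.eta none)) (fun _ => 1)
      (measurable_pi_apply _) measurable_const (by
        intro ω x
        simp) (fun _ _ => rfl)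
    filter_upwards [h1] with ω hω
    exact hω one_ne_zero
  filter_upwards [h, h0] with ω hω hω0 hg e he _ k _
  have hd := hg.det e he
  obtain ⟨r, hr⟩ : ∃ r : Fin m, rho ω (some r) ⬝ᵥ dv (Nf ω) (rho ω) e k ≠ 0 := by
    by_cases hk : e k = none
    · by_contra hcon
      push Not at hcon
      have h1 := N_dv hd k
      have h2 : Nf ω ⬝ᵥ dv (Nf ω) (rho ω) e k =
          ∑ r : Row m, ω (.eta r) * (rho ω r ⬝ᵥ dv (Nf ω) (rho ω) e k) := by
        generalize dv (Nf ω) (rho ω) e k = z
        unfold Nf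
        rw [sum_dotProduct]
        exact Finset.sum_congr rfl fun r _ => by rw [smul_dotProduct, smul_eq_mul]
      rw [h1, Fintype.sum_option, Finset.sum_eq_zero (fun r _ => by rw [hcon r, mul_zero]),
        add_zero] at h2
      have h3 := row_dv_self hd k
      rw [hk] at h3
      rw [h3, mul_one] at h2
      exact hω0 h2.symm
    · obtain ⟨r, hr⟩ := Option.ne_none_iff_exists.1 hk
      refine ⟨r, ?_⟩
      rw [hr, row_dv_self hd]
      exact one_ne_zero
  exact hω e k r (by rwa [one_mul])

/-- The possible known costs. -/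
noncomputable def kcv (P : Par) : Option (Fin (P.K1 + 1)) → ℝ
  | none => 0
  | some k => P.Th - ((k : ℕ) : ℝ) * P.dl

/-- The state with given finite data. -/
noncomputable def stF (P : Par) (m n : ℕ) (d : Finset (Fin m) × (Bool → Fin m → Option (Fin (P.K1 + 1))) ×
    (Bool → Finset (Row m × Fin (n + 1)))) : St m n where
  R := d.1
  bu := ∅
  kc := fun s j => kcv P (d.2.1 s j)
  B := d.2.2
  t := 0

/-- An `Ok` state has the data of one of finitely many states. -/
theorem Ok.exists_stF {P : Par} {C : Cf m} {S : St m n} (h : Ok P C S) :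
    ∃ d, S.R = (stF P m n d).R ∧ S.kc = (stF P m n d).kc ∧ S.B = (stF P m n d).B := by
  have h1 : ∀ s j, ∃ o, S.kc s j = kcv P o := by
    intro s j
    by_cases hY : j ∈ C.Y s
    · exact ⟨none, h.kcY s j hY⟩
    · by_cases hb : j ∈ S.bu
      · obtain ⟨k, hk, hk'⟩ := h.kcb s j hb
        exact ⟨some ⟨k, by omega⟩, hk'⟩
      · refine ⟨some 0, ?_⟩
        rw [h.kcU s j hY hb]
        simp [kcv]
  choose φ hφ using h1
  refine ⟨(S.R, φ, S.B), rfl, ?_, rfl⟩
  funext s j
  exact hφ s j

instance : Finite (Cf m) := by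
  refine Finite.of_injective (fun C : Cf m => (C.I, C.Y)) ?_
  intro C C' h
  cases C
  cases C'
  simp only [Prod.mk.injEq] at h
  rw [h.1, h.2]

/-- All objectives of the machine are generic. -/
structure GenP (P : Par) (Th : ℝ) (ω : Om m n) : Prop where
  row : RowGen ω
  leg : ∀ (C : Cf m) (S : St m n), Ok P C S → ∀ (s : Bool), (C.I s).card = n →
    ∀ (i : Fin m) (k : Fin (P.K1 + 1)), MulNZ ω (fnl ω (cfL P C S s i k ω)) (up S.R)
  exit : ∀ (C : Cf m) (S : St m n), Ok P C S → ∀ (s : Bool) (i : Fin m) (k : Fin (P.K1 + 1))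
    (e : Fin (P.K3 + 1)), MulNZ ω (fnl ω (cfE P C S s i k e ω)) ∅
  fin : ∀ i, MulNZ ω (fnl ω (cfJ P i ω)) ∅
  hub : MulNZ ω (fnl ω (cfHub Th ω)) ∅

theorem cfL_congr (P : Par) (C : Cf m) {S S' : St m n} (hR : S.R = S'.R) (hk : S.kc = S'.kc)
    (hB : S.B = S'.B) (s : Bool) (i : Fin m) (k : ℕ) (ω : Om m n) :
    cfL P C S s i k ω = cfL P C S' s i k ω := by
  funext r
  unfold cfL cfG
  rw [hR, hk, hB]

theorem cfE_congr (P : Par) (C : Cf m) {S S' : St m n} (hR : S.R = S'.R) (hk : S.kc = S'.kc)
    (hB : S.B = S'.B) (s : Bool) (i : Fin m) (k e : ℕ) (ω : Om m n) :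
    cfE P C S s i k e ω = cfE P C S' s i k e ω := by
  funext r
  unfold cfE
  rw [cfL_congr P C hR hk hB]

/-- Genericity holds almost surely. -/
theorem ae_genP (hnm : n ≤ m) (c : Co m n → ℝ) (v : Co m n → ℝ≥0) (hv : ∀ i, v i ≠ 0) (P : Par)
    (hph : P.ph ≠ 0) (Th : ℝ) :
    ∀ᵐ ω ∂(Measure.pi fun i => gaussianReal (c i) (v i)), GenP P Th (ω : Om m n) := by
  have h1 : ∀ᵐ ω ∂(Measure.pi fun i => gaussianReal (c i) (v i)),
      ∀ (C : Cf m) (d : Finset (Fin m) × (Bool → Fin m → Option (Fin (P.K1 + 1))) ×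
        (Bool → Finset (Row m × Fin (n + 1)))) (s : Bool) (i : Fin m) (k : Fin (P.K1 + 1)),
        (C.I s).card = n → RowGen ω →
          MulNZ ω (fnl ω (cfL P C (stF P m n d) s i k ω)) (up (stF P m n d).R) := by
    simp only [ae_all_iff]
    intro C d s i k hI
    exact ae_leg c v hv P C _ s i k hI
  have h2 : ∀ᵐ ω ∂(Measure.pi fun i => gaussianReal (c i) (v i)),
      ∀ (C : Cf m) (d : Finset (Fin m) × (Bool → Fin m → Option (Fin (P.K1 + 1))) ×
        (Bool → Finset (Row m × Fin (n + 1)))) (s : Bool) (i : Fin m) (k : Fin (P.K1 + 1))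
        (e : Fin (P.K3 + 1)), RowGen ω →
          MulNZ ω (fnl ω (cfE P C (stF P m n d) s i k e ω)) ∅ := by
    simp only [ae_all_iff]
    intro C d s i k e
    exact ae_exit c v hv P hph C _ s i k e
  have h3 : ∀ᵐ ω ∂(Measure.pi fun i => gaussianReal (c i) (v i)),
      ∀ i : Fin m, RowGen ω → MulNZ ω (fnl ω (cfJ P i ω)) ∅ := by
    rw [ae_all_iff]
    exact fun i => ae_end c v hv P hph i
  filter_upwards [ae_rowGen hnm c v hv, h1, h2, h3, ae_hub c v hv Th] with ω hr h1 h2 h3 h4
  refine ⟨hr, ?_, ?_, fun i => h3 i hr, h4 hr⟩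
  · intro C S hS s hI i k
    obtain ⟨d, hd1, hd2, hd3⟩ := hS.exists_stF
    rw [cfL_congr P C hd1 hd2 hd3, hd1]
    exact h1 C d s i k hI hr
  · intro C S hS s i k e
    obtain ⟨d, hd1, hd2, hd3⟩ := hS.exists_stF
    rw [cfE_congr P C hd1 hd2 hd3]
    exact h2 C d s i k e hr

end Pool.Agent.Lib.S3.PL
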