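import Pool.Agent.Lib.S3.PL.GenMul
import Pool.Agent.Lib.S3.PL.LegGeo
import Pool.Agent.Lib.S3.GenChart

/-!
# Strict optimal bases for generic sample points (smoothed Hirsch, MP_4a5c02_co)

`gp_of_rowGen`: the chart is in general position. `exists_opt_of_mul`: a generic functional has a
strict optimal basis on every nonempty face of the bounded chart. `GenP.hgen`: all objectives of
the machine.
-/

set_option autoImplicit false

open MeasureTheory ProbabilityTheory Matrix
open scoped ENNReal NNReal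

namespace Pool.Agent.Lib.S3.PL

variable {m n : ℕ}

/-- Generic rows give a chart in general position. -/
theorem gp_of_rowGen (hnm : n ≤ m) {ω : Om m n} (hg : RowGen ω) :
    Geo.GP (Geo.chA (aOf ω) (bOf ω) (Nf ω)) (Geo.chB m) {none} := by
  refine gp_chart hnm ?_ ?_
  · intro J hJ
    obtain ⟨J', hJJ', -, hJ'c⟩ := Finset.exists_subsuperset_card_eq (Finset.subset_univ J)
      (n := n + 1) hJ (by
        rw [Finset.card_univ, Fintype.card_option, Fintype.card_fin]
        omega)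
    have h := hg.li (fun k => ((J'.equivFinOfCardEq hJ'c).symm k : Row m)) (fun k k' hk =>
      (J'.equivFinOfCardEq hJ'c).symm.injective (Subtype.ext hk))
    let f : J → Fin (n + 1) := fun j => J'.equivFinOfCardEq hJ'c ⟨j.1, hJJ' j.2⟩
    have hf : Function.Injective f := fun j j' hj => by
      have h1 := (J'.equivFinOfCardEq hJ'c).injective hj
      have h5 : (j : Row m) = j' := congrArg (fun z : J' => (z : Row m)) h1
      exact Subtype.ext h5
    have h2 := (h.comp f hf).neg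
    have h3 : (fun j : J => SHirsch.Gr (aOf ω) (bOf ω) j) =
        -((fun k => rho ω ((J'.equivFinOfCardEq hJ'c).symm k : Row m)) ∘ f) := by
      funext j
      rw [gr_eq]
      show -rho ω j.1 = -rho ω ((J'.equivFinOfCardEq hJ'c).symm (J'.equivFinOfCardEq hJ'c
        ⟨j.1, hJJ' j.2⟩) : Row m)
      rw [Equiv.symm_apply_apply]
    rw [h3]
    exact h2
  · intro J _ hJ hmem
    have hJc : J.card = n := by omega
    let e : Fin n → Row m := fun k => ((J.equivFinOfCardEq hJc).symm k : Row m)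
    have he : Function.Injective e := fun k k' hk =>
      (J.equivFinOfCardEq hJc).symm.injective (Subtype.ext hk)
    have hd := hg.det e he
    have h0 : dv (Nf ω) (rho ω) e = dv (Nf ω) (rho ω) e := rfl
    have hz : ∀ z ∈ Submodule.span ℝ (SHirsch.Gr (aOf ω) (bOf ω) '' (J : Set (Option (Fin m)))),
        z ⬝ᵥ pt (Nf ω) (rho ω) e = 0 := by
      intro z hz
      induction hz using Submodule.span_induction with
      | mem z hz =>
        obtain ⟨j, hj, rfl⟩ := hz
        rw [gr_eq, neg_dotProduct]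
        have h1 : e (J.equivFinOfCardEq hJc ⟨j, Finset.mem_coe.1 hj⟩) = j := by
          show ((J.equivFinOfCardEq hJc).symm (J.equivFinOfCardEq hJc _) : Row m) = j
          rw [Equiv.symm_apply_apply]
        rw [← h1, row_pt hd, neg_zero]
      | zero => exact zero_dotProduct _
      | add z w _ _ hz hw => rw [add_dotProduct, hz, hw, add_zero]
      | smul r z _ hz => rw [smul_dotProduct, hz, smul_zero]
    have h1 := hz _ hmem
    rw [N_pt hd] at h1
    exact one_ne_zero h1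

/-- The chart rows in the form of `Geo.cA`. -/
theorem chA_eq_cA (ω : Om m n) : Geo.chA (aOf ω) (bOf ω) (Nf ω) = Geo.cA (rho ω) (Nf ω) := by
  rw [Geo.chA_eq]
  congr 1
  funext o
  rw [gr_eq, neg_neg]

theorem gp_cA (hnm : n ≤ m) {ω : Om m n} (hg : RowGen ω) :
    Geo.GP (Geo.cA (rho ω) (Nf ω)) (Geo.cB (Row m)) {none} := by
  rw [← chA_eq_cA, ← Geo.chB_eq]
  exact gp_of_rowGen hnm hg

/-- The chart is bounded. -/
theorem bdd_fe (hnm : n ≤ m) {ω : Om m n} (hg : RowGen ω) (heta : ∀ r, 0 < ω (.eta r)) :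
    Bornology.IsBounded {x | Leg.Fe (rho ω) (Nf ω) ∅ x} := by
  have h1 : Bornology.IsBounded (Geo.Chart (aOf ω) (bOf ω) (Nf ω)) := by
    have h2 := gp_of_rowGen hnm hg
    rw [nf_eq] at h2 ⊢
    exact Geo.chart_bounded hnm heta h2
  have h3 := Geo.bounded_fe h1
  have h4 : (fun o => -SHirsch.Gr (aOf ω) (bOf ω) o) = rho ω := by
    funext o
    rw [gr_eq, neg_neg]
  rw [h4] at h3
  exact h3

/-- A generic functional has a strict optimal basis. -/
theorem exists_opt_of_mul (hnm : n ≤ m) {ω : Om m n} (hg : RowGen ω)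
    (heta : ∀ r, 0 < ω (.eta r)) {R : Finset (Row m)} {Γ : Fin (n + 1) → ℝ}
    (hm : MulNZ ω Γ R) (hne : ∃ p, Leg.Fe (rho ω) (Nf ω) R p) :
    ∃ e, Opt (Nf ω) (rho ω) Γ R ∅ e := by
  have hG := Geo.leg_geo (gp_cA hnm hg) (bdd_fe hnm hg heta) hne 0
  obtain ⟨x, hx, hmn⟩ := hG.ex Γ
  obtain ⟨l, hl⟩ := hG.mul Γ x hx hmn
  have hN : Nf ω ⬝ᵥ x = 1 := hmn.1.2.2
  have hc : (Leg.tgt (rho ω) x).card = n := by
    have h1 := hx.2
    rw [Geo.card_tt_tgt _ hN] at h1
    omega
  let e : Fin n → Row m := fun k => (((Leg.tgt (rho ω) x).equivFinOfCardEq hc).symm k : Row m)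
  have he : Function.Injective e := fun k k' hk =>
    ((Leg.tgt (rho ω) x).equivFinOfCardEq hc).symm.injective (Subtype.ext hk)
  have het : ∀ k, e k ∈ Leg.tgt (rho ω) x := fun k =>
    (((Leg.tgt (rho ω) x).equivFinOfCardEq hc).symm k).2
  have hsurj : ∀ r ∈ Leg.tgt (rho ω) x, ∃ k, e k = r := by
    intro r hr
    refine ⟨(Leg.tgt (rho ω) x).equivFinOfCardEq hc ⟨r, hr⟩, ?_⟩
    show (((Leg.tgt (rho ω) x).equivFinOfCardEq hc).symm _ : Row m) = r
    rw [Equiv.symm_apply_apply]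
  have hd := hg.det e he
  have hpt : x = pt (Nf ω) (rho ω) e := pt_unique hd hN fun k => Leg.mem_tgt.1 (het k)
  have hsub : ∀ r ∈ R, ∃ k, e k = r := fun r hr =>
    hsurj r (Leg.mem_tgt.2 (hmn.1.2.1 r hr))
  have hlam : ∀ k, lam (Nf ω) (rho ω) Γ e k = l (e k) := by
    intro k
    obtain ⟨h1, _, γ, h3⟩ := hl
    unfold lam
    rw [h3, add_dotProduct, smul_dotProduct, N_dv hd, smul_zero, zero_add, sum_dotProduct,
      Finset.sum_eq_single (e k)]
    · rw [smul_dotProduct, row_dv_self hd, smul_eq_mul, mul_one]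
    · intro r _ hr
      by_cases hrt : r ∈ Leg.tgt (rho ω) x
      · obtain ⟨l', rfl⟩ := hsurj r hrt
        rw [smul_dotProduct, row_dv_ne hd (fun h' => hr (by rw [h'])), smul_zero]
      · rw [h1 r hrt, zero_smul, zero_dotProduct]
    · intro hcon
      exact absurd (Finset.mem_univ _) hcon
  refine ⟨e, hd, hsub, fun k => Finset.notMem_empty _, ?_, ?_⟩
  · intro r _ hr
    rw [← hpt]
    refine lt_of_le_of_ne (hmn.1.1 r) fun h => ?_
    obtain ⟨k, hk⟩ := hsurj r (Leg.mem_tgt.2 h.symm)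
    exact hr k hk
  · intro k hk
    refine lt_of_le_of_ne ?_ (hm e he hsub k hk).symm
    rw [hlam]
    exact hl.2.1 _ hk

theorem up_mono {R R' : Finset (Fin m)} (h : R ⊆ R') : up R ⊆ up R' :=
  Finset.map_subset_map.2 h

/-- **All objectives of the machine have strict optimal bases.** -/
theorem GenP.hgen (hnm : n ≤ m) {P : Par} {Th : ℝ} {ω : Om m n} (hg : GenP P Th ω)
    (heta : ∀ r, 0 < ω (.eta r)) {C : Cf m} (hI : ∀ s, (C.I s).card = n)
    {u : Fin (n + 1) → ℝ} {s₀ : Bool} (hu : Leg.Fe (rho ω) (Nf ω) (up (C.I s₀)) u)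
    (S : St m n) (s : Bool) (i : Fin m) (pos : Pos P) (hS : Ok P C S) :
    ∃ e, Opt (Nf ω) (rho ω) (fnl ω (cfP P C S s i pos ω)) (up S.R) ∅ e := by
  have hRI : S.R ⊆ C.I s₀ := by
    intro j hj
    have h1 := hS.bu j (hS.Rbu hj)
    cases s₀
    · exact h1.1
    · exact h1.2.1
  have hne : ∃ p, Leg.Fe (rho ω) (Nf ω) (up S.R) p :=
    ⟨u, hu.1, fun r hr => hu.2.1 r (up_mono hRI hr), hu.2.2⟩
  cases pos with
  | leg k => exact exists_opt_of_mul hnm hg.row heta (hg.leg C S hS s (hI s) i k) hne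
  | exit k e =>
    exact exists_opt_of_mul hnm hg.row heta ((hg.exit C S hS s i k e).mono
      (Finset.empty_subset _)) hne

/-- The end functional of the exit line. -/
theorem GenP.hend (hnm : n ≤ m) {P : Par} {Th : ℝ} {ω : Om m n} (hg : GenP P Th ω)
    (heta : ∀ r, 0 < ω (.eta r)) {R : Finset (Row m)} (hne : ∃ p, Leg.Fe (rho ω) (Nf ω) R p)
    (i : Fin m) : ∃ e, Opt (Nf ω) (rho ω) (fnl ω (cfJ P i ω)) R ∅ e :=
  exists_opt_of_mul hnm hg.row heta ((hg.fin i).mono (Finset.empty_subset _)) hne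

/-- The hub. -/
theorem GenP.hhub (hnm : n ≤ m) {P : Par} {Th : ℝ} {ω : Om m n} (hg : GenP P Th ω)
    (heta : ∀ r, 0 < ω (.eta r)) (hne : ∃ p, Leg.Fe (rho ω) (Nf ω) ∅ p) :
    ∃ e, Opt (Nf ω) (rho ω) (fnl ω (cfHub Th ω)) ∅ ∅ e :=
  exists_opt_of_mul hnm hg.row heta hg.hub hne

/-- Genericity under the law. -/
theorem ae_genP_law (hnm : n ≤ m) (Abar : Fin m → Fin n → ℝ) (bbar : Fin m → ℝ) {σ : ℝ}
    (hσ : σ ≠ 0) (cc : Co m n → ℝ) (vv : Co m n → ℝ≥0) (hvv : ∀ k, vv k ≠ 0) (P : Par)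
    (hph : P.ph ≠ 0) (Th : ℝ) :
    ∀ᵐ ω ∂(law Abar bbar σ cc vv), GenP P Th (ω : Om m n) := by
  refine ae_genP hnm (ctr Abar bbar cc) (vr σ vv) ?_ P hph Th
  intro k
  cases k with
  | row r j =>
    show (σ ^ 2).toNNReal ≠ 0
    have h1 : 0 < σ ^ 2 := by positivity
    exact (Real.toNNReal_pos.2 h1).ne'
  | eta r => exact hvv _
  | nu s j => exact hvv _
  | om s r l => exact hvv _
  | gi i r => exact hvv _
  | hub r => exact hvv _

end Pool.Agent.Lib.S3.PL
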