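import Pool.Agent.Lib.S3.PL.OptInv
import Pool.Agent.Lib.S3.Leg.Leg

/-!
# Strict optimal bases and the predicates of the leg lemma

`Leg.Mn`, `Leg.Mult`, `Leg.tgt` at a strict optimal basis.
-/

set_option autoImplicit false
set_option linter.unusedSectionVars false

open Matrix

namespace Pool.Agent.Lib.S3.PL

variable {κ : Type} [Fintype κ] [DecidableEq κ] {n : ℕ} {N : Fin (n + 1) → ℝ}
  {ρ : κ → Fin (n + 1) → ℝ} {Γ : Fin (n + 1) → ℝ} {R D : Finset κ} {e : Fin n → κ}

theorem Opt.fe (h : Opt N ρ Γ R ∅ e) : Leg.Fe ρ N R (pt N ρ e) :=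
  ⟨fun r => h.nonneg (Finset.notMem_empty r), fun _ hr => h.feasR hr, N_pt h.det⟩

theorem Opt.mn (h : Opt N ρ Γ R ∅ e) : Leg.Mn ρ N R Γ (pt N ρ e) :=
  ⟨h.fe, fun _ hy => h.le_of_feas hy.2.2 hy.2.1 (fun r _ => hy.1 r)⟩

theorem Opt.eq_of_mn (h : Opt N ρ Γ R ∅ e) {x : Fin (n + 1) → ℝ} (hx : Leg.Mn ρ N R Γ x) :
    x = pt N ρ e :=
  h.eq_of_feas hx.1.2.2 hx.1.2.1 (fun r _ => hx.1.1 r) (hx.2 _ h.fe)

theorem Opt.mem_tgt (h : Opt N ρ Γ R ∅ e) {r : κ} :
    r ∈ Leg.tgt ρ (pt N ρ e) ↔ ∃ k, e k = r := by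
  rw [Leg.mem_tgt]
  constructor
  · intro h0
    by_contra hcon
    push Not at hcon
    exact (h.pos r (Finset.notMem_empty r) hcon).ne' h0
  · rintro ⟨k, rfl⟩
    exact row_pt h.det k

/-- Multipliers at a strict optimal basis. -/
theorem Opt.lam_of_mult (h : Opt N ρ Γ R ∅ e) {l : κ → ℝ}
    (hl : Leg.Mult ρ N R Γ (pt N ρ e) l) (k : Fin n) : l (e k) = lam N ρ Γ e k := by
  obtain ⟨h1, _, γ, h3⟩ := hl
  have h4 : Γ ⬝ᵥ dv N ρ e k = l (e k) := by
    conv_lhs => rw [h3]
    rw [add_dotProduct, smul_dotProduct, N_dv h.det, smul_zero, zero_add, sum_dotProduct,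
      Finset.sum_eq_single (e k)]
    · rw [smul_dotProduct, row_dv_self h.det, smul_eq_mul, mul_one]
    · intro r _ hr
      by_cases hrt : r ∈ Leg.tgt ρ (pt N ρ e)
      · obtain ⟨l', rfl⟩ := h.mem_tgt.1 hrt
        rw [smul_dotProduct, row_dv_ne h.det (fun h' => hr (by rw [h'])), smul_zero]
      · rw [h1 r hrt, zero_smul, zero_dotProduct]
    · intro hcon
      exact absurd (Finset.mem_univ _) hcon
  exact h4.symm

/-- The rows of `D` can be dropped if they are positive at the point. -/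
theorem Opt.del (h : Opt N ρ Γ R ∅ e) (hD : ∀ r ∈ D, 0 < ρ r ⬝ᵥ pt N ρ e) :
    Opt N ρ Γ R D e where
  det := h.det
  sub := h.sub
  avoid := by
    intro k hk
    have h1 := hD _ hk
    rw [row_pt h.det] at h1
    exact lt_irrefl _ h1
  pos := fun r _ hk => h.pos r (Finset.notMem_empty r) hk
  mul := h.mul

/-- Boosting a tight row. -/
theorem Opt.boost (h : Opt N ρ Γ R D e) {r : κ} (hr : ∃ k, e k = r) {w : ℝ} (hw : 0 ≤ w) :
    Opt N ρ (Γ + w • ρ r) R D e where
  det := h.det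
  sub := h.sub
  avoid := h.avoid
  pos := h.pos
  mul := by
    intro k hk
    obtain ⟨k', rfl⟩ := hr
    have h1 := h.mul k hk
    unfold lam at h1 ⊢
    rw [add_dotProduct, smul_dotProduct]
    by_cases hkk : k' = k
    · subst hkk
      rw [row_dv_self h.det, smul_eq_mul, mul_one]
      linarith
    · rw [row_dv_ne h.det hkk, smul_zero, add_zero]
      exact h1

/-- Boosting tight rows. -/
theorem Opt.boosts (h : Opt N ρ Γ R D e) (W : List κ) {w : κ → ℝ} (hW : ∀ r ∈ W, ∃ k, e k = r)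
    (hw : ∀ r ∈ W, 0 ≤ w r) : Opt N ρ (Γ + (W.map (fun r => w r • ρ r)).sum) R D e := by
  induction W with
  | nil => simpa using h
  | cons r W ih =>
    have h1 := ih (fun s hs => hW s (List.mem_cons_of_mem _ hs))
      (fun s hs => hw s (List.mem_cons_of_mem _ hs))
    have h2 := h1.boost (hW r List.mem_cons_self) (hw r List.mem_cons_self)
    have h3 : Γ + (List.map (fun r => w r • ρ r) W).sum + w r • ρ r =
        Γ + (List.map (fun r => w r • ρ r) (r :: W)).sum := by
      rw [List.map_cons, List.sum_cons]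
      abel
    rwa [h3] at h2

/-- Pinning a tight row, and changing the objective by multiples of pinned rows. -/
theorem Opt.pin_insert (h : Opt N ρ Γ R ∅ e) {i : κ} (hi : ∃ k, e k = i) :
    Opt N ρ Γ (insert i R) ∅ e where
  det := h.det
  sub := by
    intro r hr
    rcases Finset.mem_insert.1 hr with rfl | hr
    · exact hi
    · exact h.sub r hr
  avoid := h.avoid
  pos := h.pos
  mul := fun k hk => h.mul k (fun h' => hk (Finset.mem_insert_of_mem h'))

end Pool.Agent.Lib.S3.PL
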