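import Pool.Agent.Lib.S3.PL.Generic
import Pool.Agent.Lib.S3.PL.LegGeo
import Pool.Agent.Lib.S3.Geo.LegAdapter
import Pool.Agent.Lib.S3.PL.LegOpt
import Pool.Agent.Lib.S3.PL.Law
import Pool.Agent.Lib.S3.PL.Hub

/-!
# Almost sure genericity in the pair machine (smoothed Hirsch, MP_4a5c02_co)

* `RowGen.gp`: the chart is in general position (`Geo.GP`), for `n ≤ m`;
* `ObjGen ω R Γ`: no multiplier of `Γ` off `R` at a basis containing `R` vanishes;
* `opt_of_vertex`: an optimal vertex of a generic objective is given by a strict optimal basis;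
* `Rch P C`: the states reached from the start state by arbitrary moves;
* `GenPL P Th ω`: rows generic, all objectives of the machine in all these states generic, the hub
  functional generic; `ae_genPL`: almost surely.
-/

set_option autoImplicit false

open MeasureTheory ProbabilityTheory Matrix
open scoped ENNReal NNReal

namespace Pool.Agent.Lib.S3.PL

variable {m n : ℕ}

/-! ### Geometry -/

/-- Independent families of rows. -/
theorem RowGen.li_finset {ω : Om m n} (hR : RowGen ω) (hnm : n ≤ m) {J : Finset (Row m)}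
    (hJ : J.card ≤ n + 1) : LinearIndependent ℝ (fun r : J => rho ω r) := by
  classical
  obtain ⟨J', hJJ', -, hJ'⟩ := Finset.exists_subsuperset_card_eq (Finset.subset_univ J)
    (n := n + 1) hJ (by rw [Finset.card_univ, Fintype.card_option, Fintype.card_fin]; omega)
  have E : Fin (n + 1) ≃ J' := (Fintype.equivFinOfCardEq (by rw [Fintype.card_coe, hJ'])).symm
  have h1 := hR.li (fun k => (E k : Row m)) (Subtype.val_injective.comp E.injective)
  have h2 := h1.comp (fun r : J => E.symm ⟨r.1, hJJ' r.2⟩) (by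
    intro r r' h
    have h3 := E.symm.injective h
    have h5 : (r : Row m) = r' := congrArg (fun z : J' => (z : Row m)) h3
    exact Subtype.ext h5)
  have h4 : ((fun k => rho ω (E k : Row m)) ∘ fun r : J => E.symm ⟨r.1, hJJ' r.2⟩) =
      fun r : J => rho ω r := by
    funext r
    simp
  rw [h4] at h2
  exact h2

/-- The chart functional is generic. -/
theorem RowGen.genObj_Nf {ω : Om m n} (hR : RowGen ω) : GenObj (rho ω) ∅ (Nf ω) := by
  classical
  intro J _ hJ hmem
  have hJ' : J.card = n := by omega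
  have E : Fin n ≃ J := (Fintype.equivFinOfCardEq (by rw [Fintype.card_coe, hJ'])).symm
  have h1 := hR.det (fun k => (E k : Row m)) (Subtype.val_injective.comp E.injective)
  have h2 : IsUnit (amat (Nf ω) (rho ω) fun k => (E k : Row m)) := by
    rw [Matrix.isUnit_iff_isUnit_det]
    exact isUnit_iff_ne_zero.2 h1
  rw [← Matrix.linearIndependent_rows_iff_isUnit] at h2
  have h3 : LinearIndependent ℝ (Fin.cons (Nf ω) (fun k => rho ω (E k : Row m)) :
    Fin (n + 1) → Fin (n + 1) → ℝ) := h2
  rw [linearIndependent_finCons] at h3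
  apply h3.2
  refine Submodule.span_mono ?_ hmem
  rintro _ ⟨r, hr, rfl⟩
  exact ⟨E.symm ⟨r, Finset.mem_coe.1 hr⟩, by simp⟩

/-- **General position of the chart.** -/
theorem RowGen.gp {ω : Om m n} (hR : RowGen ω) (hnm : n ≤ m) :
    Geo.GP (cA ω) (Geo.chB m) {none} := by
  unfold cA
  refine gp_chart hnm (fun J hJ => ?_) ?_
  · have h1 := (hR.li_finset hnm hJ).units_smul (fun _ => (-1 : ℝˣ))
    have h2 : ((fun _ : J => (-1 : ℝˣ)) • fun r : J => rho ω r) =
        fun r : J => SHirsch.Gr (aOf ω) (bOf ω) r := by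
      funext r
      rw [gr_eq]
      simp
    rwa [h2] at h1
  · intro J hJ0 hJ hmem
    refine hR.genObj_Nf J hJ0 hJ ?_
    have h3 : ∀ z ∈ Submodule.span ℝ (SHirsch.Gr (aOf ω) (bOf ω) '' (J : Set (Row m))),
        z ∈ Submodule.span ℝ (rho ω '' (J : Set (Row m))) := by
      intro z hz
      induction hz using Submodule.span_induction with
      | mem z hz =>
        obtain ⟨r, hr, rfl⟩ := hz
        rw [gr_eq]
        exact Submodule.neg_mem _ (Submodule.subset_span ⟨r, hr, rfl⟩)
      | zero => exact Submodule.zero_mem _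
      | add z w _ _ hz hw => exact Submodule.add_mem _ hz hw
      | smul c z _ hz => exact Submodule.smul_mem _ c hz
    exact h3 _ hmem

/-- The tuple of a set of `n` rows. -/
theorem exists_tuple {J : Finset (Row m)} (hJ : J.card = n) :
    ∃ e : Fin n → Row m, Function.Injective e ∧ ∀ r, (∃ k, e k = r) ↔ r ∈ J := by
  classical
  have E : Fin n ≃ J := (Fintype.equivFinOfCardEq (by rw [Fintype.card_coe, hJ])).symm
  refine ⟨fun k => (E k : Row m), Subtype.val_injective.comp E.injective, fun r => ?_⟩
  constructor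
  · rintro ⟨k, rfl⟩
    exact (E k).2
  · intro hr
    exact ⟨E.symm ⟨r, hr⟩, by simp⟩

/-- At most `n` rows are tight at a point of the chart. -/
theorem RowGen.card_tgt_le {ω : Om m n} (hR : RowGen ω) (hnm : n ≤ m) {x : Fin (n + 1) → ℝ}
    (hN : Nf ω ⬝ᵥ x = 1) : (Leg.tgt (rho ω) x).card ≤ n := by
  classical
  by_contra hcon
  push Not at hcon
  obtain ⟨J, hJs, hJc⟩ := Finset.exists_subset_card_eq (show n + 1 ≤ _ from hcon)
  have h1 := hR.li_finset hnm hJc.le
  have hcard : Fintype.card J = Module.finrank ℝ (Fin (n + 1) → ℝ) := by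
    rw [Fintype.card_coe, hJc, Module.finrank_fintype_fun_eq_card, Fintype.card_fin]
  have h2 := h1.span_eq_top_of_card_eq_finrank' hcard
  have h3 : ∀ z ∈ Submodule.span ℝ (Set.range fun j : J => rho ω j), z ⬝ᵥ x = 0 := by
    intro z hz
    induction hz using Submodule.span_induction with
    | mem z hz =>
      obtain ⟨j, rfl⟩ := hz
      exact Leg.mem_tgt.1 (hJs j.2)
    | zero => exact zero_dotProduct _
    | add z w _ _ hz hw => rw [add_dotProduct, hz, hw, add_zero]
    | smul r z _ hz => rw [smul_dotProduct, hz, smul_zero]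
  have h4 := h3 x (by rw [h2]; exact Submodule.mem_top)
  rw [dotProduct_self_eq_zero.1 h4, dotProduct_zero] at hN
  exact zero_ne_one hN

/-- A vector annihilated by the chart functional and by `n` rows is zero. -/
theorem RowGen.eq_zero {ω : Om m n} (hR : RowGen ω) {J : Finset (Row m)} (hJ : n ≤ J.card)
    {z : Fin (n + 1) → ℝ} (hN : Nf ω ⬝ᵥ z = 0) (hz : ∀ r ∈ J, rho ω r ⬝ᵥ z = 0) : z = 0 := by
  obtain ⟨J', hJ'J, hJ'⟩ := Finset.exists_subset_card_eq hJ
  obtain ⟨e, he, hr⟩ := exists_tuple hJ'
  refine ext_of_dot (hR.det e he) (by rw [hN, dotProduct_zero]) fun k => ?_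
  rw [dotProduct_zero]
  exact hz _ (hJ'J ((hr _).1 ⟨k, rfl⟩))

/-! ### Generic objectives -/

/-- No multiplier of `Γ` off `R` at a basis containing `R` vanishes. -/
def ObjGen (ω : Om m n) (R : Finset (Row m)) (Γ : Fin (n + 1) → ℝ) : Prop :=
  ∀ e : Fin n → Row m, (amat (Nf ω) (rho ω) e).det ≠ 0 → (∀ r ∈ R, ∃ k, e k = r) →
    ∀ k, e k ∉ R → lam (Nf ω) (rho ω) Γ e k ≠ 0

/-- The tight rows of a vertex of the chart. -/
theorem card_tgt_vx {ω : Om m n} {x : Fin (n + 1) → ℝ} (hv : VxC ω x) :
    (Leg.tgt (rho ω) x).card = n := by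
  have hN : Nf ω ⬝ᵥ x = 1 := hv.1.1 none (Finset.mem_singleton_self _)
  have h1 := hv.2
  have h2 : cA ω = Geo.cA (rho ω) (Nf ω) := by
    unfold cA
    rw [Geo.chA_eq]
    congr 1
    funext r
    rw [gr_eq, neg_neg]
  rw [h2, Geo.chB_eq, Geo.chS_eq, Geo.card_tt_tgt (rho ω) hN] at h1
  omega

/-- **An optimal vertex of a generic objective is given by a strict optimal basis.** -/
theorem opt_of_vertex {ω : Om m n} (hR : RowGen ω) {R : Finset (Row m)} {Γ : Fin (n + 1) → ℝ}
    (hg : ObjGen ω R Γ) {x : Fin (n + 1) → ℝ} (hv : VxC ω x)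
    (hm : Leg.Mn (rho ω) (Nf ω) R Γ x) :
    ∃ e : Fin n → Row m, Opt (Nf ω) (rho ω) Γ R ∅ e ∧ pt (Nf ω) (rho ω) e = x := by
  classical
  obtain ⟨e, he, hr⟩ := exists_tuple (card_tgt_vx hv)
  have hdet := hR.det e he
  have hx : x = pt (Nf ω) (rho ω) e :=
    pt_unique hdet hm.1.2.2 fun k => Leg.mem_tgt.1 ((hr _).1 ⟨k, rfl⟩)
  have hsub : ∀ r ∈ R, ∃ k, e k = r := fun r hrR => (hr r).2 (Leg.mem_tgt.2 (hm.1.2.1 r hrR))
  have hpos : ∀ r, (∀ k, e k ≠ r) → 0 < rho ω r ⬝ᵥ pt (Nf ω) (rho ω) e := by
    intro r hk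
    rw [← hx]
    refine lt_of_le_of_ne (hm.1.1 r) fun h0 => ?_
    obtain ⟨k, hk'⟩ := (hr r).2 (Leg.mem_tgt.2 h0.symm)
    exact hk k hk'
  refine ⟨e, ⟨hdet, hsub, fun k => Finset.notMem_empty _, fun r _ hk => hpos r hk,
    fun k hk => ?_⟩, hx.symm⟩
  refine lt_of_le_of_ne ?_ (hg e hdet hsub k hk).symm
  -- moving a little in the direction `dv`
  obtain ⟨t, ht0, -, ht⟩ := Geo.exists_small (Finset.univ.filter fun r : Row m => ∀ k, e k ≠ r)
    (fun r => rho ω r ⬝ᵥ x) (fun r => -(rho ω r ⬝ᵥ dv (Nf ω) (rho ω) e k)) (by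
      intro r hr'
      rw [hx]
      exact hpos r (Finset.mem_filter.1 hr').2)
  have hfe : Leg.Fe (rho ω) (Nf ω) R (x + t • dv (Nf ω) (rho ω) e k) := by
    refine ⟨fun r => ?_, fun r hrR => ?_, ?_⟩
    · rw [dotProduct_add, dotProduct_smul, smul_eq_mul]
      by_cases hrk : ∃ l, e l = r
      · obtain ⟨l, rfl⟩ := hrk
        rw [hx, row_pt hdet, zero_add]
        by_cases hlk : l = k
        · subst hlk
          rw [row_dv_self hdet, mul_one]
          exact ht0.le
        · rw [row_dv_ne hdet hlk, mul_zero]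
      · push Not at hrk
        have := ht r (Finset.mem_filter.2 ⟨Finset.mem_univ _, hrk⟩) t ht0.le le_rfl
        linarith
    · obtain ⟨l, rfl⟩ := hsub r hrR
      have hlk : l ≠ k := fun h => hk (h ▸ hrR)
      rw [dotProduct_add, dotProduct_smul, hx, row_pt hdet, row_dv_ne hdet hlk, smul_zero,
        add_zero]
    · rw [dotProduct_add, dotProduct_smul, hm.1.2.2, N_dv hdet, smul_zero, add_zero]
  have h1 := hm.2 _ hfe
  rw [dotProduct_add, dotProduct_smul, smul_eq_mul] at h1
  have h2 : 0 ≤ t * (Γ ⬝ᵥ dv (Nf ω) (rho ω) e k) := by linarith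
  exact nonneg_of_mul_nonneg_right h2 ht0

/-- All optimal points of a generic objective coincide with an optimal vertex. -/
theorem eq_of_mn_vertex {ω : Om m n} (hR : RowGen ω) {R : Finset (Row m)}
    {Γ : Fin (n + 1) → ℝ} (hg : ObjGen ω R Γ) {x y : Fin (n + 1) → ℝ} (hv : VxC ω x)
    (hx : Leg.Mn (rho ω) (Nf ω) R Γ x) (hy : Leg.Mn (rho ω) (Nf ω) R Γ y) : y = x := by
  obtain ⟨e, he, rfl⟩ := opt_of_vertex hR hg hv hx
  exact he.eq_of_mn hy

/-! ### Almost sure statements -/

/-- `k` is not a coordinate of the rows or of the chart functional. -/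
def Coin (k : Co m n) : Prop := (∀ r j, k ≠ .row r j) ∧ ∀ r, k ≠ .eta r

private theorem rho_update {k : Co m n} (hk : Coin k) (ω : Om m n) (x : ℝ) :
    rho (Function.update ω k x) = rho ω := by
  funext r
  match r with
  | none => rfl
  | some r =>
    funext j
    show Function.update ω k x (.row r j) = ω (.row r j)
    exact Function.update_of_ne (hk.1 r j).symm _ _

private theorem Nf_update {k : Co m n} (hk : Coin k) (ω : Om m n) (x : ℝ) :
    Nf (Function.update ω k x) = Nf ω := by
  unfold Nf
  rw [rho_update hk]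
  refine Finset.sum_congr rfl fun r _ => ?_
  rw [Function.update_of_ne (hk.2 r).symm]

private theorem meas_rho (r : Row m) (j : Fin (n + 1)) : Measurable fun ω : Om m n => rho ω r j := by
  match r with
  | none => exact measurable_const
  | some r => exact measurable_pi_apply _

private theorem meas_fnl {c : Om m n → Row m → ℝ} (hc : ∀ r, Measurable fun ω => c ω r)
    (j : Fin (n + 1)) : Measurable fun ω : Om m n => fnl ω (c ω) j := by
  unfold fnl
  simp only [Finset.sum_apply, Pi.smul_apply, smul_eq_mul]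
  exact Finset.measurable_sum _ fun k _ => (hc k).mul (meas_rho k j)

private theorem meas_Nf (j : Fin (n + 1)) : Measurable fun ω : Om m n => Nf ω j := by
  unfold Nf
  simp only [Finset.sum_apply, Pi.smul_apply, smul_eq_mul]
  exact Finset.measurable_sum _ fun k _ => (measurable_pi_apply _).mul (meas_rho k j)

/-- **Criterion**: an objective whose coefficients contain separate coins on enough rows is generic
almost surely. -/
theorem ae_objGen (hnm : n ≤ m) (c : Co m n → ℝ) (v : Co m n → ℝ≥0) (hv : ∀ i, v i ≠ 0)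
    (cf : Om m n → Row m → ℝ) (hcf : ∀ r, Measurable fun ω => cf ω r)
    (F : Finset (Row m)) (coin : Row m → Co m n) (a : ℝ) (ha : a ≠ 0)
    (hcoin : ∀ r ∈ F, Coin (coin r))
    (hupd : ∀ r ∈ F, ∀ (ω : Om m n) (x : ℝ) (r' : Row m),
      cf (Function.update ω (coin r) x) r' =
        cf (Function.update ω (coin r) 0) r' + if r' = r then a * x else 0)
    (R : Finset (Row m)) (hFR : n ≤ (F ∪ R).card) :
    ∀ᵐ ω ∂(Measure.pi fun i => gaussianReal (c i) (v i)), ObjGen ω R (fnl ω (cf ω)) := by
  classical
  have h1 : ∀ᵐ ω ∂(Measure.pi fun i => gaussianReal (c i) (v i)),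
      ∀ (e : Fin n → Row m) (k : Fin n) (r : F),
        a * (rho ω r.1 ⬝ᵥ dv (Nf ω) (rho ω) e k) ≠ 0 →
          lam (Nf ω) (rho ω) (fnl ω (cf ω)) e k ≠ 0 := by
    rw [ae_all_iff]
    intro e
    rw [ae_all_iff]
    intro k
    rw [ae_all_iff]
    rintro ⟨r, hr⟩
    have hc := hcoin r hr
    refine ae_ne_of_coord c v hv (coin r)
      (fun ω => lam (Nf ω) (rho ω) (fnl ω (cf ω)) e k)
      (fun ω => a * (rho ω r ⬝ᵥ dv (Nf ω) (rho ω) e k)) ?_ ?_ ?_ ?_
    · exact meas_lam meas_Nf meas_rho (meas_fnl hcf) e k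
    · exact (meas_dot (meas_rho r) (meas_dv meas_Nf meas_rho e k)).const_mul a
    · intro ω x
      unfold lam fnl
      rw [rho_update hc, Nf_update hc, rho_update hc, Nf_update hc, sum_dotProduct,
        sum_dotProduct]
      simp only [smul_dotProduct, smul_eq_mul]
      have h2 : ∀ r' : Row m, cf (Function.update ω (coin r) x) r' *
          (rho ω r' ⬝ᵥ dv (Nf ω) (rho ω) e k) =
          cf (Function.update ω (coin r) 0) r' * (rho ω r' ⬝ᵥ dv (Nf ω) (rho ω) e k) +
          if r' = r then x * (a * (rho ω r ⬝ᵥ dv (Nf ω) (rho ω) e k)) else 0 := by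
        intro r'
        rw [hupd r hr ω x r']
        by_cases h : r' = r
        · subst h
          rw [if_pos rfl, if_pos rfl]
          ring
        · rw [if_neg h, if_neg h]
          ring
      rw [Finset.sum_congr rfl fun r' _ => h2 r', Finset.sum_add_distrib,
        Finset.sum_ite_eq' Finset.univ r, if_pos (Finset.mem_univ r)]
    · intro ω x
      show a * (rho (Function.update ω (coin r) x) r ⬝ᵥ dv (Nf (Function.update ω (coin r) x))
        (rho (Function.update ω (coin r) x)) e k) = _
      rw [rho_update hc, Nf_update hc]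
  filter_upwards [h1, ae_rowGen hnm c v hv] with ω hω hR
  intro e hdet hsub k hk
  obtain ⟨r, hr, hne⟩ : ∃ r ∈ F, rho ω r ⬝ᵥ dv (Nf ω) (rho ω) e k ≠ 0 := by
    by_contra hcon
    push Not at hcon
    have h0 := hR.eq_zero hFR (N_dv hdet k) (z := dv (Nf ω) (rho ω) e k) (by
      intro r hr
      rcases Finset.mem_union.1 hr with hr | hr
      · exact hcon r hr
      · obtain ⟨l, rfl⟩ := hsub r hr
        exact row_dv_ne hdet fun h => hk (h ▸ hr))
    have h2 := row_dv_self hdet k
    rw [h0, dotProduct_zero] at h2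
    exact zero_ne_one h2
  exact hω e k ⟨r, hr⟩ (mul_ne_zero ha hne)

private theorem meas_cfG (C : Cf m) (S : St m n) (s : Bool) (r : Row m) :
    Measurable fun ω : Om m n => cfG C S s ω r := by
  unfold cfG
  refine Measurable.add ?_ ?_
  · match r with
    | none => exact measurable_const
    | some j =>
      by_cases h : j ∈ C.I s ∧ j ∉ S.R
      · simp only [if_pos h]
        exact measurable_const.add (measurable_pi_apply _)
      · simp only [if_neg h]
        exact measurable_const
  · refine Finset.measurable_sum _ fun l _ => ?_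
    by_cases h : (r, l) ∈ S.B s
    · simp only [if_pos h]
      exact measurable_pi_apply _
    · simp only [if_neg h]
      exact measurable_const

private theorem meas_cfL (P : Par) (C : Cf m) (S : St m n) (s : Bool) (i : Fin m) (k : ℕ) (r : Row m) :
    Measurable fun ω : Om m n => cfL P C S s i k ω r := by
  unfold cfL
  exact (meas_cfG C S s r).sub measurable_const

private theorem meas_cfE (P : Par) (C : Cf m) (S : St m n) (s : Bool) (i : Fin m) (k e : ℕ)
    (r : Row m) : Measurable fun ω : Om m n => cfE P C S s i k e ω r := by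
  unfold cfE
  exact ((meas_cfL P C S s i k r).const_mul _).add
    (((measurable_pi_apply _).sub measurable_const).const_mul _)

/-- The leg objectives are generic. -/
theorem ae_objGen_leg (hnm : n ≤ m) (c : Co m n → ℝ) (v : Co m n → ℝ≥0) (hv : ∀ i, v i ≠ 0)
    (P : Par) (C : Cf m) (S : St m n) (s : Bool) (hI : (C.I s).card = n) (i : Fin m) (k : ℕ) :
    ∀ᵐ ω ∂(Measure.pi fun i => gaussianReal (c i) (v i)),
      ObjGen ω (up S.R) (fnl ω (cfL P C S s i k ω)) := by
  classical
  refine ae_objGen hnm c v hv (fun ω => cfL P C S s i k ω) (meas_cfL P C S s i k)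
    (up (C.I s \ S.R)) (fun r => r.elim (.hub none) fun j => .nu s j) 1 one_ne_zero ?_ ?_
    (up S.R) ?_
  · intro r hr
    obtain ⟨j, _, rfl⟩ := mem_up'.1 hr
    exact ⟨fun _ _ h => (by cases h), fun _ h => (by cases h)⟩
  · intro r hr ω x r'
    obtain ⟨j, hj, rfl⟩ := mem_up'.1 hr
    obtain ⟨hjI, hjR⟩ := Finset.mem_sdiff.1 hj
    show cfL P C S s i k (Function.update ω (.nu s j) x) r' =
      cfL P C S s i k (Function.update ω (.nu s j) 0) r' + _
    unfold cfL cfG
    have hom : ∀ (y : ℝ) (l : Fin (n + 1)),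
        Function.update ω (Co.nu s j) y (.om s r' l) = ω (.om s r' l) := by
      intro y l
      exact Function.update_of_ne (by simp) _ _
    simp only [hom]
    match r' with
    | none => simp
    | some j' =>
      by_cases hjj : j' = j
      · subst hjj
        simp only [if_pos (And.intro hjI hjR), Function.update_self, if_true]
        ring
      · have h1 : ∀ y : ℝ, Function.update ω (Co.nu s j) y (.nu s j') = ω (.nu s j') := by
          intro y
          refine Function.update_of_ne ?_ _ _
          intro h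
          injection h with _ h2
          exact hjj h2
        simp only [h1]
        rw [if_neg (c := some j' = some j) (fun h => hjj (Option.some.inj h)), add_zero]
  · calc n = (up (C.I s)).card := by rw [up, Finset.card_map, hI]
      _ ≤ (up (C.I s \ S.R) ∪ up S.R).card := by
        refine Finset.card_le_card fun r hr => ?_
        obtain ⟨j, hj, rfl⟩ := mem_up'.1 hr
        by_cases hjR : j ∈ S.R
        · exact Finset.mem_union_right _ (mem_up.2 hjR)
        · exact Finset.mem_union_left _ (mem_up.2 (Finset.mem_sdiff.2 ⟨hj, hjR⟩))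

/-- The exit objectives are generic. -/
theorem ae_objGen_exit (hnm : n ≤ m) (c : Co m n → ℝ) (v : Co m n → ℝ≥0) (hv : ∀ i, v i ≠ 0)
    (P : Par) (hP : P.ph ≠ 0) (C : Cf m) (S : St m n) (s : Bool) (i : Fin m) (k e : ℕ)
    (R : Finset (Row m)) :
    ∀ᵐ ω ∂(Measure.pi fun i => gaussianReal (c i) (v i)),
      ObjGen ω R (fnl ω (cfE P C S s i k e ω)) := by
  classical
  refine ae_objGen hnm c v hv (fun ω => cfE P C S s i k e ω) (meas_cfE P C S s i k e)
    Finset.univ (fun r => .gi i r) P.ph hP ?_ ?_ R ?_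
  · intro r _
    exact ⟨fun _ _ h => (by cases h), fun _ h => (by cases h)⟩
  · intro r _ ω x r'
    have hL : ∀ y : ℝ, cfL P C S s i k (Function.update ω (.gi i r) y) r' =
        cfL P C S s i k ω r' := by
      intro y
      unfold cfL cfG
      have hom : ∀ (l : Fin (n + 1)),
          Function.update ω (Co.gi i r) y (.om s r' l) = ω (.om s r' l) := by
        intro l
        exact Function.update_of_ne (by simp) _ _
      simp only [hom]
      match r' with
      | none => rfl
      | some j' =>
        have h1 : Function.update ω (Co.gi i r) y (.nu s j') = ω (.nu s j') :=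
          Function.update_of_ne (by simp) _ _
        simp only [h1]
    unfold cfE
    rw [hL, hL]
    by_cases hr : r' = r
    · subst hr
      rw [Function.update_self, Function.update_self, if_pos rfl]
      ring
    · have h1 : ∀ y : ℝ, Function.update ω (Co.gi i r) y (.gi i r') = ω (.gi i r') := by
        intro y
        refine Function.update_of_ne ?_ _ _
        intro h
        injection h with _ h2
        exact hr h2
      rw [h1, h1, if_neg hr, add_zero]
  · calc n ≤ (Finset.univ : Finset (Row m)).card := by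
          rw [Finset.card_univ, Fintype.card_option, Fintype.card_fin]; omega
      _ ≤ _ := Finset.card_le_card Finset.subset_union_left

/-- The hub functional is generic. -/
theorem ae_objGen_hub (hnm : n ≤ m) (c : Co m n → ℝ) (v : Co m n → ℝ≥0) (hv : ∀ i, v i ≠ 0)
    (Th : ℝ) (R : Finset (Row m)) :
    ∀ᵐ ω ∂(Measure.pi fun i => gaussianReal (c i) (v i)),
      ObjGen ω R (fnl ω (cfHub Th ω)) := by
  classical
  refine ae_objGen hnm c v hv (fun ω => cfHub Th ω) (meas_cfHub Th)
    (up Finset.univ) (fun r => .hub r) 1 one_ne_zero ?_ ?_ R ?_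
  · intro r _
    exact ⟨fun _ _ h => (by cases h), fun _ h => (by cases h)⟩
  · intro r hr ω x r'
    obtain ⟨j, _, rfl⟩ := mem_up'.1 hr
    match r' with
    | none =>
      show -Th = -Th + _
      rw [if_neg (by simp), add_zero]
    | some j' =>
      show Function.update ω (.hub (some j)) x (.hub (some j')) =
        Function.update ω (.hub (some j)) 0 (.hub (some j')) + _
      by_cases hjj : j' = j
      · subst hjj
        rw [Function.update_self, Function.update_self, if_pos rfl]
        ring
      · have h1 : ∀ y : ℝ, Function.update ω (Co.hub (some j)) y (.hub (some j')) =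
            ω (.hub (some j')) := by
          intro y
          refine Function.update_of_ne ?_ _ _
          intro h
          injection h with h2
          exact hjj (Option.some.inj h2)
        rw [h1, h1, if_neg (fun h => hjj (Option.some.inj h)), add_zero]
  · calc n ≤ (up (Finset.univ : Finset (Fin m))).card := by
          rw [up, Finset.card_map, Finset.card_univ, Fintype.card_fin]; exact hnm
      _ ≤ _ := Finset.card_le_card Finset.subset_union_left

/-! ### All objectives at once -/

/-- The state after a list of moves (the last move first). -/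
noncomputable def run (P : Par) (C : Cf m) : List (Mv m P) → St m n
  | [] => st0 P C
  | mv :: l => nxt P (run P C l) mv

/-- The states reached from the start state by arbitrary moves. -/
def Rch (P : Par) (C : Cf m) (S : St m n) : Prop := ∃ l : List (Mv m P), S = run P C l

theorem rch_st0 (P : Par) (C : Cf m) : Rch P C (st0 P C : St m n) := ⟨[], rfl⟩

theorem Rch.nxt {P : Par} {C : Cf m} {S : St m n} (h : Rch P C S) (mv : Mv m P) :
    Rch P C (nxt P S mv) := by
  obtain ⟨l, rfl⟩ := h
  exact ⟨mv :: l, rfl⟩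

/-- Everything generic. -/
structure GenPL (P : Par) (Th : ℝ) (ω : Om m n) : Prop where
  row : RowGen ω
  leg : ∀ (C : Cf m) (S : St m n), Rch P C S → ∀ s, (C.I s).card = n → ∀ (i : Fin m) (k : ℕ),
    ObjGen ω (up S.R) (fnl ω (cfL P C S s i k ω))
  exit : ∀ (C : Cf m) (S : St m n), Rch P C S → ∀ s (i : Fin m) (k e : ℕ) (R : Finset (Row m)),
    ObjGen ω R (fnl ω (cfE P C S s i k e ω))
  hub : ∀ R : Finset (Row m), ObjGen ω R (fnl ω (cfHub Th ω))

theorem GenPL.nat {P : Par} {Th : ℝ} {ω : Om m n} (h : GenPL P Th ω) {C : Cf m} {S : St m n}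
    (hS : Rch P C S) {s : Bool} (hI : (C.I s).card = n) (i : Fin m) :
    ObjGen ω (up S.R) (fnl ω (cfG C S s ω)) := by
  have h1 := h.leg C S hS s hI i 0
  have h2 : cfL P C S s i 0 ω = cfG C S s ω := by
    funext r
    unfold cfL
    simp
  rwa [h2] at h1

instance : Countable (Cf m) := by
  have : Function.Injective (fun C : Cf m => (C.I, C.Y)) := by
    rintro ⟨I, Y⟩ ⟨I', Y'⟩ h
    simp only [Prod.mk.injEq] at h
    obtain ⟨rfl, rfl⟩ := h
    rfl
  exact this.countable

instance (P : Par) : Countable (Mv m P) := by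
  have : Function.Injective (fun mv : Mv m P => (match mv with
    | .hv s i p D => Sum.inl (s, i, p, D)
    | .lf s i k e T => Sum.inr (Sum.inl (s, i, k, e, T))
    | .cb s i k T => Sum.inr (Sum.inr (Sum.inl (s, i, k, T)))
    | .cw s i k W => Sum.inr (Sum.inr (Sum.inr (s, i, k, W))) :
      (Bool × Fin m × Pos P × Finset (Fin m)) ⊕
      (Bool × Fin m × Fin (P.K1 + 1) × Fin (P.K3 + 1) × Finset (Option (Fin m))) ⊕
      (Bool × Fin m × Fin (P.K1 + 1) × Finset (Option (Fin m))) ⊕
      (Bool × Fin m × Fin (P.K1 + 1) × Finset (Option (Fin m))))) := by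
    intro mv mv' h
    cases mv <;> cases mv' <;> simp_all
  exact this.countable

/-- **Almost sure genericity.** -/
theorem ae_genPL (hnm : n ≤ m) (c : Co m n → ℝ) (v : Co m n → ℝ≥0) (hv : ∀ i, v i ≠ 0)
    (P : Par) (hP : P.ph ≠ 0) (Th : ℝ) :
    ∀ᵐ ω ∂(Measure.pi fun i => gaussianReal (c i) (v i)), GenPL (m := m) (n := n) P Th ω := by
  have h1 : ∀ᵐ ω ∂(Measure.pi fun i => gaussianReal (c i) (v i)),
      ∀ (C : Cf m) (l : List (Mv m P)) (s : Bool) (i : Fin m) (k : ℕ), (C.I s).card = n →
        ObjGen ω (up (run P C l : St m n).R) (fnl ω (cfL P C (run P C l) s i k ω)) := by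
    rw [ae_all_iff]; intro C
    rw [ae_all_iff]; intro l
    rw [ae_all_iff]; intro s
    rw [ae_all_iff]; intro i
    rw [ae_all_iff]; intro k
    by_cases hI : (C.I s).card = n
    · filter_upwards [ae_objGen_leg hnm c v hv P C (run P C l) s hI i k] with ω hω _
      exact hω
    · exact Filter.Eventually.of_forall fun ω h => absurd h hI
  have h2 : ∀ᵐ ω ∂(Measure.pi fun i => gaussianReal (c i) (v i)),
      ∀ (C : Cf m) (l : List (Mv m P)) (s : Bool) (i : Fin m) (k e : ℕ) (R : Finset (Row m)),
        ObjGen ω R (fnl ω (cfE P C (run P C l) s i k e ω)) := by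
    rw [ae_all_iff]; intro C
    rw [ae_all_iff]; intro l
    rw [ae_all_iff]; intro s
    rw [ae_all_iff]; intro i
    rw [ae_all_iff]; intro k
    rw [ae_all_iff]; intro e
    rw [ae_all_iff]; intro R
    exact ae_objGen_exit hnm c v hv P hP C (run P C l) s i k e R
  have h3 : ∀ᵐ ω ∂(Measure.pi fun i => gaussianReal (c i) (v i)),
      ∀ R : Finset (Row m), ObjGen ω R (fnl ω (cfHub Th ω)) := by
    rw [ae_all_iff]; intro R
    exact ae_objGen_hub hnm c v hv Th R
  filter_upwards [h1, h2, h3, ae_rowGen hnm c v hv] with ω hω1 hω2 hω3 hω4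
  refine ⟨hω4, ?_, ?_, hω3⟩
  · rintro C S ⟨l, rfl⟩ s hI i k
    exact hω1 C l s i k hI
  · rintro C S ⟨l, rfl⟩ s i k e R
    exact hω2 C l s i k e R

end Pool.Agent.Lib.S3.PL
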