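import Pool.Agent.Lib.S3.GenChart
import Pool.Agent.Lib.S3.PL.Defs
import Pool.Agent.Lib.S3.PL.OptMeas

/-!
# Genericity of rows and objectives of the pair machine (smoothed Hirsch, MP_4a5c02_co)

The law is any product of nondegenerate Gaussians on the coordinates `Co m n`, `n ≤ m`.

* `RowGen ω`: any `n + 1` rows are independent, and the chart functional is not in the span of `n`
  rows; `ae_rowGen`;
* `ObjGen ω R Γ`: no multiplier of `Γ` off `R` at a basis containing `R` vanishes;
* `ae_objGen`: the general criterion;
* `ae_objGen_leg`, `ae_objGen_exit`: the objectives of the machine.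
-/

set_option autoImplicit false

open MeasureTheory ProbabilityTheory Matrix
open scoped ENNReal NNReal

namespace Pool.Agent.Lib.S3.PL

section coord

variable {κ : Type*} [Fintype κ] [DecidableEq κ]

private theorem slice_aux (c : κ → ℝ) (v : κ → ℝ≥0) (hv : ∀ i, v i ≠ 0) (k₀ : κ)
    (M : κ → Prop) [DecidablePred M] (hM : ∀ k, M k ↔ k = k₀) (a b : ℝ) (ha : a ≠ 0) :
    ∀ᵐ x ∂(Measure.pi fun i : {i // M i} => gaussianReal (c i) (v i)),
      b + x ⟨k₀, (hM k₀).2 rfl⟩ * a ≠ 0 := by
  have hne : (fun _ : {i // M i} => a) ≠ 0 := by
    intro h
    exact ha (congrFun h ⟨k₀, (hM k₀).2 rfl⟩)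
  have h0 := ae_affine_ne (fun i : {i // M i} => c i) (fun i => v i) (fun i => hv i)
    (fun _ => a) hne b
  filter_upwards [h0] with x hx
  have h2 : ∑ i : {i // M i}, a * x i = x ⟨k₀, (hM k₀).2 rfl⟩ * a := by
    rw [Fintype.sum_eq_single (⟨k₀, (hM k₀).2 rfl⟩ : {i // M i})]
    · ring
    · rintro ⟨i, hi⟩ hne'
      have hi' := (hM i).1 hi
      subst hi'
      exact absurd rfl hne'
  rw [h2] at hx
  exact hx

private theorem glue_aux (k₀ : κ) (M : κ → Prop) [DecidablePred M] (hM : ∀ k, M k ↔ k = k₀)
    (x : {i // M i} → ℝ) (ω : κ → ℝ) :
    (fun i => if h : M i then x ⟨i, h⟩ else ω i) =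
      Function.update ω k₀ (x ⟨k₀, (hM k₀).2 rfl⟩) := by
  funext i
  by_cases h : M i
  · have h' := (hM i).1 h
    subst h'
    simp [h]
  · have h' : i ≠ k₀ := fun h'' => h ((hM i).2 h'')
    simp [h, h']

/-- A function affine in the coordinate `k₀` with nonzero slope is nonzero almost surely. -/
theorem ae_ne_of_coord (c : κ → ℝ) (v : κ → ℝ≥0) (hv : ∀ i, v i ≠ 0) (k₀ : κ)
    (f g : (κ → ℝ) → ℝ) (hf : Measurable f) (hg : Measurable g)
    (hfa : ∀ ω x, f (Function.update ω k₀ x) = f (Function.update ω k₀ 0) + x * g ω)
    (hga : ∀ ω x, g (Function.update ω k₀ x) = g ω) :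
    ∀ᵐ ω ∂(Measure.pi fun i => gaussianReal (c i) (v i)), g ω ≠ 0 → f ω ≠ 0 := by
  have hs : MeasurableSet {ω | g ω ≠ 0 → f ω ≠ 0} := by
    have h1 : {ω | g ω ≠ 0 → f ω ≠ 0} = {ω | g ω = 0} ∪ {ω | f ω = 0}ᶜ := by
      ext ω
      simp only [Set.mem_ofPred_eq, Set.mem_union, Set.mem_compl_iff]
      tauto
    rw [h1]
    exact (hg (measurableSet_singleton 0)).union (hf (measurableSet_singleton 0)).compl
  obtain ⟨M, hMd, hM⟩ : ∃ M : κ → Prop, ∃ _ : DecidablePred M, ∀ k, M k ↔ k = k₀ :=
    ⟨fun k => k = k₀, inferInstance, fun k => Iff.rfl⟩
  refine ae_pi_of_slice (fun i => gaussianReal (c i) (v i)) M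
    {ω | g ω ≠ 0 → f ω ≠ 0} hs ?_
  refine Filter.Eventually.of_forall fun ω => ?_
  by_cases hg0 : g ω = 0
  · refine Filter.Eventually.of_forall fun x => ?_
    rw [glue_aux k₀ M hM x ω]
    intro h2
    rw [hga] at h2
    exact absurd hg0 h2
  · filter_upwards [slice_aux c v hv k₀ M hM (g ω) (f (Function.update ω k₀ 0)) hg0] with x hx
    rw [glue_aux k₀ M hM x ω]
    intro _
    rw [hfa]
    exact hx

omit [DecidableEq κ] in
/-- A vector affine in Gaussian coins avoids the span of few rows almost surely. -/
theorem ae_li_cons (c : κ → ℝ) (v : κ → ℝ≥0) (hv : ∀ i, v i ≠ 0)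
    (M : κ → Prop) [DecidablePred M] {d l : ℕ}
    (A : (κ → ℝ) → Fin l → Fin d → ℝ) (hA : ∀ i j, Measurable fun ω => A ω i j)
    (C : (κ → ℝ) → Fin d → ℝ) (hC : ∀ j, Measurable fun ω => C ω j)
    (C0 : (κ → ℝ) → Fin d → ℝ) (W : (κ → ℝ) → {k // M k} → Fin d → ℝ)
    (hAg : ∀ ω x, A (glue M x ω) = A ω) (hCg : ∀ ω x, C (glue M x ω) = C0 ω + ∑ k, x k • W ω k)
    (hgood : ∀ᵐ ω ∂(Measure.pi fun i => gaussianReal (c i) (v i)),
      LinearIndependent ℝ (A ω) ∧ ∃ k, W ω k ∉ Submodule.span ℝ (Set.range (A ω))) :
    ∀ᵐ ω ∂(Measure.pi fun i => gaussianReal (c i) (v i)),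
      LinearIndependent ℝ (Fin.cons (C ω) (A ω) : Fin (l + 1) → Fin d → ℝ) := by
  have h := ae_li_option c v hv M A hA C hC C0 W hAg hCg hgood
  filter_upwards [h] with ω hω
  rw [linearIndependent_option] at hω
  rw [linearIndependent_finCons]
  exact hω

end coord

variable {m n : ℕ}

/-- Any `n + 1` rows are independent, and the chart functional is not in the span of `n` rows. -/
structure RowGen (ω : Om m n) : Prop where
  li : ∀ e : Fin (n + 1) → Row m, Function.Injective e →
    LinearIndependent ℝ (fun k => rho ω (e k))
  det : ∀ e : Fin n → Row m, Function.Injective e → (amat (Nf ω) (rho ω) e).det ≠ 0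

/-- The rows of a tuple are independent almost surely. -/
theorem ae_rows_tuple (c : Co m n → ℝ) (v : Co m n → ℝ≥0) (hv : ∀ i, v i ≠ 0) :
    ∀ (k : ℕ), k ≤ n + 1 → ∀ e : Fin k → Row m, Function.Injective e →
      ∀ᵐ ω ∂(Measure.pi fun i => gaussianReal (c i) (v i)),
        LinearIndependent ℝ (fun i => rho ω (e i)) := by
  classical
  intro k
  induction k with
  | zero =>
    intro _ e _
    exact Filter.Eventually.of_forall fun ω => linearIndependent_empty_type
  | succ k ih =>
    intro hk
    -- the first row is random
    have key : ∀ e : Fin (k + 1) → Row m, Function.Injective e → ∀ r : Fin m, e 0 = some r →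
        ∀ᵐ ω ∂(Measure.pi fun i => gaussianReal (c i) (v i)),
          LinearIndependent ℝ (fun i => rho ω (e i)) := by
      intro e he r hr
      have ih' := ih (by omega) (fun i => e i.succ)
        (fun i j hij => Fin.succ_injective _ (he hij))
      have h1 := ae_li_cons c v hv (fun a => ∃ j, a = Co.row r j)
        (fun ω i => rho ω (e i.succ)) (by
          intro i j
          match h : e i.succ with
          | none => simp only [h, rho]; exact measurable_const
          | some s => simp only [h, rho]; exact measurable_pi_apply _)
        (fun ω => rho ω (some r)) (fun j => by simp only [rho]; exact measurable_pi_apply _)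
        (fun _ => 0) (fun _ a => Pi.single (Classical.choose a.2) 1) ?_ ?_ ?_
      · filter_upwards [h1] with ω hω
        have h2 : (fun i => rho ω (e i)) =
            (Fin.cons (rho ω (some r)) (fun i => rho ω (e i.succ)) :
              Fin (k + 1) → Fin (n + 1) → ℝ) := by
          funext i
          refine Fin.cases ?_ (fun i => ?_) i
          · rw [Fin.cons_zero, hr]
          · rw [Fin.cons_succ]
        rw [h2]
        exact hω
      · intro ω x
        funext i
        have hne : e i.succ ≠ some r := by
          intro h
          have := he (h.trans hr.symm)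
          exact Fin.succ_ne_zero i this
        match h : e i.succ with
        | none => simp only [h, rho]
        | some s =>
          simp only [h, rho]
          funext j
          show glue _ x ω (Co.row s j) = ω (Co.row s j)
          unfold glue
          rw [dif_neg]
          rintro ⟨j', hj'⟩
          injection hj' with h3 h4
          exact hne (by rw [h, h3])
      · intro ω x
        funext j
        have hj : ∃ j', (Co.row r j : Co m n) = Co.row r j' := ⟨j, rfl⟩
        have h3 : rho (glue (fun a => ∃ j, a = Co.row r j) x ω) (some r) j = x ⟨Co.row r j, hj⟩ := by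
          show glue _ x ω (Co.row r j) = _
          unfold glue
          rw [dif_pos hj]
        rw [h3, zero_add, Finset.sum_apply]
        rw [Fintype.sum_eq_single (⟨Co.row r j, hj⟩ : {a : Co m n // ∃ j, a = Co.row r j})]
        · have h4 : Classical.choose hj = j := by
            have h5 := Classical.choose_spec hj
            injection h5 with _ h6
            exact h6.symm
          rw [Pi.smul_apply, smul_eq_mul]
          show x _ = x _ * (Pi.single (Classical.choose hj) (1 : ℝ) : Fin (n + 1) → ℝ) j
          rw [h4, Pi.single_eq_same, mul_one]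
        · rintro ⟨a, ha⟩ hne
          rw [Pi.smul_apply, smul_eq_mul]
          have h5 := Classical.choose_spec ha
          have h6 : Classical.choose ha ≠ j := by
            intro h7
            apply hne
            rw [Subtype.mk.injEq, h5, h7]
          show x _ * (Pi.single (Classical.choose ha) (1 : ℝ) : Fin (n + 1) → ℝ) j = 0
          rw [Pi.single_eq_of_ne h6.symm, mul_zero]
      · filter_upwards [ih'] with ω hω
        refine ⟨hω, ?_⟩
        by_contra hcon
        push Not at hcon
        have htop : Submodule.span ℝ (Set.range fun i : Fin k => rho ω (e i.succ)) = ⊤ := by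
          rw [eq_top_iff]
          intro z _
          have hz : z = ∑ j, z j • (Pi.single j (1 : ℝ) : Fin (n + 1) → ℝ) := by
            funext j'
            rw [Finset.sum_apply, Finset.sum_eq_single j']
            · simp
            · intro j _ hj
              rw [Pi.smul_apply, Pi.single_eq_of_ne hj.symm, smul_zero]
            · intro h; exact absurd (Finset.mem_univ _) h
          rw [hz]
          refine Submodule.sum_mem _ fun j _ => Submodule.smul_mem _ _ ?_
          have hj : ∃ j', (Co.row r j : Co m n) = Co.row r j' := ⟨j, rfl⟩
          have h7 := hcon ⟨Co.row r j, hj⟩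
          have h4 : Classical.choose hj = j := by
            have h5 := Classical.choose_spec hj
            injection h5 with _ h6
            exact h6.symm
          have h8 : (Pi.single (Classical.choose hj) (1 : ℝ) : Fin (n + 1) → ℝ) ∈
            Submodule.span ℝ (Set.range fun i : Fin k => rho ω (e i.succ)) := h7
          rw [h4] at h8
          exact h8
        have h2 := finrank_range_le_card (R := ℝ) (fun i : Fin k => rho ω (e i.succ))
        unfold Set.finrank at h2
        rw [htop, finrank_top, Module.finrank_fintype_fun_eq_card, Fintype.card_fin,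
          Fintype.card_fin] at h2
        omega
    intro e he
    match h0 : e 0 with
    | some r => exact key e he r h0
    | none =>
      cases k with
      | zero =>
        refine Filter.Eventually.of_forall fun ω => ?_
        rw [Fintype.linearIndependent_iff]
        intro g hg i
        have h1 : i = 0 := by
          apply Fin.ext
          have := i.2
          simp only [Fin.val_zero]
          omega
        subst h1
        rw [Fin.sum_univ_one, h0] at hg
        have h3 := congrFun hg 0
        simpa [rho] using h3
      | succ k =>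
        obtain ⟨r, hr⟩ : ∃ r, e 1 = some r := by
          match h1 : e 1 with
          | some r => exact ⟨r, rfl⟩
          | none =>
            have := he (h0.trans h1.symm)
            exact absurd this (by simp)
        have h1 := key (e ∘ Equiv.swap 0 1) (he.comp (Equiv.injective _)) r (by
          rw [Function.comp_apply, Equiv.swap_apply_left, hr])
        filter_upwards [h1] with ω hω
        have h2 := hω.comp (Equiv.swap (0 : Fin (k + 1 + 1)) 1) (Equiv.injective _)
        have h3 : ((fun i => rho ω ((e ∘ Equiv.swap 0 1) i)) ∘
            (Equiv.swap (0 : Fin (k + 1 + 1)) 1)) = fun i => rho ω (e i) := by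
          funext i
          rw [Function.comp_apply, Function.comp_apply, Equiv.swap_apply_self]
        rw [h3] at h2
        exact h2

/-- Nonzero determinant from independent rows. -/
theorem amat_det_ne {N : Fin (n + 1) → ℝ} {ρ : Row m → Fin (n + 1) → ℝ} {e : Fin n → Row m}
    (h : LinearIndependent ℝ (Fin.cons N (fun k => ρ (e k)) : Fin (n + 1) → Fin (n + 1) → ℝ)) :
    (amat N ρ e).det ≠ 0 := by
  have h1 : LinearIndependent ℝ (amat N ρ e).row := h
  rw [Matrix.linearIndependent_rows_iff_isUnit, Matrix.isUnit_iff_isUnit_det] at h1
  exact h1.ne_zero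

/-- Genericity of the rows. -/
theorem ae_rowGen (hnm : n ≤ m) (c : Co m n → ℝ) (v : Co m n → ℝ≥0) (hv : ∀ i, v i ≠ 0) :
    ∀ᵐ ω ∂(Measure.pi fun i => gaussianReal (c i) (v i)), RowGen (m := m) (n := n) ω := by
  classical
  have h1 : ∀ᵐ ω ∂(Measure.pi fun i => gaussianReal (c i) (v i)),
      ∀ e : Fin (n + 1) → Row m, Function.Injective e →
        LinearIndependent ℝ (fun k => rho ω (e k)) := by
    rw [ae_all_iff]
    intro e
    by_cases he : Function.Injective e
    · filter_upwards [ae_rows_tuple c v hv (n + 1) le_rfl e he] with ω hω _
      exact hω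
    · exact Filter.Eventually.of_forall fun ω h => absurd h he
  have h2 : ∀ᵐ ω ∂(Measure.pi fun i => gaussianReal (c i) (v i)),
      ∀ e : Fin n → Row m, Function.Injective e → (amat (Nf ω) (rho ω) e).det ≠ 0 := by
    rw [ae_all_iff]
    intro e
    by_cases he : Function.Injective e
    swap
    · exact Filter.Eventually.of_forall fun ω h => absurd h he
    have hrho : ∀ (x : {a : Co m n // ∃ r, a = Co.eta r} → ℝ) (ω : Om m n),
        rho (glue (fun a => ∃ r, a = Co.eta r) x ω) = rho ω := by
      intro x ω
      funext r
      match r with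
      | none => rfl
      | some s =>
        funext j
        show glue _ x ω (Co.row s j) = ω (Co.row s j)
        unfold glue
        rw [dif_neg]
        rintro ⟨r', hr'⟩
        cases hr'
    have h3 := ae_li_cons c v hv (fun a => ∃ r, a = Co.eta r)
      (fun ω k => rho ω (e k)) (by
        intro i j
        match h : e i with
        | none => simp only [h, rho]; exact measurable_const
        | some s => simp only [h, rho]; exact measurable_pi_apply _)
      (fun ω => Nf ω) (by
        intro j
        unfold Nf
        simp only [Finset.sum_apply, Pi.smul_apply, smul_eq_mul]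
        refine Finset.measurable_sum _ fun r _ => (measurable_pi_apply _).mul ?_
        match r with
        | none => simp only [rho]; exact measurable_const
        | some s => simp only [rho]; exact measurable_pi_apply _)
      (fun _ => 0) (fun ω a => rho ω (Classical.choose a.2)) ?_ ?_ ?_
    · filter_upwards [h3] with ω hω _
      exact amat_det_ne hω
    · intro ω x
      funext i
      rw [hrho]
    · intro ω x
      rw [zero_add]
      unfold Nf
      rw [hrho]
      -- reindex the coins by the rows
      let E : Row m ≃ {a : Co m n // ∃ r, a = Co.eta r} :=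
        { toFun := fun r => ⟨Co.eta r, r, rfl⟩
          invFun := fun a => Classical.choose a.2
          left_inv := by
            intro r
            have h5 := Classical.choose_spec (⟨r, rfl⟩ : ∃ r', (Co.eta r : Co m n) = Co.eta r')
            injection h5 with h6
            exact h6.symm
          right_inv := by
            rintro ⟨a, ha⟩
            exact Subtype.ext (Classical.choose_spec ha).symm }
      rw [← Equiv.sum_comp E]
      refine Finset.sum_congr rfl fun r _ => ?_
      have h6 : Classical.choose (E r).2 = r := E.left_inv r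
      rw [h6]
      congr 1
      show glue _ x ω (Co.eta r) = x (E r)
      unfold glue
      rw [dif_pos ⟨r, rfl⟩]
      rfl
    · filter_upwards [h1] with ω hω
      have hli : LinearIndependent ℝ (fun k => rho ω (e k)) ∧
          ∃ r, rho ω r ∉ Submodule.span ℝ (Set.range fun k => rho ω (e k)) := by
        obtain ⟨r, hr⟩ : ∃ r, r ∉ Set.range e := by
          by_contra hcon
          push Not at hcon
          have hsurj : Function.Surjective e := hcon
          have := Fintype.card_le_of_surjective e hsurj
          rw [Fintype.card_option, Fintype.card_fin, Fintype.card_fin] at this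
          omega
        have h4 := hω (Fin.cons r e) (by
          rw [Fin.cons_injective_iff]
          exact ⟨hr, he⟩)
        have h5 : (fun k => rho ω ((Fin.cons r e : Fin (n + 1) → Row m) k)) =
            (Fin.cons (rho ω r) (fun k => rho ω (e k)) : Fin (n + 1) → Fin (n + 1) → ℝ) := by
          funext k
          refine Fin.cases ?_ (fun k => ?_) k
          · rw [Fin.cons_zero, Fin.cons_zero]
          · rw [Fin.cons_succ, Fin.cons_succ]
        rw [h5, linearIndependent_finCons] at h4
        exact ⟨h4.1, r, h4.2⟩
      refine ⟨hli.1, ?_⟩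
      obtain ⟨r, hr⟩ := hli.2
      refine ⟨⟨Co.eta r, r, rfl⟩, ?_⟩
      have h6 : Classical.choose (⟨r, rfl⟩ : ∃ r', (Co.eta r : Co m n) = Co.eta r') = r := by
        have h5 := Classical.choose_spec (⟨r, rfl⟩ : ∃ r', (Co.eta r : Co m n) = Co.eta r')
        injection h5 with h6
        exact h6.symm
      show rho ω (Classical.choose _) ∉ _
      rw [h6]
      exact hr
  filter_upwards [h1, h2] with ω hω1 hω2
  exact ⟨hω1, hω2⟩

end Pool.Agent.Lib.S3.PL
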