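import Pool.Agent.Lib.S3.PayLin
import Pool.Agent.Lib.S3.PL.Defs

/-!
# The shift which pays for a heavy window

The rows of `D` are lowered by `t_r` times the row `i`; the coins `eta i`, `nu s i`, `gi i i` are
raised so that the chart functional and the objective of the leg `i` of the side `s` do not change
(at every position of the leg and of the exit line).
-/

set_option autoImplicit false

open MeasureTheory Matrix

namespace Pool.Agent.Lib.S3.PL

variable {m n : ℕ}

/-- The coordinates moved by the payment of a heavy window. -/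
def hvM (s : Bool) (i : Fin m) (D : Finset (Fin m)) : Co m n → Prop
  | .row r _ => r ∈ D
  | .eta r => r = some i
  | .nu s' j => s' = s ∧ j = i
  | .om _ _ _ => False
  | .gi i' r => i' = i ∧ r = some i
  | .hub _ => False

instance (s : Bool) (i : Fin m) (D : Finset (Fin m)) : DecidablePred (hvM (n := n) s i D) := by
  intro c
  cases c <;> simp only [hvM] <;> infer_instance

/-- The linear family of skew shifts which pays for a heavy window. -/
noncomputable def hvA (C : Cf m) (S : St m n) (s : Bool) (i : Fin m) (D : Finset (Fin m))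
    (r : D) (ω : Om m n) : Co m n → ℝ
  | .row r' j => if r' = r then - ω (.row i j) else 0
  | .eta r' => if r' = some i then ω (.eta (some (r : Fin m))) else 0
  | .nu s' j => if s' = s ∧ j = i then cfG C S s ω (some (r : Fin m)) else 0
  | .om _ _ _ => 0
  | .gi i' r' => if i' = i ∧ r' = some i then ω (.gi i (some (r : Fin m))) else 0
  | .hub _ => 0

/-- The parameters of the shift, extended by `0`. -/
def hvT {D : Finset (Fin m)} (t : D → ℝ) (q : Fin m) : ℝ := if h : q ∈ D then t ⟨q, h⟩ else 0

theorem hvT_mem {D : Finset (Fin m)} (t : D → ℝ) (q : D) : hvT t q = t q := by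
  unfold hvT
  rw [dif_pos q.2]

theorem hvT_notMem {D : Finset (Fin m)} (t : D → ℝ) {q : Fin m} (h : q ∉ D) : hvT t q = 0 := by
  unfold hvT
  rw [dif_neg h]

theorem sum_hvT {D : Finset (Fin m)} (t : D → ℝ) (f : Fin m → ℝ) :
    ∑ k : D, t k * f k = ∑ q : Fin m, hvT t q * f q := by
  rw [← Finset.sum_subset (Finset.subset_univ D) (fun q _ hq => by
    rw [hvT_notMem t hq, zero_mul]), ← Finset.sum_coe_sort D (fun q => hvT t q * f q)]
  exact Finset.sum_congr rfl fun k _ => by rw [hvT_mem]

theorem hvA_supp (C : Cf m) (S : St m n) (s : Bool) (i : Fin m) (D : Finset (Fin m))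
    (k : D) (ω : Om m n) (c : Co m n) (hc : ¬ hvM s i D c) : hvA C S s i D k ω c = 0 := by
  cases c with
  | row r j =>
    simp only [hvM] at hc
    simp only [hvA]
    rw [if_neg]
    rintro rfl
    exact hc k.2
  | eta r =>
    simp only [hvM] at hc
    simp only [hvA]
    rw [if_neg hc]
  | nu s' j =>
    simp only [hvM] at hc
    simp only [hvA]
    rw [if_neg hc]
  | om s' r l => rfl
  | gi i' r =>
    simp only [hvM] at hc
    simp only [hvA]
    rw [if_neg hc]
  | hub r => rfl

/-- The coefficients of rows other than `i` do not depend on the moved coins. -/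
theorem cfG_congr (C : Cf m) (S : St m n) (s : Bool) {ω ω' : Om m n} {r : Row m}
    (h1 : ∀ j, r = some j → ω (.nu s j) = ω' (.nu s j))
    (h2 : ∀ l, ω (.om s r l) = ω' (.om s r l)) :
    cfG C S s ω r = cfG C S s ω' r := by
  unfold cfG
  congr 1
  · cases r with
    | none => rfl
    | some j => simp only [h1 j rfl]
  · refine Finset.sum_congr rfl fun l _ => ?_
    rw [h2 l]

theorem hvA_dep (C : Cf m) (S : St m n) (s : Bool) (i : Fin m) (D : Finset (Fin m))
    (hi : i ∉ D) (k : D) (ω ω' : Om m n) (h : ∀ c, ¬ hvM s i D c → ω c = ω' c) :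
    hvA C S s i D k ω = hvA C S s i D k ω' := by
  have hki : (k : Fin m) ≠ i := fun hk => hi (hk ▸ k.2)
  funext c
  cases c with
  | row r j =>
    simp only [hvA]
    rw [h (.row i j) (by simpa [hvM] using hi)]
  | eta r =>
    simp only [hvA]
    rw [h (.eta (some (k : Fin m))) (by simpa [hvM] using hki)]
  | nu s' j =>
    simp only [hvA]
    rw [cfG_congr C S s (ω := ω) (ω' := ω') (fun j hj => h _ ?_) (fun l => h _ (by simp [hvM]))]
    simp only [hvM, not_and]
    intro _ hji
    rw [Option.some.injEq] at hj
    exact hki (hj.trans hji)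
  | om s' r l => rfl
  | gi i' r =>
    simp only [hvA]
    rw [h (.gi i (some (k : Fin m))) (by simpa [hvM] using hki)]
  | hub r => rfl

/-- The shifted point. -/
noncomputable def hvS (C : Cf m) (S : St m n) (s : Bool) (i : Fin m) (D : Finset (Fin m))
    (t : D → ℝ) (ω : Om m n) : Om m n := PayLin.shift (hvA C S s i D) t ω

section effect

variable (C : Cf m) (S : St m n) (s : Bool) (i : Fin m) (D : Finset (Fin m)) (t : D → ℝ)
  (ω : Om m n)

theorem hvS_of_not {c : Co m n} (hc : ¬ hvM s i D c) : hvS C S s i D t ω c = ω c :=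
  PayLin.shift_of_not (M := hvM s i D) (hvA_supp C S s i D) t ω c hc

theorem hvS_row (r : Fin m) (j : Fin (n + 1)) :
    hvS C S s i D t ω (.row r j) = ω (.row r j) - hvT t r * ω (.row i j) := by
  unfold hvS
  rw [PayLin.shift_apply]
  simp only [hvA]
  rw [sum_hvT t (fun q => if r = q then - ω (.row i j) else 0)]
  simp only [mul_ite, mul_neg, mul_zero]
  rw [Finset.sum_ite_eq]
  simp only [Finset.mem_univ, if_true]
  ring

theorem hvS_eta (r : Option (Fin m)) :
    hvS C S s i D t ω (.eta r) = ω (.eta r) +
      if r = some i then ∑ q, hvT t q * ω (.eta (some q)) else 0 := by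
  unfold hvS
  rw [PayLin.shift_apply]
  simp only [hvA]
  rw [sum_hvT t (fun q => if r = some i then ω (.eta (some q)) else 0)]
  by_cases h : r = some i
  · simp [h]
  · simp [h]

theorem hvS_nu (s' : Bool) (j : Fin m) :
    hvS C S s i D t ω (.nu s' j) = ω (.nu s' j) +
      if s' = s ∧ j = i then ∑ q, hvT t q * cfG C S s ω (some q) else 0 := by
  unfold hvS
  rw [PayLin.shift_apply]
  simp only [hvA]
  rw [sum_hvT t (fun q => if s' = s ∧ j = i then cfG C S s ω (some q) else 0)]
  by_cases h : s' = s ∧ j = i
  · simp [h]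
  · simp [h]

theorem hvS_om (s' : Bool) (r : Option (Fin m)) (l : Fin (n + 1)) :
    hvS C S s i D t ω (.om s' r l) = ω (.om s' r l) :=
  hvS_of_not C S s i D t ω (by simp [hvM])

theorem hvS_gi (i' : Fin m) (r : Option (Fin m)) :
    hvS C S s i D t ω (.gi i' r) = ω (.gi i' r) +
      if i' = i ∧ r = some i then ∑ q, hvT t q * ω (.gi i (some q)) else 0 := by
  unfold hvS
  rw [PayLin.shift_apply]
  simp only [hvA]
  rw [sum_hvT t (fun q => if i' = i ∧ r = some i then ω (.gi i (some q)) else 0)]
  by_cases h : i' = i ∧ r = some i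
  · simp [h]
  · simp [h]

theorem hvS_hub (r : Option (Fin m)) : hvS C S s i D t ω (.hub r) = ω (.hub r) :=
  hvS_of_not C S s i D t ω (by simp [hvM])

/-- The effect on the rows. -/
theorem rho_hvS_some (r : Fin m) :
    rho (hvS C S s i D t ω) (some r) = rho ω (some r) - hvT t r • rho ω (some i) := by
  funext j
  simp only [rho, Pi.sub_apply, Pi.smul_apply, smul_eq_mul]
  exact hvS_row C S s i D t ω r j

theorem rho_hvS_none : rho (hvS C S s i D t ω) none = rho ω none := rfl

theorem rho_hvS_notMem {r : Row m} (h : r ∉ up D) :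
    rho (hvS C S s i D t ω) r = rho ω r := by
  cases r with
  | none => rfl
  | some q =>
    rw [mem_up] at h
    rw [rho_hvS_some, hvT_notMem t h, zero_smul, sub_zero]

/-- The effect on functionals: the coefficient of the row `i` compensates. -/
theorem fnl_hvS (hi : i ∉ D) {c c' : Row m → ℝ} (h1 : ∀ r, r ≠ some i → c' r = c r)
    (h2 : c' (some i) = c (some i) + ∑ q, hvT t q * c (some q)) :
    fnl (hvS C S s i D t ω) c' = fnl ω c := by
  have hc' : ∀ r, c' r = c r + if r = some i then ∑ q, hvT t q * c (some q) else 0 := by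
    intro r
    by_cases h : r = some i
    · subst h
      rw [if_pos rfl, h2]
    · rw [if_neg h, add_zero, h1 r h]
  have hrho : ∀ r : Row m, rho (hvS C S s i D t ω) r = rho ω r -
      (match r with | none => 0 | some q => hvT t q) • rho ω (some i) := by
    intro r
    cases r with
    | none => simp [rho_hvS_none]
    | some q => exact rho_hvS_some C S s i D t ω q
  have hii : rho (hvS C S s i D t ω) (some i) = rho ω (some i) := by
    rw [rho_hvS_some, hvT_notMem t hi, zero_smul, sub_zero]
  have e1 : fnl (hvS C S s i D t ω) c' =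
      ∑ r : Row m, c r • rho (hvS C S s i D t ω) r +
        (∑ q, hvT t q * c (some q)) • rho ω (some i) := by
    unfold fnl
    have : ∀ r : Row m, c' r • rho (hvS C S s i D t ω) r =
        c r • rho (hvS C S s i D t ω) r +
        if r = some i then (∑ q, hvT t q * c (some q)) • rho ω (some i) else 0 := by
      intro r
      rw [hc' r, add_smul]
      congr 1
      by_cases h : r = some i
      · subst h
        rw [if_pos rfl, if_pos rfl, hii]
      · rw [if_neg h, if_neg h, zero_smul]
    rw [Finset.sum_congr rfl fun r _ => this r, Finset.sum_add_distrib]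
    congr 1
    rw [Finset.sum_ite_eq']
    simp
  have e2 : ∑ r : Row m, c r • rho (hvS C S s i D t ω) r =
      ∑ r : Row m, c r • rho ω r - (∑ q, hvT t q * c (some q)) • rho ω (some i) := by
    have : ∀ r : Row m, c r • rho (hvS C S s i D t ω) r = c r • rho ω r -
        (match r with | none => 0 | some q => hvT t q * c (some q)) • rho ω (some i) := by
      intro r
      rw [hrho r, smul_sub, smul_smul]
      cases r with
      | none => simp
      | some q => simp [mul_comm]
    rw [Finset.sum_congr rfl fun r _ => this r, Finset.sum_sub_distrib, ← Finset.sum_smul]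
    congr 2
    rw [Fintype.sum_option, zero_add]
  rw [e1, e2, sub_add_cancel]
  rfl

theorem Nf_hvS (hi : i ∉ D) : Nf (hvS C S s i D t ω) = Nf ω := by
  change fnl (hvS C S s i D t ω) (fun r => hvS C S s i D t ω (.eta r)) =
    fnl ω (fun r => ω (.eta r))
  refine fnl_hvS C S s i D t ω hi ?_ ?_
  · intro r hr
    simp only [hvS_eta]
    rw [if_neg hr, add_zero]
  · simp only [hvS_eta, if_true]

/-- The effect on the coefficients of the natural objective of the side `s'` in the state `S'`. -/
theorem cfG_hvS (S' : St m n) (s' : Bool) (r : Row m) :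
    cfG C S' s' (hvS C S s i D t ω) r = cfG C S' s' ω r +
      if r = some i ∧ s' = s ∧ i ∈ C.I s' ∧ i ∉ S'.R then
        ∑ q, hvT t q * cfG C S s ω (some q) else 0 := by
  obtain ⟨Z, hZ⟩ : ∃ Z, Z = ∑ q, hvT t q * cfG C S s ω (some q) := ⟨_, rfl⟩
  have hnu : ∀ s' j, hvS C S s i D t ω (.nu s' j) = ω (.nu s' j) +
      if s' = s ∧ j = i then Z else 0 := by
    intro s' j
    rw [hZ]
    exact hvS_nu C S s i D t ω s' j
  rw [← hZ]
  cases r with
  | none =>
    rw [if_neg (by simp), add_zero]
    refine cfG_congr C S' s' (fun j hj => ?_) (fun l => hvS_om C S s i D t ω s' none l)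
    simp at hj
  | some j =>
    unfold cfG
    simp only [hvS_om, hnu]
    by_cases hji : j = i
    · subst hji
      by_cases hs : s' = s
      · subst hs
        by_cases hI : j ∈ C.I s' ∧ j ∉ S'.R
        · simp only [hI, and_self, if_true, not_false_eq_true]
          ring
        · rw [if_neg hI, if_neg hI, if_neg]
          · ring
          · rintro ⟨-, -, h1, h2⟩
            exact hI ⟨h1, h2⟩
      · simp only [hs, false_and, and_false, if_false, add_zero]
    · have : ¬ (some j = some i ∧ s' = s ∧ i ∈ C.I s' ∧ i ∉ S'.R) := by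
        rintro ⟨h, -⟩
        exact hji (Option.some.inj h)
      rw [if_neg this]
      simp only [hji, and_false, if_false, add_zero]

theorem cfL_hvS (P : Par) (hI : i ∈ C.I s) (hR : i ∉ S.R) (hi : i ∉ D) (k : ℕ) :
    (∀ r, r ≠ some i → cfL P C S s i k (hvS C S s i D t ω) r = cfL P C S s i k ω r) ∧
    cfL P C S s i k (hvS C S s i D t ω) (some i) = cfL P C S s i k ω (some i) +
      ∑ q, hvT t q * cfL P C S s i k ω (some q) := by
  constructor
  · intro r hr
    unfold cfL
    rw [cfG_hvS, if_neg (by rintro ⟨h, -⟩; exact hr h), add_zero]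
  · have e : ∑ q, hvT t q * cfL P C S s i k ω (some q) =
        ∑ q, hvT t q * cfG C S s ω (some q) := by
      refine Finset.sum_congr rfl fun q _ => ?_
      by_cases hq : q ∈ D
      · unfold cfL
        rw [if_neg, sub_zero]
        intro h
        exact hi (Option.some.inj h ▸ hq)
      · rw [hvT_notMem t hq, zero_mul, zero_mul]
    rw [e]
    unfold cfL
    rw [cfG_hvS, if_pos ⟨rfl, rfl, hI, hR⟩]
    ring

/-- The objective of the paid leg does not change, at any position. -/
theorem fnl_cfP_hvS (P : Par) (hI : i ∈ C.I s) (hR : i ∉ S.R) (hi : i ∉ D) (p : Pos P) :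
    fnl (hvS C S s i D t ω) (cfP P C S s i p (hvS C S s i D t ω)) =
      fnl ω (cfP P C S s i p ω) := by
  cases p with
  | leg k =>
    obtain ⟨h1, h2⟩ := cfL_hvS C S s i D t ω P hI hR hi k
    exact fnl_hvS C S s i D t ω hi h1 h2
  | exit k e =>
    obtain ⟨h1, h2⟩ := cfL_hvS C S s i D t ω P hI hR hi k
    refine fnl_hvS C S s i D t ω hi ?_ ?_
    · intro r hr
      simp only [cfP, cfE]
      rw [h1 r hr, hvS_gi, if_neg (by rintro ⟨-, h⟩; exact hr h), add_zero]
    · simp only [cfP, cfE]
      rw [h2, hvS_gi, if_pos ⟨rfl, rfl⟩]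
      have e : ∑ q, hvT t q * ((1 - (e : ℝ) / P.K3) * cfL P C S s i k ω (some q) +
          P.ph * (ω (.gi i (some q)) - if (some q : Row m) = some i then P.Dd else 0)) =
          (1 - (e : ℝ) / P.K3) * (∑ q, hvT t q * cfL P C S s i k ω (some q)) +
          P.ph * ∑ q, hvT t q * ω (.gi i (some q)) := by
        rw [Finset.mul_sum, Finset.mul_sum, ← Finset.sum_add_distrib]
        refine Finset.sum_congr rfl fun q _ => ?_
        by_cases hq : q ∈ D
        · have hne : ¬ ((some q : Row m) = some i) := by
            intro h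
            rw [Option.some.injEq] at h
            exact hi (h ▸ hq)
          rw [if_neg hne]
          ring
        · rw [hvT_notMem t hq]
          ring
      rw [e]
      simp only [if_true]
      ring

end effect

end Pool.Agent.Lib.S3.PL
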