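import Pool.Agent.Lib.S3.PL.Defs
import Pool.Agent.Lib.S3.PL.OptInv
import Pool.Agent.Lib.S3.Machine

/-!
# Exact invariance of the events under the shift of a batch

`CbShift C s R0 B0 ω ω'`: `ω'` differs from `ω` only in cost coins and boost coins of the side `s`,
the moved boost coins belong to `B0`, and the total change of the functional is a combination of the
chart functional and of the rows of `R0`. Then every event of every state with `R0 ⊆ R`,
`B0 ⊆ B s` is the same at `ω` and at `ω'`. These conditions on the state are kept by every move.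
-/

set_option autoImplicit false

open Matrix

namespace Pool.Agent.Lib.S3.PL

variable {m n : ℕ}

/-- Sums over removed rows. -/
private theorem sum_up_aux (g : Fin m → ℝ) (v : Row m → Fin (n + 1) → ℝ) (R : Finset (Fin m)) :
    ∑ r ∈ up R, (match r with
      | none => (0 : ℝ)
      | some j => g j) • v r = ∑ j ∈ R, g j • v (some j) := by
  unfold up
  rw [Finset.sum_map]
  rfl

/-- Sums over all rows, with the removed rows left out. -/
private theorem sum_opt_aux (g : Fin m → ℝ) (v : Row m → Fin (n + 1) → ℝ) (R : Finset (Fin m)) :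
    ∑ r : Row m, (match r with
      | none => (0 : ℝ)
      | some j => g j - (if j ∈ R then g j else 0)) • v r =
      ∑ j : Fin m, g j • v (some j) - ∑ j ∈ R, g j • v (some j) := by
  rw [Fintype.sum_option]
  simp only [zero_smul, zero_add, sub_smul, Finset.sum_sub_distrib]
  congr 1
  rw [← Finset.sum_filter_add_sum_filter_not Finset.univ (fun j => j ∈ R)]
  have e3 : ∑ j ∈ Finset.univ.filter (fun j => ¬ j ∈ R),
      (if j ∈ R then g j else 0) • v (some j) = 0 :=
    Finset.sum_eq_zero fun j hj => by rw [if_neg (Finset.mem_filter.1 hj).2, zero_smul]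
  rw [e3, add_zero]
  have e4 : Finset.univ.filter (fun j => j ∈ R) = R := by
    ext j; simp
  rw [e4]
  exact Finset.sum_congr rfl fun j hj => by rw [if_pos hj]

/-- `ω'` is obtained from `ω` by a shift of cost coins and boost coins of the side `s`. -/
structure CbShift (C : Cf m) (s : Bool) (R0 : Finset (Fin m))
    (B0 : Finset (Row m × Fin (n + 1))) (ω ω' : Om m n) : Prop where
  row : ∀ r j, ω' (.row r j) = ω (.row r j)
  eta : ∀ r, ω' (.eta r) = ω (.eta r)
  nu : ∀ s', s' ≠ s → ∀ j, ω' (.nu s' j) = ω (.nu s' j)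
  om : ∀ s', s' ≠ s → ∀ r l, ω' (.om s' r l) = ω (.om s' r l)
  gi : ∀ i r, ω' (.gi i r) = ω (.gi i r)
  nuI : ∀ j, ω' (.nu s j) ≠ ω (.nu s j) → j ∈ C.I s
  omB : ∀ r l, ω' (.om s r l) ≠ ω (.om s r l) → (r, l) ∈ B0
  fn : ∃ (a : ℝ) (b : Row m → ℝ),
    ∑ j : Fin m, (ω' (.nu s j) - ω (.nu s j)) • rho ω (some j) +
      ∑ r : Row m, ∑ l : Fin (n + 1), (ω' (.om s r l) - ω (.om s r l)) • rho ω r =
    a • Nf ω + ∑ r ∈ up R0, b r • rho ω r

section

variable {C : Cf m} {s : Bool} {R0 : Finset (Fin m)} {B0 : Finset (Row m × Fin (n + 1))}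
  {ω ω' : Om m n}

theorem CbShift.rho_eq (h : CbShift C s R0 B0 ω ω') : rho ω' = rho ω := by
  funext r
  cases r with
  | none => rfl
  | some r => funext j; exact h.row r j

theorem CbShift.Nf_eq (h : CbShift C s R0 B0 ω ω') : Nf ω' = Nf ω := by
  unfold Nf
  rw [h.rho_eq]
  exact Finset.sum_congr rfl fun r _ => by rw [h.eta r]

theorem CbShift.symm (h : CbShift C s R0 B0 ω ω') : CbShift C s R0 B0 ω' ω where
  row r j := (h.row r j).symm
  eta r := (h.eta r).symm
  nu s' hs j := (h.nu s' hs j).symm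
  om s' hs r l := (h.om s' hs r l).symm
  gi i r := (h.gi i r).symm
  nuI j hj := h.nuI j (Ne.symm hj)
  omB r l hl := h.omB r l (Ne.symm hl)
  fn := by
    obtain ⟨a, b, hab⟩ := h.fn
    refine ⟨-a, fun r => -b r, ?_⟩
    rw [h.rho_eq, h.Nf_eq]
    have h1 : ∑ j : Fin m, (ω (.nu s j) - ω' (.nu s j)) • rho ω (some j) =
        -∑ j : Fin m, (ω' (.nu s j) - ω (.nu s j)) • rho ω (some j) := by
      rw [← Finset.sum_neg_distrib]
      exact Finset.sum_congr rfl fun j _ => by rw [← neg_smul, neg_sub]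
    have h2 : ∑ r : Row m, ∑ l : Fin (n + 1), (ω (.om s r l) - ω' (.om s r l)) • rho ω r =
        -∑ r : Row m, ∑ l : Fin (n + 1), (ω' (.om s r l) - ω (.om s r l)) • rho ω r := by
      rw [← Finset.sum_neg_distrib]
      refine Finset.sum_congr rfl fun r _ => ?_
      rw [← Finset.sum_neg_distrib]
      exact Finset.sum_congr rfl fun l _ => by rw [← neg_smul, neg_sub]
    have h3 : ∑ r ∈ up R0, -b r • rho ω r = -∑ r ∈ up R0, b r • rho ω r := by
      rw [← Finset.sum_neg_distrib]
      exact Finset.sum_congr rfl fun r _ => by rw [neg_smul]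
    rw [h1, h2, ← neg_add, hab, h3, neg_smul, neg_add]

/-- The objective of the side `s` changes by a combination of the chart functional and of removed
rows. -/
theorem CbShift.fnl_cfG (h : CbShift C s R0 B0 ω ω') {S : St m n} (hR : R0 ⊆ S.R)
    (hB : B0 ⊆ S.B s) :
    ∃ (a : ℝ) (b : Row m → ℝ), fnl ω' (cfG C S s ω') =
      fnl ω (cfG C S s ω) + a • Nf ω + ∑ r ∈ up S.R, b r • rho ω r := by
  classical
  obtain ⟨a, b, hab⟩ := h.fn
  -- the difference of the coefficients
  have hd : ∀ r : Row m, cfG C S s ω' r = cfG C S s ω r +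
      ((match r with
        | none => 0
        | some j => (ω' (.nu s j) - ω (.nu s j)) -
            (if j ∈ S.R then ω' (.nu s j) - ω (.nu s j) else 0)) +
        ∑ l : Fin (n + 1), (ω' (.om s r l) - ω (.om s r l))) := by
    intro r
    have hom : ∑ l : Fin (n + 1), (if (r, l) ∈ S.B s then ω' (.om s r l) else 0) =
        ∑ l : Fin (n + 1), (if (r, l) ∈ S.B s then ω (.om s r l) else 0) +
          ∑ l : Fin (n + 1), (ω' (.om s r l) - ω (.om s r l)) := by
      rw [← Finset.sum_add_distrib]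
      refine Finset.sum_congr rfl fun l _ => ?_
      by_cases hl : (r, l) ∈ S.B s
      · rw [if_pos hl, if_pos hl]; ring
      · rw [if_neg hl, if_neg hl]
        have : ω' (.om s r l) = ω (.om s r l) := by
          by_contra hne
          exact hl (hB (h.omB r l hne))
        rw [this]; ring
    unfold cfG
    rw [hom]
    cases r with
    | none => simp only; ring
    | some j =>
      simp only
      by_cases hj : j ∈ C.I s
      · by_cases hjR : j ∈ S.R
        · rw [if_neg (fun hh => hh.2 hjR), if_neg (fun hh => hh.2 hjR), if_pos hjR]; ring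
        · rw [if_pos ⟨hj, hjR⟩, if_pos ⟨hj, hjR⟩, if_neg hjR]; ring
      · have h0 : ω' (.nu s j) = ω (.nu s j) := by
          by_contra hne
          exact hj (h.nuI j hne)
        rw [if_neg (fun hh => hj hh.1), if_neg (fun hh => hj hh.1), h0]
        simp
  refine ⟨a, fun r => (if r ∈ up R0 then b r else 0) -
    (match r with
      | none => 0
      | some j => ω' (.nu s j) - ω (.nu s j)), ?_⟩
  have hRup : up R0 ⊆ up S.R := by
    unfold up
    exact Finset.map_subset_map.2 hR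
  have e1 : ∑ r ∈ up S.R, ((if r ∈ up R0 then b r else 0) -
      (match r with
        | none => 0
        | some j => ω' (.nu s j) - ω (.nu s j))) • rho ω r =
      ∑ r ∈ up R0, b r • rho ω r -
        ∑ j ∈ S.R, (ω' (.nu s j) - ω (.nu s j)) • rho ω (some j) := by
    rw [← sum_up_aux (fun j => ω' (.nu s j) - ω (.nu s j)) (rho ω) S.R]
    have e7 : ∑ r ∈ up R0, b r • rho ω r =
        ∑ r ∈ up S.R, (if r ∈ up R0 then b r else 0) • rho ω r := by
      rw [← Finset.sum_subset hRup (f := fun r => (if r ∈ up R0 then b r else 0) • rho ω r)]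
      · exact Finset.sum_congr rfl fun r hr => by rw [if_pos hr]
      · intro r _ hr
        rw [if_neg hr, zero_smul]
    rw [e7, ← Finset.sum_sub_distrib]
    exact Finset.sum_congr rfl fun r _ => sub_smul _ _ _
  have e2 := sum_opt_aux (fun j => ω' (.nu s j) - ω (.nu s j)) (rho ω) S.R
  have e5 : fnl ω' (cfG C S s ω') = fnl ω (cfG C S s ω) +
      (∑ r : Row m, (match r with
        | none => (0 : ℝ)
        | some j => (ω' (.nu s j) - ω (.nu s j)) -
            (if j ∈ S.R then ω' (.nu s j) - ω (.nu s j) else 0)) • rho ω r +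
      ∑ r : Row m, ∑ l : Fin (n + 1), (ω' (.om s r l) - ω (.om s r l)) • rho ω r) := by
    unfold fnl
    rw [h.rho_eq, ← Finset.sum_add_distrib, ← Finset.sum_add_distrib]
    refine Finset.sum_congr rfl fun r _ => ?_
    rw [hd r, add_smul, add_smul, Finset.sum_smul]
  rw [e5, e2, e1]
  have e6 : ∀ A B D E : Fin (n + 1) → ℝ, A + (B - D + E) = A + (B + E) - D := by
    intro A B D E; abel
  rw [e6, hab]
  abel

theorem CbShift.cfG_other (h : CbShift C s R0 B0 ω ω') (S : St m n) {s' : Bool} (hs : s' ≠ s) :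
    cfG C S s' ω' = cfG C S s' ω := by
  classical
  funext r
  unfold cfG
  have h1 : ∀ l, ω' (.om s' r l) = ω (.om s' r l) := fun l => h.om s' hs r l
  simp only [h1]
  cases r with
  | none => rfl
  | some j => simp only [h.nu s' hs j]

/-- The objectives of both sides. -/
theorem CbShift.fnl_cfG' (h : CbShift C s R0 B0 ω ω') {S : St m n} (hR : R0 ⊆ S.R)
    (hB : B0 ⊆ S.B s) (s' : Bool) :
    ∃ (a : ℝ) (b : Row m → ℝ), fnl ω' (cfG C S s' ω') =
      fnl ω (cfG C S s' ω) + a • Nf ω + ∑ r ∈ up S.R, b r • rho ω r := by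
  by_cases hs : s' = s
  · rw [hs]; exact h.fnl_cfG hR hB
  · refine ⟨0, fun _ => 0, ?_⟩
    unfold fnl
    rw [h.cfG_other S hs, h.rho_eq]
    simp

theorem cbs_fnl_comb (ω : Om m n) (c c' : Row m → ℝ) (a b : ℝ) :
    fnl ω (fun r => a * c r + b * c' r) = a • fnl ω c + b • fnl ω c' := by
  unfold fnl
  rw [Finset.smul_sum, Finset.smul_sum, ← Finset.sum_add_distrib]
  exact Finset.sum_congr rfl fun r _ => by rw [add_smul, mul_smul, mul_smul]

theorem cbs_fnl_sub (ω : Om m n) (c c' : Row m → ℝ) :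
    fnl ω (fun r => c r - c' r) = fnl ω c - fnl ω c' := by
  unfold fnl
  rw [← Finset.sum_sub_distrib]
  exact Finset.sum_congr rfl fun r _ => by rw [sub_smul]

theorem CbShift.fnl_const (h : CbShift C s R0 B0 ω ω') (c : Row m → ℝ) : fnl ω' c = fnl ω c := by
  unfold fnl; rw [h.rho_eq]

theorem CbShift.cns_L (P : Par) (h : CbShift C s R0 B0 ω ω') {S : St m n} (hR : R0 ⊆ S.R)
    (hB : B0 ⊆ S.B s) (s' : Bool) (i : Fin m) (k : ℕ) :
    Cns (Nf ω) (rho ω) (fnl ω (cfL P C S s' i k ω)) (fnl ω' (cfL P C S s' i k ω'))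
      (up S.R) := by
  obtain ⟨a, b, hab⟩ := h.fnl_cfG' hR hB s'
  refine ⟨a, b, ?_⟩
  have e1 : ∀ ω : Om m n, fnl ω (cfL P C S s' i k ω) = fnl ω (cfG C S s' ω) -
      fnl ω (fun r => if r = some i then (k : ℝ) * P.dl else 0) := fun ω => cbs_fnl_sub ω _ _
  rw [e1, e1, hab, h.fnl_const]
  abel

theorem CbShift.cns_E (P : Par) (h : CbShift C s R0 B0 ω ω') {S : St m n} (hR : R0 ⊆ S.R)
    (hB : B0 ⊆ S.B s) (s' : Bool) (i : Fin m) (k e : ℕ) :
    Cns (Nf ω) (rho ω) (fnl ω (cfE P C S s' i k e ω)) (fnl ω' (cfE P C S s' i k e ω'))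
      (up S.R) := by
  obtain ⟨a, b, hab⟩ := (h.cns_L P hR hB s' i k).fn
  refine ⟨(1 - (e : ℝ) / P.K3) * a, fun r => (1 - (e : ℝ) / P.K3) * b r, ?_⟩
  have e1 : ∀ ω : Om m n, fnl ω (cfE P C S s' i k e ω) =
      (1 - (e : ℝ) / P.K3) • fnl ω (cfL P C S s' i k ω) +
        P.ph • fnl ω (fun r => ω (.gi i r) - if r = some i then P.Dd else 0) :=
    fun ω => cbs_fnl_comb ω _ _ _ _
  have e2 : (fun r : Row m => ω' (.gi i r) - if r = some i then P.Dd else 0) =
      fun r => ω (.gi i r) - if r = some i then P.Dd else 0 := by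
    funext r; rw [h.gi i r]
  have e3 : ∑ r ∈ up S.R, ((1 - (e : ℝ) / P.K3) * b r) • rho ω r =
      (1 - (e : ℝ) / P.K3) • ∑ r ∈ up S.R, b r • rho ω r := by
    rw [Finset.smul_sum]
    exact Finset.sum_congr rfl fun r _ => by rw [mul_smul]
  rw [e1, e1, e2, hab, h.fnl_const, e3, smul_add, smul_add, mul_smul]
  abel

theorem CbShift.cns_P (P : Par) (h : CbShift C s R0 B0 ω ω') {S : St m n} (hR : R0 ⊆ S.R)
    (hB : B0 ⊆ S.B s) (s' : Bool) (i : Fin m) (p : Pos P) :
    Cns (Nf ω) (rho ω) (fnl ω (cfP P C S s' i p ω)) (fnl ω' (cfP P C S s' i p ω'))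
      (up S.R) := by
  cases p with
  | leg k => exact h.cns_L P hR hB s' i k
  | exit k e => exact h.cns_E P hR hB s' i k e

/-- **Every event of every state with `R0 ⊆ R`, `B0 ⊆ B s` is invariant.** -/
theorem CbShift.ev (P : Par) (h : CbShift C s R0 B0 ω ω') {S : St m n} (hR : R0 ⊆ S.R)
    (hB : B0 ⊆ S.B s) (mv : Mv m P) (hω : ω ∈ Ev P C S mv) : ω' ∈ Ev P C S mv := by
  cases mv with
  | hv s' i p D =>
    obtain ⟨h1, h2, h3, h4, e, he, hD⟩ := hω
    refine ⟨h1, h2, h3, h4, e, ?_, ?_⟩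
    · rw [h.rho_eq, h.Nf_eq]
      exact (h.cns_P P hR hB s' i p).opt he
    · rw [h.rho_eq, h.Nf_eq]; exact hD
  | lf s' i k e T =>
    obtain ⟨h1, h2, h3, f, hf, hT⟩ := hω
    refine ⟨h1, h2, h3, f, ?_, fun r hr => ?_⟩
    · rw [h.rho_eq, h.Nf_eq]
      exact (h.cns_E P hR hB s' i k e).opt hf
    · obtain ⟨k', hk', hl⟩ := hT r hr
      refine ⟨k', hk', ?_⟩
      rw [h.rho_eq, h.Nf_eq, (h.cns_E P hR hB s' i k e).lam_eq hf.det hf.sub]
      · exact hl
      · rw [hk']; exact Finset.disjoint_left.1 h3 hr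
  | cb s' i k T =>
    obtain ⟨h1, h2, h3, ⟨f, hf, hT⟩, e, he⟩ := hω
    refine ⟨h1, h2, h3, ⟨f, ?_, fun r hr => ?_⟩, e, ?_⟩
    · rw [h.rho_eq, h.Nf_eq]
      exact (h.cns_L P hR hB s' i k).opt hf
    · obtain ⟨k', hk', hl⟩ := hT r hr
      refine ⟨k', hk', ?_⟩
      rw [h.rho_eq, h.Nf_eq, (h.cns_L P hR hB s' i k).lam_eq hf.det hf.sub]
      · exact hl
      · rw [hk']; exact Finset.disjoint_left.1 h3 hr
    · unfold RepB at he ⊢
      rw [h.rho_eq, h.Nf_eq]
      exact he
  | cw s' i k W => exact hω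

theorem CbShift.ev_iff (P : Par) (h : CbShift C s R0 B0 ω ω') {S : St m n} (hR : R0 ⊆ S.R)
    (hB : B0 ⊆ S.B s) (mv : Mv m P) : ω ∈ Ev P C S mv ↔ ω' ∈ Ev P C S mv :=
  ⟨h.ev P hR hB mv, h.symm.ev P hR hB mv⟩

end

/-- The removed rows only grow. -/
theorem sub_nxt_R (P : Par) {S : St m n} {R0 : Finset (Fin m)} (hR : R0 ⊆ S.R) (mv : Mv m P) :
    R0 ⊆ (nxt P S mv).R := by
  cases mv with
  | hv s i p D => exact hR.trans (Finset.subset_insert _ _)
  | lf s i k e T => exact hR.trans (Finset.subset_insert _ _)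
  | cb s i k T => exact hR
  | cw s i k W => exact hR

/-- The boosted rows only grow. -/
theorem sub_nxt_B (P : Par) {S : St m n} {s : Bool} {B0 : Finset (Row m × Fin (n + 1))}
    (hB : B0 ⊆ S.B s) (mv : Mv m P) : B0 ⊆ (nxt P S mv).B s := by
  classical
  cases mv with
  | hv s' i p D => exact hB
  | lf s' i k e T => exact hB
  | cb s' i k T =>
    unfold nxt
    simp only
    by_cases hs : s = s'
    · rw [if_pos hs]
      exact hB.trans Finset.subset_union_left
    · rw [if_neg hs]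
      exact hB
  | cw s' i k W =>
    unfold nxt
    simp only
    by_cases hs : s = s'
    · rw [if_pos hs]
      exact hB.trans Finset.subset_union_left
    · rw [if_neg hs]
      exact hB

/-- The batch is contained in the boosted rows after the move. -/
theorem mem_nxt_cb_B (P : Par) (S : St m n) (s : Bool) (i : Fin m) (k : Fin (P.K1 + 1))
    (T : Finset (Row m)) {r : Row m} (hr : r ∈ T) :
    (r, Fin.ofNat (n + 1) S.t) ∈ (nxt P S (.cb s i k T)).B s := by
  classical
  unfold nxt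
  simp only [if_true]
  exact Finset.mem_union_right _ (Finset.mem_product.2 ⟨hr, Finset.mem_singleton_self _⟩)

/-- Strings of moves are invariant. -/
theorem CbShift.rl (P : Par) {C : Cf m} {s : Bool} {R0 : Finset (Fin m)}
    {B0 : Finset (Row m × Fin (n + 1))} {ω ω' : Om m n} (h : CbShift C s R0 B0 ω ω')
    (l : List (Mv m P)) : ∀ {S : St m n}, R0 ⊆ S.R → B0 ⊆ S.B s →
      ω ∈ Rl P C S l → ω' ∈ Rl P C S l := by
  induction l with
  | nil => intro S _ _ _; exact Set.mem_univ _
  | cons mv l ih =>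
    intro S hR hB hω
    exact ⟨h.ev P hR hB mv hω.1, ih (sub_nxt_R P hR mv) (sub_nxt_B P hB mv) hω.2⟩

/-- **The bad event of a machine is invariant** under a shift, for every state which contains the
batch. -/
theorem CbShift.badU (P : Par) {C : Cf m} {s : Bool} {R0 : Finset (Fin m)}
    {B0 : Finset (Row m × Fin (n + 1))} {ω ω' : Om m n} (h : CbShift C s R0 B0 ω ω')
    (M : Mach.Machine (Om m n) (St m n) (Mv m P)) (hev : M.ev = Ev P C)
    (hstep : M.step = nxt P) (j : ℕ) : ∀ (w : ℕ) {S : St m n}, R0 ⊆ S.R → B0 ⊆ S.B s →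
      ω ∈ Mach.BadU M j w S → ω' ∈ Mach.BadU M j w S := by
  induction j with
  | zero => intro w S _ _ _; exact Set.mem_univ _
  | succ j ih =>
    intro w S hR hB hω
    obtain ⟨l, hl, hw, he, hb⟩ := hω
    refine ⟨l, hl, hw, ?_, ?_⟩
    · rw [hev] at he ⊢
      exact h.ev P hR hB l he
    · rw [hstep] at hb ⊢
      exact ih _ (sub_nxt_R P hR l) (sub_nxt_B P hB l) hb

/-- Vertices and feasibility only see the rows. -/
theorem CbShift.vx {C C' : Cf m} {s : Bool} {R0 : Finset (Fin m)}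
    {B0 : Finset (Row m × Fin (n + 1))} {ω ω' : Om m n} (h : CbShift C s R0 B0 ω ω')
    (hω : ω ∈ Vx C') : ω' ∈ Vx C' := by
  intro s'
  obtain ⟨h1, e, he⟩ := hω s'
  exact ⟨h1, e, by rw [h.rho_eq, h.Nf_eq]; exact he⟩

end Pool.Agent.Lib.S3.PL
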