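import Pool.Agent.Lib.S3.PL.Defs
import Pool.Agent.Lib.S3.PL.OptInv
import Pool.Agent.Lib.S3.Machine

/-!
# Invariance of later events under the shift of a failed leg

`HvRel i ω ω'`: `ω'` arises from `ω` by adding multiples of the row `i` to the other rows and by
changing the coins of the column `i` in such a way that the chart functional is the same. If the
column `i` is removed in the state `S` then every event of `S`, and of all later states, holds for
`ω` if and only if it holds for `ω'`. The same is true for `Vx` if `i` belongs to both bases.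
-/

set_option autoImplicit false

open MeasureTheory Matrix

namespace Pool.Agent.Lib.S3.PL

variable {m n : ℕ}

/-- `ω'` arises from `ω` by a shear with the row `i`. -/
structure HvRel (i : Fin m) (ω ω' : Om m n) : Prop where
  row : ∃ t : Fin m → ℝ, t i = 0 ∧ ∀ r j, ω' (.row r j) = ω (.row r j) + t r * ω (.row i j)
  N : Nf ω' = Nf ω
  nu : ∀ s j, j ≠ i → ω' (.nu s j) = ω (.nu s j)
  om : ∀ s r l, ω' (.om s r l) = ω (.om s r l)
  gi : ∀ i' r, i' ≠ i → ω' (.gi i' r) = ω (.gi i' r)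

theorem HvRel.symm {i : Fin m} {ω ω' : Om m n} (h : HvRel i ω ω') : HvRel i ω' ω where
  row := by
    obtain ⟨t, ht, hr⟩ := h.row
    refine ⟨fun r => - t r, by simp [ht], fun r j => ?_⟩
    rw [hr r j, hr i j, ht]
    ring
  N := h.N.symm
  nu := fun s j hj => (h.nu s j hj).symm
  om := fun s r l => (h.om s r l).symm
  gi := fun i' r hi => (h.gi i' r hi).symm

theorem HvRel.rows {i : Fin m} {ω ω' : Om m n} (h : HvRel i ω ω') :
    ∃ τ : Row m → ℝ, rho ω' (some i) = rho ω (some i) ∧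
      ∀ r, rho ω' r = rho ω r + τ r • rho ω (some i) := by
  obtain ⟨t, ht, hr⟩ := h.row
  refine ⟨fun r => r.elim 0 t, ?_, ?_⟩
  · funext j
    change ω' (.row i j) = ω (.row i j)
    rw [hr i j, ht, zero_mul, add_zero]
  · intro r
    cases r with
    | none => simp [rho]
    | some r =>
      funext j
      change ω' (.row r j) = ω (.row r j) + t r * ω (.row i j)
      exact hr r j

/-- The coefficients of the later objectives do not change. -/
theorem HvRel.cfG_eq {i : Fin m} {ω ω' : Om m n} (h : HvRel i ω ω') (C : Cf m) (S : St m n)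
    (hi : i ∈ S.R) (s : Bool) : cfG C S s ω' = cfG C S s ω := by
  funext r
  unfold cfG
  congr 1
  · cases r with
    | none => rfl
    | some j =>
      by_cases hj : j ∈ C.I s ∧ j ∉ S.R
      · simp only [if_pos hj]
        rw [h.nu s j (fun hji => hj.2 (hji ▸ hi))]
      · simp only [if_neg hj]
  · refine Finset.sum_congr rfl fun l _ => ?_
    rw [h.om s r l]

theorem HvRel.cfL_eq {i : Fin m} {ω ω' : Om m n} (h : HvRel i ω ω') (P : Par) (C : Cf m)
    (S : St m n) (hi : i ∈ S.R) (s : Bool) (i' : Fin m) (k : ℕ) :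
    cfL P C S s i' k ω' = cfL P C S s i' k ω := by
  funext r
  unfold cfL
  rw [h.cfG_eq C S hi s]

theorem HvRel.cfE_eq {i : Fin m} {ω ω' : Om m n} (h : HvRel i ω ω') (P : Par) (C : Cf m)
    (S : St m n) (hi : i ∈ S.R) (s : Bool) {i' : Fin m} (hi' : i' ≠ i) (k e : ℕ) :
    cfE P C S s i' k e ω' = cfE P C S s i' k e ω := by
  funext r
  unfold cfE
  rw [h.cfL_eq P C S hi s, h.gi i' r hi']

theorem HvRel.cfP_eq {i : Fin m} {ω ω' : Om m n} (h : HvRel i ω ω') (P : Par) (C : Cf m)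
    (S : St m n) (hi : i ∈ S.R) (s : Bool) {i' : Fin m} (hi' : i' ≠ i) (p : Pos P) :
    cfP P C S s i' p ω' = cfP P C S s i' p ω := by
  cases p with
  | leg k => exact h.cfL_eq P C S hi s i' k
  | exit k e => exact h.cfE_eq P C S hi s hi' k e

/-- The shear structure for a functional with the same coefficients. -/
theorem HvRel.shr {i : Fin m} {ω ω' : Om m n} (h : HvRel i ω ω') {R : Finset (Fin m)}
    (hi : i ∈ R) (c : Row m → ℝ) :
    Shr (Nf ω) (rho ω) (rho ω') (fnl ω c) (fnl ω' c) (up R) := by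
  obtain ⟨τ, hii, hr⟩ := h.rows
  refine ⟨⟨some i, mem_up.2 hi, hii, fun r => ⟨τ r, hr r⟩⟩, 0,
    fun r => if r = some i then ∑ r, c r * τ r else 0, ?_⟩
  have h1 : ∑ r ∈ up R, (if r = some i then ∑ r, c r * τ r else 0) • rho ω r =
      (∑ r, c r * τ r) • rho ω (some i) := by
    rw [Finset.sum_eq_single_of_mem (some i) (mem_up.2 hi)]
    · rw [if_pos rfl]
    · intro b _ hb
      rw [if_neg hb, zero_smul]
  rw [h1, zero_smul, add_zero]
  unfold fnl
  rw [Finset.sum_smul, ← Finset.sum_add_distrib]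
  refine Finset.sum_congr rfl fun r _ => ?_
  rw [hr r, smul_add, smul_smul]

/-- The shear structure for a row. -/
theorem HvRel.shr_row {i : Fin m} {ω ω' : Om m n} (h : HvRel i ω ω') {R : Finset (Fin m)}
    (hi : i ∈ R) (r : Row m) :
    Shr (Nf ω) (rho ω) (rho ω') (rho ω r) (rho ω' r) (up R) := by
  obtain ⟨τ, hii, hr⟩ := h.rows
  refine ⟨⟨some i, mem_up.2 hi, hii, fun r => ⟨τ r, hr r⟩⟩, 0,
    fun r' => if r' = some i then τ r else 0, ?_⟩
  have h1 : ∑ r' ∈ up R, (if r' = some i then τ r else 0) • rho ω r' =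
      τ r • rho ω (some i) := by
    rw [Finset.sum_eq_single_of_mem (some i) (mem_up.2 hi)]
    · rw [if_pos rfl]
    · intro b _ hb
      rw [if_neg hb, zero_smul]
  rw [h1, zero_smul, add_zero, hr r]

section ev

variable {P : Par} {C : Cf m} {S : St m n} {s : Bool} {i : Fin m} {ω ω' : Om m n}

theorem HvRel.repB (h : HvRel i ω ω') (hi : i ∈ S.R) {T : Finset (Row m)} {e : Fin n → Row m}
    (hr : RepB P C S s ω T e) : RepB P C S s ω' T e := by
  obtain ⟨h1, h2, h3, h4⟩ := hr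
  refine ⟨?_, h2, h3, ?_⟩
  · rw [h.N, (h.shr hi 0).det_eq h2]
    exact h1
  · intro r hrT k hk
    have := (h.shr_row hi r).lam_eq h1 h2 hk
    rw [h.N, this]
    exact h4 r hrT k hk

theorem HvRel.evHV (h : HvRel i ω ω') (hi : i ∈ S.R) {i' : Fin m} {p : Pos P}
    {D : Finset (Fin m)} (hω : ω ∈ EvHV P C S s i' p D) : ω' ∈ EvHV P C S s i' p D := by
  obtain ⟨hok, hc, hiD, hdis, e, ho, hb⟩ := hω
  have hne : i' ≠ i := fun hh => hok.2.2.1 (hh ▸ hi)
  refine ⟨hok, hc, hiD, hdis, e, ?_, ?_⟩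
  · rw [h.N, h.cfP_eq P C S hi s hne p]
    exact (h.shr hi _).opt ho
  · intro r hr
    have hs := h.shr (R := S.R) hi (cfP P C S s i' p ω)
    rw [h.N, hs.row_pt_eq ho.det ho.sub, hs.row_pt_eq ho.det ho.sub]
    exact hb r hr

theorem HvRel.evLF (h : HvRel i ω ω') (hi : i ∈ S.R) {i' : Fin m} {k e : ℕ}
    {T : Finset (Row m)} (hω : ω ∈ EvLF P C S s i' k e T) : ω' ∈ EvLF P C S s i' k e T := by
  obtain ⟨hok, hc, hdis, f, ho, hb⟩ := hω
  have hne : i' ≠ i := fun hh => hok.2.2.1 (hh ▸ hi)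
  have hs := h.shr (R := S.R) hi (cfE P C S s i' k e ω)
  refine ⟨hok, hc, hdis, f, ?_, ?_⟩
  · rw [h.N, h.cfE_eq P C S hi s hne k e]
    exact hs.opt ho
  · intro r hr
    obtain ⟨k', hk', hl⟩ := hb r hr
    refine ⟨k', hk', ?_⟩
    rw [h.N, h.cfE_eq P C S hi s hne k e, hs.lam_eq ho.det ho.sub]
    · exact hl
    · rw [hk']
      exact Finset.disjoint_left.1 hdis hr

theorem HvRel.evCB (h : HvRel i ω ω') (hi : i ∈ S.R) {i' : Fin m} {k : ℕ}
    {T : Finset (Row m)} (hω : ω ∈ EvCB P C S s i' k T) : ω' ∈ EvCB P C S s i' k T := by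
  obtain ⟨hok, hc, hdis, ⟨f, ho, hb⟩, e, he⟩ := hω
  have hs := h.shr (R := S.R) hi (cfL P C S s i' k ω)
  refine ⟨hok, hc, hdis, ⟨f, ?_, ?_⟩, e, h.repB hi he⟩
  · rw [h.N, h.cfL_eq P C S hi s i' k]
    exact hs.opt ho
  · intro r hr
    obtain ⟨k', hk', hl⟩ := hb r hr
    refine ⟨k', hk', ?_⟩
    rw [h.N, h.cfL_eq P C S hi s i' k, hs.lam_eq ho.det ho.sub]
    · exact hl
    · rw [hk']
      exact Finset.disjoint_left.1 hdis hr

theorem HvRel.ev (h : HvRel i ω ω') (hi : i ∈ S.R) {mv : Mv m P} (hω : ω ∈ Ev P C S mv) :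
    ω' ∈ Ev P C S mv := by
  cases mv with
  | hv s i' p D => exact h.evHV hi hω
  | lf s i' k e T => exact h.evLF hi hω
  | cb s i' k T => exact h.evCB hi hω
  | cw s i' k W => exact hω

theorem HvRel.ev_iff (h : HvRel i ω ω') (hi : i ∈ S.R) (mv : Mv m P) :
    ω' ∈ Ev P C S mv ↔ ω ∈ Ev P C S mv :=
  ⟨fun hh => h.symm.ev hi hh, fun hh => h.ev hi hh⟩

theorem mem_nxt_R (hi : i ∈ S.R) (mv : Mv m P) : i ∈ (nxt P S mv).R := by
  cases mv with
  | hv s i' p D => exact Finset.mem_insert_of_mem hi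
  | lf s i' k e T => exact Finset.mem_insert_of_mem hi
  | cb s i' k T => exact hi
  | cw s i' k W => exact hi

theorem HvRel.rl_iff (h : HvRel i ω ω') (l : List (Mv m P)) : ∀ (S : St m n), i ∈ S.R →
    (ω' ∈ Rl P C S l ↔ ω ∈ Rl P C S l) := by
  induction l with
  | nil => intro S _; exact Iff.rfl
  | cons mv l ih =>
    intro S hS
    exact and_congr (h.ev_iff hS mv) (ih _ (mem_nxt_R hS mv))

/-- Invariance of the set of bad points of any machine with these events. -/
theorem HvRel.badU_iff {M : Mach.Machine (Om m n) (St m n) (Mv m P)}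
    (hev : ∀ S mv, M.ev S mv = Ev P C S mv) (hst : ∀ S mv, M.step S mv = nxt P S mv)
    (h : HvRel i ω ω') (hi : i ∈ S.R) (j w : ℕ) :
    (ω' ∈ Mach.BadU M j w S ↔ ω ∈ Mach.BadU M j w S) := by
  induction j generalizing w S with
  | zero => exact Iff.rfl
  | succ j ih =>
    rw [Mach.mem_BadU_succ, Mach.mem_BadU_succ]
    refine exists_congr fun l => and_congr_right fun _ => and_congr_right fun _ => ?_
    rw [hev, h.ev_iff hi l]
    have : i ∈ (M.step S l).R := by rw [hst]; exact mem_nxt_R hi l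
    rw [ih this]

theorem HvRel.vx (h : HvRel i ω ω') (h0 : i ∈ C.I false) (h1 : i ∈ C.I true)
    (hω : ω ∈ Vx (n := n) C) : ω' ∈ Vx (n := n) C := by
  intro s
  obtain ⟨hc, e, ho⟩ := hω s
  have hi : i ∈ C.I s := by cases s <;> assumption
  refine ⟨hc, e, ?_⟩
  rw [h.N]
  have hs := h.shr (R := C.I s) hi 0
  have e1 : ∀ ω : Om m n, fnl ω 0 = 0 := fun ω => by simp [fnl]
  rw [e1, e1] at hs
  exact hs.opt ho

theorem HvRel.vx_iff (h : HvRel i ω ω') (h0 : i ∈ C.I false) (h1 : i ∈ C.I true) :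
    (ω' ∈ Vx (n := n) C ↔ ω ∈ Vx (n := n) C) :=
  ⟨fun hh => h.symm.vx h0 h1 hh, fun hh => h.vx h0 h1 hh⟩

end ev

end Pool.Agent.Lib.S3.PL
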