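import Pool.Agent.Lib.S3.PL.DirCB
import Pool.Agent.Lib.S3.PayLin

/-!
# The shift which pays for a light node in a leg, and the objectives after it

`sft P C S s T t ω`: the shift with parameters `t` (one for every row of the batch `T`). Rows, chart,
exit coins and the coins of the other side are not moved (`rho_sft`, `Nf_sft`, `sft_row`, ...). The
natural objective of the side `s`

* at the present state goes down by `∑ t_r ρ_r` (`gam_before`),
* at all later states does not change (`gam_after`),

both modulo the chart functional and the removed rows.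
-/

set_option autoImplicit false

open MeasureTheory Matrix

namespace Pool.Agent.Lib.S3.PL.CB

variable {m n : ℕ}

/-- The shift. -/
noncomputable def sft (P : Par) (C : Cf m) (S : St m n) (s : Bool) (T : Finset (Row m))
    (t : T → ℝ) (ω : Om m n) : Om m n :=
  PayLin.shift (fun (r : T) ω => dirCB P C S s T r ω) t ω

section

variable (P : Par) (C : Cf m) (S : St m n) (s : Bool) (T : Finset (Row m)) (t : T → ℝ) (ω : Om m n)

theorem sft_apply (c : Co m n) :
    sft P C S s T t ω c = ω c + ∑ r : T, t r * dirCB P C S s T r ω c := rfl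

theorem sft_not {c : Co m n} (hc : ¬ MvC s c) : sft P C S s T t ω c = ω c := by
  rw [sft_apply, Finset.sum_eq_zero, add_zero]
  intro r _
  rw [dirCB_supp P C S s T r ω c hc, mul_zero]

theorem sft_row (r : Fin m) (j : Fin (n + 1)) : sft P C S s T t ω (.row r j) = ω (.row r j) :=
  sft_not P C S s T t ω (by simp [MvC])

theorem sft_eta (r : Option (Fin m)) : sft P C S s T t ω (.eta r) = ω (.eta r) :=
  sft_not P C S s T t ω (by simp [MvC])

theorem sft_gi (i : Fin m) (r : Option (Fin m)) : sft P C S s T t ω (.gi i r) = ω (.gi i r) :=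
  sft_not P C S s T t ω (by simp [MvC])

theorem sft_hub (r : Option (Fin m)) : sft P C S s T t ω (.hub r) = ω (.hub r) :=
  sft_not P C S s T t ω (by simp [MvC])

theorem rho_sft : rho (sft P C S s T t ω) = rho ω :=
  rho_congr (sft_row P C S s T t ω)

theorem Nf_sft : Nf (sft P C S s T t ω) = Nf ω :=
  Nf_congr (sft_row P C S s T t ω) (sft_eta P C S s T t ω)

/-- The natural objective of the other side does not change, in any state. -/
theorem cfG_other (S' : St m n) {s' : Bool} (hs : s' ≠ s) :
    cfG C S' s' (sft P C S s T t ω) = cfG C S' s' ω := by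
  funext r
  unfold cfG
  congr 1
  · cases r with
    | none => rfl
    | some j =>
      simp only
      rw [sft_not P C S s T t ω (c := .nu s' j) (by simpa [MvC] using hs)]
  · refine Finset.sum_congr rfl fun l _ => ?_
    rw [sft_not P C S s T t ω (c := .om s' r l) (by simpa [MvC] using hs)]

/-- If `T` is not representable the shift does nothing. -/
theorem sft_of_not_good (h : ¬ (good P C S s T ω).Nonempty) : sft P C S s T t ω = ω := by
  funext c
  rw [sft_apply, Finset.sum_eq_zero, add_zero]
  intro r _
  unfold dirCB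
  rw [if_neg h, mul_zero]

end

section

variable {P : Par} {C : Cf m} {S : St m n} {s : Bool} {T : Finset (Row m)} {t : T → ℝ}
  {ω : Om m n}

/-- The change of the coefficients of the natural objective, outside the removed rows. -/
theorem cfG_sft {S' : St m n} (hg : (good P C S s T ω).Nonempty) (hR : S.R ⊆ S'.R)
    (hB : S.B s ⊆ S'.B s) {fl : ℝ}
    (hfl : ∀ r ∈ T, (if (r, nw S) ∈ S'.B s then (1 : ℝ) else 0) = fl) {b : Row m}
    (hb : b ∉ up S'.R) :
    cfG C S' s (sft P C S s T t ω) b = cfG C S' s ω b +
      ∑ r : T, t r * (fl * (if b = r then 1 else 0) - cof (pick (good P C S s T ω)) r b ω) := by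
  classical
  have he : RepB P C S s ω T (pick (good P C S s T ω)) := pick_mem hg
  set e := pick (good P C S s T ω) with hedef
  have hbS : b ∉ up S.R := by
    intro h
    obtain ⟨j, hj, rfl⟩ := mem_up'.1 h
    exact hb (mem_up.2 (hR hj))
  have hdir : ∀ r : T, dirCB P C S s T r ω = dirE C S s e r ω := by
    intro r
    unfold dirCB
    rw [if_pos hg]
  -- the boost coins
  have hom : (∑ l : Fin (n + 1), if (b, l) ∈ S'.B s then sft P C S s T t ω (.om s b l) else 0) =
      (∑ l : Fin (n + 1), if (b, l) ∈ S'.B s then ω (.om s b l) else 0) +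
      ∑ r : T, t r * (fl * (if b = r then 1 else 0) -
        if b ∉ up (C.I s) then cof e r b ω else 0) := by
    have h1 : ∀ l : Fin (n + 1),
        (if (b, l) ∈ S'.B s then sft P C S s T t ω (.om s b l) else 0) =
        (if (b, l) ∈ S'.B s then ω (.om s b l) else 0) +
        ∑ r : T, t r * ((if (b, l) ∈ S'.B s then (if b = r ∧ l = nw S then 1 else 0) else 0) -
          (if b ∉ up (C.I s) ∧ (b, l) ∈ S.B s ∧ l = cp S s b then cof e r b ω else 0)) := by
      intro l
      by_cases hl : (b, l) ∈ S'.B s
      · rw [if_pos hl, if_pos hl, sft_apply]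
        congr 1
        refine Finset.sum_congr rfl fun r _ => ?_
        rw [hdir, if_pos hl]
        simp only [dirE, if_true]
        congr 2
        by_cases h2 : b ∉ up (C.I s) ∧ (b, l) ∈ S.B s ∧ l = cp S s b
        · rw [if_pos ⟨h2.1, hbS, h2.2⟩, if_pos h2]
        · rw [if_neg h2, if_neg fun h => h2 ⟨h.1, h.2.2⟩]
      · rw [if_neg hl, if_neg hl, Finset.sum_eq_zero, add_zero]
        intro r _
        rw [if_neg hl, if_neg fun h => hl (hB h.2.1), sub_zero, mul_zero]
    rw [Finset.sum_congr rfl fun l _ => h1 l, Finset.sum_add_distrib]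
    congr 1
    rw [Finset.sum_comm]
    refine Finset.sum_congr rfl fun r _ => ?_
    rw [← Finset.mul_sum, Finset.sum_sub_distrib]
    congr 2
    · -- the new copy
      by_cases hbr : b = r
      · rw [if_pos hbr, mul_one, ← hfl r r.2, ← hbr,
          Finset.sum_eq_single_of_mem (nw S) (Finset.mem_univ _)]
        · simp
        · intro l _ hl
          rw [if_neg (fun h : b = b ∧ l = nw S => hl h.2)]
          simp
      · rw [if_neg hbr, mul_zero]
        refine Finset.sum_eq_zero fun l _ => ?_
        simp [hbr]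
    · -- the chosen copy
      by_cases hI : b ∉ up (C.I s)
      · rw [if_pos hI]
        by_cases hex : ∃ l, (b, l) ∈ S.B s
        · rw [Finset.sum_eq_single_of_mem (cp S s b) (Finset.mem_univ _)]
          · rw [if_pos ⟨hI, cp_mem hex, rfl⟩]
          · intro l _ hl
            rw [if_neg fun h => hl h.2.2]
        · rw [cof_zero he hbS hI hex]
          simp
      · rw [if_neg hI]
        refine Finset.sum_eq_zero fun l _ => ?_
        rw [if_neg fun h => hI h.1]
  -- the cost coins
  unfold cfG
  rw [hom, ← add_assoc]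
  have hcomb : ∀ x y z w v : ℝ, x = y + z → w + z = v → x + (0 : ℝ) + w = y + v := by
    intro x y z w v h1 h2; linarith
  cases b with
  | none =>
    have hI : (none : Row m) ∉ up (C.I s) := none_notMem_up
    simp only [hI, not_false_eq_true, if_true]
  | some j =>
    have hjR : j ∉ S'.R := fun h => hb (mem_up.2 h)
    have hjS : j ∉ S.R := fun h => hjR (hR h)
    by_cases hI : j ∈ C.I s
    · have hI' : (some j : Row m) ∈ up (C.I s) := mem_up.2 hI
      simp only [hI, hjR, hI', not_true_eq_false, not_false_eq_true, and_self, if_true, if_false,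
        sub_zero]
      rw [sft_apply]
      have h1 : ∀ r : T, dirCB P C S s T r ω (.nu s j) = -cof e r (some j) ω := by
        intro r
        rw [hdir]
        simp only [dirE]
        rw [if_pos ⟨trivial, hI, hjS⟩]
      simp only [h1]
      have h2 : ∑ r : T, t r * (fl * (if some j = (r : Row m) then 1 else 0) -
          cof e r (some j) ω) =
          ∑ r : T, t r * (fl * (if some j = (r : Row m) then 1 else 0)) +
          ∑ r : T, t r * -cof e r (some j) ω := by
        rw [← Finset.sum_add_distrib]
        exact Finset.sum_congr rfl fun r _ => by ring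
      rw [h2]
      ring
    · have hI' : (some j : Row m) ∉ up (C.I s) := fun h => hI (mem_up.1 h)
      simp only [hI, hI', not_false_eq_true, false_and, if_true, if_false]

/-- The change of the functional. -/
theorem fnl_sft {S' : St m n} (hg : (good P C S s T ω).Nonempty) (hR : S.R ⊆ S'.R)
    (hB : S.B s ⊆ S'.B s) {fl : ℝ}
    (hfl : ∀ r ∈ T, (if (r, nw S) ∈ S'.B s then (1 : ℝ) else 0) = fl) :
    ∃ (a : ℝ) (b : Row m → ℝ), fnl (sft P C S s T t ω) (cfG C S' s (sft P C S s T t ω)) =
      fnl ω (cfG C S' s ω) + ∑ r : T, ((fl - 1) * t r) • rho ω r + a • Nf ω +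
        ∑ r ∈ up S'.R, b r • rho ω r := by
  classical
  have he : RepB P C S s ω T (pick (good P C S s T ω)) := pick_mem hg
  set e := pick (good P C S s T ω) with hedef
  set d : Row m → ℝ := fun b => ∑ r : T, t r * (fl * (if b = r then 1 else 0) - cof e r b ω)
    with hd
  refine ⟨∑ r : T, t r * (rho ω r ⬝ᵥ pt (Nf ω) (rho ω) e), fun b =>
    cfG C S' s (sft P C S s T t ω) b - cfG C S' s ω b - d b, ?_⟩
  have h1 : ∀ b : Row m, cfG C S' s (sft P C S s T t ω) b = cfG C S' s ω b + d b +
      if b ∈ up S'.R then cfG C S' s (sft P C S s T t ω) b - cfG C S' s ω b - d b else 0 := by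
    intro b
    by_cases hb : b ∈ up S'.R
    · rw [if_pos hb]; ring
    · rw [if_neg hb, add_zero]
      exact cfG_sft hg hR hB hfl hb
  have h2 : fnl (sft P C S s T t ω) (cfG C S' s (sft P C S s T t ω)) =
      ∑ b : Row m, cfG C S' s (sft P C S s T t ω) b • rho ω b := by
    unfold fnl
    rw [rho_sft]
  rw [h2]
  have h3 : ∑ b : Row m, cfG C S' s (sft P C S s T t ω) b • rho ω b =
      ∑ b : Row m, cfG C S' s ω b • rho ω b + ∑ b : Row m, d b • rho ω b +
      ∑ b ∈ up S'.R, (cfG C S' s (sft P C S s T t ω) b - cfG C S' s ω b - d b) • rho ω b := by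
    rw [← Finset.sum_filter_add_sum_filter_not Finset.univ (fun b => b ∈ up S'.R)
      (fun b => cfG C S' s (sft P C S s T t ω) b • rho ω b)]
    have e1 : Finset.univ.filter (fun b => b ∈ up S'.R) = up S'.R := by ext b; simp
    rw [← Finset.sum_filter_add_sum_filter_not Finset.univ (fun b => b ∈ up S'.R)
        (fun b => cfG C S' s ω b • rho ω b),
      ← Finset.sum_filter_add_sum_filter_not Finset.univ (fun b => b ∈ up S'.R)
        (fun b => d b • rho ω b), e1]
    have e2 : ∑ b ∈ Finset.univ.filter (fun b => b ∉ up S'.R),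
        cfG C S' s (sft P C S s T t ω) b • rho ω b =
        ∑ b ∈ Finset.univ.filter (fun b => b ∉ up S'.R), cfG C S' s ω b • rho ω b +
        ∑ b ∈ Finset.univ.filter (fun b => b ∉ up S'.R), d b • rho ω b := by
      rw [← Finset.sum_add_distrib]
      refine Finset.sum_congr rfl fun b hb => ?_
      have hb' := (Finset.mem_filter.1 hb).2
      rw [← add_smul]
      congr 1
      exact cfG_sft hg hR hB hfl hb'
    have e3 : ∑ b ∈ up S'.R, (cfG C S' s (sft P C S s T t ω) b - cfG C S' s ω b - d b) • rho ω b =
        ∑ b ∈ up S'.R, cfG C S' s (sft P C S s T t ω) b • rho ω b -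
        ∑ b ∈ up S'.R, cfG C S' s ω b • rho ω b - ∑ b ∈ up S'.R, d b • rho ω b := by
      rw [← Finset.sum_sub_distrib, ← Finset.sum_sub_distrib]
      exact Finset.sum_congr rfl fun b _ => by rw [sub_smul, sub_smul]
    rw [e2, e3]
    abel
  have h4 : ∑ b : Row m, d b • rho ω b = ∑ r : T, ((fl - 1) * t r) • rho ω r +
      (∑ r : T, t r * (rho ω r ⬝ᵥ pt (Nf ω) (rho ω) e)) • Nf ω := by
    have e1 : ∀ b : Row m, d b • rho ω b =
        ∑ r : T, (t r * (fl * (if b = r then 1 else 0) - cof e r b ω)) • rho ω b := by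
      intro b
      rw [hd, Finset.sum_smul]
    rw [Finset.sum_congr rfl fun b _ => e1 b, Finset.sum_comm, Finset.sum_smul,
      ← Finset.sum_add_distrib]
    refine Finset.sum_congr rfl fun r _ => ?_
    have e2 : ∑ b : Row m, (t r * (fl * (if b = r then 1 else 0) - cof e r b ω)) • rho ω b =
        (t r * fl) • rho ω r - t r • ∑ b : Row m, cof e r b ω • rho ω b := by
      rw [Finset.smul_sum]
      have e3 : (t r * fl) • rho ω r =
          ∑ b : Row m, ((t r * fl) * (if b = (r : Row m) then 1 else 0)) • rho ω b := by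
        rw [Finset.sum_eq_single_of_mem (r : Row m) (Finset.mem_univ _)]
        · rw [if_pos rfl, mul_one]
        · intro b _ hb
          rw [if_neg hb, mul_zero, zero_smul]
      rw [e3, ← Finset.sum_sub_distrib]
      refine Finset.sum_congr rfl fun b _ => ?_
      rw [smul_smul, ← sub_smul]
      congr 1
      ring
    rw [e2, sum_cof he.1 r, smul_sub, smul_smul]
    module
  rw [h3, h4]
  have h5 : fnl ω (cfG C S' s ω) = ∑ b : Row m, cfG C S' s ω b • rho ω b := rfl
  rw [h5]
  abel

/-- The natural objective before the move. -/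
theorem gam_before (hnew : ∀ r ∈ T, (r, nw S) ∉ S.B s) (hg : (good P C S s T ω).Nonempty) :
    ∃ (a : ℝ) (b : Row m → ℝ), fnl (sft P C S s T t ω) (cfG C S s (sft P C S s T t ω)) =
      fnl ω (cfG C S s ω) - ∑ r : T, t r • rho ω r + a • Nf ω +
        ∑ r ∈ up S.R, b r • rho ω r := by
  obtain ⟨a, b, h⟩ := fnl_sft (P := P) (C := C) (S := S) (S' := S) (s := s) (T := T) (t := t)
    (ω := ω) hg (Finset.Subset.refl _) (Finset.Subset.refl _) (fl := 0)
    (fun r hr => by rw [if_neg (hnew r hr)])
  refine ⟨a, b, ?_⟩
  have h1 : ∑ r : T, ((0 - 1) * t r) • rho ω r = -∑ r : T, t r • rho ω r := by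
    rw [← Finset.sum_neg_distrib]
    exact Finset.sum_congr rfl fun r _ => by rw [zero_sub, neg_one_mul, neg_smul]
  rw [h, h1, ← sub_eq_add_neg]

/-- The natural objective at later states. -/
theorem gam_after {S' : St m n} (hR : S.R ⊆ S'.R) (hB : S.B s ⊆ S'.B s)
    (hnew : ∀ r ∈ T, (r, nw S) ∈ S'.B s) :
    ∃ (a : ℝ) (b : Row m → ℝ), fnl (sft P C S s T t ω) (cfG C S' s (sft P C S s T t ω)) =
      fnl ω (cfG C S' s ω) + a • Nf ω + ∑ r ∈ up S'.R, b r • rho ω r := by
  by_cases hg : (good P C S s T ω).Nonempty
  · obtain ⟨a, b, h⟩ := fnl_sft (P := P) (C := C) (S := S) (S' := S') (s := s) (T := T) (t := t)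
      (ω := ω) hg hR hB (fl := 1) (fun r hr => by rw [if_pos (hnew r hr)])
    refine ⟨a, b, ?_⟩
    rw [h, Finset.sum_eq_zero, add_zero]
    intro r _
    rw [sub_self, zero_mul, zero_smul]
  · refine ⟨0, fun _ => 0, ?_⟩
    rw [sft_of_not_good P C S s T t ω hg]
    simp

end

end Pool.Agent.Lib.S3.PL.CB
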