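import Pool.Agent.Lib.S3.PL.InvCB
import Pool.Agent.Lib.S3.PL.SftCB
import Pool.Agent.Lib.S3.PL.Mach

/-!
# Exact invariance of later events under the shift `sft` of a batch

`Sim C S ω ω'`: same rows, chart and exit coins, and the natural objectives of both sides in the
state `S` differ by a combination of the chart functional and of the removed rows. Then all events
of the state `S` are the same at `ω` and `ω'`. `sim_sft`: this holds for `ω' = sft P C S s T t ω` in
all states after the batch. `sft_badU_iff`: the bad event of the machine.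
-/

set_option autoImplicit false

open Matrix

namespace Pool.Agent.Lib.S3.PL

variable {m n : ℕ}

/-- Rows, chart and exit coins agree, and the natural objectives agree modulo the chart functional
and the removed rows. -/
structure Sim (C : Cf m) (S : St m n) (ω ω' : Om m n) : Prop where
  rho : rho ω' = rho ω
  Nf : Nf ω' = Nf ω
  gi : ∀ i r, ω' (.gi i r) = ω (.gi i r)
  nat : ∀ s : Bool, ∃ (a : ℝ) (b : Row m → ℝ), fnl ω' (cfG C S s ω') =
    fnl ω (cfG C S s ω) + a • PL.Nf ω + ∑ r ∈ up S.R, b r • PL.rho ω r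

section

variable {C : Cf m} {S : St m n} {ω ω' : Om m n}

theorem Sim.symm (h : Sim C S ω ω') : Sim C S ω' ω where
  rho := h.rho.symm
  Nf := h.Nf.symm
  gi i r := (h.gi i r).symm
  nat s := by
    obtain ⟨a, b, hab⟩ := h.nat s
    refine ⟨-a, fun r => -b r, ?_⟩
    have h3 : ∑ r ∈ up S.R, -b r • PL.rho ω r = -∑ r ∈ up S.R, b r • PL.rho ω r := by
      rw [← Finset.sum_neg_distrib]
      exact Finset.sum_congr rfl fun r _ => by rw [neg_smul]
    rw [h.rho, h.Nf, hab, h3, neg_smul]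
    abel

theorem Sim.fnl_const (h : Sim C S ω ω') (c : Row m → ℝ) : fnl ω' c = fnl ω c := by
  unfold fnl; rw [h.rho]

theorem Sim.cns_L (P : Par) (h : Sim C S ω ω') (s' : Bool) (i : Fin m) (k : ℕ) :
    Cns (PL.Nf ω) (PL.rho ω) (fnl ω (cfL P C S s' i k ω)) (fnl ω' (cfL P C S s' i k ω'))
      (up S.R) := by
  obtain ⟨a, b, hab⟩ := h.nat s'
  refine ⟨a, b, ?_⟩
  have e1 : ∀ ω : Om m n, fnl ω (cfL P C S s' i k ω) = fnl ω (cfG C S s' ω) -
      fnl ω (fun r => if r = some i then (k : ℝ) * P.dl else 0) := fun ω => cbs_fnl_sub ω _ _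
  rw [e1, e1, hab, h.fnl_const]
  abel

theorem Sim.cns_E (P : Par) (h : Sim C S ω ω') (s' : Bool) (i : Fin m) (k e : ℕ) :
    Cns (PL.Nf ω) (PL.rho ω) (fnl ω (cfE P C S s' i k e ω)) (fnl ω' (cfE P C S s' i k e ω'))
      (up S.R) := by
  obtain ⟨a, b, hab⟩ := (h.cns_L P s' i k).fn
  refine ⟨(1 - (e : ℝ) / P.K3) * a, fun r => (1 - (e : ℝ) / P.K3) * b r, ?_⟩
  have e1 : ∀ ω : Om m n, fnl ω (cfE P C S s' i k e ω) =
      (1 - (e : ℝ) / P.K3) • fnl ω (cfL P C S s' i k ω) +
        P.ph • fnl ω (fun r => ω (.gi i r) - if r = some i then P.Dd else 0) :=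
    fun ω => cbs_fnl_comb ω _ _ _ _
  have e2 : (fun r : Row m => ω' (.gi i r) - if r = some i then P.Dd else 0) =
      fun r => ω (.gi i r) - if r = some i then P.Dd else 0 := by
    funext r; rw [h.gi i r]
  have e3 : ∑ r ∈ up S.R, ((1 - (e : ℝ) / P.K3) * b r) • PL.rho ω r =
      (1 - (e : ℝ) / P.K3) • ∑ r ∈ up S.R, b r • PL.rho ω r := by
    rw [Finset.smul_sum]
    exact Finset.sum_congr rfl fun r _ => by rw [mul_smul]
  rw [e1, e1, e2, hab, h.fnl_const, e3, smul_add, smul_add, mul_smul]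
  abel

theorem Sim.cns_P (P : Par) (h : Sim C S ω ω') (s' : Bool) (i : Fin m) (p : Pos P) :
    Cns (PL.Nf ω) (PL.rho ω) (fnl ω (cfP P C S s' i p ω)) (fnl ω' (cfP P C S s' i p ω'))
      (up S.R) := by
  cases p with
  | leg k => exact h.cns_L P s' i k
  | exit k e => exact h.cns_E P s' i k e

/-- **Every event of the state is the same at `ω` and `ω'`.** -/
theorem Sim.ev (P : Par) (h : Sim C S ω ω') (mv : Mv m P) (hω : ω ∈ Ev P C S mv) :
    ω' ∈ Ev P C S mv := by
  cases mv with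
  | hv s' i p D =>
    obtain ⟨h1, h2, h3, h4, e, he, hD⟩ := hω
    refine ⟨h1, h2, h3, h4, e, ?_, ?_⟩
    · rw [h.rho, h.Nf]
      exact (h.cns_P P s' i p).opt he
    · rw [h.rho, h.Nf]; exact hD
  | lf s' i k e T =>
    obtain ⟨h1, h2, h3, f, hf, hT⟩ := hω
    refine ⟨h1, h2, h3, f, ?_, fun r hr => ?_⟩
    · rw [h.rho, h.Nf]
      exact (h.cns_E P s' i k e).opt hf
    · obtain ⟨k', hk', hl⟩ := hT r hr
      refine ⟨k', hk', ?_⟩
      rw [h.rho, h.Nf, (h.cns_E P s' i k e).lam_eq hf.det hf.sub]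
      · exact hl
      · rw [hk']; exact Finset.disjoint_left.1 h3 hr
  | cb s' i k T =>
    obtain ⟨h1, h2, h3, ⟨f, hf, hT⟩, e, he⟩ := hω
    refine ⟨h1, h2, h3, ⟨f, ?_, fun r hr => ?_⟩, e, ?_⟩
    · rw [h.rho, h.Nf]
      exact (h.cns_L P s' i k).opt hf
    · obtain ⟨k', hk', hl⟩ := hT r hr
      refine ⟨k', hk', ?_⟩
      rw [h.rho, h.Nf, (h.cns_L P s' i k).lam_eq hf.det hf.sub]
      · exact hl
      · rw [hk']; exact Finset.disjoint_left.1 h3 hr
    · unfold RepB at he ⊢
      rw [h.rho, h.Nf]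
      exact he
  | cw s' i k W => exact hω

theorem Sim.ev_iff (P : Par) (h : Sim C S ω ω') (mv : Mv m P) :
    ω' ∈ Ev P C S mv ↔ ω ∈ Ev P C S mv :=
  ⟨h.symm.ev P mv, h.ev P mv⟩

end

/-- The bad event of the machine, when the two points are similar in all states of a class which is
kept by all moves. -/
theorem sim_badU_iff (P : Par) {C : Cf m} {ω ω' : Om m n}
    (M : Mach.Machine (Om m n) (St m n) (Mv m P)) (hev : M.ev = Ev P C) (hstep : M.step = nxt P)
    (q : St m n → Prop) (hq : ∀ S mv, q S → q (nxt P S mv)) (hs : ∀ S, q S → Sim C S ω ω')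
    (j : ℕ) : ∀ (w : ℕ) {S : St m n}, q S →
      (ω' ∈ Mach.BadU M j w S ↔ ω ∈ Mach.BadU M j w S) := by
  induction j with
  | zero => intro w S _; exact ⟨fun _ => Set.mem_univ _, fun _ => Set.mem_univ _⟩
  | succ j ih =>
    intro w S hS
    constructor
    · rintro ⟨l, hl, hw, he, hb⟩
      refine ⟨l, hl, hw, ?_, ?_⟩
      · rw [hev] at he ⊢
        exact ((hs S hS).ev_iff P l).1 he
      · rw [hstep] at hb ⊢
        exact (ih _ (hq S l hS)).1 hb
    · rintro ⟨l, hl, hw, he, hb⟩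
      refine ⟨l, hl, hw, ?_, ?_⟩
      · rw [hev] at he ⊢
        exact ((hs S hS).ev_iff P l).2 he
      · rw [hstep] at hb ⊢
        exact (ih _ (hq S l hS)).2 hb

namespace CB

variable {P : Par} {C : Cf m} {S : St m n} {s : Bool} {T : Finset (Row m)}

/-- After the batch the two points are similar. -/
theorem sim_sft {S' : St m n} (hR : S.R ⊆ S'.R) (hB : S.B s ⊆ S'.B s)
    (hnew : ∀ r ∈ T, (r, nw S) ∈ S'.B s) (t : T → ℝ) (ω : Om m n) :
    Sim C S' ω (sft P C S s T t ω) where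
  rho := rho_sft P C S s T t ω
  Nf := Nf_sft P C S s T t ω
  gi := sft_gi P C S s T t ω
  nat s' := by
    by_cases hs : s' = s
    · rw [hs]
      exact gam_after hR hB hnew
    · refine ⟨0, fun _ => 0, ?_⟩
      rw [cfG_other P C S s T t ω S' hs]
      unfold fnl
      rw [rho_sft]
      simp

/-- The states after the batch. -/
def After (S : St m n) (s : Bool) (T : Finset (Row m)) (S' : St m n) : Prop :=
  S.R ⊆ S'.R ∧ S.B s ⊆ S'.B s ∧ ∀ r ∈ T, (r, nw S) ∈ S'.B s

theorem After.nxt {S' : St m n} (h : After S s T S') (mv : Mv m P) :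
    After S s T (PL.nxt P S' mv) :=
  ⟨sub_nxt_R P h.1 mv, sub_nxt_B P h.2.1 mv, fun r hr => by
    have h1 : ({(r, nw S)} : Finset (Row m × Fin (n + 1))) ⊆ S'.B s :=
      Finset.singleton_subset_iff.2 (h.2.2 r hr)
    exact sub_nxt_B P h1 mv (Finset.mem_singleton_self _)⟩

theorem after_cb (S : St m n) (s : Bool) (i : Fin m) (k : Fin (P.K1 + 1)) (T : Finset (Row m)) :
    After S s T (PL.nxt P S (.cb s i k T)) :=
  ⟨sub_nxt_R P (Finset.Subset.refl _) _, sub_nxt_B P (Finset.Subset.refl _) _,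
    fun _ hr => mem_nxt_cb_B P S s i k T hr⟩

/-- **Events of later states are invariant under the shift of the batch.** -/
theorem sft_ev_iff {S' : St m n} (h : After S s T S') (t : T → ℝ) (ω : Om m n) (mv : Mv m P) :
    sft P C S s T t ω ∈ Ev P C S' mv ↔ ω ∈ Ev P C S' mv :=
  (sim_sft h.1 h.2.1 h.2.2 t ω).ev_iff P mv

/-- **The bad event after the batch is invariant under the shift of the batch.** -/
theorem sft_badU_iff (M : Mach.Machine (Om m n) (St m n) (Mv m P)) (hev : M.ev = Ev P C)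
    (hstep : M.step = PL.nxt P) (t : T → ℝ) (ω : Om m n) (j w : ℕ) {S' : St m n}
    (h : After S s T S') :
    sft P C S s T t ω ∈ Mach.BadU M j w S' ↔ ω ∈ Mach.BadU M j w S' :=
  sim_badU_iff P M hev hstep (After S s T) (fun _ mv hS => hS.nxt mv)
    (fun _ hS => sim_sft hS.1 hS.2.1 hS.2.2 t ω) j w h

/-- The form for the machine of the pair lemma, after the move `cb`. -/
theorem sft_badU_mach (i : Fin m) (k : Fin (P.K1 + 1)) (t : T → ℝ) (ω : Om m n) (j w : ℕ) :
    sft P C S s T t ω ∈ Mach.BadU (mach P C) j w (PL.nxt P S (.cb s i k T)) ↔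
      ω ∈ Mach.BadU (mach P C) j w (PL.nxt P S (.cb s i k T)) :=
  sft_badU_iff (mach P C) rfl rfl t ω j w (after_cb S s i k T)

/-- Both bases stay vertices. -/
theorem sft_vx_iff (C' : Cf m) (t : T → ℝ) (ω : Om m n) :
    sft P C S s T t ω ∈ Vx C' ↔ ω ∈ Vx C' := by
  unfold Vx
  simp only [Set.mem_ofPred_eq, rho_sft, Nf_sft]

end CB

end Pool.Agent.Lib.S3.PL
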