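import Pool.Agent.Lib.S3.PL.LegOpt
import Pool.Agent.Lib.S3.PL.LegGeo
import Pool.Agent.Lib.S3.PL.RepB

/-!
# The data of a leg in the language of the pair machine

`legDat`: the instance of `Leg.Dat`. `L_eq`, `E_eq`, `L_boost`: its objectives are the functionals
with the coefficients `cfL`, `cfE`, and `cfG` of the next state. `cfJ`: the end of the exit line.
-/

set_option autoImplicit false

open Matrix

namespace Pool.Agent.Lib.S3.PL

variable {m n : ℕ}

/-- Coefficients at the end of the exit line (the same for both sides). -/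
noncomputable def cfJ (P : Par) (i : Fin m) (ω : Om m n) (r : Row m) : ℝ :=
  P.ph * (ω (.gi i r) - if r = some i then P.Dd else 0)

theorem fnl_add (ω : Om m n) (c c' : Row m → ℝ) : fnl ω (fun r => c r + c' r) =
    fnl ω c + fnl ω c' := by
  unfold fnl
  rw [← Finset.sum_add_distrib]
  exact Finset.sum_congr rfl fun r _ => add_smul _ _ _

theorem fnl_sub (ω : Om m n) (c c' : Row m → ℝ) : fnl ω (fun r => c r - c' r) =
    fnl ω c - fnl ω c' := by
  unfold fnl
  rw [← Finset.sum_sub_distrib]
  exact Finset.sum_congr rfl fun r _ => sub_smul _ _ _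

theorem fnl_smul (ω : Om m n) (t : ℝ) (c : Row m → ℝ) : fnl ω (fun r => t * c r) =
    t • fnl ω c := by
  unfold fnl
  rw [Finset.smul_sum]
  exact Finset.sum_congr rfl fun r _ => mul_smul _ _ _

theorem fnl_single (ω : Om m n) (i : Row m) (t : ℝ) :
    fnl ω (fun r => if r = i then t else 0) = t • rho ω i := by
  classical
  unfold fnl
  rw [Finset.sum_eq_single i]
  · simp only [if_true]
  · intro r _ hr
    simp only [if_neg hr, zero_smul]
  · intro h
    exact absurd (Finset.mem_univ _) h

theorem fnl_ite_mem (ω : Om m n) (T : Finset (Row m)) (f : Row m → ℝ) :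
    fnl ω (fun r => if r ∈ T then f r else 0) = ∑ r ∈ T, f r • rho ω r := by
  classical
  unfold fnl
  have h1 : ∀ r : Row m, (if r ∈ T then f r else 0) • rho ω r =
      if r ∈ T then f r • rho ω r else 0 := by
    intro r
    by_cases h : r ∈ T
    · rw [if_pos h, if_pos h]
    · rw [if_neg h, if_neg h, zero_smul]
  rw [Finset.sum_congr rfl fun r _ => h1 r, Finset.sum_ite_mem, Finset.univ_inter]

theorem fnl_dot (ω : Om m n) (c : Row m → ℝ) (x : Fin (n + 1) → ℝ) :
    fnl ω c ⬝ᵥ x = ∑ r, c r * (rho ω r ⬝ᵥ x) := by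
  unfold fnl
  rw [sum_dotProduct]
  exact Finset.sum_congr rfl fun r _ => by rw [smul_dotProduct, smul_eq_mul]

/-- The data of a leg. -/
noncomputable def legDat (P : Par) (C : Cf m) (S : St m n) (s : Bool) (i : Fin m) (ω : Om m n)
    (c al : ℝ) : Leg.Dat (Row m) (n + 1) where
  ρ := rho ω
  N := Nf ω
  R := up S.R
  inf := none
  i := some i
  nat := fnl ω (cfG C S s ω)
  bst := fun W => (W.map (fun r => ω (.om s r (Fin.ofNat (n + 1) S.t)) • rho ω r)).sum
  w := fun _ r => ω (.om s r (Fin.ofNat (n + 1) S.t))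
  Rp := fun W r => RepN (rho ω) (Nf ω) c (avl C S s ∪ W.toFinset) (up S.R) (rho ω r)
  B := []
  G := fnl ω (fun r => ω (.gi i r))
  δ := P.dl
  τ := P.ta
  τ2 := P.ta2
  ε := P.ep
  α := al
  φ := P.ph
  Dd := P.Dd
  K1 := P.K1
  K3 := P.K3
  d0 := P.d0
  q := P.q

section

variable {P : Par} {C : Cf m} {S : St m n} {s : Bool} {i : Fin m} {ω : Om m n} {c al : ℝ}

theorem fnl_cfL (k : ℕ) : fnl ω (cfL P C S s i k ω) =
    fnl ω (cfG C S s ω) - ((k : ℝ) * P.dl) • rho ω (some i) := by
  have h1 : cfL P C S s i k ω = fun r => cfG C S s ω r -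
      (fun r => if r = some i then (k : ℝ) * P.dl else 0) r := rfl
  rw [h1, fnl_sub, fnl_single]

theorem L_eq (k : ℕ) : (legDat P C S s i ω c al).L k [] = fnl ω (cfL P C S s i k ω) := by
  rw [fnl_cfL]
  have h : (legDat P C S s i ω c al).bst [] = 0 := rfl
  unfold Leg.Dat.L
  rw [h, add_zero]
  rfl

theorem fnl_cfJ : fnl ω (cfJ P i ω) =
    P.ph • (fnl ω (fun r => ω (.gi i r)) - P.Dd • rho ω (some i)) := by
  have h1 : cfJ P i ω = fun r => P.ph * (fun r => ω (.gi i r) -
      (fun r => if r = some i then P.Dd else 0) r) r := rfl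
  rw [h1, fnl_smul, fnl_sub, fnl_single]

theorem fnl_cfE (k e : ℕ) : fnl ω (cfE P C S s i k e ω) =
    Leg.exitObj (fnl ω (cfL P C S s i k ω)) (fnl ω (fun r => ω (.gi i r))) (rho ω (some i))
      P.ph P.Dd P.K3 e := by
  have h1 : cfE P C S s i k e ω = fun r => (fun r => (1 - (e : ℝ) / P.K3) *
      cfL P C S s i k ω r) r + cfJ P i ω r := rfl
  rw [h1, fnl_add, fnl_smul, fnl_cfJ]
  rfl

theorem E_eq (k e : ℕ) : (legDat P C S s i ω c al).E k e = fnl ω (cfE P C S s i k e ω) := by
  rw [fnl_cfE, ← L_eq (c := c) (al := al)]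
  rfl

/-- The objective of the state after a closing. -/
theorem cfG_close {T : Finset (Row m)} {k : ℕ} {S' : St m n} (hi : i ∈ C.I s) (hiR : i ∉ S.R)
    (hfr : ∀ r, (r, Fin.ofNat (n + 1) S.t) ∉ S.B s) (hR : S'.R = S.R)
    (hkc : ∀ j, S'.kc s j = if j = i then S.kc s j - (k : ℝ) * P.dl else S.kc s j)
    (hB : S'.B s = S.B s ∪ T ×ˢ {Fin.ofNat (n + 1) S.t}) (r : Row m) :
    cfG C S' s ω r = cfL P C S s i k ω r +
      if r ∈ T then ω (.om s r (Fin.ofNat (n + 1) S.t)) else 0 := by
  classical
  have hb : ∑ l : Fin (n + 1), (if (r, l) ∈ S'.B s then ω (.om s r l) else 0) =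
      ∑ l : Fin (n + 1), (if (r, l) ∈ S.B s then ω (.om s r l) else 0) +
        if r ∈ T then ω (.om s r (Fin.ofNat (n + 1) S.t)) else 0 := by
    have h1 : ∀ l : Fin (n + 1), (if (r, l) ∈ S'.B s then ω (.om s r l) else 0) =
        (if (r, l) ∈ S.B s then ω (.om s r l) else 0) +
          (if l = Fin.ofNat (n + 1) S.t then (if r ∈ T then ω (.om s r l) else 0) else 0) := by
      intro l
      rw [hB]
      by_cases hl : l = Fin.ofNat (n + 1) S.t
      · subst hl
        rw [if_neg (hfr r), if_pos rfl, zero_add]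
        by_cases hr : r ∈ T
        · rw [if_pos hr, if_pos]
          exact Finset.mem_union_right _ (Finset.mem_product.2 ⟨hr, Finset.mem_singleton_self _⟩)
        · rw [if_neg hr, if_neg]
          intro hc
          rcases Finset.mem_union.1 hc with h | h
          · exact hfr r h
          · exact hr (Finset.mem_product.1 h).1
      · rw [if_neg hl, add_zero]
        by_cases hrl : (r, l) ∈ S.B s
        · rw [if_pos hrl, if_pos (Finset.mem_union_left _ hrl)]
        · rw [if_neg hrl, if_neg]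
          intro hc
          rcases Finset.mem_union.1 hc with h | h
          · exact hrl h
          · exact hl (Finset.mem_singleton.1 (Finset.mem_product.1 h).2)
    rw [Finset.sum_congr rfl fun l _ => h1 l, Finset.sum_add_distrib]
    congr 1
    rw [Finset.sum_ite_eq' Finset.univ (Fin.ofNat (n + 1) S.t), if_pos (Finset.mem_univ _)]
  unfold cfL cfG
  rw [hb]
  match r with
  | none =>
    simp only [reduceCtorEq, if_false]
    ring
  | some j =>
    simp only [hR, hkc, Option.some.injEq]
    by_cases hj : j = i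
    · subst hj
      simp only [if_pos (And.intro hi hiR), if_true]
      ring
    · simp only [if_neg hj, sub_zero]
      ring

/-- The objective of the state after a closing is the boosted leg objective. -/
theorem L_boost {W : List (Row m)} (hW : W.Nodup) {k : ℕ} {S' : St m n} (hi : i ∈ C.I s)
    (hiR : i ∉ S.R) (hfr : ∀ r, (r, Fin.ofNat (n + 1) S.t) ∉ S.B s) (hR : S'.R = S.R)
    (hkc : ∀ j, S'.kc s j = if j = i then S.kc s j - (k : ℝ) * P.dl else S.kc s j)
    (hB : S'.B s = S.B s ∪ W.toFinset ×ˢ {Fin.ofNat (n + 1) S.t}) :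
    (legDat P C S s i ω c al).L k W = fnl ω (cfG C S' s ω) := by
  classical
  have h1 : cfG C S' s ω = fun r => cfL P C S s i k ω r +
      (fun r => if r ∈ W.toFinset then ω (.om s r (Fin.ofNat (n + 1) S.t)) else 0) r := by
    funext r
    exact cfG_close hi hiR hfr hR hkc hB r
  rw [h1, fnl_add, fnl_cfL, fnl_ite_mem, List.sum_toFinset _ hW]
  have h : (legDat P C S s i ω c al).bst W =
      (W.map (fun r => ω (.om s r (Fin.ofNat (n + 1) S.t)) • rho ω r)).sum := rfl
  unfold Leg.Dat.L
  rw [h]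
  show fnl ω (cfG C S s ω) + _ - ((k : ℝ) * P.dl) • rho ω (some i) = _
  abel

end

end Pool.Agent.Lib.S3.PL
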