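import Pool.Agent.Lib.S3.PL.NumDet
import Pool.Agent.Lib.S3.PL.Side

/-!
# The hypotheses of the leg for the parameters `parM` (smoothed Hirsch, MP_4a5c02_co)

`parOk_parM`: `ParOk`; `legB_parM`: `LegB` from coins in `[1, 2]`, the invariants `Ok` of the
machine and a deep point of the column.
-/

set_option autoImplicit false

open Matrix

namespace Pool.Agent.Lib.S3.PL

variable {m n : ℕ} {C0 cg ce M : ℕ}

/-- The inequalities between the parameters. -/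
theorem parOk_parM (hM : 5 ≤ M) : ParOk (parM C0 cg ce M) (alM C0 cg ce M) where
  dl0 := parM_dl_pos hM
  ta0 := parM_ta_pos hM
  ta20 := parM_ta2_pos hM
  ep0 := parM_ep_pos hM
  ep1 := parM_ep_lt_one hM
  al0 := alM_pos hM
  ph0 := parM_ph_pos hM
  Dd0 := parM_Dd_pos hM
  K10 := parM_K1_pos hM
  K30 := parM_K3_pos hM
  win := parM_win
  win1 := parM_win1 hM

/-- A deep point of the column `i` lies in the face of the removed columns. -/
theorem fe_deep {P : Par} {C : Cf m} {S : St m n} (hS : Ok P C S) (s : Bool) {i : Fin m}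
    (hi : i ∉ S.R) {ω : Om m n} {p : Fin (n + 1) → ℝ} (hp : Leg.Fe (rho ω) (Nf ω) ∅ p)
    (h0 : ∀ j ∈ C.I s, j ∉ C.Y s → j ≠ i → rho ω (some j) ⬝ᵥ p = 0) :
    Leg.Fe (rho ω) (Nf ω) (up S.R) p := by
  refine ⟨hp.1, fun r hr => ?_, hp.2.2⟩
  obtain ⟨j, hj, rfl⟩ := mem_up'.1 hr
  obtain ⟨h1, h2, h3, h4⟩ := hS.bu j (hS.Rbu hj)
  have hI : j ∈ C.I s := by cases s <;> assumption
  have hY : j ∉ C.Y s := by cases s <;> assumption
  exact h0 j hI hY fun h => hi (h ▸ hj)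

/-- The bounds of the leg of the column `i`. -/
theorem legB_parM (hM : 5 ≤ M) (hn : n + 1 ≤ M) {C : Cf m} {S : St m n}
    (hS : Ok (parM C0 cg ce M) C S) (s : Bool) {i : Fin m} (hi : i ∉ S.R) {ω : Om m n}
    (hω : CoinOk ω) {p : Fin (n + 1) → ℝ} (hp : Leg.Fe (rho ω) (Nf ω) ∅ p)
    (h0 : ∀ j ∈ C.I s, j ∉ C.Y s → j ≠ i → rho ω (some j) ⬝ᵥ p = 0)
    (hpi : s4M C0 cg ce M ≤ rho ω (some i) ⬝ᵥ p) {h : ℝ} (h1 : h ≤ 1) :
    LegB (parM C0 cg ce M) C S s i ω (alM C0 cg ce M) h p where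
  om0 := fun r l => zero_le_one.trans (hω (.om s r l) trivial).1
  G := fun x y hx hy => parM_G hM hω i x y hx hy
  win2 := fun _ hk x y hx hy => parM_win2' hM hn hω (stOk_parM hM hS) s i hk x y hx hy
  pF := fe_deep hS s hi hp h0
  pv := parM_pv' hM hn hω (stOk_parM hM hS) s (fe_deep hS s hi hp h0) h0 hpi h1
  s1 := fun _ hx => slack_le_one hω hx (some i)

/-- The bounds of the leg after at most `n` closings. -/
theorem legB_parM' (hM : 5 ≤ M) (hn : n + 1 ≤ M) {C : Cf m} (hC : (C.I false).card = n)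
    {S : St m n} (hS : Ok (parM C0 cg ce M) C S) (s : Bool) {i : Fin m} (hi : i ∉ S.R) {ω : Om m n}
    (hω : CoinOk ω) {p : Fin (n + 1) → ℝ} (hp : Leg.Fe (rho ω) (Nf ω) ∅ p)
    (h0 : ∀ j ∈ C.I s, j ∉ C.Y s → j ≠ i → rho ω (some j) ⬝ᵥ p = 0)
    (hpi : s4M C0 cg ce M ≤ rho ω (some i) ⬝ᵥ p) :
    LegB (parM C0 cg ce M) C S s i ω (alM C0 cg ce M) ((S.t : ℝ) * drM C0 cg ce M) p :=
  legB_parM hM hn hS s hi hω hp h0 hpi (drM_total hM ((hS.t_le hC).trans (by omega)))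

end Pool.Agent.Lib.S3.PL
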