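import Pool.Agent.Lib.S3.PL.Side

/-!
# The leg lemma in the language of the pair machine
-/

set_option autoImplicit false

open Matrix

namespace Pool.Agent.Lib.S3.PL

variable {m n : ℕ}

theorem cfE_last {P : Par} (hK : 0 < P.K3) (C : Cf m) (S : St m n) (s : Bool) (i : Fin m) (k : ℕ)
    (ω : Om m n) : cfE P C S s i k P.K3 ω = cfJ P i ω := by
  funext r
  unfold cfE cfJ
  have h : (P.K3 : ℝ) ≠ 0 := by exact_mod_cast hK.ne'
  rw [div_self h, sub_self, zero_mul, zero_add]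

theorem up_eraseNone {D : Finset (Row m)} (h : none ∉ D) : up (Finset.eraseNone D) = D := by
  unfold up
  rw [Finset.map_some_eraseNone, Finset.erase_eq_of_notMem h]

section

variable {P : Par} {C : Cf m} {S : St m n} {s : Bool} {i : Fin m} {ω : Om m n} {c al : ℝ}

/-- A heavy set gives the event of a heavy window. -/
theorem ev_hv (hok : OkCol C S i) {pos : Pos P} {Γ : Fin (n + 1) → ℝ}
    (hΓ : Γ = fnl ω (cfP P C S s i pos ω))
    (hgen : ∃ e, Opt (Nf ω) (rho ω) (fnl ω (cfP P C S s i pos ω)) (up S.R) ∅ e)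
    {Z : Fin (n + 1) → ℝ} (hZ : Leg.Mn (rho ω) (Nf ω) (up S.R) Γ Z) {D : Finset (Row m)}
    (hD : Leg.HeavySet (rho ω) (up S.R) none (some i) P.ep P.d0 Z D) :
    ∃ D', Mv.hv s i pos D' ∈ labs P C S ∧ ω ∈ Ev P C S (.hv s i pos D') := by
  classical
  obtain ⟨e, he⟩ := hgen
  obtain ⟨h1, h2, h3, h4, h5⟩ := hD
  rw [hΓ] at hZ
  have hZe := he.eq_of_mn hZ
  subst hZe
  have hup := up_eraseNone h2
  have hcard : (Finset.eraseNone D).card = P.d0 := by
    have h6 : (up (Finset.eraseNone D)).card = (Finset.eraseNone D).card := by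
      unfold up
      rw [Finset.card_map]
    rw [← h6, hup, h1]
  have hmem : ∀ j, j ∈ Finset.eraseNone D ↔ some j ∈ D := fun j => Finset.mem_eraseNone
  refine ⟨Finset.eraseNone D, hv_mem_labs.2 ⟨hcard, hok⟩, hok, hcard, ?_, ?_, e, ?_, ?_⟩
  · intro h
    exact h3 ((hmem i).1 h)
  · rw [Finset.disjoint_left]
    intro j hj hjR
    exact Finset.disjoint_left.1 h4 ((hmem j).1 hj) (mem_up.2 hjR)
  · rw [hup]
    exact he.del fun r hr => (h5 r hr).1
  · intro r hr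
    exact h5 _ ((hmem r).1 hr)

/-- Light rows in the form of the events. -/
theorem light_ev {Γ : Fin (n + 1) → ℝ} {e : Fin n → Row m}
    (he : Opt (Nf ω) (rho ω) Γ (up S.R) ∅ e) {l : Row m → ℝ}
    (hl : Leg.Mult (rho ω) (Nf ω) (up S.R) Γ (pt (Nf ω) (rho ω) e) l) {T : Finset (Row m)}
    (hT : T ⊆ Leg.tgt (rho ω) (pt (Nf ω) (rho ω) e) \ up S.R) {τ : ℝ} (hτ : ∀ r ∈ T, l r ≤ τ) :
    Disjoint T (up S.R) ∧
      ∀ r ∈ T, ∃ k', e k' = r ∧ lam (Nf ω) (rho ω) Γ e k' ≤ τ := by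
  constructor
  · rw [Finset.disjoint_left]
    intro r hr
    exact (Finset.mem_sdiff.1 (hT hr)).2
  · intro r hr
    obtain ⟨k, hk⟩ := he.mem_tgt.1 (Finset.mem_sdiff.1 (hT hr)).1
    refine ⟨k, hk, ?_⟩
    rw [← he.lam_of_mult hl k, hk]
    exact hτ r hr

/-- A chain of walls has no repetitions. -/
theorem wch_nodup (hc : 1 ≤ c) : ∀ W : List (Row m), Leg.WCh (legDat P C S s i ω c al) [] W →
    W.Nodup
  | [], _ => List.nodup_nil
  | r :: W, h => by
    refine List.nodup_cons.2 ⟨fun hr => h.1 ?_, wch_nodup hc W h.2⟩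
    refine repN_self hc ?_
    apply Finset.mem_union_right
    rw [List.mem_toFinset, List.append_nil]
    exact hr

/-- A chain of walls in helper23's form. -/
theorem wch_wchn : ∀ W : List (Row m), Leg.WCh (legDat P C S s i ω c al) [] W →
    WChN (rho ω) (Nf ω) c (avl C S s) (up S.R) [] W
  | [], _ => trivial
  | _ :: W, h => ⟨h.1, wch_wchn W h.2⟩

/-- The new state of the side after a closing. -/
theorem side_closed (hc : 0 ≤ c) {Lw : ℕ} {u x x' : Fin (n + 1) → ℝ} {len k : ℕ} {h v : ℝ}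
    (hx : Side C S s ω c u x len h) (hok : OkCol C S i)
    (hfr : ∀ r, (r, Fin.ofNat (n + 1) S.t) ∉ S.B s) (hk : k ≤ P.K1)
    {W : List (Row m)} (hW : W.Nodup)
    (hcl : Leg.Closed (legDat P C S s i ω c al) (VxC ω) (RcC ω) Lw x v k x' W) {S' : St m n}
    (hR : S'.R = S.R)
    (hkc : ∀ j, S'.kc s j = if j = i then S.kc s j - (k : ℝ) * P.dl else S.kc s j)
    (hB : S'.B s = S.B s ∪ W.toFinset ×ˢ {Fin.ofNat (n + 1) S.t}) :
    Side C S' s ω c u x' (len + P.K1 * Lw) (-v) := by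
  classical
  obtain ⟨h1, h2, h3, h4, -, h6⟩ := hcl
  have hi : i ∈ C.I s := by
    cases s
    · exact hok.1
    · exact hok.2.1
  have hL : (legDat P C S s i ω c al).L k (W ++ (legDat P C S s i ω c al).B) =
      fnl ω (cfG C S' s ω) := by
    have h7 : W ++ (legDat P C S s i ω c al).B = W := List.append_nil W
    rw [h7]
    exact L_boost hW hi hok.2.2.1 hfr hR hkc hB
  rw [hL] at h2 h6
  refine ⟨?_, h1, ?_, ?_, ?_⟩
  · rw [hR]
    exact h2
  · refine Geo.reach_mono ?_ (Geo.reach_trans hx.rc h4)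
    exact Nat.add_le_add_left (Nat.mul_le_mul_right _ hk) _
  · intro r hr
    rw [hR] at hr ⊢
    refine RepN.mono (h3 r hr) ?_ (Finset.Subset.refl _) le_rfl hc
    intro t ht
    rw [mem_avl, hB]
    rcases Finset.mem_union.1 ht with h | h
    · rcases mem_avl.1 h with h | ⟨l, h⟩
      · exact Or.inl h
      · exact Or.inr ⟨l, Finset.mem_union_left _ h⟩
    · refine Or.inr ⟨Fin.ofNat (n + 1) S.t, Finset.mem_union_right _ ?_⟩
      rw [Finset.mem_product]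
      refine ⟨?_, Finset.mem_singleton_self _⟩
      have h7 : W ++ (legDat P C S s i ω c al).B = W := List.append_nil W
      rw [h7] at h
      exact h
  · rw [neg_neg]
    exact h6

/-- **The leg lemma for one side of the pair machine.** -/
theorem leg_pl {h : ℝ} {p : Fin (n + 1) → ℝ} (hP : ParOk P al) (hB : LegB P C S s i ω al h p)
    (hok : OkCol C S i) (hfr : ∀ r, (r, Fin.ofNat (n + 1) S.t) ∉ S.B s) (hc : 1 ≤ c)
    (hrep : ∀ T : Finset (Row m),
      (∀ r ∈ T, RepN (rho ω) (Nf ω) c (avl C S s) (up S.R) (rho ω r)) →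
        ∃ e, RepB P C S s ω T e)
    (hgen : ∀ pos : Pos P, ∃ e,
      Opt (Nf ω) (rho ω) (fnl ω (cfP P C S s i pos ω)) (up S.R) ∅ e) {Lw : ℕ}
    (hG : Leg.Geo (rho ω) (Nf ω) (up S.R) (VxC ω) (RcC ω) (P.d0 + P.q) Lw)
    {u x : Fin (n + 1) → ℝ} {len : ℕ} (hx : Side C S s ω c u x len h)
    (hs : rho ω (some i) ⬝ᵥ x = 0) :
    (∃ e, Opt (Nf ω) (rho ω) (fnl ω (cfJ P i ω)) (up S.R) ∅ e ∧
      RcC ω (len + (P.K1 * Lw + (Lw + P.K3 * Lw))) u (pt (Nf ω) (rho ω) e)) ∨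
    (∃ pos D, Mv.hv s i pos D ∈ labs P C S ∧ ω ∈ Ev P C S (.hv s i pos D)) ∨
    (∃ k e T, Mv.lf s i k e T ∈ labs P C S ∧ ω ∈ Ev P C S (.lf s i k e T)) ∨
    (∃ k T x', Mv.cb s i k T ∈ labs P C S ∧ ω ∈ Ev P C S (.cb s i k T) ∧
      Side C (nxt P S (.cb s i k T)) s ω c u x' (len + P.K1 * Lw)
        (h + ((P.K1 * P.dl) * al + P.dl))) ∨
    (∃ k W x', Mv.cw s i k W ∈ labs P C S ∧ ω ∈ Ev P C S (.cw s i k W) ∧
      IsWalls C S s ω c W ∧
      Side C (nxt P S (.cw s i k W)) s ω c u x' (len + P.K1 * Lw)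
        (h + ((P.K1 * P.dl) * al + P.dl))) := by
  classical
  have hH := legHyp (c := c) hP hB hok.2.2.1 hc
  have hc0 : 0 ≤ c := by linarith
  have hL0 : ∀ k : ℕ, (legDat P C S s i ω c al).L k (legDat P C S s i ω c al).B =
      fnl ω (cfL P C S s i k ω) := fun k => L_eq k
  have hcf0 : fnl ω (cfL P C S s i 0 ω) = fnl ω (cfG C S s ω) := by
    rw [fnl_cfL]
    simp
  have hstop : Leg.Stop (legDat P C S s i ω c al) (VxC ω) (RcC ω) Lw x
      (-(h + ((P.K1 * P.dl) * al + P.dl))) := by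
    refine Leg.leg hH hG hx.vx ?_ ?_ ?_ hs
    · rw [hL0, hcf0]
      exact hx.mn
    · intro r hr
      refine RepN.mono (hx.rep r hr) Finset.subset_union_left (Finset.Subset.refl _) le_rfl hc0
    · rw [hL0, hcf0]
      exact hx.val
  obtain ⟨k, hk, hcase⟩ := hstop
  have hk' : k < P.K1 + 1 := Nat.lt_succ_of_le hk
  rcases hcase with hc1 | ⟨e, he, hc1⟩ | ⟨e, he, hc1⟩ | hc1 | hc1 | hc1
  · -- heavy window in the leg
    right; left
    obtain ⟨Z, D, -, hZ, hD⟩ := hc1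
    obtain ⟨D', h1, h2⟩ := ev_hv (pos := Pos.leg ⟨k, hk'⟩) hok
      (hL0 k) (hgen (Pos.leg ⟨k, hk'⟩)) hZ hD
    exact ⟨_, D', h1, h2⟩
  · -- heavy window on the exit line
    right; left
    obtain ⟨Z, D, -, hZ, hD⟩ := hc1
    have he' : e < P.K3 + 1 := Nat.lt_succ_of_le he
    obtain ⟨D', h1, h2⟩ := ev_hv (pos := Pos.exit ⟨k, hk'⟩ ⟨e, he'⟩) hok
      (E_eq k e) (hgen (Pos.exit ⟨k, hk'⟩ ⟨e, he'⟩)) hZ hD
    exact ⟨_, D', h1, h2⟩
  · -- light node on the exit line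
    right; right; left
    obtain ⟨x', l, T, -, hmn, hl, hT, hTc, hTl⟩ := hc1
    have he' : e < P.K3 + 1 := Nat.lt_succ_of_le he
    obtain ⟨f, hf⟩ := hgen (Pos.exit ⟨k, hk'⟩ ⟨e, he'⟩)
    have hE : (legDat P C S s i ω c al).E k e =
        fnl ω (cfP P C S s i (Pos.exit ⟨k, hk'⟩ ⟨e, he'⟩) ω) := E_eq k e
    rw [hE] at hmn hl
    have hxf := hf.eq_of_mn hmn
    subst hxf
    obtain ⟨h1, h2⟩ := light_ev hf hl hT hTl
    exact ⟨⟨k, hk'⟩, ⟨e, he'⟩, T, lf_mem_labs.2 ⟨hTc, hok⟩, hok, hTc, h1, f, hf, h2⟩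
  · -- walls
    right; right; right; right
    obtain ⟨x', W, hWn, hWc, hcl⟩ := hc1
    have hnd := wch_nodup hc W hWc
    have hWne : (W.toFinset).Nonempty := by
      rw [List.toFinset_nonempty_iff]
      exact hWn
    refine ⟨⟨k, hk'⟩, W.toFinset, x', cw_mem_labs.2 ⟨hWne, hok⟩, hok,
      ⟨W, hnd, rfl, wch_wchn W hWc⟩, ?_⟩
    have h1 := side_closed (v := -(h + ((P.K1 * P.dl) * al + P.dl))) hc0 hx hok hfr hk hnd hcl
      (S' := nxt P S (.cw s i ⟨k, hk'⟩ W.toFinset)) rfl ?_ ?_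
    · rw [neg_neg] at h1
      exact h1
    · intro j
      by_cases hj : j = i
      · rw [if_pos hj]
        exact if_pos ⟨rfl, hj⟩
      · rw [if_neg hj]
        exact if_neg fun h => hj h.2
    · exact if_pos rfl
  · -- a batch
    right; right; right; left
    obtain ⟨x', l, T, hmn, hl, hTc, hTl, hTr, hcl⟩ := hc1
    obtain ⟨f, hf⟩ := hgen (Pos.leg ⟨k, hk'⟩)
    have hLk : (legDat P C S s i ω c al).L k (legDat P C S s i ω c al).B =
        fnl ω (cfP P C S s i (Pos.leg ⟨k, hk'⟩) ω) := hL0 k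
    have hT : T ⊆ Leg.tgt (rho ω) x' \ up S.R := by
      intro r hr
      exact hcl.2.2.2.2.1 r (Finset.mem_toList.2 hr)
    rw [hLk] at hmn hl
    have hxf := hf.eq_of_mn hmn
    subst hxf
    obtain ⟨h1, h2⟩ := light_ev hf hl hT hTl
    obtain ⟨e, he⟩ := hrep T fun r hr => by
      have h3 := hTr r hr
      refine RepN.mono h3 ?_ (Finset.Subset.refl _) le_rfl hc0
      intro t ht
      rcases Finset.mem_union.1 ht with h | h
      · exact h
      · exact absurd h (by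
          show t ∉ ([] : List (Row m)).toFinset
          simp)
    refine ⟨⟨k, hk'⟩, T, pt (Nf ω) (rho ω) f, cb_mem_labs.2 ⟨hTc, hok⟩,
      ⟨hok, hTc, h1, ⟨f, hf, h2⟩, e, he⟩, ?_⟩
    have h1 := side_closed (v := -(h + ((P.K1 * P.dl) * al + P.dl))) hc0 hx hok hfr hk
      (Finset.nodup_toList T) hcl
      (S' := nxt P S (.cb s i ⟨k, hk'⟩ T)) rfl ?_ ?_
    · rw [neg_neg] at h1
      exact h1
    · intro j
      by_cases hj : j = i
      · rw [if_pos hj]
        exact if_pos ⟨rfl, hj⟩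
      · rw [if_neg hj]
        exact if_neg fun h => hj h.2
    · rw [Finset.toList_toFinset]
      exact if_pos rfl
  · -- success
    left
    obtain ⟨Z, -, hZ, hR⟩ := hc1
    obtain ⟨f, hf⟩ := hgen (Pos.exit ⟨k, hk'⟩ ⟨P.K3, Nat.lt_succ_self _⟩)
    have hJ : fnl ω (cfP P C S s i (Pos.exit ⟨k, hk'⟩ ⟨P.K3, Nat.lt_succ_self _⟩) ω) =
        fnl ω (cfJ P i ω) := by
      show fnl ω (cfE P C S s i k P.K3 ω) = _
      rw [cfE_last hP.K30]
    rw [hJ] at hf
    refine ⟨f, hf, ?_⟩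
    have hZ' : Leg.Mn (rho ω) (Nf ω) (up S.R) (fnl ω (cfJ P i ω)) Z := by
      rw [fnl_cfJ]
      exact hZ
    rw [← hf.eq_of_mn hZ']
    refine Geo.reach_mono ?_ (Geo.reach_trans hx.rc hR)
    exact Nat.add_le_add_left (Nat.add_le_add_right (Nat.mul_le_mul_right _ hk) _) _

end

end Pool.Agent.Lib.S3.PL
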