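import Pool.Agent.Lib.S3.PL.SftCB

/-!
# The payment for a light node in a leg (move `cb`)

`pay_cb`: for every measurable `F` which contains `ω` whenever it contains the shifted point,
`μ (EvCB P C S s i k T ∩ F ∩ Box b) ≤ exp K (2 ta / W) ^ q * μ (F ∩ Box (b + q W (Mw + 1)))`.
The later events contain all copies of the batch, hence are invariant (`gam_after`).
-/

set_option autoImplicit false

open MeasureTheory ProbabilityTheory Matrix
open scoped ENNReal NNReal

namespace Pool.Agent.Lib.S3.PL.CB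

variable {m n : ℕ}

/-- The functional of the objective at a step of a leg. -/
theorem fnl_cfL (P : Par) (C : Cf m) (S : St m n) (s : Bool) (i : Fin m) (k : ℕ) (ω ω' : Om m n) :
    fnl ω' (cfL P C S s i k ω) =
      fnl ω' (cfG C S s ω) - ((k : ℝ) * P.dl) • rho ω' (some i) := by
  unfold fnl cfL
  simp only [sub_smul, Finset.sum_sub_distrib]
  congr 1
  rw [Finset.sum_eq_single_of_mem (some i) (Finset.mem_univ _)]
  · rw [if_pos rfl]
  · intro b _ hb
    rw [if_neg hb, zero_smul]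

/-- The parameters of one orbit which lead into the event are confined. -/
theorem conf {P : Par} {C : Cf m} {S : St m n} {s : Bool} {i : Fin m} {k : ℕ}
    {T : Finset (Row m)} (hnew : ∀ r ∈ T, (r, nw S) ∉ S.B s) {t t' : T → ℝ} {ω : Om m n}
    (h1 : sft P C S s T t ω ∈ EvCB P C S s i k T) (h2 : sft P C S s T t' ω ∈ EvCB P C S s i k T)
    (r : T) : |t r - t' r| ≤ P.ta := by
  classical
  obtain ⟨-, -, hT, ⟨f1, o1, l1⟩, e1, he1⟩ := h1
  obtain ⟨-, -, -, ⟨f2, o2, l2⟩, -⟩ := h2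
  rw [RepB_congr (rho_sft P C S s T t ω) (Nf_sft P C S s T t ω)] at he1
  have hg : (good P C S s T ω).Nonempty := ⟨e1, he1⟩
  obtain ⟨a1, b1, g1⟩ := gam_before (t := t) hnew hg
  obtain ⟨a2, b2, g2⟩ := gam_before (t := t') hnew hg
  rw [rho_sft, Nf_sft] at o1 o2
  rw [rho_sft, Nf_sft] at l1 l2
  let tt : Row m → ℝ := fun b => if h : b ∈ T then t' ⟨b, h⟩ - t ⟨b, h⟩ else 0
  have hsum : ∑ b ∈ T, tt b • rho ω b =
      ∑ b : T, t' b • rho ω b - ∑ b : T, t b • rho ω b := by
    rw [← Finset.sum_sub_distrib, ← Finset.sum_coe_sort T (fun b => tt b • rho ω b)]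
    refine Finset.sum_congr rfl fun b _ => ?_
    rw [← sub_smul]
    simp only [tt, dif_pos b.2]
  have hΓ : ∃ (a : ℝ) (b : Row m → ℝ),
      fnl (sft P C S s T t ω) (cfL P C S s i k (sft P C S s T t ω)) =
      fnl (sft P C S s T t' ω) (cfL P C S s i k (sft P C S s T t' ω)) +
        ∑ r ∈ T, tt r • rho ω r + a • Nf ω + ∑ r ∈ up S.R, b r • rho ω r := by
    refine ⟨a1 - a2, fun b => b1 b - b2 b, ?_⟩
    rw [fnl_cfL, fnl_cfL, g1, g2, hsum, rho_sft, rho_sft]
    simp only [sub_smul, Finset.sum_sub_distrib]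
    abel
  obtain ⟨k1, hk1, hl1⟩ := l1 r r.2
  obtain ⟨k2, hk2, hl2⟩ := l2 r r.2
  have := conf_light (T := T) hT o1 o2 (fun r hr => (l1 r hr).imp fun _ h => h.1)
    (fun r hr => (l2 r hr).imp fun _ h => h.1) (t := tt) hΓ (ε := P.ta) r.2 hk1 hk2 hl1 hl2
  simp only [tt, dif_pos r.2] at this
  rw [abs_sub_comm]
  exact this

/-- The shift moves every coordinate by at most `card T * W * (Mw + 1)`. -/
theorem sft_dist {P : Par} {C : Cf m} {S : St m n} {s : Bool} {T : Finset (Row m)} {t : T → ℝ}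
    {W : ℝ} (h0 : 0 ≤ P.Mw) (ht : ∀ r, 0 ≤ t r ∧ t r ≤ W) (ω : Om m n) (c : Co m n) :
    |ω c - sft P C S s T t ω c| ≤ T.card * W * (P.Mw + 1) := by
  have h1 : ω c - sft P C S s T t ω c = -∑ r : T, t r * dirCB P C S s T r ω c := by
    rw [sft_apply]; ring
  rw [h1, abs_neg]
  refine (Finset.abs_sum_le_sum_abs _ _).trans ?_
  have h2 : ∀ r ∈ (Finset.univ : Finset T), |t r * dirCB P C S s T r ω c| ≤ W * (P.Mw + 1) := by
    intro r _
    rw [abs_mul, abs_of_nonneg (ht r).1]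
    exact mul_le_mul (ht r).2 (dirCB_le r.2 h0 ω c) (abs_nonneg _) ((ht r).1.trans (ht r).2)
  refine (Finset.sum_le_card_nsmul _ _ _ h2).trans (le_of_eq ?_)
  rw [nsmul_eq_mul, Finset.card_univ, Fintype.card_coe, mul_assoc]

/-- The payment for a light node in a leg. -/
theorem pay_cb (P : Par) (C : Cf m) (S : St m n) (s : Bool) (i : Fin m) (k : ℕ)
    (T : Finset (Row m)) (ctr Rb : Co m n → ℝ) (v : Co m n → ℝ≥0) (hv : ∀ c, v c ≠ 0)
    (hMw : 0 ≤ P.Mw) (hnew : ∀ r ∈ T, (r, nw S) ∉ S.B s) (W b : ℝ) (hW : 0 < W)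
    (F : Set (Om m n)) (hF : MeasurableSet F)
    (hinv : ∀ t : T → ℝ, (∀ r, 0 ≤ t r ∧ t r ≤ W) → ∀ ω, sft P C S s T t ω ∈ F → ω ∈ F)
    (K : ℝ) (hK : ∑ c : Co m n, (if MvC s c then (P.q * W * (P.Mw + 1)) *
      (2 * (Rb c + b) + P.q * W * (P.Mw + 1)) / (2 * v c) else 0) ≤ K) :
    Measure.pi (fun c => gaussianReal (ctr c) (v c)) (EvCB P C S s i k T ∩ (F ∩ Box ctr Rb b)) ≤
      ENNReal.ofReal (Real.exp K * (2 * P.ta / W) ^ P.q) *
        Measure.pi (fun c => gaussianReal (ctr c) (v c))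
          (F ∩ Box ctr Rb (b + P.q * W * (P.Mw + 1))) := by
  classical
  by_cases hq : T.card = P.q
  · have hcard : Fintype.card T = P.q := by rw [Fintype.card_coe, hq]
    have key := PayLin.pay_lin (ι := Co m n) (κ := T) ctr v hv (MvC s)
      (fun (r : T) ω => dirCB P C S s T r ω) (fun r => meas_dirCB P C S s T r)
      (fun r ω ω' h => dirCB_congr (rho_of_MvC h) (Nf_of_MvC h))
      (fun r ω c hc => dirCB_supp P C S s T r ω c hc) W P.ta hW
      (EvCB P C S s i k T ∩ (F ∩ Box ctr Rb b))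
      (F ∩ Box ctr Rb (b + P.q * W * (P.Mw + 1)))
      ((measurableSet_evCB P C S s i k T).inter (hF.inter (measurableSet_box ctr Rb b)))
      (hF.inter (measurableSet_box ctr Rb _))
      (fun c => Rb c + b) (fun _ => P.Mw + 1) (fun ω hω c _ => hω.2.2 c)
      (fun ω _ r c _ => dirCB_le r.2 hMw ω c) ?_ ?_ K ?_
    · rw [hcard] at key
      exact key
    · rintro t ht ω ⟨-, h2, h3⟩
      refine ⟨hinv t ht ω h2, fun c => ?_⟩
      have h4 : |sft P C S s T t ω c - ctr c| ≤ Rb c + b := h3 c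
      have h5 := sft_dist (C := C) (S := S) (s := s) hMw ht ω c
      rw [hq] at h5
      have h6 : ω c - ctr c = (ω c - sft P C S s T t ω c) + (sft P C S s T t ω c - ctr c) := by
        ring
      rw [h6]
      refine (abs_add_le _ _).trans ?_
      linarith
    · rintro t t' - - ω h1 h2 r
      exact conf hnew h1.1 h2.1 r
    · rw [hcard]
      exact hK
  · have : EvCB P C S s i k T = ∅ := by
      ext ω
      simp only [EvCB, Set.mem_ofPred_eq, Set.mem_empty_iff_false, iff_false]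
      exact fun h => hq h.2.1
    rw [this, Set.empty_inter, measure_empty]
    exact zero_le

end Pool.Agent.Lib.S3.PL.CB
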