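import Pool.Agent.Lib.S3.PL.PayLF
import Pool.Agent.Lib.S3.PL.Law
import Pool.Agent.Lib.S3.PL.Mach

/-!
# The payment of a light node on the exit line in the form of the machine

* `box_mono`: boxes grow.
* `feaO_lfs`, `badU_lfs`: feasibility and the later bad set do not see the private coins.
* `hpay_lf`: the hypothesis `hpay` of `Mach.bad_bound` for the light moves on the exit line.
-/

set_option autoImplicit false

open MeasureTheory ProbabilityTheory Matrix
open scoped ENNReal NNReal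

namespace Pool.Agent.Lib.S3.PL

variable {m n : ℕ}

theorem box_mono {ctr Rb : Co m n → ℝ} {b b' : ℝ} (h : b ≤ b') :
    Box ctr Rb b ⊆ Box ctr Rb b' := fun _ hω c => (hω c).trans (by linarith)

/-- Feasibility does not see the private coins. -/
theorem feaO_lfs (i : Fin m) (T : Finset (Row m)) (t : Row m → ℝ) (ω : Om m n)
    (h : lfs i T t ω ∈ (feaO : Set (Om m n))) : ω ∈ (feaO : Set (Om m n)) := by
  have hA : Am (lfs i T t ω) = Am ω := rfl
  have hb : bm (lfs i T t ω) = bm ω := rfl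
  unfold feaO at h ⊢
  rw [Set.mem_ofPred_eq] at h ⊢
  rwa [hA, hb] at h

/-- The later bad set does not see the private coins of a removed column. -/
theorem badU_lfs (P : Par) (C : Cf m) (i : Fin m) (T : Finset (Row m)) (t : Row m → ℝ)
    (ω : Om m n) {S : St m n} (hi : i ∈ S.R) (j w : ℕ)
    (h : lfs i T t ω ∈ Mach.BadU (mach P C) j w S) : ω ∈ Mach.BadU (mach P C) j w S := by
  refine (Mach.bad_inv_iff (mach P C) (lfs i T t) (fun S => i ∈ S.R)
    (fun S l hS _ => nxt_R P S l hS) ?_ j w S hi ω).1 h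
  intro S l hS _ ω
  exact ⟨fun h => (eqOff_lfs i T t ω).ev P C S hS l h,
    fun h => (eqOff_lfs i T t ω).symm.ev P C S hS l h⟩

/-- The hypothesis `hpay` of the recursive union bound for light moves on the exit line. -/
theorem hpay_lf {ctr : Co m n → ℝ} {v : Co m n → ℝ≥0} (hv : ∀ c, v c ≠ 0) (P : Par)
    (C : Cf m) (hC : (C.I false).card = n) (hph : 0 < P.ph) {W : ℝ} (hW : 0 < W)
    (Rb : Co m n → ℝ) {b β Rg vg K : ℝ} (hWβ : W ≤ β)
    (hRg : ∀ i r, Rb (.gi i r) + b ≤ Rg) (hRg0 : 0 ≤ Rg) (hvg : 0 < vg)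
    (hvg' : ∀ i r, vg ≤ v (.gi i r))
    (hK : (P.q : ℝ) * (P.q * W * (2 * Rg + P.q * W) / (2 * vg)) ≤ K)
    (S : St m n) (hS : Ok P C S) (s : Bool) (i : Fin m) (k : Fin (P.K1 + 1))
    (e : Fin (P.K3 + 1)) (T : Finset (Option (Fin m)))
    (hl : Mv.lf s i k e T ∈ labs P C S) (j w' : ℕ) :
    Measure.pi (fun c => gaussianReal (ctr c) (v c))
        ((mach P C).ev S (.lf s i k e T) ∩
          Mach.BadU (mach P C) j w' ((mach P C).step S (.lf s i k e T)) ∩
          (Box ctr Rb b ∩ feaO)) ≤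
      ENNReal.ofReal (Real.exp K * (2 * (P.ta2 / P.ph) / W) ^ P.q) *
        Measure.pi (fun c => gaussianReal (ctr c) (v c))
          (Mach.BadU (mach P C) j w' ((mach P C).step S (.lf s i k e T)) ∩
            (Box ctr Rb (b + β) ∩ feaO)) := by
  have hF : MeasurableSet (Mach.BadU (mach P C) j w' ((mach P C).step S (.lf s i k e T))) :=
    Mach.bad_measurable (mach P C) (Ok P C) (fun S l h hl => ok_nxt hC S l h hl)
      (fun S l _ _ => measurableSet_ev P C S l) j w' _ (ok_nxt hC S _ hS hl)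
  have hi : i ∈ (nxt P S (.lf s i k e T)).R := Finset.mem_insert_self _ _
  have key := pay_lf (ctr := ctr) hv P C S s i k e T hph hW Rb (b := b)
    (F := Mach.BadU (mach P C) j w' ((mach P C).step S (.lf s i k e T)) ∩ feaO)
    (hF.inter measurableSet_feaO)
    (fun t _ ω h => ⟨badU_lfs P C i T t ω hi j w' h.1, feaO_lfs i T t ω h.2⟩)
    (hRg i) hRg0 hvg (hvg' i) hK
  refine le_trans (measure_mono ?_) (key.trans (mul_le_mul_right (measure_mono ?_) _))
  · rintro ω ⟨⟨h1, h2⟩, h3, h4⟩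
    exact ⟨⟨h1, h2, h4⟩, h3⟩
  · rintro ω ⟨⟨h1, h2⟩, h3⟩
    exact ⟨h1, box_mono (by linarith) h3, h2⟩

end Pool.Agent.Lib.S3.PL
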