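import Pool.Agent.Lib.S3.PL.PayHVBox
import Pool.Agent.Lib.S3.PL.PayLFBox
import Pool.Agent.Lib.S3.PL.PayCB
import Pool.Agent.Lib.S3.PL.InvSft

/-!
# The union bound of the pair machine (smoothed Hirsch, MP_4a5c02_co)

* `hpay_cb`: the payment of a light node in a leg in the form of the machine;
* `badU_empty`: strings longer than `n` are impossible;
* `pair_bound`: the probability that the machine makes `j` moves with walls of total weight at most
  `w`, inside the box and on feasible instances.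
-/

set_option autoImplicit false

open MeasureTheory ProbabilityTheory Matrix
open scoped ENNReal NNReal

namespace Pool.Agent.Lib.S3.PL

open Pool.Agent.Lib.S3.Mach

variable {m n : ℕ}

/-- Feasibility sees only the rows. -/
theorem feaO_of_rows {ω ω' : Om m n} (h : ∀ r j, ω (.row r j) = ω' (.row r j))
    (hω : ω ∈ (feaO : Set (Om m n))) : ω' ∈ (feaO : Set (Om m n)) := by
  obtain ⟨x, hx⟩ := hω
  refine ⟨x, fun r => ?_⟩
  have h1 : Am ω' r = Am ω r := by
    funext j
    unfold Am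
    rw [h]
  have h2 : bm ω' r = bm ω r := by
    unfold bm
    rw [h]
  rw [h1, h2]
  exact hx r

theorem measurableSet_badU_ok (P : Par) {C : Cf m} (hC : (C.I false).card = n) {S : St m n}
    (hS : Ok P C S) (j w : ℕ) : MeasurableSet (BadU (mach P C) j w S) :=
  bad_measurable (mach P C) (Ok P C) (fun S l h hl => ok_nxt hC S l h hl)
    (fun S l _ _ => measurableSet_ev P C S l) j w _ hS

/-- A string of moves is at most as long as the number of columns which are not burnt. -/
theorem badU_empty (P : Par) {C : Cf m} (hC : (C.I false).card = n) (j : ℕ) :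
    ∀ (w : ℕ) {S : St m n}, Ok P C S → n < j + S.t → BadU (mach P C) j w S = ∅ := by
  induction j with
  | zero =>
    intro w S hS h
    have := hS.t_le hC
    omega
  | succ j ih =>
    intro w S hS h
    ext ω
    simp only [Set.mem_empty_iff_false, iff_false]
    rintro ⟨l, hl, hw, he, hb⟩
    have hok : OkCol C S l.col := (mem_labs.1 hl).2
    have hS' := ok_nxt hC S l hS hl
    have ht : (nxt P S l).t = S.t + 1 := by cases l <;> rfl
    have := ih (w - wt l) hS' (by omega)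
    have hb' : ω ∈ BadU (mach P C) j (w - wt l) (nxt P S l) := hb
    rw [this] at hb'
    exact hb'

/-- The payment of a light node in a leg in the form of the machine. -/
theorem hpay_cb {ctr : Co m n → ℝ} {v : Co m n → ℝ≥0} (hv : ∀ c, v c ≠ 0) (P : Par)
    (C : Cf m) (hC : (C.I false).card = n) (hMw : 0 ≤ P.Mw) {W : ℝ} (hW : 0 < W)
    (Rb : Co m n → ℝ) {b β K : ℝ} (hRb : ∀ c, 0 ≤ Rb c + b)
    (hβ : P.q * W * (P.Mw + 1) ≤ β)
    (hK : ∀ c, Fintype.card (Co m n) * (β * (2 * (Rb c + b) + β) / (2 * v c)) ≤ K)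
    (S : St m n) (hS : Ok P C S) (s : Bool) (i : Fin m) (k : Fin (P.K1 + 1))
    (T : Finset (Option (Fin m)))
    (hl : Mv.cb s i k T ∈ labs P C S) (j w' : ℕ) :
    Measure.pi (fun c => gaussianReal (ctr c) (v c))
        (EvCB P C S s i k T ∩ BadU (mach P C) j w' (nxt P S (.cb s i k T)) ∩
          (Box ctr Rb b ∩ feaO)) ≤
      ENNReal.ofReal (Real.exp K * (2 * P.ta / W) ^ P.q) *
        Measure.pi (fun c => gaussianReal (ctr c) (v c))
          (BadU (mach P C) j w' (nxt P S (.cb s i k T)) ∩ (Box ctr Rb (b + β) ∩ feaO)) := by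
  classical
  have hm := measurableSet_badU_ok P hC (ok_nxt hC S _ hS hl) j w'
  have hok : OkCol C S i := (cb_mem_labs.1 hl).2
  have hnew : ∀ r ∈ T, (r, CB.nw S) ∉ S.B s := by
    intro r _ hr
    have h1 := hS.copy s r _ hr
    have h2 := hS.t_lt hC hok
    unfold CB.nw at h1
    rw [Fin.val_ofNat, Nat.mod_eq_of_lt (by omega)] at h1
    omega
  have hβ0 : 0 ≤ β := le_trans (by positivity) hβ
  have hKs : ∑ c : Co m n, (if CB.MvC s c then (P.q * W * (P.Mw + 1)) *
      (2 * (Rb c + b) + P.q * W * (P.Mw + 1)) / (2 * v c) else 0) ≤ K := by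
    have hterm : ∀ c : Co m n, (if CB.MvC s c then (P.q * W * (P.Mw + 1)) *
        (2 * (Rb c + b) + P.q * W * (P.Mw + 1)) / (2 * v c) else 0) ≤
        β * (2 * (Rb c + b) + β) / (2 * v c) := by
      intro c
      have hvc : (0 : ℝ) < v c := by
        have := pos_iff_ne_zero.mpr (hv c)
        exact_mod_cast this
      have hR := hRb c
      have hβ' : 0 ≤ P.q * W * (P.Mw + 1) := by positivity
      split_ifs
      · refine div_le_div_of_nonneg_right ?_ (by positivity)
        exact mul_le_mul hβ (by linarith) (by positivity) hβ0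
      · positivity
    have hcp : (0 : ℝ) < Fintype.card (Co m n) := by
      have : 0 < Fintype.card (Co m n) := Fintype.card_pos_iff.2 ⟨.eta none⟩
      exact_mod_cast this
    refine (Finset.sum_le_sum fun c _ => hterm c).trans ?_
    have h2 : ∀ c ∈ (Finset.univ : Finset (Co m n)),
        β * (2 * (Rb c + b) + β) / (2 * v c) ≤ K / Fintype.card (Co m n) := by
      intro c _
      rw [le_div_iff₀ hcp, mul_comm]
      exact hK c
    refine (Finset.sum_le_card_nsmul _ _ _ h2).trans (le_of_eq ?_)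
    rw [nsmul_eq_mul, Finset.card_univ]
    field_simp
  have key := CB.pay_cb P C S s i k T ctr Rb v hv hMw hnew W b hW
    (BadU (mach P C) j w' (nxt P S (.cb s i k T)) ∩ feaO) (hm.inter measurableSet_feaO)
    (fun t _ ω hω => ⟨(CB.sft_badU_mach i k t ω j w').1 hω.1,
      feaO_of_rows (fun r j' => CB.sft_row P C S s T t ω r j') hω.2⟩) K hKs
  have e1 : EvCB P C S s i k T ∩ BadU (mach P C) j w' (nxt P S (.cb s i k T)) ∩
      (Box ctr Rb b ∩ feaO) =
      EvCB P C S s i k T ∩ ((BadU (mach P C) j w' (nxt P S (.cb s i k T)) ∩ feaO) ∩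
        Box ctr Rb b) := by
    ext ω
    simp only [Set.mem_inter_iff]
    tauto
  rw [e1]
  refine key.trans (mul_le_mul' le_rfl (measure_mono ?_))
  rintro ω ⟨⟨h1, h2⟩, h3⟩
  exact ⟨h1, box_mono (by linarith) h3, h2⟩

/-- **The union bound of the pair machine.** The numbers: `w1`, `w2`, `w3` are the widths of the
shifts of the three kinds of paid moves, `β` the relaxation of the box at every move, `Hc` bounds
the coordinates, `K` is the logarithm of the density ratio of a move, `A` the total price of the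
paid moves. -/
theorem pair_bound {ctr : Co m n → ℝ} {v : Co m n → ℝ≥0} (hv : ∀ c, v c ≠ 0) (P : Par)
    (C : Cf m) (hm : 1 ≤ m) (hC : (C.I false).card = n) (hTh : 0 ≤ P.Th) (hdl : 0 ≤ P.dl)
    (hph : 0 < P.ph) (hMw : 0 ≤ P.Mw) {w1 w2 w3 : ℝ} (hw1 : 0 < w1) (hw2 : 0 < w2) (hw3 : 0 < w3)
    (Rb : Co m n → ℝ) (hRb : ∀ c, 0 ≤ Rb c) {β Hc Rg vg K : ℝ} (hβ0 : 0 ≤ β)
    (hβ : n * β ≤ 1 / 4) (hHc : ∀ c, |ctr c| + (Rb c + 1 / 4) ≤ Hc)
    (hβ1 : P.d0 * w1 * ((P.Th + P.K1 * P.dl) + (n + 2) * Hc) ≤ β) (hβ2 : w2 ≤ β)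
    (hβ3 : P.q * w3 * (P.Mw + 1) ≤ β)
    (hRg : ∀ i r, Rb (.gi i r) + 1 / 4 ≤ Rg) (hRg0 : 0 ≤ Rg) (hvg : 0 < vg)
    (hvg' : ∀ i r, vg ≤ v (.gi i r))
    (hK : ∀ c, Fintype.card (Co m n) * (β * (2 * (Rb c + 1 / 4) + β) / (2 * v c)) ≤ K)
    (hKg : (P.q : ℝ) * (P.q * w2 * (2 * Rg + P.q * w2) / (2 * vg)) ≤ K)
    {A : ℝ≥0∞} (hA1 : A ≤ 1)
    (hA : (2 * m * ((P.K1 + 1) * (P.K3 + 2)) * m ^ P.d0 : ℕ) *
        ENNReal.ofReal (Real.exp K * (2 * P.ep / w1) ^ P.d0) +
      (2 * m * ((P.K1 + 1) * (P.K3 + 1)) * (m + 1) ^ P.q : ℕ) *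
        ENNReal.ofReal (Real.exp K * (2 * (P.ta2 / P.ph) / w2) ^ P.q) +
      (2 * m * (P.K1 + 1) * (m + 1) ^ P.q : ℕ) *
        ENNReal.ofReal (Real.exp K * (2 * P.ta / w3) ^ P.q) ≤ A)
    (j w : ℕ) :
    Measure.pi (fun c => gaussianReal (ctr c) (v c))
        (BadU (mach P C) j w (st0 P C) ∩ (Box ctr Rb 0 ∩ feaO)) ≤
      fac A ((2 * m * (P.K1 + 1) * (m + 1) : ℕ) : ℝ≥0∞) j w *
        Measure.pi (fun c => gaussianReal (ctr c) (v c)) feaO := by
  by_cases hj : j ≤ n
  swap
  · rw [badU_empty P hC j w (ok_st0 P C) (by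
      have : (st0 P C : St m n).t = 0 := rfl
      omega), Set.empty_inter, measure_empty]
    exact zero_le
  have hn0 : (0 : ℝ) ≤ n := Nat.cast_nonneg n
  have hkβ : ∀ k j' : ℕ, k + 1 + j' ≤ j → (k : ℝ) * β ≤ 1 / 4 := by
    intro k j' h
    have h1 : (k : ℝ) ≤ n := by
      have : k ≤ n := by omega
      exact_mod_cast this
    exact (mul_le_mul_of_nonneg_right h1 hβ0).trans hβ
  have hK' : ∀ k : ℕ, (k : ℝ) * β ≤ 1 / 4 → ∀ c,
      Fintype.card (Co m n) * (β * (2 * (Rb c + k * β) + β) / (2 * v c)) ≤ K := by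
    intro k hk c
    refine le_trans ?_ (hK c)
    gcongr
  have key := mach_bound_le (Measure.pi (fun c => gaussianReal (ctr c) (v c))) P C hm hC
    (fun k => Box ctr Rb (k * β) ∩ feaO)
    (fun k => Set.inter_subset_inter_left _ (box_mono (by push_cast; nlinarith)))
    _ _ _ A hA1 hA j ?_ ?_ ?_ j w le_rfl
  · refine le_trans (measure_mono ?_) (key.trans (mul_le_mul' le_rfl
      (measure_mono Set.inter_subset_right)))
    refine Set.inter_subset_inter_right _ (Set.inter_subset_inter_left _ ?_)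
    exact box_mono (by simp)
  · intro k S s i p D hS hok hD j' w' hkj
    have hk := hkβ k j' hkj
    have h := hpay_hv (ctr := ctr) hv P C hC hTh hdl hw1 Rb (b := k * β) (β := β) (Hc := Hc)
      (K := K) (fun c => le_trans (by linarith) (hHc c)) hβ1 (hK' k hk) S hS s i p D
      (hv_mem_labs.2 ⟨hD, hok⟩) j' w'
    have e2 : ((k + 1 : ℕ) : ℝ) * β = k * β + β := by push_cast; ring
    rw [e2]
    exact h
  · intro k S s i k' e T hS hok hT j' w' hkj
    have hk := hkβ k j' hkj
    have h := hpay_lf (ctr := ctr) hv P C hC hph hw2 Rb (b := k * β) (β := β) (K := K) hβ2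
      (fun i r => le_trans (by linarith) (hRg i r)) hRg0 hvg hvg' hKg S hS s i k' e T
      (lf_mem_labs.2 ⟨hT, hok⟩) j' w'
    have e2 : ((k + 1 : ℕ) : ℝ) * β = k * β + β := by push_cast; ring
    rw [e2]
    exact h
  · intro k S s i k' T hS hok hT j' w' hkj
    have hk := hkβ k j' hkj
    have h := hpay_cb (ctr := ctr) hv P C hC hMw hw3 Rb (b := k * β) (β := β) (K := K)
      (fun c => add_nonneg (hRb c) (by positivity)) hβ3 (hK' k hk) S hS s i k' T
      (cb_mem_labs.2 ⟨hT, hok⟩) j' w'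
    have e2 : ((k + 1 : ℕ) : ℝ) * β = k * β + β := by push_cast; ring
    rw [e2]
    exact h

end Pool.Agent.Lib.S3.PL
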