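import Pool.Agent.Lib.S3.PL.HvShift
import Pool.Agent.Lib.S3.PL.OptInv
import Pool.Agent.Lib.S3.PL.OptMeas

/-!
# The payment of a heavy window

`pay_hv`: for arbitrary later sets `F`, `F'` such that the shift `hvS` leads from `F'` into `F`
only, the probability of `EvHV ∩ F` is at most `exp K * (2 ep / w) ^ d0` times the probability of
`F'`.
-/

set_option autoImplicit false

open MeasureTheory ProbabilityTheory Matrix
open scoped ENNReal NNReal

namespace Pool.Agent.Lib.S3.PL

variable {m n : ℕ}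

section meas

private theorem m_rho (r : Row m) (j : Fin (n + 1)) :
    Measurable fun ω : Om m n => rho ω r j := by
  cases r with
  | none => exact measurable_const
  | some q => exact measurable_pi_apply _

private theorem m_fnl {c : Om m n → Row m → ℝ} (hc : ∀ r, Measurable fun ω => c ω r)
    (j : Fin (n + 1)) : Measurable fun ω : Om m n => fnl ω (c ω) j := by
  unfold fnl
  simp only [Finset.sum_apply, Pi.smul_apply, smul_eq_mul]
  exact Finset.measurable_sum _ fun r _ => (hc r).mul (m_rho r j)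

private theorem m_N (j : Fin (n + 1)) : Measurable fun ω : Om m n => Nf ω j :=
  m_fnl (c := fun ω r => ω (.eta r)) (fun _ => measurable_pi_apply _) j

private theorem m_cfG (C : Cf m) (S : St m n) (s : Bool) (r : Row m) :
    Measurable fun ω : Om m n => cfG C S s ω r := by
  unfold cfG
  refine Measurable.add ?_ ?_
  · cases r with
    | none => exact measurable_const
    | some j =>
      by_cases h : j ∈ C.I s ∧ j ∉ S.R
      · simp only [h, and_self, if_true, not_false_eq_true]
        exact measurable_const.add (measurable_pi_apply _)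
      · simp only [h, if_false]
        exact measurable_const
  · refine Finset.measurable_sum _ fun l _ => ?_
    by_cases h : (r, l) ∈ S.B s
    · simp only [h, if_true]
      exact measurable_pi_apply _
    · simp only [h, if_false]
      exact measurable_const

private theorem m_cfL (P : Par) (C : Cf m) (S : St m n) (s : Bool) (i : Fin m) (k : ℕ)
    (r : Row m) : Measurable fun ω : Om m n => cfL P C S s i k ω r :=
  (m_cfG C S s r).sub measurable_const

private theorem m_cfP (P : Par) (C : Cf m) (S : St m n) (s : Bool) (i : Fin m) (p : Pos P)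
    (r : Row m) : Measurable fun ω : Om m n => cfP P C S s i p ω r := by
  cases p with
  | leg k => exact m_cfL P C S s i k r
  | exit k e =>
    exact ((m_cfL P C S s i k r).const_mul _).add
      (((measurable_pi_apply _).sub measurable_const).const_mul _)

private theorem m_hvA (C : Cf m) (S : St m n) (s : Bool) (i : Fin m) (D : Finset (Fin m))
    (k : D) : Measurable (hvA (n := n) C S s i D k) := by
  refine measurable_pi_lambda _ fun c => ?_
  cases c with
  | row r j => exact (measurable_pi_apply _).neg.ite (MeasurableSet.const _) measurable_const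
  | eta r => exact (measurable_pi_apply _).ite (MeasurableSet.const _) measurable_const
  | nu s' j => exact (m_cfG C S s _).ite (MeasurableSet.const _) measurable_const
  | om s' r l => exact measurable_const
  | gi i' r => exact (measurable_pi_apply _).ite (MeasurableSet.const _) measurable_const
  | hub r => exact measurable_const

end meas

theorem measurableSet_EvHV (P : Par) (C : Cf m) (S : St m n) (s : Bool) (i : Fin m)
    (p : Pos P) (D : Finset (Fin m)) : MeasurableSet (EvHV P C S s i p D) := by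
  by_cases hc : OkCol C S i ∧ D.card = P.d0 ∧ i ∉ D ∧ Disjoint D S.R
  · have h : EvHV P C S s i p D = ⋃ e : Fin n → Row m,
        ({ω | Opt (Nf ω) (rho ω) (fnl ω (cfP P C S s i p ω)) (up S.R) (up D) e} ∩
        ⋂ r : Fin m, ⋂ _ : r ∈ D, ({ω | 0 < rho ω (some r) ⬝ᵥ pt (Nf ω) (rho ω) e} ∩
          {ω | rho ω (some r) ⬝ᵥ pt (Nf ω) (rho ω) e ≤
            P.ep * (rho ω (some i) ⬝ᵥ pt (Nf ω) (rho ω) e)})) := by
      ext ω
      simp only [EvHV, Set.mem_ofPred_eq, Set.mem_iUnion, Set.mem_inter_iff, Set.mem_iInter]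
      exact ⟨fun h => h.2.2.2.2, fun h => ⟨hc.1, hc.2.1, hc.2.2.1, hc.2.2.2, h⟩⟩
    rw [h]
    refine MeasurableSet.iUnion fun e => ?_
    refine (measurableSet_opt m_N m_rho (m_fnl (m_cfP P C S s i p)) _ _ e).inter ?_
    refine MeasurableSet.iInter fun r => MeasurableSet.iInter fun _ => ?_
    refine (measurableSet_lt measurable_const (meas_row_pt m_N m_rho e _)).inter
      (measurableSet_le (meas_row_pt m_N m_rho e _) ((meas_row_pt m_N m_rho e _).const_mul _))
  · have h : EvHV P C S s i p D = ∅ := by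
      ext ω
      simp only [EvHV, Set.mem_ofPred_eq, Set.mem_empty_iff_false, iff_false]
      exact fun h => hc ⟨h.1, h.2.1, h.2.2.1, h.2.2.2.1⟩
    rw [h]
    exact MeasurableSet.empty

/-- **The payment of a heavy window**, for arbitrary later sets. -/
theorem pay_hv (P : Par) (C : Cf m) (S : St m n) (s : Bool) (i : Fin m) (p : Pos P)
    (D : Finset (Fin m)) (ctr : Co m n → ℝ) (v : Co m n → ℝ≥0) (hv : ∀ c, v c ≠ 0)
    (w : ℝ) (hw : 0 < w) (F F' : Set (Om m n)) (hF : MeasurableSet F) (hF' : MeasurableSet F')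
    (Rm H : Co m n → ℝ)
    (hR : ∀ ω ∈ F, ∀ c, hvM s i D c → |ω c - ctr c| ≤ Rm c)
    (hH : ∀ ω ∈ F, ∀ k c, hvM s i D c → |hvA C S s i D k ω c| ≤ H c)
    (hinv : OkCol C S i → i ∉ D → Disjoint D S.R → ∀ t : D → ℝ, (∀ k, 0 ≤ t k ∧ t k ≤ w) →
      ∀ ω, hvS C S s i D t ω ∈ F → ω ∈ F')
    (K : ℝ) (hK : ∑ c, (if hvM s i D c then (P.d0 * w * H c) *
      (2 * Rm c + P.d0 * w * H c) / (2 * v c) else 0) ≤ K) :
    Measure.pi (fun c => gaussianReal (ctr c) (v c)) (EvHV P C S s i p D ∩ F) ≤
      ENNReal.ofReal (Real.exp K * (2 * P.ep / w) ^ P.d0) *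
        Measure.pi (fun c => gaussianReal (ctr c) (v c)) F' := by
  classical
  by_cases hc : OkCol C S i ∧ D.card = P.d0 ∧ i ∉ D ∧ Disjoint D S.R
  swap
  · have h : EvHV P C S s i p D = ∅ := by
      ext ω
      simp only [EvHV, Set.mem_ofPred_eq, Set.mem_empty_iff_false, iff_false]
      exact fun h => hc ⟨h.1, h.2.1, h.2.2.1, h.2.2.2.1⟩
    rw [h, Set.empty_inter, measure_empty]
    exact zero_le
  obtain ⟨hok, hcard, hi, hDR⟩ := hc
  have hIs : i ∈ C.I s := by
    cases s
    · exact hok.1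
    · exact hok.2.1
  have hiR : i ∉ S.R := hok.2.2.1
  have hcard' : Fintype.card D = P.d0 := by rw [Fintype.card_coe, hcard]
  have key := PayLin.pay_lin ctr v hv (hvM s i D) (hvA C S s i D)
    (fun k => m_hvA C S s i D k) (fun k ω ω' h => hvA_dep C S s i D hi k ω ω' h)
    (fun k ω c h => hvA_supp C S s i D k ω c h) w P.ep hw
    (EvHV P C S s i p D ∩ F) F' ((measurableSet_EvHV P C S s i p D).inter hF) hF' Rm H
    (fun ω hω c h => hR ω hω.2 c h) (fun ω hω k c h => hH ω hω.2 k c h)
    (fun t ht ω hω => hinv hok hi hDR t ht ω hω.2) ?_ K (by rw [hcard']; exact hK)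
  · rwa [hcard'] at key
  · rintro t t' - - ω ⟨hE, -⟩ ⟨hE', -⟩ k
    obtain ⟨-, -, -, -, e, ho, hb⟩ := hE
    obtain ⟨-, -, -, -, e', ho', hb'⟩ := hE'
    change Opt (Nf (hvS C S s i D t ω)) (rho (hvS C S s i D t ω))
      (fnl (hvS C S s i D t ω) (cfP P C S s i p (hvS C S s i D t ω))) _ _ e at ho
    change Opt (Nf (hvS C S s i D t' ω)) (rho (hvS C S s i D t' ω))
      (fnl (hvS C S s i D t' ω) (cfP P C S s i p (hvS C S s i D t' ω))) _ _ e' at ho'
    rw [Nf_hvS C S s i D t ω hi, fnl_cfP_hvS C S s i D t ω P hIs hiR hi p] at ho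
    rw [Nf_hvS C S s i D t' ω hi, fnl_cfP_hvS C S s i D t' ω P hIs hiR hi p] at ho'
    obtain ⟨b1, b2⟩ := hb k k.2
    obtain ⟨b1', b2'⟩ := hb' k k.2
    change 0 < rho (hvS C S s i D t ω) (some (k : Fin m)) ⬝ᵥ
      pt (Nf (hvS C S s i D t ω)) (rho (hvS C S s i D t ω)) e at b1
    change rho (hvS C S s i D t ω) (some (k : Fin m)) ⬝ᵥ
      pt (Nf (hvS C S s i D t ω)) (rho (hvS C S s i D t ω)) e ≤ P.ep *
      (rho (hvS C S s i D t ω) (some i) ⬝ᵥ
        pt (Nf (hvS C S s i D t ω)) (rho (hvS C S s i D t ω)) e) at b2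
    change 0 < rho (hvS C S s i D t' ω) (some (k : Fin m)) ⬝ᵥ
      pt (Nf (hvS C S s i D t' ω)) (rho (hvS C S s i D t' ω)) e' at b1'
    change rho (hvS C S s i D t' ω) (some (k : Fin m)) ⬝ᵥ
      pt (Nf (hvS C S s i D t' ω)) (rho (hvS C S s i D t' ω)) e' ≤ P.ep *
      (rho (hvS C S s i D t' ω) (some i) ⬝ᵥ
        pt (Nf (hvS C S s i D t' ω)) (rho (hvS C S s i D t' ω)) e') at b2'
    rw [Nf_hvS C S s i D t ω hi] at b1 b2
    rw [Nf_hvS C S s i D t' ω hi] at b1' b2'
    have h := conf_heavy (D := up D) (i := (some i : Row m)) (r := some (k : Fin m))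
      (t₁ := - t k) (t₂ := - t' k) (by rw [mem_up]; exact hi)
      (fun r hr => rho_hvS_notMem C S s i D t ω hr)
      (fun r hr => rho_hvS_notMem C S s i D t' ω hr) ho ho' (by rw [mem_up]; exact k.2)
      (by rw [rho_hvS_some, hvT_mem, neg_smul, sub_eq_add_neg])
      (by rw [rho_hvS_some, hvT_mem, neg_smul, sub_eq_add_neg]) b1 b2 b1' b2'
    have e3 : - t k - - t' k = -(t k - t' k) := by ring
    rwa [e3, abs_neg] at h

end Pool.Agent.Lib.S3.PL
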