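import Pool.Agent.Lib.S3.PL.PayHV
import Pool.Agent.Lib.S3.PL.InvHV
import Pool.Agent.Lib.S3.PL.EvMeas
import Pool.Agent.Lib.S3.PL.Law
import Pool.Agent.Lib.S3.PL.Mach

/-!
# The payment of a heavy window in the form of the machine

* `hvRel_hvS`: the shift is a shear in the sense of `HvRel`.
* `feaO_hvS`, `box_hvS`: feasibility and the boxes under the shift.
* `Ok.kc_le`: the known costs are bounded.
* `pay_hv_box`: the payment for every later set `F` which is invariant under `HvRel`.
* `hpay_hv`: the hypothesis `hpay` of `Mach.bad_bound` for heavy moves.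
* `card_Co_le`: the number of coordinates.
-/

set_option autoImplicit false

open MeasureTheory ProbabilityTheory Matrix
open scoped ENNReal NNReal

namespace Pool.Agent.Lib.S3.PL

variable {m n : ℕ}

/-- The number of coordinates. -/
theorem card_Co_le (m n : ℕ) : Fintype.card (Co m n) ≤ 8 * (m + n + 2) ^ 2 := by
  classical
  let f : Co m n → (Fin m × Fin (n + 1)) ⊕ (Option (Fin m)) ⊕ (Bool × Fin m) ⊕
      (Bool × Option (Fin m) × Fin (n + 1)) ⊕ (Fin m × Option (Fin m)) ⊕ (Option (Fin m)) :=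
    fun c => match c with
      | .row r j => .inl (r, j)
      | .eta r => .inr (.inl r)
      | .nu s j => .inr (.inr (.inl (s, j)))
      | .om s r l => .inr (.inr (.inr (.inl (s, r, l))))
      | .gi i r => .inr (.inr (.inr (.inr (.inl (i, r)))))
      | .hub r => .inr (.inr (.inr (.inr (.inr r))))
  have hf : Function.Injective f := by
    intro a b h
    cases a <;> cases b <;> simp_all [f]
  refine (Fintype.card_le_of_injective f hf).trans ?_
  simp only [Fintype.card_sum, Fintype.card_prod, Fintype.card_option, Fintype.card_bool,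
    Fintype.card_fin]
  nlinarith [Nat.zero_le m, Nat.zero_le n, Nat.zero_le (m * n), Nat.zero_le (n * n)]

section base

variable (C : Cf m) (S : St m n) (s : Bool) (i : Fin m) (D : Finset (Fin m)) (t : D → ℝ)
  (ω : Om m n)

/-- The shift is a shear with the row `i`. -/
theorem hvRel_hvS (hi : i ∉ D) : HvRel i ω (hvS C S s i D t ω) where
  row := by
    refine ⟨fun r => - hvT t r, by simp [hvT_notMem t hi], fun r j => ?_⟩
    rw [hvS_row]
    ring
  N := Nf_hvS C S s i D t ω hi
  nu := by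
    intro s' j hj
    rw [hvS_nu, if_neg (fun h => hj h.2), add_zero]
  om := fun s' r l => hvS_om C S s i D t ω s' r l
  gi := by
    intro i' r hi'
    rw [hvS_gi, if_neg (fun h => hi' h.1), add_zero]

/-- Feasibility: the shift only lowers the rows. -/
theorem feaO_hvS (hi : i ∉ D) (ht : ∀ k, 0 ≤ t k) (h : hvS C S s i D t ω ∈ (feaO : Set (Om m n))) :
    ω ∈ (feaO : Set (Om m n)) := by
  obtain ⟨x, hx⟩ := h
  have key : ∀ (ω : Om m n) (r : Fin m), (Am ω r ⬝ᵥ x ≤ bm ω r ↔
      0 ≤ ω (.row r 0) + ∑ j : Fin n, ω (.row r j.succ) * x j) := by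
    intro ω r
    have : Am ω r ⬝ᵥ x = - ∑ j : Fin n, ω (.row r j.succ) * x j := by
      unfold Am dotProduct
      rw [← Finset.sum_neg_distrib]
      exact Finset.sum_congr rfl fun j _ => by ring
    rw [this]
    unfold bm
    constructor <;> intro h <;> linarith
  refine ⟨x, fun r => ?_⟩
  rw [key]
  have h1 := (key _ r).1 (hx r)
  have h2 := (key _ i).1 (hx i)
  simp only [hvS_row, hvT_notMem t hi, zero_mul, sub_zero] at h2
  simp only [hvS_row] at h1
  have h3 : 0 ≤ hvT t r := by
    by_cases hr : r ∈ D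
    · rw [hvT_mem t ⟨r, hr⟩]
      exact ht _
    · rw [hvT_notMem t hr]
  have h4 : ω (.row r 0) - hvT t r * ω (.row i 0) +
      ∑ j : Fin n, (ω (.row r j.succ) - hvT t r * ω (.row i j.succ)) * x j =
      (ω (.row r 0) + ∑ j : Fin n, ω (.row r j.succ) * x j) -
        hvT t r * (ω (.row i 0) + ∑ j : Fin n, ω (.row i j.succ) * x j) := by
    rw [mul_add, Finset.mul_sum]
    have : ∑ j : Fin n, (ω (.row r j.succ) - hvT t r * ω (.row i j.succ)) * x j =
        ∑ j : Fin n, ω (.row r j.succ) * x j -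
          ∑ j : Fin n, hvT t r * (ω (.row i j.succ) * x j) := by
      rw [← Finset.sum_sub_distrib]
      exact Finset.sum_congr rfl fun j _ => by ring
    rw [this]
    ring
  rw [h4] at h1
  have h5 := mul_nonneg h3 h2
  linarith

/-- Bounds for the coefficients of the shift. -/
theorem hvA_le {Hk Hc : ℝ} (hkc : ∀ j, |S.kc s j| ≤ Hk) (hc : ∀ c, |ω c| ≤ Hc) (k : D)
    (c : Co m n) : |hvA C S s i D k ω c| ≤ Hk + (n + 2) * Hc := by
  have hHc : 0 ≤ Hc := (abs_nonneg _).trans (hc (.eta none))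
  have hHk : 0 ≤ Hk := (abs_nonneg _).trans (hkc k)
  have h0 : (0 : ℝ) ≤ Hk + (n + 2) * Hc := by positivity
  have h1 : Hc ≤ Hk + (n + 2) * Hc := by
    have : (0 : ℝ) ≤ (n + 1) * Hc := by positivity
    linarith
  cases c with
  | row r j =>
    simp only [hvA]
    split_ifs
    · rw [abs_neg]
      exact (hc _).trans h1
    · rwa [abs_zero]
  | eta r =>
    simp only [hvA]
    split_ifs
    · exact (hc _).trans h1
    · rwa [abs_zero]
  | nu s' j =>
    simp only [hvA]
    split_ifs
    · unfold cfG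
      refine (abs_add_le _ _).trans ?_
      have h2 : |∑ l : Fin (n + 1), if ((some (k : Fin m) : Row m), l) ∈ S.B s then
          ω (.om s (some (k : Fin m)) l) else 0| ≤ (n + 1) * Hc := by
        refine (Finset.abs_sum_le_sum_abs _ _).trans ?_
        refine (Finset.sum_le_card_nsmul _ _ Hc fun l _ => ?_).trans (le_of_eq ?_)
        · split_ifs
          · exact hc _
          · rwa [abs_zero]
        · rw [Finset.card_univ, Fintype.card_fin, nsmul_eq_mul]
          push_cast
          ring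
      have h3 : |(if (k : Fin m) ∈ C.I s ∧ (k : Fin m) ∉ S.R then
          S.kc s (k : Fin m) + ω (.nu s (k : Fin m)) else 0)| ≤ Hk + Hc := by
        split_ifs
        · exact (abs_add_le _ _).trans (add_le_add (hkc _) (hc _))
        · rw [abs_zero]; linarith
      refine (add_le_add h3 h2).trans (le_of_eq ?_)
      ring
    · rwa [abs_zero]
  | om s' r l =>
    simp only [hvA]
    rwa [abs_zero]
  | gi i' r =>
    simp only [hvA]
    split_ifs
    · exact (hc _).trans h1
    · rwa [abs_zero]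
  | hub r =>
    simp only [hvA]
    rwa [abs_zero]

/-- Boxes under the shift. -/
theorem box_hvS (hi : i ∉ D) {ctr Rb : Co m n → ℝ} {b w H : ℝ}
    (ht : ∀ k, 0 ≤ t k ∧ t k ≤ w)
    (hH : ∀ k c, |hvA C S s i D k (hvS C S s i D t ω) c| ≤ H)
    (h : hvS C S s i D t ω ∈ Box ctr Rb b) : ω ∈ Box ctr Rb (b + D.card * w * H) := by
  intro c
  have h1 := h c
  have h2 : hvS C S s i D t ω c = ω c + ∑ k, t k * hvA C S s i D k ω c := rfl
  have h3 : |∑ k, t k * hvA C S s i D k ω c| ≤ D.card * w * H := by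
    refine (Finset.abs_sum_le_sum_abs _ _).trans ?_
    have : ∀ k ∈ (Finset.univ : Finset D), |t k * hvA C S s i D k ω c| ≤ w * H := by
      intro k _
      rw [abs_mul, abs_of_nonneg (ht k).1]
      have h4 := hH k c
      have h5 : hvA C S s i D k (hvS C S s i D t ω) = hvA C S s i D k ω :=
        PayLin.coef_shift (M := hvM s i D)
          (fun k ω ω' h => hvA_dep C S s i D hi k ω ω' h)
          (fun k ω c h => hvA_supp C S s i D k ω c h) t ω k
      rw [h5] at h4
      exact mul_le_mul (ht k).2 h4 (abs_nonneg _) ((ht k).1.trans (ht k).2)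
    refine (Finset.sum_le_card_nsmul _ _ _ this).trans (le_of_eq ?_)
    rw [nsmul_eq_mul, Finset.card_univ, Fintype.card_coe]
    ring
  have h4 : ω c - ctr c = (hvS C S s i D t ω c - ctr c) - ∑ k, t k * hvA C S s i D k ω c := by
    rw [h2]; ring
  rw [h4]
  refine (abs_sub _ _).trans ?_
  linarith

end base

/-- The known costs are bounded. -/
theorem Ok.kc_le {P : Par} {C : Cf m} {S : St m n} (h : Ok P C S) (hTh : 0 ≤ P.Th)
    (hdl : 0 ≤ P.dl) (s : Bool) (j : Fin m) : |S.kc s j| ≤ P.Th + P.K1 * P.dl := by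
  have h0 : 0 ≤ (P.K1 : ℝ) * P.dl := by positivity
  by_cases hY : j ∈ C.Y s
  · rw [h.kcY s j hY, abs_zero]
    linarith
  · by_cases hb : j ∈ S.bu
    · obtain ⟨k, hk, he⟩ := h.kcb s j hb
      rw [he]
      have h1 : (k : ℝ) * P.dl ≤ P.K1 * P.dl := by
        have : (k : ℝ) ≤ P.K1 := by exact_mod_cast hk
        exact mul_le_mul_of_nonneg_right this hdl
      have h2 : 0 ≤ (k : ℝ) * P.dl := by positivity
      rw [abs_le]
      constructor <;> linarith
    · rw [h.kcU s j hY hb, abs_of_nonneg hTh]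
      linarith

/-- **The payment of a heavy window** for a later set which is invariant under shears with the
row `i`. The numbers: `Hk` bounds the known costs, `Hc` the coordinates on the box, `β` is the
relaxation of the box, `K` the logarithm of the density ratio. -/
theorem pay_hv_box {ctr : Co m n → ℝ} {v : Co m n → ℝ≥0} (hv : ∀ c, v c ≠ 0) (P : Par)
    (C : Cf m) (S : St m n) (s : Bool) (i : Fin m) (p : Pos P) (D : Finset (Fin m)) {w : ℝ}
    (hw : 0 < w) (Rb : Co m n → ℝ) {b β : ℝ} {F : Set (Om m n)} (hF : MeasurableSet F)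
    (hFinv : OkCol C S i → ∀ ω ω' : Om m n, HvRel i ω ω' → ω' ∈ F → ω ∈ F)
    {Hk Hc K : ℝ} (hkc : ∀ j, |S.kc s j| ≤ Hk) (hHc : ∀ c, |ctr c| + (Rb c + b) ≤ Hc)
    (hβ : P.d0 * w * (Hk + (n + 2) * Hc) ≤ β)
    (hK : ∀ c, Fintype.card (Co m n) * (β * (2 * (Rb c + b) + β) / (2 * v c)) ≤ K) :
    Measure.pi (fun c => gaussianReal (ctr c) (v c))
        (EvHV P C S s i p D ∩ F ∩ (Box ctr Rb b ∩ feaO)) ≤
      ENNReal.ofReal (Real.exp K * (2 * P.ep / w) ^ P.d0) *
        Measure.pi (fun c => gaussianReal (ctr c) (v c)) (F ∩ (Box ctr Rb (b + β) ∩ feaO)) := by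
  classical
  by_cases hc : OkCol C S i ∧ D.card = P.d0 ∧ i ∉ D ∧ Disjoint D S.R
  swap
  · have h : EvHV P C S s i p D = ∅ := by
      ext ω
      simp only [EvHV, Set.mem_ofPred_eq, Set.mem_empty_iff_false, iff_false]
      exact fun h => hc ⟨h.1, h.2.1, h.2.2.1, h.2.2.2.1⟩
    rw [h, Set.empty_inter, Set.empty_inter, measure_empty]
    exact zero_le
  obtain ⟨hok, hcard, hi, hDR⟩ := hc
  rcases (EvHV P C S s i p D ∩ F ∩ (Box ctr Rb b ∩ feaO)).eq_empty_or_nonempty with he | hne
  · rw [he, measure_empty]; exact zero_le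
  obtain ⟨ω₀, -, hb₀, -⟩ := hne
  have hbound : ∀ ω ∈ Box ctr Rb b, ∀ c, |ω c| ≤ Hc := by
    intro ω hω c
    have h1 : |ω c| ≤ |ω c - ctr c| + |ctr c| := by
      have := abs_add_le (ω c - ctr c) (ctr c)
      rwa [sub_add_cancel] at this
    have h2 := hω c
    have h3 := hHc c
    linarith
  have hHc0 : 0 ≤ Hc := (abs_nonneg _).trans (hbound ω₀ hb₀ (.eta none))
  have hHk0 : 0 ≤ Hk := (abs_nonneg _).trans (hkc i)
  have hH0 : (0 : ℝ) ≤ Hk + (n + 2) * Hc := by positivity
  have hβ0 : 0 ≤ β := le_trans (by positivity) hβ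
  have hRb0 : ∀ c, 0 ≤ Rb c + b := fun c => (abs_nonneg _).trans (hb₀ c)
  rw [Set.inter_assoc]
  refine pay_hv P C S s i p D ctr v hv w hw (F ∩ (Box ctr Rb b ∩ feaO))
    (F ∩ (Box ctr Rb (b + β) ∩ feaO))
    (hF.inter ((measurableSet_box ctr Rb b).inter measurableSet_feaO))
    (hF.inter ((measurableSet_box ctr Rb (b + β)).inter measurableSet_feaO))
    (fun c => Rb c + b) (fun _ => Hk + (n + 2) * Hc)
    (fun ω hω c _ => hω.2.1 c)
    (fun ω hω k c _ => hvA_le C S s i D ω hkc (hbound ω hω.2.1) k c) ?_ K ?_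
  · intro _ _ _ t ht ω hω
    refine ⟨hFinv hok ω _ (hvRel_hvS C S s i D t ω hi) hω.1, ?_,
      feaO_hvS C S s i D t ω hi (fun k => (ht k).1) hω.2.2⟩
    have h1 := box_hvS C S s i D t ω hi ht
      (fun k c => hvA_le C S s i D _ hkc (hbound _ hω.2.1) k c) hω.2.1
    rw [hcard] at h1
    intro c
    exact (h1 c).trans (by linarith)
  · have hterm : ∀ c : Co m n, (if hvM s i D c then (P.d0 * w * (Hk + (n + 2) * Hc)) *
        (2 * (Rb c + b) + P.d0 * w * (Hk + (n + 2) * Hc)) / (2 * v c) else 0) ≤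
        β * (2 * (Rb c + b) + β) / (2 * v c) := by
      intro c
      have hvc : (0 : ℝ) < v c := by
        have := pos_iff_ne_zero.mpr (hv c)
        exact_mod_cast this
      have hR := hRb0 c
      have hβ' : 0 ≤ P.d0 * w * (Hk + (n + 2) * Hc) := by positivity
      split_ifs
      · refine div_le_div_of_nonneg_right ?_ (by positivity)
        exact mul_le_mul hβ (by linarith) (by positivity) hβ0
      · positivity
    have hcp : (0 : ℝ) < Fintype.card (Co m n) := by
      have : 0 < Fintype.card (Co m n) := Fintype.card_pos_iff.2 ⟨.eta none⟩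
      exact_mod_cast this
    refine (Finset.sum_le_sum fun c _ => hterm c).trans ?_
    have h2 : ∀ c ∈ (Finset.univ : Finset (Co m n)),
        β * (2 * (Rb c + b) + β) / (2 * v c) ≤ K / Fintype.card (Co m n) := by
      intro c _
      rw [le_div_iff₀ hcp, mul_comm]
      exact hK c
    refine (Finset.sum_le_card_nsmul _ _ _ h2).trans (le_of_eq ?_)
    rw [nsmul_eq_mul, Finset.card_univ]
    field_simp

/-- The hypothesis `hpay` of the recursive union bound for heavy moves. -/
theorem hpay_hv {ctr : Co m n → ℝ} {v : Co m n → ℝ≥0} (hv : ∀ c, v c ≠ 0) (P : Par)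
    (C : Cf m) (hC : (C.I false).card = n) (hTh : 0 ≤ P.Th) (hdl : 0 ≤ P.dl) {w : ℝ}
    (hw : 0 < w) (Rb : Co m n → ℝ) {b β Hc K : ℝ}
    (hHc : ∀ c, |ctr c| + (Rb c + b) ≤ Hc)
    (hβ : P.d0 * w * ((P.Th + P.K1 * P.dl) + (n + 2) * Hc) ≤ β)
    (hK : ∀ c, Fintype.card (Co m n) * (β * (2 * (Rb c + b) + β) / (2 * v c)) ≤ K)
    (S : St m n) (hS : Ok P C S) (s : Bool) (i : Fin m) (p : Pos P) (D : Finset (Fin m))
    (hl : Mv.hv s i p D ∈ labs P C S) (j w' : ℕ) :
    Measure.pi (fun c => gaussianReal (ctr c) (v c))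
        ((mach P C).ev S (.hv s i p D) ∩ Mach.BadU (mach P C) j w' ((mach P C).step S (.hv s i p D))
          ∩ (Box ctr Rb b ∩ feaO)) ≤
      ENNReal.ofReal (Real.exp K * (2 * P.ep / w) ^ P.d0) *
        Measure.pi (fun c => gaussianReal (ctr c) (v c))
          (Mach.BadU (mach P C) j w' ((mach P C).step S (.hv s i p D)) ∩
            (Box ctr Rb (b + β) ∩ feaO)) := by
  have hF : MeasurableSet (Mach.BadU (mach P C) j w' ((mach P C).step S (.hv s i p D))) :=
    Mach.bad_measurable (mach P C) (Ok P C) (fun S l h hl => ok_nxt hC S l h hl)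
      (fun S l _ _ => measurableSet_ev P C S l) j w' _ (ok_nxt hC S _ hS hl)
  refine pay_hv_box hv P C S s i p D hw Rb hF ?_ (fun j => hS.kc_le hTh hdl s j) hHc hβ hK
  intro _ ω ω' hrel hω'
  have hi : i ∈ (nxt P S (.hv s i p D)).R := Finset.mem_insert_self _ _
  exact (hrel.badU_iff (M := mach P C) (fun _ _ => rfl) (fun _ _ => rfl) hi j w').1 hω'

end Pool.Agent.Lib.S3.PL
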