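import Pool.Agent.Lib.S3.PL.Defs
import Pool.Agent.Lib.S3.PL.OptInv
import Pool.Agent.Lib.S3.PL.EvMeas
import Pool.Agent.Lib.S3.PayLin

/-!
# The payment of a light node on the exit line (smoothed Hirsch, MP_4a5c02_co)

* `lfs i T t ω`: the shift of the private coins `gi i r`, `r ∈ T`, by `t r`.
* `ev_lfs`, `nxt_R`: in a state in which the column `i` is removed no event sees the coins `gi i _`.
* `pay_lf`: `μ (EvLF ∩ F ∩ Box b) ≤ exp K (2 (ta2 / ph) / W) ^ q μ (F ∩ Box (b + W))` for every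
  measurable `F` with `lfs i T t ω ∈ F → ω ∈ F`.
-/

set_option autoImplicit false

open MeasureTheory ProbabilityTheory Matrix
open scoped ENNReal NNReal

namespace Pool.Agent.Lib.S3.PL

variable {m n : ℕ}

open Classical in
/-- The shift of the private coins of the column `i`. -/
noncomputable def lfs (i : Fin m) (T : Finset (Row m)) (t : Row m → ℝ) (ω : Om m n) : Om m n :=
  fun c => match c with
    | .gi i' r => if i' = i ∧ r ∈ T then ω (.gi i' r) + t r else ω (.gi i' r)
    | c => ω c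

section shift
variable (i : Fin m) (T : Finset (Row m)) (t : Row m → ℝ) (ω : Om m n)

theorem lfs_gi {r : Row m} (hr : r ∈ T) : lfs i T t ω (.gi i r) = ω (.gi i r) + t r := by
  simp [lfs, hr]

theorem lfs_gi_notMem {r : Row m} (hr : r ∉ T) : lfs i T t ω (.gi i r) = ω (.gi i r) := by
  simp [lfs, hr]

theorem lfs_of_ne {c : Co m n} (hc : ∀ r, c ≠ .gi i r) : lfs i T t ω c = ω c := by
  cases c with
  | gi i' r =>
    have : i' ≠ i := by
      rintro rfl
      exact hc r rfl
    simp [lfs, this]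
  | row r j => rfl
  | eta r => rfl
  | nu s j => rfl
  | om s r l => rfl
  | hub r => rfl

end shift

/-- `ω` and `ω'` differ only in the private coins of the column `i`. -/
def EqOff (i : Fin m) (ω ω' : Om m n) : Prop := ∀ c : Co m n, (∀ r, c ≠ .gi i r) → ω c = ω' c

section congr
variable {i : Fin m} {ω ω' : Om m n}

theorem EqOff.symm (h : EqOff i ω ω') : EqOff i ω' ω := fun c hc => (h c hc).symm

theorem eqOff_lfs (i : Fin m) (T : Finset (Row m)) (t : Row m → ℝ) (ω : Om m n) :
    EqOff i (lfs i T t ω) ω := fun _ hc => lfs_of_ne i T t ω hc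

theorem EqOff.rho (h : EqOff i ω ω') : rho ω = rho ω' := by
  funext r j
  cases r with
  | none => rfl
  | some r => exact h _ fun r' => by simp

theorem EqOff.Nf (h : EqOff i ω ω') : Nf ω = Nf ω' := by
  unfold PL.Nf
  rw [h.rho]
  refine Finset.sum_congr rfl fun r _ => ?_
  rw [h (.eta r) fun r' => by simp]

theorem EqOff.cfG (h : EqOff i ω ω') (C : Cf m) (S : St m n) (s : Bool) :
    cfG C S s ω = cfG C S s ω' := by
  funext r
  unfold PL.cfG
  congr 1
  · cases r with
    | none => rfl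
    | some j => simp only [h (.nu s j) fun r' => by simp]
  · exact Finset.sum_congr rfl fun l _ => by rw [h (.om s r l) fun r' => by simp]

theorem EqOff.cfL (h : EqOff i ω ω') (P : Par) (C : Cf m) (S : St m n) (s : Bool) (i' : Fin m)
    (k : ℕ) : cfL P C S s i' k ω = cfL P C S s i' k ω' := by
  funext r
  unfold PL.cfL
  rw [h.cfG]

theorem EqOff.cfE (h : EqOff i ω ω') (P : Par) (C : Cf m) (S : St m n) (s : Bool) {i' : Fin m}
    (hi : i' ≠ i) (k e : ℕ) : cfE P C S s i' k e ω = cfE P C S s i' k e ω' := by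
  funext r
  unfold PL.cfE
  rw [h.cfL, h (.gi i' r) fun r' => by simp [hi]]

theorem EqOff.cfP (h : EqOff i ω ω') (P : Par) (C : Cf m) (S : St m n) (s : Bool) {i' : Fin m}
    (hi : i' ≠ i) (p : Pos P) : cfP P C S s i' p ω = cfP P C S s i' p ω' := by
  cases p with
  | leg k => exact h.cfL P C S s i' k
  | exit k e => exact h.cfE P C S s hi k e

theorem EqOff.fnl (h : EqOff i ω ω') (c : Row m → ℝ) : fnl ω c = fnl ω' c := by
  unfold PL.fnl
  rw [h.rho]

/-- In a state in which `i` is removed no event sees the private coins of `i`. -/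
theorem EqOff.ev (h : EqOff i ω ω') (P : Par) (C : Cf m) (S : St m n) (hi : i ∈ S.R)
    (mv : Mv m P) (hω : ω ∈ Ev P C S mv) : ω' ∈ Ev P C S mv := by
  cases mv with
  | hv s i' p D =>
    obtain ⟨hok, h1⟩ := hω
    have hne : i' ≠ i := by
      rintro rfl
      exact hok.2.2.1 hi
    rw [h.rho, h.Nf, h.cfP P C S s hne, h.fnl] at h1
    exact ⟨hok, h1⟩
  | lf s i' k e T =>
    obtain ⟨hok, h1⟩ := hω
    have hne : i' ≠ i := by
      rintro rfl
      exact hok.2.2.1 hi
    rw [h.rho, h.Nf, h.cfE P C S s hne, h.fnl] at h1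
    exact ⟨hok, h1⟩
  | cb s i' k T =>
    obtain ⟨hok, h1, h2, h3, e, h4⟩ := hω
    rw [h.rho, h.Nf, h.cfL P C S s i', h.fnl] at h3
    unfold RepB at h4
    rw [h.rho, h.Nf] at h4
    exact ⟨hok, h1, h2, h3, e, h4⟩
  | cw s i' k W => exact hω

/-- Removed columns stay removed. -/
theorem nxt_R (P : Par) (S : St m n) (mv : Mv m P) : S.R ⊆ (nxt P S mv).R := by
  cases mv with
  | hv s i' p D => exact Finset.subset_insert _ _
  | lf s i' k e T => exact Finset.subset_insert _ _
  | cb s i' k T => exact subset_rfl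
  | cw s i' k W => exact subset_rfl

/-- After the failure of the leg `i` the column `i` is removed. -/
theorem mem_nxt_lf (P : Par) (S : St m n) (s : Bool) (i : Fin m) (k : Fin (P.K1 + 1))
    (e : Fin (P.K3 + 1)) (T : Finset (Option (Fin m))) : i ∈ (nxt P S (.lf s i k e T)).R :=
  Finset.mem_insert_self _ _

end congr

section formulas
variable (P : Par) (C : Cf m) (S : St m n) (s : Bool) (i : Fin m) (k e : ℕ)
  (T : Finset (Row m)) (t : Row m → ℝ) (ω : Om m n)

/-- The exit objective under the shift. -/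
theorem fnl_lfs : fnl (lfs i T t ω) (cfE P C S s i k e (lfs i T t ω)) =
    fnl ω (cfE P C S s i k e ω) + ∑ r ∈ T, (P.ph * t r) • rho ω r := by
  classical
  have h := eqOff_lfs i T t ω
  rw [h.fnl]
  have h1 : ∀ r, cfE P C S s i k e (lfs i T t ω) r =
      cfE P C S s i k e ω r + if r ∈ T then P.ph * t r else 0 := by
    intro r
    unfold cfE
    rw [h.cfL]
    by_cases hr : r ∈ T
    · rw [lfs_gi i T t ω hr, if_pos hr]
      ring
    · rw [lfs_gi_notMem i T t ω hr, if_neg hr]
      ring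
  unfold fnl
  simp only [h1, add_smul, Finset.sum_add_distrib]
  congr 1
  have h2 : ∀ r : Row m, (if r ∈ T then P.ph * t r else 0) • rho ω r =
      if r ∈ T then (P.ph * t r) • rho ω r else 0 := by
    intro r
    by_cases hr : r ∈ T
    · simp [hr]
    · simp [hr]
  simp only [h2]
  rw [Finset.sum_ite_mem, Finset.univ_inter]

end formulas

/-- Confinement of the parameters. -/
theorem conf_lf {P : Par} {C : Cf m} {S : St m n} {s : Bool} {i : Fin m} {k e : ℕ}
    {T : Finset (Row m)} (hph : 0 < P.ph) {t t' : Row m → ℝ} {ω : Om m n}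
    (h : lfs i T t ω ∈ EvLF P C S s i k e T) (h' : lfs i T t' ω ∈ EvLF P C S s i k e T)
    {r : Row m} (hr : r ∈ T) : |t r - t' r| ≤ P.ta2 / P.ph := by
  obtain ⟨-, -, hTR, f, ho, hl⟩ := h
  obtain ⟨-, -, -, f', ho', hl'⟩ := h'
  have e1 := eqOff_lfs i T t ω
  have e2 := eqOff_lfs i T t' ω
  rw [e1.rho, e1.Nf] at ho hl
  rw [e2.rho, e2.Nf] at ho' hl'
  obtain ⟨k1, hk1, b1⟩ := hl r hr
  obtain ⟨k2, hk2, b2⟩ := hl' r hr
  have hc := conf_light (t := fun r => P.ph * (t r - t' r)) hTR ho ho'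
    (fun r hr => by obtain ⟨k1, hk1, -⟩ := hl r hr; exact ⟨k1, hk1⟩)
    (fun r hr => by obtain ⟨k1, hk1, -⟩ := hl' r hr; exact ⟨k1, hk1⟩)
    ⟨0, 0, by
      rw [fnl_lfs, fnl_lfs]
      simp only [Pi.zero_apply, zero_smul, Finset.sum_const_zero, add_zero]
      rw [add_assoc, ← Finset.sum_add_distrib]
      congr 1
      refine Finset.sum_congr rfl fun x _ => ?_
      rw [← add_smul]
      congr 1
      ring⟩ hr hk1 hk2 b1 b2
  rw [le_div_iff₀ hph]
  have h3 : |t r - t' r| * P.ph = |P.ph * (t r - t' r)| := by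
    rw [abs_mul, abs_of_pos hph, mul_comm]
  rw [h3]
  exact hc

/-- The payment of a light node on the exit line. -/
theorem pay_lf {ctr : Co m n → ℝ} {v : Co m n → ℝ≥0} (hv : ∀ x, v x ≠ 0) (P : Par) (C : Cf m)
    (S : St m n) (s : Bool) (i : Fin m) (k e : ℕ) (T : Finset (Row m)) (hph : 0 < P.ph) {W : ℝ}
    (hW : 0 < W) (Rb : Co m n → ℝ) {b : ℝ} {F : Set (Om m n)} (hF : MeasurableSet F)
    (hFinv : ∀ t : Row m → ℝ, (∀ r, 0 ≤ t r ∧ t r ≤ W) → ∀ ω, lfs i T t ω ∈ F → ω ∈ F)
    {Rg vg K : ℝ} (hRg : ∀ r, Rb (.gi i r) + b ≤ Rg) (hRg0 : 0 ≤ Rg) (hvg : 0 < vg)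
    (hvg' : ∀ r, vg ≤ v (.gi i r))
    (hK : (P.q : ℝ) * (P.q * W * (2 * Rg + P.q * W) / (2 * vg)) ≤ K) :
    Measure.pi (fun x => gaussianReal (ctr x) (v x)) (EvLF P C S s i k e T ∩ F ∩ Box ctr Rb b) ≤
      ENNReal.ofReal (Real.exp K * (2 * (P.ta2 / P.ph) / W) ^ P.q) *
        Measure.pi (fun x => gaussianReal (ctr x) (v x)) (F ∩ Box ctr Rb (b + W)) := by
  classical
  by_cases hT : T.card = P.q
  swap
  · have h0 : EvLF P C S s i k e T = (∅ : Set (Om m n)) := by
      ext ω
      simp only [Set.mem_empty_iff_false, iff_false]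
      exact fun h => hT h.2.1
    rw [h0, Set.empty_inter, Set.empty_inter, measure_empty]
    exact zero_le
  -- extension of parameters
  let ex : (T → ℝ) → Row m → ℝ := fun t r => if h : r ∈ T then t ⟨r, h⟩ else 0
  have hex : ∀ (t : T → ℝ) (r : T), ex t r = t r := fun t r => by simp [ex]
  have hexb : ∀ t : T → ℝ, (∀ r, 0 ≤ t r ∧ t r ≤ W) → ∀ r, 0 ≤ ex t r ∧ ex t r ≤ W := by
    intro t ht r
    by_cases h : r ∈ T
    · have := ht ⟨r, h⟩
      simpa [ex, h] using this
    · simp [ex, h, hW.le]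
  let A : T → Om m n → Om m n := fun r _ c => if c = .gi i r.1 then 1 else 0
  have hsh : ∀ t ω, PayLin.shift A t ω = lfs i T (ex t) ω := by
    intro t ω
    funext c
    rw [PayLin.shift_apply]
    by_cases hc : ∃ r, c = .gi i r
    · obtain ⟨r, rfl⟩ := hc
      by_cases hr : r ∈ T
      · rw [lfs_gi i T _ ω hr, Finset.sum_eq_single_of_mem (⟨r, hr⟩ : T) (Finset.mem_univ _)]
        · simp [A, ex, hr]
        · intro r' _ hne
          have : (Co.gi i r : Co m n) ≠ .gi i r'.1 := by
            intro h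
            injection h with _ h2
            exact hne (Subtype.ext h2.symm)
          simp [A, this]
      · rw [lfs_gi_notMem i T _ ω hr, Finset.sum_eq_zero, add_zero]
        intro r' _
        have : (Co.gi i r : Co m n) ≠ .gi i r'.1 := by
          intro h
          injection h with _ h2
          exact hr (h2 ▸ r'.2)
        simp [A, this]
    · push Not at hc
      rw [lfs_of_ne i T _ ω hc, Finset.sum_eq_zero, add_zero]
      intro r' _
      simp [A, hc r'.1]
  have hcard : Fintype.card T = P.q := by rw [Fintype.card_coe, hT]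
  have key := PayLin.pay_lin ctr v hv (fun c => ∃ r ∈ T, c = .gi i r) A
    (fun r => measurable_const) (fun _ _ _ _ => rfl)
    (fun r ω c hc => by
      have : c ≠ .gi i r.1 := fun h => hc ⟨r.1, r.2, h⟩
      simp [A, this])
    W (P.ta2 / P.ph) hW (EvLF P C S s i k e T ∩ F ∩ Box ctr Rb b) (F ∩ Box ctr Rb (b + W))
    (((measurableSet_evLF P C S s i k e T).inter hF).inter (measurableSet_box ctr Rb b))
    (hF.inter (measurableSet_box ctr Rb (b + W)))
    (fun _ => Rg) (fun _ => 1)
    (fun ω hω c hc => by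
      obtain ⟨r, -, rfl⟩ := hc
      exact (hω.2 _).trans (hRg r))
    (fun ω _ r c _ => by
      by_cases h : c = .gi i r.1
      · simp [A, h]
      · simp [A, h])
    (fun t ht ω hω => ?_) (fun t t' ht ht' ω hω hω' r => ?_) K ?_
  · rw [hcard] at key
    exact key
  · rw [hsh] at hω
    refine ⟨hFinv _ (hexb t ht) ω hω.1.2, fun c => ?_⟩
    have hb := hω.2 c
    by_cases hc : ∃ r ∈ T, c = .gi i r
    · obtain ⟨r, hr, rfl⟩ := hc
      rw [lfs_gi i T _ ω hr] at hb
      have h1 := hexb t ht r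
      have h2 : ω (.gi i r) - ctr (.gi i r) =
          (ω (.gi i r) + ex t r - ctr (.gi i r)) - ex t r := by ring
      rw [h2]
      refine (abs_sub _ _).trans ?_
      rw [abs_of_nonneg h1.1]
      linarith
    · have h1 : lfs i T (ex t) ω c = ω c := by
        by_cases hc' : ∃ r, c = .gi i r
        · obtain ⟨r, rfl⟩ := hc'
          exact lfs_gi_notMem i T _ ω fun hr => hc ⟨r, hr, rfl⟩
        · push Not at hc'
          exact lfs_of_ne i T _ ω hc'
      rw [h1] at hb
      linarith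
  · rw [hsh] at hω hω'
    have := conf_lf hph hω.1.1 hω'.1.1 r.2
    rwa [hex, hex] at this
  · rw [hcard]
    have hsum : ∑ c : Co m n, (if ∃ r ∈ T, c = .gi i r then ((P.q : ℝ) * W * 1) *
        (2 * Rg + P.q * W * 1) / (2 * (v c : ℝ)) else 0) =
        ∑ r ∈ T, ((P.q : ℝ) * W * 1) * (2 * Rg + P.q * W * 1) / (2 * (v (.gi i r) : ℝ)) := by
      rw [← Finset.sum_filter]
      have himg : Finset.univ.filter (fun c : Co m n => ∃ r ∈ T, c = .gi i r) =
          T.image (fun r => (.gi i r : Co m n)) := by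
        ext c
        simp only [Finset.mem_filter, Finset.mem_univ, true_and, Finset.mem_image]
        exact ⟨fun ⟨r, hr, h⟩ => ⟨r, hr, h.symm⟩, fun ⟨r, hr, h⟩ => ⟨r, hr, h.symm⟩⟩
      rw [himg, Finset.sum_image]
      intro r _ r' _ h
      injection h
    rw [hsum]
    refine le_trans (Finset.sum_le_sum
      (g := fun _ => (P.q : ℝ) * W * (2 * Rg + P.q * W) / (2 * vg)) fun r _ => ?_) ?_
    · rw [mul_one]
      have h0 : (0 : ℝ) ≤ (P.q : ℝ) * W := by positivity
      have h1 : (0 : ℝ) ≤ (P.q : ℝ) * W * (2 * Rg + P.q * W) := by positivity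
      have := hvg' r
      gcongr
    · rw [Finset.sum_const, nsmul_eq_mul, hT]
      exact hK

end Pool.Agent.Lib.S3.PL
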