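import Pool.Agent.Lib.S3.PL.Defs
import Pool.Agent.Lib.S3.Mach.Priv

/-! The private column of the pair machine, in the language of the states (S3). -/

set_option autoImplicit false

open Finset

namespace Pool.Agent.Lib.S3.PL

open Pool.Agent.Lib.S3.Leg (Fe)
open Pool.Agent.Lib.S3.Mach (near)

variable {m n : ℕ}

/-- The coefficients of the natural objective are at least `-κ`. -/
theorem cfG_lower {C : Cf m} {S : St m n} {s : Bool} {ω : Om m n} {κ : ℝ} (hκ : 0 ≤ κ)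
    (hν : ∀ j, 0 ≤ ω (.nu s j)) (hom : ∀ r l, 0 ≤ ω (.om s r l))
    (hkc : ∀ j ∈ C.I s, j ∉ S.R → -κ ≤ S.kc s j) (r : Row m) : -κ ≤ cfG C S s ω r := by
  unfold cfG
  have h1 : 0 ≤ ∑ l : Fin (n + 1), if (r, l) ∈ S.B s then ω (.om s r l) else 0 := by
    refine Finset.sum_nonneg fun l _ => ?_
    split_ifs
    · exact hom r l
    · exact le_rfl
  match r with
  | none => simpa using (neg_nonpos.2 hκ).trans h1
  | some j =>
    have h2 : -κ ≤ if j ∈ C.I s ∧ j ∉ S.R then S.kc s j + ω (.nu s j) else 0 := by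
      split_ifs with h
      · have h3 := hkc j h.1 h.2
        have h4 := hν j
        linarith
      · linarith
    have h3 := add_le_add h2 h1
    rw [add_zero] at h3
    exact h3

/-- The coefficient of an untouched column is at least `Th`. -/
theorem cfG_untouched {C : Cf m} {S : St m n} {s : Bool} {ω : Om m n} {Th : ℝ}
    (hν : ∀ j, 0 ≤ ω (.nu s j)) (hom : ∀ r l, 0 ≤ ω (.om s r l)) {j : Fin m} (hj : j ∈ C.I s)
    (hjR : j ∉ S.R) (hTh : Th ≤ S.kc s j) : Th ≤ cfG C S s ω (some j) := by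
  unfold cfG
  have h1 : 0 ≤ ∑ l : Fin (n + 1), if (some j, l) ∈ S.B s then ω (.om s (some j) l) else 0 := by
    refine Finset.sum_nonneg fun l _ => ?_
    split_ifs
    · exact hom _ l
    · exact le_rfl
  simp only
  rw [if_pos ⟨hj, hjR⟩]
  have h4 := hν j
  linarith

/-- **The private column exists.** `x s` is a point of the face `R` of the chart polytope (the
current optimum of the side `s`) where the objective is at most `cB`; at most `E` rows have slack in
`(0, a]` there. -/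
theorem exists_okCol {P : Par} {C : Cf m} {S : St m n} {ω : Om m n} {η0 σ κ cB a : ℝ} {E : ℕ}
    (hη0 : 0 < η0) (hη : ∀ r, η0 ≤ ω (.eta r)) (hσ : 1 ≤ η0 * σ) (hν : ∀ s j, 0 ≤ ω (.nu s j))
    (hom : ∀ s r l, 0 ≤ ω (.om s r l)) (hκ : 0 ≤ κ) (hTh : 0 < P.Th)
    (ha : cB + κ * σ ≤ P.Th * a) (hRb : S.R ⊆ S.bu)
    (hkc : ∀ s, ∀ j ∈ C.I s, j ∉ S.R → -κ ≤ S.kc s j)
    (hun : ∀ s, ∀ j ∈ C.I s, j ∉ C.Y s → j ∉ S.bu → P.Th ≤ S.kc s j)
    {x : Bool → Fin (n + 1) → ℝ} (hx : ∀ s, Fe (rho ω) (Nf ω) (up S.R) (x s))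
    (hval : ∀ s, fnl ω (cfG C S s ω) ⬝ᵥ x s ≤ cB)
    (hnear : ∀ s, (near (rho ω) a (x s)).card ≤ E)
    (hcard : (C.Y false).card + (C.Y true).card + S.bu.card + 2 * E <
      (C.I false ∩ C.I true).card) :
    ∃ i, OkCol C S i ∧ ∀ s, rho ω (some i) ⬝ᵥ x s = 0 := by
  classical
  have hN : Nf ω = ∑ r, ω (.eta r) • rho ω r := rfl
  have hmemJX : ∀ r : Row m, r ∈ up (C.I false ∩ C.I true) \ up (C.Y false ∪ C.Y true ∪ S.bu) →
      ∃ j, r = some j ∧ j ∈ C.I false ∧ j ∈ C.I true ∧ j ∉ C.Y false ∧ j ∉ C.Y true ∧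
        j ∉ S.bu := by
    intro r hr
    obtain ⟨h1, h2⟩ := Finset.mem_sdiff.1 hr
    obtain ⟨j, hj, rfl⟩ := mem_up'.1 h1
    rw [mem_up] at h2
    simp only [Finset.mem_union, not_or] at h2
    exact ⟨j, rfl, (Finset.mem_inter.1 hj).1, (Finset.mem_inter.1 hj).2, h2.1.1, h2.1.2, h2.2⟩
  have hΘ : ∀ s, ∀ r ∈ up (C.I false ∩ C.I true) \ up (C.Y false ∪ C.Y true ∪ S.bu),
      P.Th ≤ cfG C S s ω r := by
    intro s r hr
    obtain ⟨j, rfl, h1, h2, h3, h4, h5⟩ := hmemJX r hr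
    have hjI : j ∈ C.I s := by cases s <;> assumption
    have hjY : j ∉ C.Y s := by cases s <;> assumption
    exact cfG_untouched (hν s) (hom s) hjI (fun h => h5 (hRb h)) (hun s j hjI hjY h5)
  have hc : ∀ s, ∀ r ∈ (Finset.univ : Finset (Row m)), -κ ≤ cfG C S s ω r :=
    fun s r _ => cfG_lower hκ (hν s) (hom s) (hkc s) r
  have hΓ : ∀ s, fnl ω (cfG C S s ω) = ∑ r ∈ (Finset.univ : Finset (Row m)),
      cfG C S s ω r • rho ω r + 0 := fun s => by rw [add_zero]; rfl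
  have hcardup : ∀ A : Finset (Fin m), (up A).card = A.card := fun A => by
    unfold up; exact Finset.card_map _
  obtain ⟨r, hrJ, hrX, h1, h2⟩ := Mach.priv_exists (η := fun r => ω (.eta r)) hN hη0 hη hσ hκ hTh
    ha (J := up (C.I false ∩ C.I true)) (X := up (C.Y false ∪ C.Y true ∪ S.bu)) (E := E)
    (hx false) (hΓ false) (by rw [zero_dotProduct]) (hc false) (hval false)
    (Finset.subset_univ _) (hΘ false) (hnear false)
    (hx true) (hΓ true) (by rw [zero_dotProduct]) (hc true) (hval true)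
    (Finset.subset_univ _) (hΘ true) (hnear true) (by
      rw [hcardup, hcardup]
      have h3 := Finset.card_union_le (C.Y false ∪ C.Y true) S.bu
      have h4 := Finset.card_union_le (C.Y false) (C.Y true)
      omega)
  obtain ⟨j, rfl, g1, g2, g3, g4, g5⟩ := hmemJX r (Finset.mem_sdiff.2 ⟨hrJ, hrX⟩)
  exact ⟨j, ⟨g1, g2, fun h => g5 (hRb h), g5, g3, g4⟩, fun s => by cases s <;> assumption⟩

end Pool.Agent.Lib.S3.PL
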