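import Pool.Agent.Lib.S3.PL.Mach
import Pool.Agent.Lib.S3.PL.Priv

/-! The private column of the pair machine for states with the invariant `Ok` (S3). -/

set_option autoImplicit false

open Finset

namespace Pool.Agent.Lib.S3.PL

open Pool.Agent.Lib.S3.Leg (Fe Mn)
open Pool.Agent.Lib.S3.Mach (near)

variable {m n : ℕ}

/-- The value of a functional that is given by coefficients in the rows. -/
private theorem fnl_dotU (ω : Om m n) (c : Row m → ℝ) (x : Fin (n + 1) → ℝ) :
    fnl ω c ⬝ᵥ x = ∑ r : Row m, c r * (rho ω r ⬝ᵥ x) := by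
  unfold fnl
  rw [sum_dotProduct]
  refine Finset.sum_congr rfl fun r _ => ?_
  rw [smul_dotProduct, smul_eq_mul]

/-- The slacks of a point of the chart add up to at most `1`. -/
private theorem sum_rho_leU {ω : Om m n} (hη : ∀ r, 1 ≤ ω (.eta r)) {R : Finset (Row m)}
    {x : Fin (n + 1) → ℝ} (hx : Fe (rho ω) (Nf ω) R x) (J : Finset (Row m)) :
    ∑ r ∈ J, rho ω r ⬝ᵥ x ≤ 1 :=
  Mach.sum_slack_le (η := fun r => ω (.eta r)) (η0 := 1) rfl one_pos hη (by norm_num) hx J

/-- The boost part of a coefficient is at most `2 (n + 1)`. -/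
private theorem boost_leU {C : Cf m} {S : St m n} {s : Bool} {ω : Om m n} {b : ℝ} (hb : 0 ≤ b)
    (hom : ∀ r l, ω (.om s r l) ≤ b) (r : Row m)
    (hr : ∀ j, r = some j → j ∉ C.I s ∨ j ∈ S.R) : cfG C S s ω r ≤ (n + 1) * b := by
  unfold cfG
  have h1 : ∑ l : Fin (n + 1), (if (r, l) ∈ S.B s then ω (.om s r l) else 0) ≤ (n + 1) * b := by
    calc ∑ l : Fin (n + 1), (if (r, l) ∈ S.B s then ω (.om s r l) else 0)
        ≤ ∑ _l : Fin (n + 1), b := by
          refine Finset.sum_le_sum fun l _ => ?_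
          split_ifs
          · exact hom r l
          · exact hb
      _ = (n + 1) * b := by
          rw [Finset.sum_const, Finset.card_univ, Fintype.card_fin, nsmul_eq_mul]
          push_cast
          ring
  match r with
  | none => simpa using h1
  | some j =>
    have h2 : ¬ (j ∈ C.I s ∧ j ∉ S.R) := by
      rintro ⟨h3, h4⟩
      rcases hr j rfl with h | h
      · exact h h3
      · exact h4 h
    simp only [if_neg h2, zero_add]
    exact h1

/-- The value of the natural objective at a vertex whose rows contain the basis of the side. -/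
private theorem val_vertexU {C : Cf m} {S : St m n} {s : Bool} {ω : Om m n} {R : Finset (Row m)}
    (hη : ∀ r, 1 ≤ ω (.eta r)) {b : ℝ} (hb : 0 ≤ b)
    (hom : ∀ r l, ω (.om s r l) ≤ b) {u : Fin (n + 1) → ℝ} (hu : Fe (rho ω) (Nf ω) R u)
    (hI : ∀ j ∈ C.I s, rho ω (some j) ⬝ᵥ u = 0) :
    fnl ω (cfG C S s ω) ⬝ᵥ u ≤ (n + 1) * b := by
  have hB : 0 ≤ (n + 1 : ℝ) * b := by positivity
  rw [fnl_dotU]
  calc ∑ r : Row m, cfG C S s ω r * (rho ω r ⬝ᵥ u)
      ≤ ∑ r : Row m, ((n + 1) * b) * (rho ω r ⬝ᵥ u) := by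
        refine Finset.sum_le_sum fun r _ => ?_
        by_cases h : ∃ j, r = some j ∧ j ∈ C.I s
        · obtain ⟨j, rfl, hj⟩ := h
          rw [hI j hj, mul_zero, mul_zero]
        · refine mul_le_mul_of_nonneg_right (boost_leU hb hom r fun j hj => ?_) (hu.1 r)
          left
          intro hc
          exact h ⟨j, hj, hc⟩
    _ = ((n + 1) * b) * ∑ r : Row m, rho ω r ⬝ᵥ u := (Finset.mul_sum _ _ _).symm
    _ ≤ ((n + 1) * b) * 1 := mul_le_mul_of_nonneg_left (sum_rho_leU hη hu Finset.univ) hB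
    _ = (n + 1) * b := mul_one _

/-- **The private column exists** in a state with the invariant `Ok`: `u s` is the start vertex of
the side `s`, `x s` its current optimum; at most `E` rows have slack in `(0, a]` at `x s`. -/
theorem priv_pl {P : Par} {C : Cf m} {S : St m n} {ω : Om m n} (hOk : Ok P C S) {kap a : ℝ}
    {E : ℕ} (hη : ∀ r, 1 ≤ ω (.eta r)) (hν : ∀ s j, 0 ≤ ω (.nu s j))
    (hom0 : ∀ s r l, 0 ≤ ω (.om s r l)) (hom2 : ∀ s r l, ω (.om s r l) ≤ 2)
    (hTh : 0 < P.Th) (hdl : 0 ≤ P.dl) (hkap : 0 ≤ kap) (hK1 : P.K1 * P.dl ≤ P.Th + kap)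
    (ha : 2 * (n + 1) + kap ≤ P.Th * a) {x u : Bool → Fin (n + 1) → ℝ}
    (hx : ∀ s, Mn (rho ω) (Nf ω) (up S.R) (fnl ω (cfG C S s ω)) (x s))
    (hu : ∀ s, Fe (rho ω) (Nf ω) ∅ (u s))
    (hut : ∀ s, ∀ j ∈ C.I s, rho ω (some j) ⬝ᵥ u s = 0)
    (hnear : ∀ s, (near (rho ω) a (x s)).card ≤ E)
    (hcard : (C.Y false).card + (C.Y true).card + S.t + 2 * E <
      (C.I false ∩ C.I true).card) :
    ∃ i, OkCol C S i ∧ ∀ s, rho ω (some i) ⬝ᵥ x s = 0 := by
  have huR : ∀ s, Fe (rho ω) (Nf ω) (up S.R) (u s) := by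
    intro s
    refine ⟨(hu s).1, fun r hr => ?_, (hu s).2.2⟩
    obtain ⟨j, hj, rfl⟩ := mem_up'.1 hr
    have h1 := hOk.bu j (hOk.Rbu hj)
    refine hut s j ?_
    cases s
    · exact h1.1
    · exact h1.2.1
  refine exists_okCol (η0 := 1) (σ := 1) (κ := kap) (cB := 2 * (n + 1)) (a := a) (E := E)
    one_pos hη (by norm_num) hν hom0 hkap hTh (by rw [mul_one]; exact ha) hOk.Rbu ?_ ?_
    (fun s => (hx s).1) ?_ hnear (by rw [hOk.card]; exact hcard)
  · intro s j _ _
    by_cases hY : j ∈ C.Y s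
    · rw [hOk.kcY s j hY]
      linarith
    · by_cases hb : j ∈ S.bu
      · obtain ⟨k, hk, hkc⟩ := hOk.kcb s j hb
        rw [hkc]
        have h1 : (k : ℝ) * P.dl ≤ P.K1 * P.dl :=
          mul_le_mul_of_nonneg_right (by exact_mod_cast hk) hdl
        linarith
      · rw [hOk.kcU s j hY hb]
        linarith
  · intro s j _ hY hb
    rw [hOk.kcU s j hY hb]
  · intro s
    refine ((hx s).2 (u s) (huR s)).trans ?_
    have := val_vertexU (C := C) (S := S) (s := s) (b := 2) hη (by norm_num) (hom2 s) (hu s)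
      (hut s)
    linarith

end Pool.Agent.Lib.S3.PL
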