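import Pool.Agent.Lib.S3.WallN

/-! Events of the pair machine as statements about functions on a slice.

Rows `ρ`, chart row `N`, pinned rows `R`: the slice is `{X | N X = 1, ρ_k X = 0 (k ∈ R)}`. Basis
certificates and representability only depend on the functions which the rows, the chart row and
the objective (up to a constant) induce on the slice. -/

set_option autoImplicit false

open Module

namespace Pool.Agent.Lib.S3

variable {κ : Type} {n : ℕ}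

/-- The slice of the pinned rows `R`. -/
def Slc (ρ : κ → Fin (n + 1) → ℝ) (N : Fin (n + 1) → ℝ) (R : Finset κ) :
    Set (Fin (n + 1) → ℝ) :=
  {X | N ⬝ᵥ X = 1 ∧ ∀ k ∈ R, ρ k ⬝ᵥ X = 0}

theorem Slc_anti {ρ : κ → Fin (n + 1) → ℝ} {N : Fin (n + 1) → ℝ} {R R' : Finset κ}
    (h : R ⊆ R') : Slc ρ N R' ⊆ Slc ρ N R :=
  fun _ hX => ⟨hX.1, fun k hk => hX.2 k (h hk)⟩

/-- A functional which vanishes on the common kernel of finitely many rows is a combination of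
them. -/
theorem comb_of_ker {d : ℕ} (ρ : κ → Fin d → ℝ) (R : Finset κ) (f : Fin d → ℝ)
    (h : ∀ v, (∀ k ∈ R, ρ k ⬝ᵥ v = 0) → f ⬝ᵥ v = 0) :
    ∃ x : κ → ℝ, f = ∑ k ∈ R, x k • ρ k := by
  classical
  let φ : (Fin d → ℝ) →ₗ[ℝ] ((Fin d → ℝ) →ₗ[ℝ] ℝ) := dotProductBilin ℝ ℝ
  have hφ : ∀ a v, φ a v = a ⬝ᵥ v := fun a v => rfl
  have h1 : φ f ∈ Submodule.span ℝ (Set.range fun k : R => φ (ρ k)) := by
    apply mem_span_of_iInf_ker_le_ker
    intro v hv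
    rw [Submodule.mem_iInf] at hv
    rw [LinearMap.mem_ker, hφ]
    exact h v fun k hk => by
      have := hv ⟨k, hk⟩
      rwa [LinearMap.mem_ker, hφ] at this
  rw [Submodule.mem_span_range_iff_exists_fun] at h1
  obtain ⟨c, hc⟩ := h1
  refine ⟨fun k => if hk : k ∈ R then c ⟨k, hk⟩ else 0, ?_⟩
  have h2 : φ (∑ k ∈ R, (if hk : k ∈ R then c ⟨k, hk⟩ else 0) • ρ k) = φ f := by
    rw [← hc, map_sum, ← Finset.sum_coe_sort R]
    refine Finset.sum_congr rfl fun k _ => ?_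
    rw [map_smul, dif_pos k.2]
  funext j
  have h3 := congrArg (fun g : (Fin d → ℝ) →ₗ[ℝ] ℝ => g (Pi.single j 1)) h2
  simp only [hφ, dotProduct_single, mul_one] at h3
  exact h3.symm

/-- A functional which vanishes on a nonempty slice is a combination of the pinned rows. -/
theorem comb_of_slc {ρ : κ → Fin (n + 1) → ℝ} {N : Fin (n + 1) → ℝ} {R : Finset κ}
    {X : Fin (n + 1) → ℝ} (hX : X ∈ Slc ρ N R) {f : Fin (n + 1) → ℝ}
    (h : ∀ Y ∈ Slc ρ N R, f ⬝ᵥ Y = 0) : ∃ x : κ → ℝ, f = ∑ k ∈ R, x k • ρ k := by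
  apply comb_of_ker
  intro v hv
  by_cases hN : N ⬝ᵥ v = 0
  · have h1 : X + v ∈ Slc ρ N R := by
      refine ⟨by rw [dotProduct_add, hN, add_zero, hX.1], fun k hk => ?_⟩
      rw [dotProduct_add, hX.2 k hk, hv k hk, add_zero]
    have h2 := h _ h1
    rw [dotProduct_add, h X hX, zero_add] at h2
    exact h2
  · have h1 : (N ⬝ᵥ v)⁻¹ • v ∈ Slc ρ N R := by
      refine ⟨by rw [dotProduct_smul, smul_eq_mul, inv_mul_cancel₀ hN], fun k hk => ?_⟩
      rw [dotProduct_smul, hv k hk, smul_zero]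
    have h2 := h _ h1
    rw [dotProduct_smul, smul_eq_mul] at h2
    rcases mul_eq_zero.1 h2 with h3 | h3
    · exact absurd h3 (inv_ne_zero hN)
    · exact h3

/-! ### Certificates -/

/-- Basis certificate: `X` is the vertex of the basis `J ⊇ R`, feasible except for the rows `D`,
and the objective has positive multipliers off `R`. -/
structure CertB (ρ : κ → Fin (n + 1) → ℝ) (N : Fin (n + 1) → ℝ) (R D : Finset κ)
    (Γ : Fin (n + 1) → ℝ) (J : Finset κ) (X : Fin (n + 1) → ℝ) (lam : κ → ℝ) : Prop where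
  sub : R ⊆ J
  card : J.card = n
  dj : Disjoint J D
  li : LinearIndependent ℝ (fun o : Option J => Option.elim o N (fun j => ρ j))
  NX : N ⬝ᵥ X = 1
  tX : ∀ j ∈ J, ρ j ⬝ᵥ X = 0
  pos : ∀ r, r ∉ J → r ∉ D → 0 < ρ r ⬝ᵥ X
  dual : ∃ g : ℝ, Γ = g • N + ∑ j ∈ J, lam j • ρ j
  lpos : ∀ j ∈ J, j ∉ R → 0 < lam j

/-- Slice form of a certificate: only values of functionals on the slice occur. -/
structure CertS [DecidableEq κ] (ρ : κ → Fin (n + 1) → ℝ) (N : Fin (n + 1) → ℝ)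
    (R D : Finset κ) (Γ : Fin (n + 1) → ℝ) (J : Finset κ) (X : Fin (n + 1) → ℝ) (lam : κ → ℝ) :
    Prop where
  sub : R ⊆ J
  card : J.card = n
  dj : Disjoint J D
  mem : X ∈ Slc ρ N R
  tX : ∀ j ∈ J, j ∉ R → ρ j ⬝ᵥ X = 0
  uniq : ∀ Y ∈ Slc ρ N R, (∀ j ∈ J, j ∉ R → ρ j ⬝ᵥ Y = 0) → Y = X
  pos : ∀ r, r ∉ J → r ∉ D → 0 < ρ r ⬝ᵥ X
  dual : ∃ g : ℝ, ∀ Y ∈ Slc ρ N R, Γ ⬝ᵥ Y = g + ∑ j ∈ J \ R, lam j * (ρ j ⬝ᵥ Y)
  lpos : ∀ j ∈ J, j ∉ R → 0 < lam j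

/-- `n + 1` functionals with a common zero only at `0` are independent, and conversely. -/
theorem li_iff_ker (ρ : κ → Fin (n + 1) → ℝ) (N : Fin (n + 1) → ℝ) {J : Finset κ}
    (hJ : J.card = n) :
    LinearIndependent ℝ (fun o : Option J => Option.elim o N (fun j => ρ j)) ↔
      ∀ v : Fin (n + 1) → ℝ, N ⬝ᵥ v = 0 → (∀ j ∈ J, ρ j ⬝ᵥ v = 0) → v = 0 := by
  classical
  let g : Option J → Fin (n + 1) → ℝ := fun o => Option.elim o N (fun j => ρ j)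
  have hcard : Fintype.card (Option J) = n + 1 := by
    rw [Fintype.card_option, Fintype.card_coe, hJ]
  have e : Option J ≃ Fin (n + 1) := Fintype.equivFinOfCardEq hcard
  let A : Matrix (Fin (n + 1)) (Fin (n + 1)) ℝ := Matrix.of fun k => g (e.symm k)
  have h1 : LinearIndependent ℝ g ↔ LinearIndependent ℝ (fun k => g (e.symm k)) :=
    (linearIndependent_equiv e.symm).symm
  have h2 : LinearIndependent ℝ (fun k => g (e.symm k)) ↔ A.det ≠ 0 := by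
    rw [← isUnit_iff_ne_zero, ← Matrix.isUnit_iff_isUnit_det]
    exact Matrix.linearIndependent_rows_iff_isUnit (A := A)
  change LinearIndependent ℝ g ↔ _
  rw [h1, h2]
  constructor
  · intro hdet v hN hv
    have h3 : A.mulVec v = 0 := by
      funext k
      show g (e.symm k) ⬝ᵥ v = 0
      cases hk : e.symm k with
      | none => exact hN
      | some j => exact hv j j.2
    exact Matrix.eq_zero_of_mulVec_eq_zero hdet h3
  · intro hker hdet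
    obtain ⟨v, hv0, hv⟩ := Matrix.exists_mulVec_eq_zero_iff.2 hdet
    apply hv0
    refine hker v ?_ fun j hj => ?_
    · have := congrFun hv (e none)
      have h4 : g (e.symm (e none)) ⬝ᵥ v = 0 := this
      rw [Equiv.symm_apply_apply] at h4
      exact h4
    · have := congrFun hv (e (some ⟨j, hj⟩))
      have h4 : g (e.symm (e (some ⟨j, hj⟩))) ⬝ᵥ v = 0 := this
      rw [Equiv.symm_apply_apply] at h4
      exact h4

/-- From the basis form to the slice form. -/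
theorem CertB.toS [DecidableEq κ] {ρ : κ → Fin (n + 1) → ℝ} {N : Fin (n + 1) → ℝ}
    {R D : Finset κ} {Γ : Fin (n + 1) → ℝ} {J : Finset κ} {X : Fin (n + 1) → ℝ} {lam : κ → ℝ}
    (h : CertB ρ N R D Γ J X lam) : CertS ρ N R D Γ J X lam := by
  refine ⟨h.sub, h.card, h.dj, ⟨h.NX, fun k hk => h.tX k (h.sub hk)⟩, fun j hj _ => h.tX j hj, ?_,
    h.pos, ?_, h.lpos⟩
  · intro Y hY hYJ
    have h1 := (li_iff_ker ρ N h.card).1 h.li (Y - X) (by
      rw [dotProduct_sub, hY.1, h.NX, sub_self]) (by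
      intro j hj
      rw [dotProduct_sub, h.tX j hj, sub_zero]
      by_cases hjR : j ∈ R
      · exact hY.2 j hjR
      · exact hYJ j hj hjR)
    exact sub_eq_zero.1 h1
  · obtain ⟨g, hg⟩ := h.dual
    refine ⟨g, fun Y hY => ?_⟩
    rw [hg, add_dotProduct, smul_dotProduct, hY.1, smul_eq_mul, mul_one, sum_dotProduct]
    congr 1
    rw [← Finset.sum_sdiff h.sub]
    have h2 : ∑ j ∈ R, (lam j • ρ j) ⬝ᵥ Y = 0 := by
      refine Finset.sum_eq_zero fun j hj => ?_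
      rw [smul_dotProduct, hY.2 j hj, smul_zero]
    rw [h2, add_zero]
    refine Finset.sum_congr rfl fun j _ => ?_
    rw [smul_dotProduct, smul_eq_mul]

/-- From the slice form to the basis form; the multipliers off `R` are the same. -/
theorem CertS.toB [DecidableEq κ] {ρ : κ → Fin (n + 1) → ℝ} {N : Fin (n + 1) → ℝ}
    {R D : Finset κ} {Γ : Fin (n + 1) → ℝ} {J : Finset κ} {X : Fin (n + 1) → ℝ} {lam : κ → ℝ}
    (h : CertS ρ N R D Γ J X lam) :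
    ∃ lam' : κ → ℝ, (∀ j, j ∉ R → lam' j = lam j) ∧ CertB ρ N R D Γ J X lam' := by
  obtain ⟨g, hg⟩ := h.dual
  obtain ⟨x, hx⟩ := comb_of_slc h.mem (f := Γ - g • N - ∑ j ∈ J \ R, lam j • ρ j) (by
    intro Y hY
    rw [sub_dotProduct, sub_dotProduct, hg Y hY, smul_dotProduct, hY.1, smul_eq_mul, mul_one,
      sum_dotProduct]
    have h1 : ∑ j ∈ J \ R, (lam j • ρ j) ⬝ᵥ Y = ∑ j ∈ J \ R, lam j * (ρ j ⬝ᵥ Y) :=
      Finset.sum_congr rfl fun j _ => by rw [smul_dotProduct, smul_eq_mul]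
    rw [h1]
    ring)
  refine ⟨fun j => if j ∈ R then x j else lam j, fun j hj => if_neg hj, ?_⟩
  refine ⟨h.sub, h.card, h.dj, ?_, h.mem.1, ?_, h.pos, ⟨g, ?_⟩, ?_⟩
  · rw [li_iff_ker ρ N h.card]
    intro v hN hv
    have h1 := h.uniq (X + v) ⟨by rw [dotProduct_add, hN, add_zero, h.mem.1], fun k hk => by
      rw [dotProduct_add, h.mem.2 k hk, hv k (h.sub hk), add_zero]⟩ (fun j hj hjR => by
      rw [dotProduct_add, h.tX j hj hjR, hv j hj, add_zero])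
    exact add_eq_left.1 h1
  · intro j hj
    by_cases hjR : j ∈ R
    · exact h.mem.2 j hjR
    · exact h.tX j hj hjR
  · rw [← Finset.sum_sdiff h.sub]
    have h1 : ∑ j ∈ J \ R, (if j ∈ R then x j else lam j) • ρ j = ∑ j ∈ J \ R, lam j • ρ j :=
      Finset.sum_congr rfl fun j hj => by rw [if_neg (Finset.mem_sdiff.1 hj).2]
    have h2 : ∑ j ∈ R, (if j ∈ R then x j else lam j) • ρ j = ∑ j ∈ R, x j • ρ j :=
      Finset.sum_congr rfl fun j hj => by rw [if_pos hj]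
    rw [h1, h2, ← hx]
    abel
  · intro j hj hjR
    show 0 < if j ∈ R then x j else lam j
    rw [if_neg hjR]
    exact h.lpos j hj hjR

/-! ### The relation -/

/-- Two data agree on the slice of `R` (the objectives up to a constant). -/
structure SEq (R : Finset κ) (ρ ρ' : κ → Fin (n + 1) → ℝ) (N N' : Fin (n + 1) → ℝ) : Prop where
  slc : Slc ρ N R = Slc ρ' N' R
  row : ∀ r, ∀ Y ∈ Slc ρ N R, ρ' r ⬝ᵥ Y = ρ r ⬝ᵥ Y

/-- Two objectives agree on the slice of `R` up to a constant. -/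
def OEq (R : Finset κ) (ρ : κ → Fin (n + 1) → ℝ) (N Γ Γ' : Fin (n + 1) → ℝ) : Prop :=
  ∃ c : ℝ, ∀ Y ∈ Slc ρ N R, Γ' ⬝ᵥ Y = Γ ⬝ᵥ Y + c

theorem SEq.refl (R : Finset κ) (ρ : κ → Fin (n + 1) → ℝ) (N : Fin (n + 1) → ℝ) :
    SEq R ρ ρ N N := ⟨rfl, fun _ _ _ => rfl⟩

theorem SEq.symm {R : Finset κ} {ρ ρ' : κ → Fin (n + 1) → ℝ} {N N' : Fin (n + 1) → ℝ}
    (h : SEq R ρ ρ' N N') : SEq R ρ' ρ N' N :=
  ⟨h.slc.symm, fun r Y hY => (h.row r Y (h.slc ▸ hY)).symm⟩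

theorem SEq.trans {R : Finset κ} {ρ ρ' ρ'' : κ → Fin (n + 1) → ℝ} {N N' N'' : Fin (n + 1) → ℝ}
    (h : SEq R ρ ρ' N N') (h' : SEq R ρ' ρ'' N' N'') : SEq R ρ ρ'' N N'' :=
  ⟨h.slc.trans h'.slc, fun r Y hY => (h'.row r Y (h.slc ▸ hY)).trans (h.row r Y hY)⟩

theorem SEq.mono {R R' : Finset κ} {ρ ρ' : κ → Fin (n + 1) → ℝ} {N N' : Fin (n + 1) → ℝ}
    (h : SEq R ρ ρ' N N') (hR : R ⊆ R') : SEq R' ρ ρ' N N' := by
  have hrow : ∀ r, ∀ Y ∈ Slc ρ N R', ρ' r ⬝ᵥ Y = ρ r ⬝ᵥ Y :=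
    fun r Y hY => h.row r Y (Slc_anti hR hY)
  refine ⟨?_, hrow⟩
  ext Y
  constructor
  · intro hY
    have h1 : Y ∈ Slc ρ' N' R := h.slc ▸ Slc_anti hR hY
    exact ⟨h1.1, fun k hk => by rw [hrow k Y hY]; exact hY.2 k hk⟩
  · intro hY
    have h1 : Y ∈ Slc ρ N R := by rw [h.slc]; exact Slc_anti hR hY
    exact ⟨h1.1, fun k hk => by rw [← h.row k Y h1]; exact hY.2 k hk⟩

theorem OEq.refl (R : Finset κ) (ρ : κ → Fin (n + 1) → ℝ) (N Γ : Fin (n + 1) → ℝ) :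
    OEq R ρ N Γ Γ := ⟨0, fun _ _ => (add_zero _).symm⟩

theorem OEq.mono {R R' : Finset κ} {ρ : κ → Fin (n + 1) → ℝ} {N Γ Γ' : Fin (n + 1) → ℝ}
    (h : OEq R ρ N Γ Γ') (hR : R ⊆ R') : OEq R' ρ N Γ Γ' := by
  obtain ⟨c, hc⟩ := h
  exact ⟨c, fun Y hY => hc Y (Slc_anti hR hY)⟩

theorem OEq.symm {R : Finset κ} {ρ : κ → Fin (n + 1) → ℝ} {N Γ Γ' : Fin (n + 1) → ℝ}
    (h : OEq R ρ N Γ Γ') : OEq R ρ N Γ' Γ := by
  obtain ⟨c, hc⟩ := h
  exact ⟨-c, fun Y hY => by rw [hc Y hY]; ring⟩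

theorem OEq.congr {R : Finset κ} {ρ ρ' : κ → Fin (n + 1) → ℝ} {N N' Γ Γ' : Fin (n + 1) → ℝ}
    (h : OEq R ρ N Γ Γ') (hS : Slc ρ N R = Slc ρ' N' R) : OEq R ρ' N' Γ Γ' := by
  obtain ⟨c, hc⟩ := h
  exact ⟨c, fun Y hY => hc Y (hS ▸ hY)⟩

theorem OEq.trans {R : Finset κ} {ρ : κ → Fin (n + 1) → ℝ} {N Γ Γ' Γ'' : Fin (n + 1) → ℝ}
    (h : OEq R ρ N Γ Γ') (h' : OEq R ρ N Γ' Γ'') : OEq R ρ N Γ Γ'' := by
  obtain ⟨c, hc⟩ := h
  obtain ⟨c', hc'⟩ := h'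
  exact ⟨c + c', fun Y hY => by rw [hc' Y hY, hc Y hY]; ring⟩

/-- Certificates in slice form only depend on the class. -/
theorem CertS.congr [DecidableEq κ] {ρ ρ' : κ → Fin (n + 1) → ℝ} {N N' : Fin (n + 1) → ℝ}
    {R D : Finset κ} {Γ Γ' : Fin (n + 1) → ℝ} {J : Finset κ} {X : Fin (n + 1) → ℝ} {lam : κ → ℝ}
    (hE : SEq R ρ ρ' N N') (hO : OEq R ρ N Γ Γ') (h : CertS ρ N R D Γ J X lam) :
    CertS ρ' N' R D Γ' J X lam := by
  have hX := h.mem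
  refine ⟨h.sub, h.card, h.dj, hE.slc ▸ hX, fun j hj hjR => ?_, ?_, fun r hr hrD => ?_, ?_,
    h.lpos⟩
  · rw [hE.row j X hX]; exact h.tX j hj hjR
  · intro Y hY hYJ
    have hY' : Y ∈ Slc ρ N R := by rw [hE.slc]; exact hY
    exact h.uniq Y hY' fun j hj hjR => by rw [← hE.row j Y hY']; exact hYJ j hj hjR
  · rw [hE.row r X hX]; exact h.pos r hr hrD
  · obtain ⟨g, hg⟩ := h.dual
    obtain ⟨c, hc⟩ := hO
    refine ⟨g + c, fun Y hY => ?_⟩
    have hY' : Y ∈ Slc ρ N R := by rw [hE.slc]; exact hY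
    rw [hc Y hY', hg Y hY']
    have h1 : ∑ j ∈ J \ R, lam j * (ρ' j ⬝ᵥ Y) = ∑ j ∈ J \ R, lam j * (ρ j ⬝ᵥ Y) :=
      Finset.sum_congr rfl fun j _ => by rw [hE.row j Y hY']
    rw [h1]
    ring

/-- **Certificates in basis form only depend on the class** (same basis, same point, same
multipliers off the pinned rows). -/
theorem CertB.congr [DecidableEq κ] {ρ ρ' : κ → Fin (n + 1) → ℝ} {N N' : Fin (n + 1) → ℝ}
    {R D : Finset κ} {Γ Γ' : Fin (n + 1) → ℝ} {J : Finset κ} {X : Fin (n + 1) → ℝ} {lam : κ → ℝ}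
    (hE : SEq R ρ ρ' N N') (hO : OEq R ρ N Γ Γ') (h : CertB ρ N R D Γ J X lam) :
    ∃ lam' : κ → ℝ, (∀ j, j ∉ R → lam' j = lam j) ∧ CertB ρ' N' R D Γ' J X lam' :=
  (h.toS.congr hE hO).toB

theorem CertB.mem {ρ : κ → Fin (n + 1) → ℝ} {N : Fin (n + 1) → ℝ}
    {R D : Finset κ} {Γ : Fin (n + 1) → ℝ} {J : Finset κ} {X : Fin (n + 1) → ℝ} {lam : κ → ℝ}
    (h : CertB ρ N R D Γ J X lam) : X ∈ Slc ρ N R :=
  ⟨h.NX, fun k hk => h.tX k (h.sub hk)⟩

/-! ### Representability -/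

/-- Slice form of representability. -/
theorem RepN_iff_slc [DecidableEq κ] {ρ : κ → Fin (n + 1) → ℝ} {N : Fin (n + 1) → ℝ} {c : ℝ}
    {S R : Finset κ} (hRS : R ⊆ S) (hne : (Slc ρ N R).Nonempty) (v : Fin (n + 1) → ℝ) :
    RepN ρ N c S R v ↔ ∃ (x : κ → ℝ) (y : ℝ), (∀ j ∈ S, j ∉ R → |x j| ≤ c) ∧
      ∀ Y ∈ Slc ρ N R, v ⬝ᵥ Y = y + ∑ j ∈ S \ R, x j * (ρ j ⬝ᵥ Y) := by
  obtain ⟨X, hX⟩ := hne
  constructor
  · rintro ⟨x, y, hx, hv⟩
    refine ⟨x, y, hx, fun Y hY => ?_⟩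
    rw [hv, add_dotProduct, smul_dotProduct, hY.1, smul_eq_mul, mul_one, sum_dotProduct]
    congr 1
    rw [← Finset.sum_sdiff hRS]
    have h2 : ∑ j ∈ R, (x j • ρ j) ⬝ᵥ Y = 0 := by
      refine Finset.sum_eq_zero fun j hj => ?_
      rw [smul_dotProduct, hY.2 j hj, smul_zero]
    rw [h2, add_zero]
    refine Finset.sum_congr rfl fun j _ => ?_
    rw [smul_dotProduct, smul_eq_mul]
  · rintro ⟨x, y, hx, hv⟩
    obtain ⟨z, hz⟩ := comb_of_slc hX (f := v - y • N - ∑ j ∈ S \ R, x j • ρ j) (by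
      intro Y hY
      rw [sub_dotProduct, sub_dotProduct, hv Y hY, smul_dotProduct, hY.1, smul_eq_mul, mul_one,
        sum_dotProduct]
      have h1 : ∑ j ∈ S \ R, (x j • ρ j) ⬝ᵥ Y = ∑ j ∈ S \ R, x j * (ρ j ⬝ᵥ Y) :=
        Finset.sum_congr rfl fun j _ => by rw [smul_dotProduct, smul_eq_mul]
      rw [h1]
      ring)
    refine ⟨fun j => if j ∈ R then z j else x j, y, fun j hj hjR => ?_, ?_⟩
    · show |if j ∈ R then z j else x j| ≤ c
      rw [if_neg hjR]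
      exact hx j hj hjR
    · rw [← Finset.sum_sdiff hRS]
      have h1 : ∑ j ∈ S \ R, (if j ∈ R then z j else x j) • ρ j = ∑ j ∈ S \ R, x j • ρ j :=
        Finset.sum_congr rfl fun j hj => by rw [if_neg (Finset.mem_sdiff.1 hj).2]
      have h2 : ∑ j ∈ R, (if j ∈ R then z j else x j) • ρ j = ∑ j ∈ R, z j • ρ j :=
        Finset.sum_congr rfl fun j hj => by rw [if_pos hj]
      rw [h1, h2, ← hz]
      abel

/-- **Representability only depends on the class.** -/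
theorem RepN.congr [DecidableEq κ] {ρ ρ' : κ → Fin (n + 1) → ℝ} {N N' : Fin (n + 1) → ℝ} {c : ℝ}
    {S R : Finset κ} (hRS : R ⊆ S) (hne : (Slc ρ N R).Nonempty) (hE : SEq R ρ ρ' N N')
    {v v' : Fin (n + 1) → ℝ} (hv : ∀ Y ∈ Slc ρ N R, v' ⬝ᵥ Y = v ⬝ᵥ Y)
    (h : RepN ρ N c S R v) : RepN ρ' N' c S R v' := by
  have hne' : (Slc ρ' N' R).Nonempty := hE.slc ▸ hne
  rw [RepN_iff_slc hRS hne] at h
  rw [RepN_iff_slc hRS hne']
  obtain ⟨x, y, hx, hxy⟩ := h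
  refine ⟨x, y, hx, fun Y hY => ?_⟩
  have hY' : Y ∈ Slc ρ N R := by rw [hE.slc]; exact hY
  rw [hv Y hY', hxy Y hY']
  congr 1
  exact Finset.sum_congr rfl fun j _ => by rw [hE.row j Y hY']

/-! ### Generators of the relation -/

/-- Multiples of a pinned row may be added to all rows (not to itself) and to the chart row. -/
theorem SEq.shear {R : Finset κ} {ρ ρ' : κ → Fin (n + 1) → ℝ} {N N' : Fin (n + 1) → ℝ} {i : κ}
    (hi : i ∈ R) (t : κ → ℝ) (hρ : ∀ r, ρ' r = ρ r + t r • ρ i) (hti : t i = 0) (s : ℝ)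
    (hN : N' = N + s • ρ i) : SEq R ρ ρ' N N' := by
  have hi' : ρ' i = ρ i := by rw [hρ, hti, zero_smul, add_zero]
  have key : ∀ Y, Y ∈ Slc ρ N R ↔ Y ∈ Slc ρ' N' R := by
    intro Y
    constructor
    · intro hY
      refine ⟨?_, fun k hk => ?_⟩
      · rw [hN, add_dotProduct, smul_dotProduct, hY.2 i hi, smul_zero, add_zero]
        exact hY.1
      · rw [hρ, add_dotProduct, smul_dotProduct, hY.2 i hi, smul_zero, add_zero]
        exact hY.2 k hk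
    · intro hY
      have h0 : ρ i ⬝ᵥ Y = 0 := by rw [← hi']; exact hY.2 i hi
      refine ⟨?_, fun k hk => ?_⟩
      · have := hY.1
        rwa [hN, add_dotProduct, smul_dotProduct, h0, smul_zero, add_zero] at this
      · have := hY.2 k hk
        rwa [hρ, add_dotProduct, smul_dotProduct, h0, smul_zero, add_zero] at this
  refine ⟨Set.ext key, fun r Y hY => ?_⟩
  rw [hρ, add_dotProduct, smul_dotProduct, hY.2 i hi, smul_zero, add_zero]

/-- An objective may be changed by pinned rows and by the chart row. -/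
theorem OEq.of_add {R : Finset κ} {ρ : κ → Fin (n + 1) → ℝ} {N Γ Γ' : Fin (n + 1) → ℝ}
    (x : κ → ℝ) (c : ℝ) (h : Γ' = Γ + (∑ k ∈ R, x k • ρ k) + c • N) : OEq R ρ N Γ Γ' := by
  refine ⟨c, fun Y hY => ?_⟩
  rw [h, add_dotProduct, add_dotProduct, smul_dotProduct, hY.1, smul_eq_mul, mul_one,
    sum_dotProduct]
  have h1 : ∑ k ∈ R, (x k • ρ k) ⬝ᵥ Y = 0 :=
    Finset.sum_eq_zero fun k hk => by rw [smul_dotProduct, hY.2 k hk, smul_zero]
  rw [h1, add_zero]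

/-- An objective may be changed by one pinned row and by the chart row. -/
theorem OEq.of_add_one {R : Finset κ} {ρ : κ → Fin (n + 1) → ℝ} {N Γ Γ' : Fin (n + 1) → ℝ}
    {i : κ} (hi : i ∈ R) (x c : ℝ) (h : Γ' = Γ + x • ρ i + c • N) : OEq R ρ N Γ Γ' := by
  refine ⟨c, fun Y hY => ?_⟩
  rw [h, add_dotProduct, add_dotProduct, smul_dotProduct, smul_dotProduct, hY.1, hY.2 i hi,
    smul_zero, add_zero, smul_eq_mul, mul_one]

/-- Linear combinations of objectives. -/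
theorem OEq.comb {R : Finset κ} {ρ : κ → Fin (n + 1) → ℝ} {N Γ₁ Γ₁' Γ₂ Γ₂' : Fin (n + 1) → ℝ}
    (h₁ : OEq R ρ N Γ₁ Γ₁') (h₂ : OEq R ρ N Γ₂ Γ₂') (a b : ℝ) :
    OEq R ρ N (a • Γ₁ + b • Γ₂) (a • Γ₁' + b • Γ₂') := by
  obtain ⟨c₁, h₁⟩ := h₁
  obtain ⟨c₂, h₂⟩ := h₂
  refine ⟨a * c₁ + b * c₂, fun Y hY => ?_⟩
  simp only [add_dotProduct, smul_dotProduct, smul_eq_mul, h₁ Y hY, h₂ Y hY]
  ring

/-- An objective which is a combination of rows with the same coefficients. -/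
theorem OEq.of_rows {R : Finset κ} {ρ ρ' : κ → Fin (n + 1) → ℝ} {N N' : Fin (n + 1) → ℝ}
    (hE : SEq R ρ ρ' N N') (S : Finset κ) (x : κ → ℝ) :
    OEq R ρ N (∑ r ∈ S, x r • ρ r) (∑ r ∈ S, x r • ρ' r) := by
  refine ⟨0, fun Y hY => ?_⟩
  rw [sum_dotProduct, sum_dotProduct, add_zero]
  exact Finset.sum_congr rfl fun r _ => by rw [smul_dotProduct, smul_dotProduct, hE.row r Y hY]

end Pool.Agent.Lib.S3
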