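import Pool.Agent.Lib.S3.PL.RepB
import Pool.Agent.Lib.S3.PL.Mach

/-! The wall budget along a run of the pair machine. -/

set_option autoImplicit false

open Matrix

namespace Pool.Agent.Lib.S3.PL

variable {m n : ℕ}

/-- The budget of walls: in the state `S` at most `w` more walls can be boosted on the two sides
together. `K` bounds the number of walls of one side. -/
def Bud (C : Cf m) (S : St m n) (ω : Om m n) (c : ℝ) (K w : ℕ) : Prop :=
  ∃ ws : Bool → ℕ, ws false + ws true + w = 2 * K ∧
    ∀ s, c ^ ws s * MD (rho ω) (Nf ω) (up (C.I s)) ≤ MD (rho ω) (Nf ω) (avl C S s)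

/-- The good event for the budget: sizes and determinants of the two bases. -/
structure GoodDet (C : Cf m) (ω : Om m n) (M : ℝ) (cs C0 : ℕ) : Prop where
  M2 : 2 ≤ M
  nM : (n : ℝ) + 1 ≤ M
  rho : ∀ r j, |rho ω r j| ≤ M ^ cs
  N : ∀ j, |Nf ω j| ≤ M ^ cs
  det : ∀ s, ∃ J : Fin n → Row m, (∀ k, J k ∈ up (C.I s)) ∧
    (M ^ (C0 * n))⁻¹ ≤ |(amat (Nf ω) (PL.rho ω) J).det|

/-- The budget at the start. -/
theorem bud_st0 (P : Par) (C : Cf m) (ω : Om m n) (c : ℝ) (K : ℕ) :
    Bud C (st0 P C : St m n) ω c K (2 * K) := by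
  refine ⟨fun _ => 0, by simp, fun s => ?_⟩
  rw [pow_zero, one_mul]
  apply MD_mono
  intro r hr
  exact mem_avl.2 (Or.inl hr)

/-- One step. -/
theorem bud_step (P : Par) (C : Cf m) (S : St m n) (ω : Om m n) (M : ℝ) (cs C0 cw K w : ℕ)
    (hg : GoodDet C ω M cs C0) (hK : (cs + 1) * (n + 1) + C0 * n < cw * (K + 1))
    (hb : Bud C S ω (M ^ cw) K w) (mv : Mv m P)
    (hmv : ∀ s i k W, mv = .cw s i k W → IsWalls C S s ω (M ^ cw) W) :
    wt mv ≤ w ∧ Bud C (nxt P S mv) ω (M ^ cw) K (w - wt mv) := by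
  classical
  have hM0 : 0 < M := by linarith [hg.M2]
  obtain ⟨ws, hws, hMD⟩ := hb
  -- the number of walls of a side at most `K`
  have hle : ∀ s k, (M ^ cw) ^ k * MD (rho ω) (Nf ω) (up (C.I s)) ≤
      MD (rho ω) (Nf ω) (avl C (nxt P S mv) s) → k ≤ K := by
    intro s k hk
    obtain ⟨J, hJ, hdet⟩ := hg.det s
    have h1 := wall_budget (rho ω) (Nf ω) (up (C.I s)) (avl C (nxt P S mv) s) M cs C0 cw k hg.M2
      hg.nM (fun r _ => hg.rho r) hg.N J hJ hdet hk
    by_contra hlt
    push Not at hlt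
    have h2 : cw * (K + 1) ≤ cw * k := Nat.mul_le_mul_left _ hlt
    omega
  by_cases hcw : ∃ s i k W, mv = .cw s i k W
  · obtain ⟨s, i, k, W, rfl⟩ := hcw
    have hW := hmv s i k W rfl
    have h1 := MD_walls P C S s ω (M ^ cw) (by positivity) W hW i k
    have h2 : (M ^ cw) ^ (ws s + W.card) * MD (rho ω) (Nf ω) (up (C.I s)) ≤
        MD (rho ω) (Nf ω) (avl C (nxt P S (.cw s i k W)) s) := by
      calc (M ^ cw) ^ (ws s + W.card) * MD (rho ω) (Nf ω) (up (C.I s))
          = (M ^ cw) ^ W.card * ((M ^ cw) ^ ws s * MD (rho ω) (Nf ω) (up (C.I s))) := by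
            rw [pow_add]; ring
        _ ≤ (M ^ cw) ^ W.card * MD (rho ω) (Nf ω) (avl C S s) :=
            mul_le_mul_of_nonneg_left (hMD s) (by positivity)
        _ ≤ _ := h1
    have h3 := hle s (ws s + W.card) h2
    have h4 : ∀ s', ws s' ≤ K := by
      intro s'
      apply hle s'
      exact le_trans (hMD s') (MD_nxt P C S s' ω _)
    have hwt : wt (.cw s i k W : Mv m P) = W.card := rfl
    have h5 : W.card ≤ w := by
      have h6 := h4 (!s)
      cases s with
      | false =>
        simp only [Bool.not_false] at h6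
        omega
      | true =>
        simp only [Bool.not_true] at h6
        omega
    refine ⟨by rw [hwt]; exact h5, fun s' => if s' = s then ws s' + W.card else ws s', ?_, ?_⟩
    · rw [hwt]
      cases s with
      | false => simp; omega
      | true => simp; omega
    · intro s'
      by_cases hs : s' = s
      · subst hs
        simp only [if_true]
        exact h2
      · simp only [if_neg hs]
        exact le_trans (hMD s') (MD_nxt P C S s' ω _)
  · have hwt : wt mv = 0 := by
      cases mv with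
      | hv s i p D => rfl
      | lf s i k e T => rfl
      | cb s i k T => rfl
      | cw s i k W => exact absurd ⟨s, i, k, W, rfl⟩ hcw
    rw [hwt]
    refine ⟨Nat.zero_le _, ws, ?_, ?_⟩
    · omega
    · intro s'
      exact le_trans (hMD s') (MD_nxt P C S s' ω mv)

end Pool.Agent.Lib.S3.PL
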